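import Pool.Agent.SDC.Targets2

/-!
# SDC, part B: orthonormal coordinates (CRD)
-/

set_option autoImplicit false

open MeasureTheory Set Real
open scoped RealInnerProductSpace

namespace Pool.Agent.SDC

/-- The orthonormal basis. -/
theorem CRD_basis (n e f : E3) (h : Onb n e f) :
    ∃ b : OrthonormalBasis (Fin 3) ℝ E3, b 0 = n ∧ b 1 = e ∧ b 2 = f := by
  have ho : Orthonormal ℝ ![n, e, f] := by
    constructor
    · intro i
      fin_cases i
      · exact h.nn
      · exact h.ee
      · exact h.ff
    · intro i j hij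
      fin_cases i <;> fin_cases j
      · exact absurd rfl hij
      · exact h.ne
      · exact h.nf
      · show ⟪e, n⟫ = 0
        rw [real_inner_comm]
        exact h.ne
      · exact absurd rfl hij
      · exact h.ef
      · show ⟪f, n⟫ = 0
        rw [real_inner_comm]
        exact h.nf
      · show ⟪f, e⟫ = 0
        rw [real_inner_comm]
        exact h.ef
      · exact absurd rfl hij
  have hc : Fintype.card (Fin 3) = Module.finrank ℝ E3 := by
    simp
  have hsp : ⊤ ≤ Submodule.span ℝ (Set.range ![n, e, f]) := by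
    have h1 := (basisOfOrthonormalOfCardEqFinrank ho hc).span_eq
    rw [coe_basisOfOrthonormalOfCardEqFinrank] at h1
    exact h1.ge
  refine ⟨OrthonormalBasis.mk ho hsp, ?_, ?_, ?_⟩
  · rw [OrthonormalBasis.coe_mk]
    rfl
  · rw [OrthonormalBasis.coe_mk]
    rfl
  · rw [OrthonormalBasis.coe_mk]
    rfl

theorem p_CRD : T_CRD := by
  intro n e f h
  obtain ⟨b, hn, he, hf⟩ := CRD_basis n e f h
  have hrep : ∀ (x : E3) (i : Fin 3), b.repr x i = ⟪b i, x⟫ := fun x i => b.repr_apply_apply x i
  refine ⟨?_, fun x => ⟨?_, ?_⟩⟩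
  · have h1 := b.measurePreserving_repr
    have h2 := PiLp.volume_preserving_ofLp (Fin 3)
    have h3 := volume_preserving_piFinSuccAbove (fun _ : Fin 3 => ℝ) 0
    have h4 := (MeasurePreserving.id (volume : Measure ℝ)).prod (volume_preserving_finTwoArrow ℝ)
    have h5 := h4.comp (h3.comp (h2.comp h1))
    have h6 : (fun x : E3 => (⟪n, x⟫, (⟪e, x⟫, ⟪f, x⟫))) =
        (Prod.map id (MeasurableEquiv.finTwoArrow (α := ℝ))) ∘
          ((MeasurableEquiv.piFinSuccAbove (fun _ : Fin 3 => ℝ) 0) ∘
            ((WithLp.ofLp) ∘ b.repr)) := by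
      funext x
      have r0 := hrep x 0
      have r1 := hrep x 1
      have r2 := hrep x 2
      rw [hn] at r0
      rw [he] at r1
      rw [hf] at r2
      rw [← r0, ← r1, ← r2]
      rfl
    rw [h6]
    exact h5
  · have h1 := b.sum_sq_norm_inner_right x
    rw [Fin.sum_univ_three, hn, he, hf] at h1
    simp only [Real.norm_eq_abs, sq_abs] at h1
    exact h1.symm
  · have h1 := b.sum_repr' x
    rw [Fin.sum_univ_three, hn, he, hf] at h1
    exact h1.symm

end Pool.Agent.SDC
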