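import Pool.Agent.SDC.Targets2
import Pool.Agent.SDC.P_CRD

set_option autoImplicit false

/-!
# SDC, target FCT: one facet in space
-/

open MeasureTheory Set Real
open scoped RealInnerProductSpace

namespace Pool.Agent.SDC

/-- Polar form of a vector of the plane. -/
theorem FCT_polar (x y : ℝ) (h : ¬ (x = 0 ∧ y = 0)) :
    ∃ L θ : ℝ, 0 < L ∧ x = L * cos θ ∧ y = L * sin θ := by
  refine ⟨‖(⟨x, y⟩ : ℂ)‖, Complex.arg ⟨x, y⟩, ?_, ?_, ?_⟩
  · rw [norm_pos_iff]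
    intro h0
    have h1 := congrArg Complex.re h0
    have h2 := congrArg Complex.im h0
    exact h ⟨h1, h2⟩
  · exact (Complex.norm_mul_cos_arg ⟨x, y⟩).symm
  · exact (Complex.norm_mul_sin_arg ⟨x, y⟩).symm

/-- The inner product with a point of the plane of the facet. -/
theorem FCT_inner (m n0 e f : E3) (c x y : ℝ) :
    ⟪m, c • (n0 + x • e + y • f)⟫ = c * (⟪m, n0⟫ + x * ⟪m, e⟫ + y * ⟪m, f⟫) := by
  rw [inner_smul_right, inner_add_right, inner_add_right, inner_smul_right, inner_smul_right]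

/-- The inner product with a direction of the plane of the facet. -/
theorem FCT_inner' (m e f : E3) (x y : ℝ) :
    ⟪m, x • e + y • f⟫ = x * ⟪m, e⟫ + y * ⟪m, f⟫ := by
  rw [inner_add_right, inner_smul_right, inner_smul_right]

/-- A unit vector orthogonal to `e` and `f` is `n` or `- n`. -/
theorem FCT_pm {n0 e f m : E3} (ho : Onb n0 e f) (hm : ‖m‖ = 1) (h1 : ⟪m, e⟫ = 0)
    (h2 : ⟪m, f⟫ = 0) : m = n0 ∨ m = - n0 := by
  obtain ⟨hs, hd⟩ := (p_CRD n0 e f ho).2 m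
  rw [real_inner_comm] at h1 h2
  rw [h1, h2, hm] at hs
  rw [h1, h2, zero_smul, zero_smul, add_zero, add_zero] at hd
  have h3 : (⟪n0, m⟫ - 1) * (⟪n0, m⟫ + 1) = 0 := by linear_combination -hs
  rcases mul_eq_zero.1 h3 with h4 | h4
  · left
    have h5 : ⟪n0, m⟫ = 1 := by linarith
    rw [h5, one_smul] at hd
    exact hd
  · right
    have h5 : ⟪n0, m⟫ = -1 := by linarith
    rw [h5, neg_one_smul] at hd
    exact hd

/-- The normals of an irredundant family are different. -/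
theorem FCT_inj {ι : Type} {n : ι → E3} {h : ι → ℝ} (hI : Irr n h) {i j : ι} (hne : j ≠ i) :
    n j ≠ n i := by
  intro hij
  obtain ⟨x, hx, hx'⟩ := hI i
  obtain ⟨y, hy, hy'⟩ := hI j
  have h1 := hx' j hne
  have h2 := hy' i (Ne.symm hne)
  rw [hij] at h1 hy
  linarith

theorem p_FCT (hFAC : T_FAC) (hTHR : T_THR) : T_FCT := by
  classical
  intro ι _ n h i e f ρ α τ g hn hh hI hO hg hs hρ hα hI1 hρ' hτ
  have hii : ⟪n i, n i⟫ = 1 := by
    rw [real_inner_self_eq_norm_sq, hn i]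
    norm_num
  have hhi := hh i
  -- the value of the constraint
  have hVi : ∀ x y : ℝ, h i * (⟪n i, n i⟫ + x * ⟪n i, e⟫ + y * ⟪n i, f⟫) = h i := by
    intro x y
    rw [hii, hO.ne, hO.nf]
    ring
  have hVo : ∀ k, n k = - n i → ∀ x y : ℝ,
      h i * (⟪n k, n i⟫ + x * ⟪n k, e⟫ + y * ⟪n k, f⟫) < h k := by
    intro k hk x y
    rw [hk, inner_neg_left, inner_neg_left, inner_neg_left, hii, hO.ne, hO.nf]
    linarith [hh k]
  let J : Type := {j : ι // j ≠ i ∧ n j ≠ - n i}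
  have hpol : ∀ j : J, ∃ L θ : ℝ, 0 < L ∧ ⟪n j.1, e⟫ = L * cos θ ∧ ⟪n j.1, f⟫ = L * sin θ := by
    intro j
    refine FCT_polar _ _ ?_
    rintro ⟨h1, h2⟩
    rcases FCT_pm hO (hn j.1) h1 h2 with h3 | h3
    · exact FCT_inj hI j.2.1 h3
    · exact j.2.2 h3
  choose L θ hL hc hsn using hpol
  let a : J → ℝ := fun j => (h j.1 / h i - ⟪n j.1, n i⟫) / L j
  have hkey : ∀ (j : J) (w : ℝ × ℝ),
      h j.1 - h i * (⟪n j.1, n i⟫ + w.1 * ⟪n j.1, e⟫ + w.2 * ⟪n j.1, f⟫) =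
        (h i * L j) * (a j - (w.1 * cos (θ j) + w.2 * sin (θ j))) := by
    intro j w
    have h1 : L j ≠ 0 := (hL j).ne'
    have h2 : h i ≠ 0 := hhi.ne'
    rw [hc j, hsn j]
    show _ = (h i * L j) * ((h j.1 / h i - ⟪n j.1, n i⟫) / L j -
      (w.1 * cos (θ j) + w.2 * sin (θ j)))
    field_simp
    ring
  have hpos : ∀ j : J, 0 < h i * L j := fun j => mul_pos hhi (hL j)
  have hle : ∀ (j : J) (w : ℝ × ℝ), (w.1 * cos (θ j) + w.2 * sin (θ j) ≤ a j ↔
      h i * (⟪n j.1, n i⟫ + w.1 * ⟪n j.1, e⟫ + w.2 * ⟪n j.1, f⟫) ≤ h j.1) := by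
    intro j w
    rw [← sub_nonneg, ← sub_nonneg (b := h i * _), hkey j w]
    exact (mul_nonneg_iff_of_pos_left (hpos j)).symm
  have hlt : ∀ (j : J) (w : ℝ × ℝ), (w.1 * cos (θ j) + w.2 * sin (θ j) < a j ↔
      h i * (⟪n j.1, n i⟫ + w.1 * ⟪n j.1, e⟫ + w.2 * ⟪n j.1, f⟫) < h j.1) := by
    intro j w
    rw [← sub_pos, ← sub_pos (b := h i * _), hkey j w]
    exact (mul_pos_iff_of_pos_left (hpos j)).symm
  have heq : ∀ (j : J) (w : ℝ × ℝ), (w.1 * cos (θ j) + w.2 * sin (θ j) = a j ↔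
      h i * (⟪n j.1, n i⟫ + w.1 * ⟪n j.1, e⟫ + w.2 * ⟪n j.1, f⟫) = h j.1) := by
    intro j w
    rw [eq_comm, ← sub_eq_zero, eq_comm (b := h j.1), ← sub_eq_zero (b := h i * _), hkey j w,
      mul_eq_zero]
    constructor
    · intro h1
      exact Or.inr h1
    · intro h1
      rcases h1 with h1 | h1
      · exact absurd h1 (hpos j).ne'
      · exact h1
  -- the region
  have hset : {w : ℝ × ℝ | w ∈ Qs n h i e f ∧ nr w < ρ} =
      {w : ℝ × ℝ | (∀ l : J, w.1 * cos (θ l) + w.2 * sin (θ l) ≤ a l) ∧ nr w < ρ} := by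
    ext w
    simp only [mem_ofPred_eq, Qs]
    refine and_congr_left fun _ => ⟨?_, ?_⟩
    · intro h1 l
      exact (hle l w).2 (h1 l.1)
    · intro h1 j
      by_cases hji : j = i
      · rw [hji, hVi]
      · by_cases hjo : n j = - n i
        · exact (hVo j hjo _ _).le
        · exact (hle ⟨j, hji, hjo⟩ w).1 (h1 ⟨j, hji, hjo⟩)
  -- two constraints meet in at most one point
  have huniq : ∀ j k : J, j ≠ k → ∀ w w' : ℝ × ℝ,
      (∀ l, w.1 * cos (θ l) + w.2 * sin (θ l) ≤ a l) →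
      (∀ l, w'.1 * cos (θ l) + w'.2 * sin (θ l) ≤ a l) →
      w.1 * cos (θ j) + w.2 * sin (θ j) = a j → w.1 * cos (θ k) + w.2 * sin (θ k) = a k →
      w'.1 * cos (θ j) + w'.2 * sin (θ j) = a j →
      w'.1 * cos (θ k) + w'.2 * sin (θ k) = a k → w = w' := by
    intro j k hjk w w' _ _ e1 e2 e3 e4
    rw [heq] at e1 e2 e3 e4
    have hjk' : j.1 ≠ k.1 := fun h1 => hjk (Subtype.ext h1)
    have hdir : ∀ l : J, h i * (⟪n l.1, n i⟫ + w.1 * ⟪n l.1, e⟫ + w.2 * ⟪n l.1, f⟫) = h l.1 →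
        h i * (⟪n l.1, n i⟫ + w'.1 * ⟪n l.1, e⟫ + w'.2 * ⟪n l.1, f⟫) = h l.1 →
        ⟪n l.1, (w.1 - w'.1) • e + (w.2 - w'.2) • f⟫ = 0 := by
      intro l h1 h2
      rw [FCT_inner']
      have h3 : h i * ((w.1 - w'.1) * ⟪n l.1, e⟫ + (w.2 - w'.2) * ⟪n l.1, f⟫) = 0 := by
        linear_combination h1 - h2
      rcases mul_eq_zero.1 h3 with h4 | h4
      · exact absurd h4 hhi.ne'
      · exact h4
    have hu := hTHR ι n h hI i j.1 k.1 (Ne.symm j.2.1) (Ne.symm k.2.1) hjk'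
      (h i • (n i + w.1 • e + w.2 • f)) ((w.1 - w'.1) • e + (w.2 - w'.2) • f)
      (by rw [FCT_inner, hVi]) (by rw [FCT_inner, e1]) (by rw [FCT_inner, e2])
      (by rw [FCT_inner', hO.ne, hO.nf]; ring) (hdir j e1 e3) (hdir k e2 e4)
    have hee : ⟪e, e⟫ = 1 := by
      rw [real_inner_self_eq_norm_sq, hO.ee]
      norm_num
    have hff : ⟪f, f⟫ = 1 := by
      rw [real_inner_self_eq_norm_sq, hO.ff]
      norm_num
    have hfe : ⟪f, e⟫ = 0 := by
      rw [real_inner_comm]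
      exact hO.ef
    have h5 : ⟪e, (w.1 - w'.1) • e + (w.2 - w'.2) • f⟫ = 0 := by
      rw [hu, inner_zero_right]
    have h6 : ⟪f, (w.1 - w'.1) • e + (w.2 - w'.2) • f⟫ = 0 := by
      rw [hu, inner_zero_right]
    rw [FCT_inner', hee, hO.ef] at h5
    rw [FCT_inner', hfe, hff] at h6
    refine Prod.ext ?_ ?_
    · linarith
    · linarith
  have hmain := hFAC J θ a ρ α τ g hg hs hρ hα hI1 hρ' hτ huniq
  have hτ0 : 0 ≤ τ := by
    refine le_trans ?_ (hτ 1 one_pos)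
    exact intervalIntegral.integral_nonneg (by positivity) fun ψ _ => le_max_right _ _
  have hcard : {j : J | ∃ w : ℝ × ℝ, w.1 * cos (θ j) + w.2 * sin (θ j) = a j ∧
      ∀ k, k ≠ j → w.1 * cos (θ k) + w.2 * sin (θ k) < a k}.ncard ≤
      {j | Adj n h i j}.ncard := by
    refine Set.ncard_le_ncard_of_injOn (fun j : J => j.1) ?_ ?_ (Set.toFinite _)
    · rintro j ⟨w, hw, hwk⟩
      refine ⟨Ne.symm j.2.1, h i • (n i + w.1 • e + w.2 • f), ?_, ?_, ?_⟩
      · rw [FCT_inner, hVi]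
      · rw [FCT_inner]
        exact (heq j w).1 hw
      · intro k hki hkj
        rw [FCT_inner]
        by_cases hko : n k = - n i
        · exact hVo k hko _ _
        · refine (hlt ⟨k, hki, hko⟩ w).1 (hwk ⟨k, hki, hko⟩ ?_)
          intro h1
          exact hkj (congrArg Subtype.val h1)
    · intro j _ k _ hjk
      exact Subtype.ext hjk
  have hcard' : ({j : J | ∃ w : ℝ × ℝ, w.1 * cos (θ j) + w.2 * sin (θ j) = a j ∧
      ∀ k, k ≠ j → w.1 * cos (θ k) + w.2 * sin (θ k) < a k}.ncard : ℝ) ≤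
      ({j | Adj n h i j}.ncard : ℝ) := by
    exact_mod_cast hcard
  rw [hset]
  have h7 := mul_le_mul_of_nonneg_left hcard' (show (0 : ℝ) ≤ 2 * τ by linarith)
  linarith

end Pool.Agent.SDC
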