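import Pool.Agent.SDC.Targets2

set_option autoImplicit false

/-!
# SDC, target FRM: the three volumes over one facet
-/

open MeasureTheory Set Real
open scoped RealInnerProductSpace

namespace Pool.Agent.SDC

theorem FRM_cc (w : ℝ × ℝ) : cc (nr w) = √(1 + w.1 ^ 2 + w.2 ^ 2) := by
  unfold cc nr
  rw [Real.sq_sqrt (by positivity), add_assoc]

theorem FRM_cc_ge (w : ℝ × ℝ) : 1 ≤ cc (nr w) := by
  rw [FRM_cc]
  exact Real.one_le_sqrt.2 (by nlinarith [sq_nonneg w.1, sq_nonneg w.2])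

theorem FRM_cont : Continuous fun w : ℝ × ℝ => cc (nr w) := by
  have : (fun w : ℝ × ℝ => cc (nr w)) = fun w : ℝ × ℝ => √(1 + w.1 ^ 2 + w.2 ^ 2) :=
    funext FRM_cc
  rw [this]
  fun_prop

/-- The norm in the coordinates of the plane. -/
theorem FRM_norm (hC : T_CRD) {n e f : E3} (ho : Onb n e f) {x : E3} (hz : 0 < ⟪n, x⟫) :
    ‖x‖ = ⟪n, x⟫ * cc (nr (⟪e, x⟫ / ⟪n, x⟫, ⟪f, x⟫ / ⟪n, x⟫)) := by
  have h1 := ((hC n e f ho).2 x).1
  rw [FRM_cc]
  have h2 : ‖x‖ ^ 2 = ⟪n, x⟫ ^ 2 * (1 + (⟪e, x⟫ / ⟪n, x⟫) ^ 2 + (⟪f, x⟫ / ⟪n, x⟫) ^ 2) := by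
    rw [h1]
    field_simp
  rw [← Real.sqrt_sq (norm_nonneg x), h2, Real.sqrt_mul (by positivity), Real.sqrt_sq hz.le]

/-- The other inner products in the coordinates of the plane. -/
theorem FRM_inner (hC : T_CRD) {n e f : E3} (ho : Onb n e f) {x : E3} (hz : 0 < ⟪n, x⟫)
    (m : E3) : ⟪m, x⟫ = ⟪n, x⟫ * (⟪m, n⟫ + ⟪e, x⟫ / ⟪n, x⟫ * ⟪m, e⟫ +
      ⟪f, x⟫ / ⟪n, x⟫ * ⟪m, f⟫) := by
  have h1 := ((hC n e f ho).2 x).2
  have h2 : ⟪m, x⟫ = ⟪n, x⟫ * ⟪m, n⟫ + ⟪e, x⟫ * ⟪m, e⟫ + ⟪f, x⟫ * ⟪m, f⟫ := by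
    conv_lhs => rw [h1]
    simp only [inner_add_right, inner_smul_right]
  rw [h2]
  field_simp

theorem FRM_CR (hC : T_CRD) {ι : Type} {n : ι → E3} {h : ι → ℝ} {i : ι} {e f : E3}
    {ϱ : ℝ} (ho : Onb (n i) e f) (x : E3) :
    x ∈ CR n h ϱ i ↔ 0 < ⟪n i, x⟫ ∧ (⟪e, x⟫ / ⟪n i, x⟫, ⟪f, x⟫ / ⟪n i, x⟫) ∈
      {w | w ∈ Qs n h i e f ∧ h i * cc (nr w) < ϱ} := by
  have key : 0 < ⟪n i, x⟫ → (((∀ j, h i * ⟪n j, x⟫ ≤ h j * ⟪n i, x⟫) ∧
      h i * ‖x‖ < ϱ * ⟪n i, x⟫) ↔ (⟪e, x⟫ / ⟪n i, x⟫, ⟪f, x⟫ / ⟪n i, x⟫) ∈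
      {w | w ∈ Qs n h i e f ∧ h i * cc (nr w) < ϱ}) := by
    intro hz
    simp only [mem_ofPred_eq, Qs]
    refine and_congr (forall_congr' fun j => ?_) ?_
    · rw [FRM_inner hC ho hz (n j)]
      constructor
      · intro h1
        refine le_of_mul_le_mul_left ?_ hz
        linarith
      · intro h1
        have := mul_le_mul_of_nonneg_left h1 hz.le
        linarith
    · rw [FRM_norm hC ho hz]
      constructor
      · intro h1
        refine lt_of_mul_lt_mul_left ?_ hz.le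
        linarith
      · intro h1
        have := mul_lt_mul_of_pos_left h1 hz
        linarith
  simp only [CR, Cn, mem_ofPred_eq]
  constructor
  · rintro ⟨⟨h1, h2⟩, h3⟩
    exact ⟨h1, (key h1).1 ⟨h2, h3⟩⟩
  · rintro ⟨h1, h2⟩
    have := (key h1).2 h2
    exact ⟨⟨h1, this.1⟩, this.2⟩

theorem FRM_Poly {ι : Type} {n : ι → E3} {h : ι → ℝ} {i : ι} (hh : ∀ i, 0 < h i) {x : E3}
    (hx : x ∈ Cn n h i) : x ∈ Poly n h ↔ ⟪n i, x⟫ ≤ h i := by
  obtain ⟨hz, hc⟩ := hx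
  constructor
  · intro h1
    exact h1 i
  · intro h1 j
    rcases le_or_gt ⟪n j, x⟫ 0 with h2 | h2
    · exact h2.trans (hh j).le
    · have h3 := hc j
      have h4 : h j * ⟪n i, x⟫ ≤ h j * h i := mul_le_mul_of_nonneg_left h1 (hh j).le
      have h5 : h i * ⟪n j, x⟫ ≤ h i * h j := by linarith
      exact le_of_mul_le_mul_left h5 (hh i)

theorem FRM_meas {ι : Type} [Fintype ι] (n : ι → E3) (h : ι → ℝ) (i : ι) (e f : E3) (ϱ : ℝ) :
    MeasurableSet {w | w ∈ Qs n h i e f ∧ h i * cc (nr w) < ϱ} := by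
  have h1 : MeasurableSet (Qs n h i e f) := by
    have : Qs n h i e f = ⋂ j, {w : ℝ × ℝ | h i * (⟪n j, n i⟫ + w.1 * ⟪n j, e⟫ +
        w.2 * ⟪n j, f⟫) ≤ h j} := by
      ext w
      simp [Qs]
    rw [this]
    refine MeasurableSet.iInter fun j => ?_
    exact (isClosed_le (by fun_prop) continuous_const).measurableSet
  have h2 : MeasurableSet {w : ℝ × ℝ | h i * cc (nr w) < ϱ} :=
    (isOpen_lt (continuous_const.mul FRM_cont) continuous_const).measurableSet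
  exact h1.inter h2

theorem FRM_fin {ι : Type} (n : ι → E3) (h : ι → ℝ) (i : ι) (e f : E3) (ϱ : ℝ)
    (hh : ∀ i, 0 < h i) :
    volume {w | w ∈ Qs n h i e f ∧ h i * cc (nr w) < ϱ} ≠ ⊤ := by
  have hsub : {w | w ∈ Qs n h i e f ∧ h i * cc (nr w) < ϱ} ⊆
      Icc (-(ϱ / h i)) (ϱ / h i) ×ˢ Icc (-(ϱ / h i)) (ϱ / h i) := by
    rintro w ⟨-, hw⟩
    have h1 : cc (nr w) < ϱ / h i := by
      rw [lt_div_iff₀ (hh i)]
      linarith
    have h2 : |w.1| ≤ cc (nr w) := by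
      rw [FRM_cc]
      refine Real.abs_le_sqrt ?_
      nlinarith [sq_nonneg w.2]
    have h3 : |w.2| ≤ cc (nr w) := by
      rw [FRM_cc]
      refine Real.abs_le_sqrt ?_
      nlinarith [sq_nonneg w.1]
    have h4 := abs_le.1 (h2.trans h1.le)
    have h5 := abs_le.1 (h3.trans h1.le)
    exact ⟨⟨h4.1, h4.2⟩, ⟨h5.1, h5.2⟩⟩
  refine ((measure_mono hsub).trans_lt ?_).ne
  exact (isCompact_Icc.prod isCompact_Icc).measure_lt_top

theorem p_FRM (hC : T_CRD) (hS : T_SLI) : T_FRM := by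
  intro ι _ n h i e f t κ β ϱ hn hh ho ht hϱ
  set Q : Set (ℝ × ℝ) := {w | w ∈ Qs n h i e f ∧ h i * cc (nr w) < ϱ} with hQ
  have hQm : MeasurableSet Q := FRM_meas n h i e f ϱ
  have hQf : volume Q ≠ ⊤ := FRM_fin n h i e f ϱ hh
  have hcpos : ∀ w, 0 < cc (nr w) := fun w => lt_of_lt_of_le one_pos (FRM_cc_ge w)
  have hm2 : Continuous fun w : ℝ × ℝ => min (h i) (t / cc (nr w)) :=
    continuous_const.min (continuous_const.div FRM_cont fun w => (hcpos w).ne')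
  have hm3 : Continuous fun w : ℝ × ℝ => 1 / cc (nr w) :=
    continuous_const.div FRM_cont fun w => (hcpos w).ne'
  -- the general reduction
  have gen : ∀ (m : ℝ × ℝ → ℝ) (A : Set E3), Continuous m → (∀ w, 0 ≤ m w) →
      (∀ x, x ∈ CR n h ϱ i → (x ∈ A ↔
        ⟪n i, x⟫ ≤ m (⟪e, x⟫ / ⟪n i, x⟫, ⟪f, x⟫ / ⟪n i, x⟫))) →
      (volume (A ∩ CR n h ϱ i)).toReal = ∫ w in Q, m w ^ 3 / 3 := by
    intro m A hmc hm0 hA
    have h1 : A ∩ CR n h ϱ i = {x : E3 | 0 < ⟪n i, x⟫ ∧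
        (⟪e, x⟫ / ⟪n i, x⟫, ⟪f, x⟫ / ⟪n i, x⟫) ∈ Q ∧
        ⟪n i, x⟫ ≤ m (⟪e, x⟫ / ⟪n i, x⟫, ⟪f, x⟫ / ⟪n i, x⟫)} := by
      ext x
      constructor
      · rintro ⟨h1, h2⟩
        have h3 := (FRM_CR hC ho x).1 h2
        exact ⟨h3.1, h3.2, (hA x h2).1 h1⟩
      · rintro ⟨h1, h2, h3⟩
        have h4 := (FRM_CR hC ho x).2 ⟨h1, h2⟩
        exact ⟨(hA x h4).2 h3, h4⟩
    rw [h1, hS (n i) e f ho Q m hQm hmc.measurable hm0]
    rw [integral_eq_lintegral_of_nonneg_ae]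
    · exact Filter.Eventually.of_forall fun w => by
        have := hm0 w
        positivity
    · exact ((hmc.pow 3).div_const 3).aestronglyMeasurable
  have hint : ∀ m : ℝ × ℝ → ℝ, Continuous m → (∃ C : ℝ, ∀ w, |m w| ≤ C) → IntegrableOn m Q := by
    rintro m hmc ⟨C, hC⟩
    refine Measure.integrableOn_of_bounded (M := C) hQf hmc.aestronglyMeasurable ?_
    exact Filter.Eventually.of_forall fun w => by simpa using hC w
  -- the three volumes
  have e1 := gen (fun _ => h i) (Poly n h ∩ Metric.closedBall 0 ϱ) continuous_const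
    (fun _ => (hh i).le) (by
      intro x hx
      have h1 := (FRM_CR hC ho x).1 hx
      rw [mem_inter_iff, FRM_Poly hh hx.1, mem_closedBall_zero_iff]
      constructor
      · exact fun h2 => h2.1
      · intro h2
        refine ⟨h2, ?_⟩
        rw [FRM_norm hC ho h1.1]
        exact (mul_le_mul_of_nonneg_right h2 (hcpos _).le).trans h1.2.2.le)
  have e2 := gen (fun w => min (h i) (t / cc (nr w))) (Poly n h ∩ Metric.closedBall 0 t) hm2
    (fun w => le_min (hh i).le (div_nonneg ht.le (hcpos w).le)) (by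
      intro x hx
      have h1 := (FRM_CR hC ho x).1 hx
      rw [mem_inter_iff, FRM_Poly hh hx.1, mem_closedBall_zero_iff, le_min_iff,
        FRM_norm hC ho h1.1, le_div_iff₀ (hcpos _)])
  have e3 := gen (fun w => 1 / cc (nr w)) (Metric.closedBall 0 1) hm3
    (fun w => div_nonneg zero_le_one (hcpos w).le) (by
      intro x hx
      have h1 := (FRM_CR hC ho x).1 hx
      rw [mem_closedBall_zero_iff, FRM_norm hC ho h1.1, le_div_iff₀ (hcpos _)])
  rw [e1, e2, e3]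
  have i1 : IntegrableOn (fun _ : ℝ × ℝ => h i ^ 3 / 3) Q :=
    hint _ continuous_const ⟨_, fun _ => le_rfl⟩
  have i2 : IntegrableOn (fun w : ℝ × ℝ => min (h i) (t / cc (nr w)) ^ 3 / 3) Q := by
    refine hint _ ((hm2.pow 3).div_const 3) ⟨h i ^ 3 / 3, fun w => ?_⟩
    have h0 : 0 ≤ min (h i) (t / cc (nr w)) := le_min (hh i).le (div_nonneg ht.le (hcpos w).le)
    rw [abs_of_nonneg (by positivity)]
    gcongr
    exact min_le_left _ _
  have i3 : IntegrableOn (fun w : ℝ × ℝ => (1 / cc (nr w)) ^ 3 / 3) Q := by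
    refine hint _ ((hm3.pow 3).div_const 3) ⟨1 ^ 3 / 3, fun w => ?_⟩
    have h0 : 0 ≤ 1 / cc (nr w) := div_nonneg zero_le_one (hcpos w).le
    rw [abs_of_nonneg (by positivity)]
    gcongr
    rw [div_le_one (hcpos w)]
    exact FRM_cc_ge w
  have i4 : IntegrableOn (fun w : ℝ × ℝ => (1 - κ) * (h i ^ 3 / 3) -
      min (h i) (t / cc (nr w)) ^ 3 / 3) Q := (i1.const_mul (1 - κ)).sub i2
  rw [← integral_const_mul, ← integral_const_mul, ← integral_sub (i1.const_mul _) i2,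
    ← integral_sub i4 (i3.const_mul _), ← integral_const_mul]
  refine integral_congr_ae (Filter.Eventually.of_forall fun w => ?_)
  simp only [G]
  have hc := hcpos w
  rcases le_total (h i) (t / cc (nr w)) with h1 | h1
  · have h2 : h i ^ 3 ≤ (t / cc (nr w)) ^ 3 := by
      have := (hh i).le
      gcongr
    rw [div_pow] at h2
    rw [min_eq_left h1, max_eq_right (by linarith), div_pow]
    ring
  · have h2 : (t / cc (nr w)) ^ 3 ≤ h i ^ 3 := by
      have : 0 ≤ t / cc (nr w) := div_nonneg ht.le hc.le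
      gcongr
    rw [div_pow] at h2
    rw [min_eq_right h1, max_eq_left (by linarith), div_pow, div_pow]
    ring

end Pool.Agent.SDC
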