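import Pool.Agent.SDC.Targets

set_option autoImplicit false

/-!
# SDC: target BET
-/

open MeasureTheory Set Real
open scoped RealInnerProductSpace

namespace Pool.Agent.SDC

theorem BET_aux {t c : ℝ} (ht : 1 ≤ t) (hc : 1 ≤ c) :
    2 * Bf t c ≤ (c ^ 2 - 1) * max (1 ^ 3 - t ^ 3 / c ^ 3) 0 := by
  have hc0 : 0 < c := by linarith
  have ht0 : 0 < t := by linarith
  unfold Bf
  split_ifs with h
  · rw [mul_zero]
    exact mul_nonneg (by nlinarith) (le_max_right _ _)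
  · push Not at h
    refine le_trans ?_ (mul_le_mul_of_nonneg_left (le_max_left _ _) (by nlinarith))
    have e1 : 2 * ((c - t) ^ 2 * (c + 2 * t) / (2 * c)) =
        (c ^ 2 * ((c - t) ^ 2 * (c + 2 * t))) / c ^ 3 := by
      field_simp
    have e2 : (c ^ 2 - 1) * (1 ^ 3 - t ^ 3 / c ^ 3) = (c ^ 2 - 1) * (c ^ 3 - t ^ 3) / c ^ 3 := by
      field_simp
    rw [e1, e2]
    refine div_le_div_of_nonneg_right ?_ (by positivity)
    have e3 : (c ^ 2 - 1) * (c ^ 3 - t ^ 3) - c ^ 2 * ((c - t) ^ 2 * (c + 2 * t)) =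
        (c - t) * (3 * (c * t) ^ 2 - (c ^ 2 + c * t + t ^ 2)) := by ring
    have h1 : 1 ≤ c * t := by nlinarith
    have h2 : c ^ 2 ≤ (c * t) ^ 2 := by
      have : c ≤ c * t := by nlinarith
      nlinarith
    have h3 : t ^ 2 ≤ (c * t) ^ 2 := by
      have : t ≤ c * t := by nlinarith
      nlinarith
    have h4 : c * t ≤ (c * t) ^ 2 := by nlinarith
    have h5 : 0 ≤ (c - t) * (3 * (c * t) ^ 2 - (c ^ 2 + c * t + t ^ 2)) :=
      mul_nonneg (by linarith) (by linarith)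
    linarith

theorem BET_cc_cont : Continuous cc := by
  unfold cc
  fun_prop

theorem BET_G_cont (t κ β h : ℝ) : Continuous (G t κ β h) := by
  unfold G
  have h1 : Continuous fun r => cc r ^ 3 := BET_cc_cont.pow 3
  have h2 : ∀ r, cc r ^ 3 ≠ 0 := fun r => (pow_pos (cc_pos r) 3).ne'
  refine ((Continuous.max ?_ continuous_const).sub continuous_const).sub ?_
  · exact continuous_const.sub (continuous_const.div h1 h2)
  · exact continuous_const.div h1 h2

theorem BET_cos {ψ : ℝ} (h : ψ ∈ Set.Icc (0 : ℝ) (π / 5)) :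
    cos (π / 5) ≤ cos ψ ∧ 0 < cos ψ ∧ cos ψ ≤ 1 := by
  have hp := Real.pi_pos
  refine ⟨?_, ?_, cos_le_one ψ⟩
  · exact cos_le_cos_of_nonneg_of_le_pi h.1 (by linarith) h.2
  · exact cos_pos_of_mem_Ioo ⟨by linarith [h.1], by linarith [h.2]⟩

theorem BET_c {ψ : ℝ} (h : ψ ∈ Set.Icc (0 : ℝ) (π / 5)) :
    1 ≤ cc (a0 / cos ψ) ∧ cc (a0 / cos ψ) ≤ R ∧ 0 < a0 / cos ψ ∧
      (a0 / cos ψ) ^ 2 = cc (a0 / cos ψ) ^ 2 - 1 := by
  obtain ⟨h1, h2, _⟩ := BET_cos h
  have h3 : 0 < a0 / cos ψ := div_pos a0_pos h2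
  have hp := Real.pi_pos
  refine ⟨cc_one _, ?_, h3, by rw [cc_sq]; ring⟩
  rw [← cc_rv]
  unfold cc
  refine Real.sqrt_le_sqrt ?_
  have h4 : a0 / cos ψ ≤ rv := by
    rw [← a0_div_cos]
    refine div_le_div_of_nonneg_left a0_pos.le ?_ h1
    exact cos_pos_of_mem_Ioo ⟨by linarith, by linarith⟩
  have : (a0 / cos ψ) ^ 2 ≤ rv ^ 2 := pow_le_pow_left₀ h3.le h4 2
  linarith

theorem p_BET (hPCL : T_PCL) (hSUB : T_SUB) (hBF : T_BF) (hKAP : T_KAP) : T_BET := by
  intro t ht htR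
  have hp := Real.pi_pos
  have hR := R_pos
  have h05 : (0 : ℝ) ≤ π / 5 := by positivity
  set κ := kap t with hκ
  set β := bet t with hβ
  -- the integral vanishes
  have hz : ∫ ψ in (0 : ℝ)..(π / 5), G t κ β 1 (a0 / cos ψ) * (a0 / cos ψ ^ 2) = 0 := by
    rw [← hSUB (G t κ β 1) (BET_G_cont _ _ _ _), hPCL t κ β a0 ht htR a0_pos a0_lt_rv, ← W0_eq]
    have : R * gg t κ W0 - t ^ 3 - β = 0 := by
      rw [hβ]
      unfold bet
      rw [← hκ]
      ring
    rw [this, mul_zero]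
  have hcosc : ContinuousOn (fun ψ : ℝ => a0 / cos ψ) (Set.uIcc 0 (π / 5)) := by
    rw [Set.uIcc_of_le h05]
    exact continuousOn_const.div continuous_cos.continuousOn fun ψ hψ => (BET_cos hψ).2.1.ne'
  have hwc : ContinuousOn (fun ψ : ℝ => a0 / cos ψ ^ 2) (Set.uIcc 0 (π / 5)) := by
    rw [Set.uIcc_of_le h05]
    exact continuousOn_const.div (continuous_cos.pow 2).continuousOn fun ψ hψ =>
      (pow_pos (BET_cos hψ).2.1 2).ne'
  have hccc : ContinuousOn (fun ψ : ℝ => cc (a0 / cos ψ)) (Set.uIcc 0 (π / 5)) :=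
    BET_cc_cont.comp_continuousOn hcosc
  have hQc : ContinuousOn (fun ψ : ℝ => 1 / cc (a0 / cos ψ) ^ 3) (Set.uIcc 0 (π / 5)) :=
    continuousOn_const.div (hccc.pow 3) fun ψ _ => (pow_pos (cc_pos _) 3).ne'
  have hPc : ContinuousOn (fun ψ : ℝ => max (1 ^ 3 - t ^ 3 / cc (a0 / cos ψ) ^ 3) 0 - κ)
      (Set.uIcc 0 (π / 5)) := by
    have h1 : ContinuousOn (fun ψ : ℝ => 1 ^ 3 - t ^ 3 / cc (a0 / cos ψ) ^ 3)
        (Set.uIcc 0 (π / 5)) := continuousOn_const.sub
      (continuousOn_const.div (hccc.pow 3) fun ψ _ => (pow_pos (cc_pos _) 3).ne')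
    have h2 : Continuous fun x : ℝ => max x 0 := by fun_prop
    exact (h2.comp_continuousOn h1).sub continuousOn_const
  have hBc : ContinuousOn (fun ψ : ℝ => Bf t (cc (a0 / cos ψ))) (Set.uIcc 0 (π / 5)) := by
    intro ψ hψ
    have h1 : ContinuousAt (Bf t) (cc (a0 / cos ψ)) :=
      (hBF.2.1 t (cc (a0 / cos ψ)) (by linarith) (cc_pos _)).continuousAt
    exact ContinuousAt.comp_continuousWithinAt (f := fun ψ : ℝ => cc (a0 / cos ψ)) h1 (hccc ψ hψ)
  set IQ := ∫ ψ in (0 : ℝ)..(π / 5), (1 / cc (a0 / cos ψ) ^ 3) * (a0 / cos ψ ^ 2) with hIQ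
  set IP := ∫ ψ in (0 : ℝ)..(π / 5), (max (1 ^ 3 - t ^ 3 / cc (a0 / cos ψ) ^ 3) 0 - κ) *
    (a0 / cos ψ ^ 2) with hIP
  have hQw : IntervalIntegrable (fun ψ : ℝ => (1 / cc (a0 / cos ψ) ^ 3) * (a0 / cos ψ ^ 2))
      volume 0 (π / 5) := (hQc.mul hwc).intervalIntegrable
  have hPw : IntervalIntegrable (fun ψ : ℝ => (max (1 ^ 3 - t ^ 3 / cc (a0 / cos ψ) ^ 3) 0 - κ) *
      (a0 / cos ψ ^ 2)) volume 0 (π / 5) := (hPc.mul hwc).intervalIntegrable
  have hsplit : IP = β * IQ := by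
    have h1 : (∫ ψ in (0 : ℝ)..(π / 5), G t κ β 1 (a0 / cos ψ) * (a0 / cos ψ ^ 2)) =
        IP - β * IQ := by
      rw [hIP, hIQ, ← intervalIntegral.integral_const_mul,
        ← intervalIntegral.integral_sub hPw (hQw.const_mul β)]
      refine intervalIntegral.integral_congr fun ψ _ => ?_
      simp only [G]
      ring
    rw [hz] at h1
    linarith
  have hIQpos : 0 < IQ := by
    refine intervalIntegral.intervalIntegral_pos_of_pos_on hQw (fun ψ hψ => ?_) (by positivity)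
    have hψ' : ψ ∈ Set.Icc (0 : ℝ) (π / 5) := ⟨hψ.1.le, hψ.2.le⟩
    have h2 := (BET_cos hψ').2.1
    have h3 := cc_pos (a0 / cos ψ)
    have h4 := a0_pos
    positivity
  -- the denominator of kap
  have hDc : ContinuousOn (fun ψ : ℝ => (a0 / cos ψ) ^ 2 / 2) (Set.uIcc 0 (π / 5)) :=
    (hcosc.pow 2).div_const 2
  set DD := ∫ ψ in (0 : ℝ)..(π / 5), (a0 / cos ψ) ^ 2 / 2 with hDD
  have hDpos : 0 < DD := by
    refine intervalIntegral.intervalIntegral_pos_of_pos_on hDc.intervalIntegrable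
      (fun ψ hψ => ?_) (by positivity)
    have hψ' : ψ ∈ Set.Icc (0 : ℝ) (π / 5) := ⟨hψ.1.le, hψ.2.le⟩
    have h2 := (BET_c hψ').2.2.1
    positivity
  have hkap : (∫ ψ in (0 : ℝ)..(π / 5), Bf t (cc (a0 / cos ψ))) = κ * DD := by
    rw [hκ]
    unfold kap
    rw [← hDD, div_mul_cancel₀ _ hDpos.ne']
  have hw : ∀ ψ : ℝ, ψ ∈ Set.Icc (0 : ℝ) (π / 5) → a0 / cos ψ ^ 2 =
      (cc (a0 / cos ψ) ^ 2 - 1) / a0 := by
    intro ψ hψ
    have h2 := (BET_cos hψ).2.1
    rw [← (BET_c hψ).2.2.2]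
    have := a0_pos
    field_simp
  constructor
  · -- β ≥ 0
    have hIP0 : 0 ≤ IP := by
      have h1 : ∫ ψ in (0 : ℝ)..(π / 5), (2 / a0) * (Bf t (cc (a0 / cos ψ)) -
          κ * ((a0 / cos ψ) ^ 2 / 2)) = 0 := by
        rw [intervalIntegral.integral_const_mul, intervalIntegral.integral_sub
          hBc.intervalIntegrable (hDc.intervalIntegrable.const_mul κ),
          intervalIntegral.integral_const_mul, hkap]
        ring
      rw [← h1]
      refine intervalIntegral.integral_mono_on h05 ?_ hPw fun ψ hψ => ?_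
      · exact (ContinuousOn.mul continuousOn_const
          (hBc.sub (continuousOn_const.mul hDc))).intervalIntegrable
      · have h2 := BET_aux ht (BET_c hψ).1
        rw [hw ψ hψ, (BET_c hψ).2.2.2]
        have h3 := a0_pos
        have e1 : 2 / a0 * (Bf t (cc (a0 / cos ψ)) - κ * ((cc (a0 / cos ψ) ^ 2 - 1) / 2)) =
            (2 * Bf t (cc (a0 / cos ψ)) - κ * (cc (a0 / cos ψ) ^ 2 - 1)) / a0 := by
          ring
        have e2 : (max (1 ^ 3 - t ^ 3 / cc (a0 / cos ψ) ^ 3) 0 - κ) *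
            ((cc (a0 / cos ψ) ^ 2 - 1) / a0) =
            ((cc (a0 / cos ψ) ^ 2 - 1) * max (1 ^ 3 - t ^ 3 / cc (a0 / cos ψ) ^ 3) 0 -
              κ * (cc (a0 / cos ψ) ^ 2 - 1)) / a0 := by
          ring
        rw [e1, e2]
        exact div_le_div_of_nonneg_right (by linarith) h3.le
    rw [hsplit] at hIP0
    by_contra hcon
    push Not at hcon
    have := mul_neg_of_neg_of_pos hcon hIQpos
    linarith
  · -- G at rv
    have hκ1 : κ ≤ 1 - t ^ 3 / R ^ 3 := by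
      have h1 := (hKAP t ht htR).2
      have h2 := BET_aux ht R_one.le
      have h3 : R ^ 2 - 1 = rv ^ 2 := by rw [R_sq']; ring
      have h4 : t ^ 3 / R ^ 3 ≤ 1 := by
        rw [div_le_one (by positivity)]
        exact pow_le_pow_left₀ (by linarith) htR.le 3
      rw [h3, max_eq_left (by linarith)] at h2
      have h5 : 0 < rv ^ 2 := pow_pos rv_pos 2
      have h6 : 2 * Bf t R / rv ^ 2 ≤ 1 ^ 3 - t ^ 3 / R ^ 3 := by
        rw [div_le_iff₀ h5]
        linarith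
      calc κ ≤ 2 * Bf t R / rv ^ 2 := h1
        _ ≤ 1 - t ^ 3 / R ^ 3 := by linarith
    have hM : 0 ≤ (1 - κ) * R ^ 3 - t ^ 3 := by
      have h1 : t ^ 3 / R ^ 3 ≤ 1 - κ := by linarith
      rw [div_le_iff₀ (by positivity)] at h1
      linarith
    have hle : IP ≤ ((1 - κ) * R ^ 3 - t ^ 3) * IQ := by
      rw [hIP, hIQ, ← intervalIntegral.integral_const_mul]
      refine intervalIntegral.integral_mono_on h05 hPw (hQw.const_mul _) fun ψ hψ => ?_
      obtain ⟨hc1, hc2, _, _⟩ := BET_c hψ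
      have hw0 : 0 ≤ a0 / cos ψ ^ 2 := by
        have := a0_pos
        have := (BET_cos hψ).2.1
        positivity
      set c := cc (a0 / cos ψ) with hc
      have hc0 : 0 < c := by linarith
      rw [← mul_assoc]
      refine mul_le_mul_of_nonneg_right ?_ hw0
      rw [mul_one_div, le_div_iff₀ (by positivity)]
      have hcR : c ^ 3 ≤ R ^ 3 := pow_le_pow_left₀ hc0.le hc2 3
      rcases le_total 0 (1 ^ 3 - t ^ 3 / c ^ 3) with h | h
      · rw [max_eq_left h]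
        have e1 : (1 ^ 3 - t ^ 3 / c ^ 3 - κ) * c ^ 3 = (1 - κ) * c ^ 3 - t ^ 3 := by
          field_simp
          ring
        rw [e1]
        have h6 : 0 ≤ 1 - κ := by
          have : 0 ≤ t ^ 3 / R ^ 3 := by positivity
          linarith
        have := mul_le_mul_of_nonneg_left hcR h6
        linarith
      · rw [max_eq_right h]
        have h7 := (hKAP t ht htR).1
        have : (0 - κ) * c ^ 3 ≤ 0 := by
          have : 0 ≤ κ * c ^ 3 := by positivity
          linarith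
        linarith
    rw [hsplit] at hle
    have hβ1 : β ≤ (1 - κ) * R ^ 3 - t ^ 3 := le_of_mul_le_mul_right hle hIQpos
    unfold G
    rw [cc_rv]
    refine le_trans ?_ (sub_le_sub_right (sub_le_sub_right (le_max_left _ _) _) _)
    have e1 : (1 : ℝ) ^ 3 - t ^ 3 / R ^ 3 - κ * 1 ^ 3 - β / R ^ 3 =
        ((1 - κ) * R ^ 3 - t ^ 3 - β) / R ^ 3 := by
      field_simp
      ring
    rw [e1]
    exact div_nonneg (by linarith) (by positivity)

end Pool.Agent.SDC
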