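import Pool.Agent.SDC.Targets

set_option autoImplicit false

/-!
# SDC: the target BF
-/

open MeasureTheory Set Real

namespace Pool.Agent.SDC

theorem BF_closed (σ c : ℝ) (hσ : 0 < σ) (h : σ ≤ c) :
    Bf σ c = c ^ 2 / 2 + σ ^ 3 / c - 3 / 2 * σ ^ 2 := by
  unfold Bf
  split_ifs with h1
  · have h2 : c = σ := le_antisymm h1 h
    subst h2
    field_simp
    ring
  · have hc : 0 < c := lt_of_lt_of_le hσ h
    field_simp
    ring

theorem BF_deriv_closed (σ c : ℝ) (hc : 0 < c) :
    HasDerivAt (fun x : ℝ => x ^ 2 / 2 + σ ^ 3 / x - 3 / 2 * σ ^ 2) (c - σ ^ 3 / c ^ 2) c := by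
  have h1 : HasDerivAt (fun x : ℝ => x ^ 2 / 2) (2 * c / 2) c := by
    simpa using (hasDerivAt_pow 2 c).div_const 2
  have h2 : HasDerivAt (fun x : ℝ => σ ^ 3 / x) (σ ^ 3 * (-(c ^ 2)⁻¹)) c := by
    simpa [div_eq_mul_inv] using (hasDerivAt_inv hc.ne').const_mul (σ ^ 3)
  have h3 := (h1.add h2).sub_const (3 / 2 * σ ^ 2)
  refine h3.congr_deriv ?_
  rw [div_eq_mul_inv]
  ring

theorem p_BF : T_BF := by
  refine ⟨?_, ?_, fun σ c hσ h => BF_closed σ c hσ h⟩
  · intro σ c hσ hc
    unfold Bf
    split_ifs with h1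
    · exact le_rfl
    · positivity
  · intro σ c hσ hc
    rcases lt_trichotomy c σ with h | h | h
    · have h1 : max (c - σ ^ 3 / c ^ 2) 0 = 0 := by
        apply max_eq_right
        rw [sub_nonpos, le_div_iff₀ (by positivity)]
        have : c ^ 3 ≤ σ ^ 3 := pow_le_pow_left₀ hc.le h.le 3
        nlinarith
      rw [h1]
      refine (hasDerivAt_const c (0 : ℝ)).congr_of_eventuallyEq ?_
      filter_upwards [Iio_mem_nhds h] with x hx
      unfold Bf
      rw [if_pos (le_of_lt hx)]
    · subst h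
      have h1 : max (c - c ^ 3 / c ^ 2) 0 = 0 := by
        apply max_eq_right
        rw [sub_nonpos, le_div_iff₀ (by positivity)]
        nlinarith
      rw [h1, ← hasDerivWithinAt_univ, ← Iic_union_Ici (a := c)]
      refine HasDerivWithinAt.union ?_ ?_
      · refine (hasDerivWithinAt_const c (Iic c) (0 : ℝ)).congr ?_ ?_
        · intro x hx
          unfold Bf
          rw [if_pos (mem_Iic.1 hx)]
        · unfold Bf
          rw [if_pos le_rfl]
      · have h2 := (BF_deriv_closed c c hc).hasDerivWithinAt (s := Ici c)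
        have h3 : c - c ^ 3 / c ^ 2 = 0 := by
          field_simp
          ring
        rw [h3] at h2
        exact h2.congr (fun x hx => BF_closed c x hσ hx) (BF_closed c c hσ le_rfl)
    · have h1 : max (c - σ ^ 3 / c ^ 2) 0 = c - σ ^ 3 / c ^ 2 := by
        apply max_eq_left
        rw [sub_nonneg, div_le_iff₀ (by positivity)]
        have : σ ^ 3 ≤ c ^ 3 := pow_le_pow_left₀ hσ.le h.le 3
        nlinarith
      rw [h1]
      refine (BF_deriv_closed σ c hc).congr_of_eventuallyEq ?_
      filter_upwards [Ioi_mem_nhds h] with x hx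
      exact BF_closed σ x hσ (le_of_lt hx)

end Pool.Agent.SDC
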