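import Pool.Agent.SDC.Targets

set_option autoImplicit false

/-!
# SDC: target CMP
-/

open MeasureTheory Set Real

namespace Pool.Agent.SDC

theorem CMP_cc_cont : Continuous cc := by
  unfold cc
  fun_prop

theorem CMP_G_cont (t κ β h : ℝ) : Continuous (G t κ β h) := by
  have h1 : ∀ r, cc r ^ 3 ≠ 0 := fun r => (pow_pos (cc_pos r) 3).ne'
  have h2 : Continuous fun r => cc r ^ 3 := CMP_cc_cont.pow 3
  unfold G
  exact (((continuous_const.sub (continuous_const.div h2 h1)).max continuous_const).sub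
    continuous_const).sub (continuous_const.div h2 h1)

theorem CMP_cc_le {h s : ℝ} (hh : 1 ≤ h) (hs : s ^ 2 * h ^ 2 ≤ h + 1) :
    cc (h * √h * s) ≤ h * cc s := by
  have h1 := cc_sq s
  have h2 := cc_sq (h * √h * s)
  have h3 : √h ^ 2 = h := Real.sq_sqrt (by linarith)
  have h4 : (h * √h * s) ^ 2 = h ^ 3 * s ^ 2 := by
    rw [mul_pow, mul_pow, h3]
    ring
  have h5 : 0 ≤ h * cc s := mul_nonneg (by linarith) (cc_pos s).le
  refine le_of_sq_le_sq ?_ h5
  rw [h2, h4, mul_pow, h1]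
  nlinarith [mul_nonneg (sub_nonneg.2 hh) (sub_nonneg.2 hs)]

theorem CMP_G_le {t κ β h s : ℝ} (ht : 0 < t) (hβ : 0 ≤ β) (hh : 1 ≤ h)
    (hs : s ^ 2 * h ^ 2 ≤ h + 1) :
    h ^ 3 * G t κ β 1 (h * √h * s) ≤ G t κ β h s := by
  have h0 : 0 < h := by linarith
  have hc := cc_pos s
  have hc' := cc_pos (h * √h * s)
  have h1 := CMP_cc_le hh hs
  have h2 : cc (h * √h * s) ^ 3 ≤ h ^ 3 * cc s ^ 3 := by
    rw [← mul_pow]
    exact pow_le_pow_left₀ hc'.le h1 3
  have h3 : (cc s ^ 3)⁻¹ ≤ h ^ 3 * (cc (h * √h * s) ^ 3)⁻¹ := by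
    rw [← div_eq_mul_inv, inv_eq_one_div, div_le_div_iff₀ (by positivity) (by positivity)]
    linarith
  have h4 : h ^ 3 * max (1 ^ 3 - t ^ 3 / cc (h * √h * s) ^ 3) 0 ≤
      max (h ^ 3 - t ^ 3 / cc s ^ 3) 0 := by
    rw [mul_max_of_nonneg _ _ (by positivity), mul_zero]
    refine max_le_max ?_ le_rfl
    have h5 : t ^ 3 * (cc s ^ 3)⁻¹ ≤ t ^ 3 * (h ^ 3 * (cc (h * √h * s) ^ 3)⁻¹) :=
      mul_le_mul_of_nonneg_left h3 (by positivity)
    rw [div_eq_mul_inv, div_eq_mul_inv]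
    nlinarith [h5]
  have h6 : β * (cc s ^ 3)⁻¹ ≤ β * (h ^ 3 * (cc (h * √h * s) ^ 3)⁻¹) :=
    mul_le_mul_of_nonneg_left h3 hβ
  have h7 : β / cc s ^ 3 = β * (cc s ^ 3)⁻¹ := div_eq_mul_inv _ _
  have h8 : β / cc (h * √h * s) ^ 3 = β * (cc (h * √h * s) ^ 3)⁻¹ := div_eq_mul_inv _ _
  unfold G
  rw [h7, h8]
  nlinarith [h4, h6]

/-- CMP: pointwise comparison. -/
theorem p_CMP : T_CMP := by
  intro t κ β h r ht hβ hh hr hrh
  have h0 : 0 < h := by linarith
  have hq : 0 < h * √h := mul_pos h0 (Real.sqrt_pos.mpr h0)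
  have hq2 : (h * √h) * (h * √h) = h ^ 3 := by
    have h3 : √h * √h = h := Real.mul_self_sqrt h0.le
    calc (h * √h) * (h * √h) = h * h * (√h * √h) := by ring
      _ = h ^ 3 := by rw [h3]; ring
  have hsub : H t κ β 1 (h * √h * r) =
      ∫ s in (0 : ℝ)..r, h ^ 3 * G t κ β 1 (h * √h * s) * s := by
    have h1 := intervalIntegral.smul_integral_comp_mul_left
      (fun s => G t κ β 1 s * s) (h * √h) (a := 0) (b := r)
    rw [mul_zero] at h1
    unfold H
    rw [← h1, smul_eq_mul, ← intervalIntegral.integral_const_mul]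
    refine intervalIntegral.integral_congr fun s _ => ?_
    change h * √h * (G t κ β 1 (h * √h * s) * (h * √h * s)) =
      h ^ 3 * G t κ β 1 (h * √h * s) * s
    rw [← hq2]
    ring
  rw [hsub]
  unfold H
  have hc1 : Continuous fun s => h ^ 3 * G t κ β 1 (h * √h * s) * s :=
    (continuous_const.mul ((CMP_G_cont t κ β 1).comp (continuous_const.mul
      continuous_id))).mul continuous_id
  have hc2 : Continuous fun s => G t κ β h s * s := (CMP_G_cont t κ β h).mul continuous_id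
  refine intervalIntegral.integral_mono_on hr (hc1.intervalIntegrable _ _)
    (hc2.intervalIntegrable _ _) fun s hs => ?_
  refine mul_le_mul_of_nonneg_right (CMP_G_le ht hβ hh ?_) hs.1
  have h5 : s ^ 2 ≤ r ^ 2 := pow_le_pow_left₀ hs.1 hs.2 2
  nlinarith [mul_le_mul_of_nonneg_right h5 (sq_nonneg h)]

end Pool.Agent.SDC
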