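import Pool.Agent.SDC.Targets2

/-!
# SDC: target CNT
-/

set_option autoImplicit false

namespace Pool.Agent.SDC

open Classical in
/-- a finite set with at most two elements is contained in a pair -/
theorem CNT_pair {ι : Type} [Nonempty ι] (S : Finset ι) (h : S.card ≤ 2) :
    ∃ p q, ∀ k ∈ S, k = p ∨ k = q := by
  obtain ⟨i0⟩ := (inferInstance : Nonempty ι)
  have h3 : S.card = 0 ∨ S.card = 1 ∨ S.card = 2 := by omega
  rcases h3 with h | h | h
  · rw [Finset.card_eq_zero] at h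
    subst h
    exact ⟨i0, i0, by simp⟩
  · obtain ⟨a, rfl⟩ := Finset.card_eq_one.1 h
    exact ⟨a, a, by simp⟩
  · obtain ⟨a, b, -, rfl⟩ := Finset.card_eq_two.1 h
    exact ⟨a, b, by simp⟩

open Classical in
/-- the extreme points: at most `#ι - 3` of the sets have their lowest point in `V'` -/
theorem CNT_ext {ι E : Type} [Fintype ι] (F : ι → Set E) (c : E → ℝ) (V' : Finset E)
    (hmix : ∀ v ∈ V', ∃ l, ∃ x ∈ F l, c x < c v)
    (h8 : ∀ l, ∀ x ∈ F l, ∀ i j, ∃ k, k ≠ i ∧ k ≠ j ∧ ∃ y ∈ F k, c y = c x)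
    (h9 : 3 ≤ Fintype.card ι) :
    (Finset.univ.filter fun k => ∃ v ∈ V', v ∈ F k ∧ ∀ x ∈ F k, c v ≤ c x).card + 3 ≤
      Fintype.card ι := by
  set K := Finset.univ.filter fun k => ∃ v ∈ V', v ∈ F k ∧ ∀ x ∈ F k, c v ≤ c x with hK
  have hne : Nonempty ι := Fintype.card_pos_iff.1 (by omega)
  rcases V'.eq_empty_or_nonempty with hV | hV
  · have : K = ∅ := by
      rw [hK, hV]
      simp
    rw [this]
    simpa using h9
  · obtain ⟨v, hv, hmin⟩ := V'.exists_min_image c hV
    obtain ⟨l, x, hx, hxv⟩ := hmix v hv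
    by_contra hcon
    have hc : (Kᶜ).card ≤ 2 := by
      rw [Finset.card_compl]
      omega
    obtain ⟨p, q, hpq⟩ := CNT_pair Kᶜ hc
    obtain ⟨k, hkp, hkq, y, hy, hyx⟩ := h8 l x hx p q
    have hkK : k ∈ K := by
      by_contra hk
      rcases hpq k (by simpa using hk) with h | h
      · exact hkp h
      · exact hkq h
    rw [hK, Finset.mem_filter] at hkK
    obtain ⟨-, w, hw, -, hwx⟩ := hkK
    have h1 := hwx y hy
    have h2 := hmin w hw
    linarith

open Classical in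
/-- injectivity: the elements of `V'` which are lowest in some set -/
theorem CNT_inj {ι E : Type} [Fintype ι] [Nonempty ι] (F : ι → Set E) (c : E → ℝ) (V' : Finset E)
    (h6 : ∀ i, ∀ v ∈ F i, ∀ v' ∈ F i, (∀ x ∈ F i, c v ≤ c x) → (∀ x ∈ F i, c v' ≤ c x) →
      v = v') :
    (V'.filter fun v => ∃ k, v ∈ F k ∧ ∀ x ∈ F k, c v ≤ c x).card ≤
      (Finset.univ.filter fun k => ∃ v ∈ V', v ∈ F k ∧ ∀ x ∈ F k, c v ≤ c x).card := by
  have hch : ∀ v ∈ V'.filter (fun v => ∃ k, v ∈ F k ∧ ∀ x ∈ F k, c v ≤ c x),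
      ∃ k, v ∈ F k ∧ ∀ x ∈ F k, c v ≤ c x := fun v hv => (Finset.mem_filter.1 hv).2
  choose! g hg using hch
  apply Finset.card_le_card_of_injOn g
  · intro v hv
    have hv' := Finset.mem_filter.1 (Finset.mem_coe.1 hv)
    simp only [Finset.coe_filter, Finset.mem_univ, true_and, Set.mem_ofPred_eq]
    exact ⟨v, hv'.1, hg v hv⟩
  · intro v hv v' hv' he
    have h1 := hg v hv
    have h2 := hg v' hv'
    rw [← he] at h2
    exact h6 _ v h1.1 v' h2.1 h1.2 h2.2

open Classical in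
/-- the number of the `j` for one `i` -/
theorem CNT_one {ι E : Type} [Fintype ι] (A : ι → ι → Prop) (low : ι → ι → E)
    (F : ι → Set E) (c : E → ℝ)
    (h1 : ∀ i j, A i j → low i j ∈ F i ∧ ∃ x ∈ F i, c (low i j) < c x)
    (h2 : ∀ i v, {j | A i j ∧ low i j = v}.ncard ≤ 2)
    (h3 : ∀ i v, (∃ x ∈ F i, c x < c v) → {j | A i j ∧ low i j = v}.ncard ≤ 1)
    (h6 : ∀ i, ∀ v ∈ F i, ∀ v' ∈ F i, (∀ x ∈ F i, c v ≤ c x) → (∀ x ∈ F i, c v' ≤ c x) →
      v = v') (V : Finset E) (hV : ∀ i j, A i j → low i j ∈ V) (i : ι) :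
    {j | A i j}.ncard ≤ 2 + (V.filter fun v => v ∈ F i ∧ (∃ x ∈ F i, c x < c v) ∧
      ∃ x ∈ F i, c v < c x).card := by
  have e1 : ∀ P : ι → Prop, {j | P j}.ncard = (Finset.univ.filter P).card := by
    intro P
    rw [← Set.ncard_coe_finset]
    congr 1
    ext j
    simp
  rw [e1, Finset.card_eq_sum_card_fiberwise (f := low i) (t := V)
    (by
      intro j hj
      have hj' := Finset.mem_filter.1 (Finset.mem_coe.1 hj)
      exact hV i j hj'.2)]
  have e2 : ∀ v ∈ V, ((Finset.univ.filter fun j => A i j).filter fun j => low i j = v).card ≤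
      (if v ∈ F i ∧ (∃ x ∈ F i, c x < c v) ∧ ∃ x ∈ F i, c v < c x then 1 else 0) +
      (if v ∈ F i ∧ ∀ x ∈ F i, c v ≤ c x then 2 else 0) := by
    intro v _
    have e4 : ((Finset.univ.filter fun j => A i j).filter fun j => low i j = v).card =
        {j | A i j ∧ low i j = v}.ncard := by
      rw [e1, Finset.filter_filter]
      congr 1
      ext j
      simp
    rw [e4]
    rcases Set.eq_empty_or_nonempty {j | A i j ∧ low i j = v} with he | ⟨j, hj⟩
    · rw [he]
      simp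
    · obtain ⟨hA, hl⟩ := hj
      obtain ⟨ha, hb⟩ := h1 i j hA
      rw [hl] at ha hb
      by_cases hlow : ∃ x ∈ F i, c x < c v
      · rw [if_pos ⟨ha, hlow, hb⟩]
        exact le_trans (h3 i v hlow) (Nat.le_add_right _ _)
      · push Not at hlow
        rw [if_pos (⟨ha, hlow⟩ : v ∈ F i ∧ ∀ x ∈ F i, c v ≤ c x)]
        exact le_trans (h2 i v) (Nat.le_add_left _ _)
  refine le_trans (Finset.sum_le_sum e2) ?_
  rw [Finset.sum_add_distrib, ← Finset.sum_filter, ← Finset.sum_filter]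
  simp only [Finset.sum_const, smul_eq_mul, mul_one]
  have e3 : (V.filter fun v => v ∈ F i ∧ ∀ x ∈ F i, c v ≤ c x).card ≤ 1 := by
    rw [Finset.card_le_one]
    intro v hv v' hv'
    rw [Finset.mem_filter] at hv hv'
    exact h6 i v hv.2.1 v' hv'.2.1 hv.2.2 hv'.2.2
  omega

/-- CNT. -/
theorem p_CNT : T_CNT := by
  classical
  intro ι E _ A low F c h1 h2 h3 h4 h5 h6 h7 h8 h9
  have hne : Nonempty ι := Fintype.card_pos_iff.1 (by omega)
  set V : Finset E := (Finset.univ.filter fun p : ι × ι => A p.1 p.2).image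
    fun p => low p.1 p.2 with hVdef
  have hV : ∀ i j, A i j → low i j ∈ V := by
    intro i j hA
    rw [hVdef, Finset.mem_image]
    exact ⟨(i, j), by simp [hA], rfl⟩
  have hV2 : ∀ v ∈ V, ∃ i j, A i j ∧ low i j = v := by
    intro v hv
    rw [hVdef, Finset.mem_image] at hv
    obtain ⟨p, hp, rfl⟩ := hv
    exact ⟨p.1, p.2, by simpa using hp, rfl⟩
  set Mx : E → ι → Prop := fun v i => v ∈ F i ∧ (∃ x ∈ F i, c x < c v) ∧
    ∃ x ∈ F i, c v < c x with hMx
  have hone : ∀ i, {j | A i j}.ncard ≤ 2 + (V.filter fun v => Mx v i).card :=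
    fun i => CNT_one A low F c h1 h2 h3 h6 V hV i
  have hmx2 : ∀ v, (Finset.univ.filter fun i => Mx v i).card ≤ 2 := by
    intro v
    have := h4 v
    rw [← Set.ncard_coe_finset]
    simpa [hMx] using this
  set V' := V.filter fun v => ∃ i, Mx v i with hV'
  have hsum1 : ∑ i, {j | A i j}.ncard ≤ 2 * Fintype.card ι + 2 * V'.card := by
    have s1 : ∑ i, {j | A i j}.ncard ≤ ∑ i : ι, (2 + (V.filter fun v => Mx v i).card) :=
      Finset.sum_le_sum fun i _ => hone i
    have s2 : ∑ i : ι, (V.filter fun v => Mx v i).card =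
        ∑ v ∈ V, (Finset.univ.filter fun i => Mx v i).card := by
      simp only [Finset.card_filter]
      exact Finset.sum_comm
    have s3 : ∑ v ∈ V, (Finset.univ.filter fun i => Mx v i).card ≤ ∑ v ∈ V', 2 := by
      rw [hV', Finset.sum_filter]
      apply Finset.sum_le_sum
      intro v _
      by_cases hv : ∃ i, Mx v i
      · rw [if_pos hv]
        exact hmx2 v
      · rw [if_neg hv]
        push Not at hv
        rw [Finset.filter_false_of_mem fun i _ => hv i]
        simp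
    rw [Finset.sum_add_distrib] at s1
    simp only [Finset.sum_const, Finset.card_univ, smul_eq_mul] at s1 s3
    omega
  have hsplit : V'.card ≤
      (V'.filter fun v => ∃ k, v ∈ F k ∧ ∀ x ∈ F k, c v ≤ c x).card +
      (V'.filter fun v => ∃ k, v ∈ F k ∧ ∀ x ∈ F k, -c v ≤ -c x).card := by
    rw [← Finset.card_filter_add_card_filter_not
      (fun v => ∃ k, v ∈ F k ∧ ∀ x ∈ F k, c v ≤ c x) (s := V')]
    apply Nat.add_le_add_left
    apply Finset.card_le_card
    intro v hv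
    rw [Finset.mem_filter] at hv ⊢
    refine ⟨hv.1, ?_⟩
    have hvV := (Finset.mem_filter.1 hv.1).1
    obtain ⟨i, j, hA, hl⟩ := hV2 v hvV
    obtain ⟨p, q, hpq⟩ := CNT_pair _ (hmx2 v)
    obtain ⟨k, hkp, hkq, hk⟩ := h5 i j hA p q
    rw [hl] at hk
    have hnm : ¬ Mx v k := by
      intro hm
      rcases hpq k (by simp [hm]) with h | h
      · exact hkp h
      · exact hkq h
    refine ⟨k, hk, ?_⟩
    intro x hx
    by_contra hcon
    apply hv.2
    refine ⟨k, hk, ?_⟩
    intro y hy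
    by_contra hcon2
    apply hnm
    exact ⟨hk, ⟨y, hy, by linarith⟩, ⟨x, hx, by linarith⟩⟩
  have hI1 := CNT_inj F c V' h6
  have hI2 := CNT_inj F (fun e => -c e) V' (by
    intro i v hv v' hv' ha hb
    exact h7 i v hv v' hv' (fun x hx => by linarith [ha x hx]) fun x hx => by
      linarith [hb x hx])
  have hE1 := CNT_ext F c V' (by
    intro v hv
    obtain ⟨l, hl⟩ := (Finset.mem_filter.1 hv).2
    exact ⟨l, hl.2.1⟩) h8 h9
  have hE2 := CNT_ext F (fun e => -c e) V' (by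
    intro v hv
    obtain ⟨l, hl⟩ := (Finset.mem_filter.1 hv).2
    obtain ⟨x, hx, hlt⟩ := hl.2.2
    exact ⟨l, x, hx, by linarith⟩) (by
    intro l x hx i j
    obtain ⟨k, hki, hkj, y, hy, hyx⟩ := h8 l x hx i j
    exact ⟨k, hki, hkj, y, hy, by rw [hyx]⟩) h9
  omega

end Pool.Agent.SDC
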