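import Pool.Agent.SDC.Targets2

set_option autoImplicit false

open MeasureTheory Set Real
open scoped RealInnerProductSpace

namespace Pool.Agent.SDC

theorem DNF_inner (x y : E3) : ⟪x, y⟫ = x 0 * y 0 + x 1 * y 1 + x 2 * y 2 := by
  rw [PiLp.inner_apply, Fin.sum_univ_three]
  simp only [RCLike.inner_apply, conj_trivial]
  ring

theorem DNF_norm (x : E3) : ‖x‖ ^ 2 = x 0 ^ 2 + x 1 ^ 2 + x 2 ^ 2 := by
  rw [← real_inner_self_eq_norm_sq, DNF_inner]
  ring

theorem DNF_one {x : E3} (h : x 0 ^ 2 + x 1 ^ 2 + x 2 ^ 2 = 1) : ‖x‖ = 1 := by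
  have h1 := DNF_norm x
  rw [h] at h1
  have h2 : (‖x‖ - 1) * (‖x‖ + 1) = 0 := by linear_combination h1
  rcases mul_eq_zero.mp h2 with h3 | h3
  · linarith
  · linarith [norm_nonneg x]

theorem DNF_Ld_pos : 0 < Ld := Real.sqrt_pos.mpr (by positivity)

theorem DNF_Ld_sq : Ld ^ 2 = 1 + goldenRatio ^ 2 := Real.sq_sqrt (by positivity)

theorem DNF_sg (b : Bool) : sg b ^ 2 = 1 := by
  cases b <;> simp [sg]

theorem DNF_sg_inj {b c : Bool} (h : sg b = sg c) : b = c := by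
  cases b <;> cases c <;> simp [sg] at h ⊢ <;> norm_num at h

theorem DNF_sg_ne (b : Bool) : sg b ≠ 0 := by
  intro h
  have := DNF_sg b
  rw [h] at this
  norm_num at this

theorem DNF_ex (a : ℝ) : ∃ b, sg b * a = |a| := by
  rcases le_total 0 a with h | h
  · exact ⟨true, by simp [sg, abs_of_nonneg h]⟩
  · exact ⟨false, by simp [sg, abs_of_nonpos h]⟩

theorem DNF_le (b : Bool) (a : ℝ) : sg b * a ≤ |a| := by
  cases b
  · simp [sg, neg_le_abs]
  · simp [sg, le_abs_self]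

theorem DNF_in0 (b d : Bool) (x : E3) :
    ⟪nD (0, b, d), x⟫ = (sg b * x 1 + goldenRatio * (sg d * x 2)) / Ld := by
  rw [DNF_inner]
  simp [nD]
  ring

theorem DNF_in1 (b d : Bool) (x : E3) :
    ⟪nD (1, b, d), x⟫ = (sg b * x 0 + goldenRatio * (sg d * x 1)) / Ld := by
  rw [DNF_inner]
  simp [nD]
  ring

theorem DNF_in2 (b d : Bool) (x : E3) :
    ⟪nD (2, b, d), x⟫ = (goldenRatio * (sg d * x 0) + sg b * x 2) / Ld := by
  rw [DNF_inner]
  simp [nD]
  ring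

theorem DNF_onb (k : ID) : Onb (nD k) (eD k) (fD k) := by
  obtain ⟨i, b, d⟩ := k
  have hL := DNF_Ld_pos
  have hL2 := DNF_Ld_sq
  have hb := DNF_sg b
  have hd := DNF_sg d
  have k1 : (sg b / Ld) ^ 2 + (sg d * goldenRatio / Ld) ^ 2 = 1 := by
    rw [div_pow, div_pow, mul_pow, hb, hd, ← add_div, one_mul, ← hL2, div_self (by positivity)]
  have k2 : (sg b * goldenRatio / Ld) ^ 2 + (- sg d / Ld) ^ 2 = 1 := by
    rw [div_pow, div_pow, mul_pow, neg_sq, hb, hd, ← add_div, one_mul, add_comm, ← hL2,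
      div_self (by positivity)]
  have k3 : (sg b / Ld) * (sg b * goldenRatio / Ld) + (sg d * goldenRatio / Ld) * (- sg d / Ld)
      = 0 := by
    have : (sg b / Ld) * (sg b * goldenRatio / Ld) + (sg d * goldenRatio / Ld) * (- sg d / Ld)
      = (sg b ^ 2 - sg d ^ 2) * (goldenRatio / Ld ^ 2) := by
      field_simp
      ring
    rw [this, hb, hd]
    ring
  fin_cases i
  · refine ⟨DNF_one ?_, DNF_one ?_, DNF_one ?_, ?_, ?_, ?_⟩
    · simp only [nD]
      simp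
      linarith [k1]
    · simp [eD]
    · simp only [fD]
      simp
      linarith [k2, neg_sq (sg d / Ld), neg_div Ld (sg d)]
    · rw [DNF_inner]
      simp [nD, eD]
    · rw [DNF_inner]
      simp [nD, fD]
      linarith [k3]
    · rw [DNF_inner]
      simp [eD, fD]
  · refine ⟨DNF_one ?_, DNF_one ?_, DNF_one ?_, ?_, ?_, ?_⟩
    · simp only [nD]
      simp
      linarith [k1]
    · simp [eD]
    · simp only [fD]
      simp
      linarith [k2, neg_sq (sg d / Ld), neg_div Ld (sg d)]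
    · rw [DNF_inner]
      simp [nD, eD]
    · rw [DNF_inner]
      simp [nD, fD]
      linarith [k3]
    · rw [DNF_inner]
      simp [eD, fD]
  · refine ⟨DNF_one ?_, DNF_one ?_, DNF_one ?_, ?_, ?_, ?_⟩
    · simp only [nD]
      simp
      linarith [k1]
    · simp [eD]
    · simp only [fD]
      simp
      linarith [k2, neg_sq (sg d / Ld), neg_div Ld (sg d)]
    · rw [DNF_inner]
      simp [nD, eD]
    · rw [DNF_inner]
      simp [nD, fD]
      linarith [k3]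
    · rw [DNF_inner]
      simp [eD, fD]

theorem DNF_inj : Function.Injective nD := by
  rintro ⟨i, b, d⟩ ⟨i', b', d'⟩ h
  have hL := DNF_Ld_pos.ne'
  have hb := DNF_sg_ne b
  have hd := DNF_sg_ne d
  have hg : goldenRatio ≠ 0 := goldenRatio_ne_zero
  have h0 := congrArg (fun v : E3 => v 0) h
  have h1 := congrArg (fun v : E3 => v 1) h
  have h2 := congrArg (fun v : E3 => v 2) h
  fin_cases i <;> fin_cases i' <;> simp [nD, hL, hb, hd, hg] at h0 h1 h2
  · have e1 := DNF_sg_inj h1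
    have e2 := DNF_sg_inj h2
    rw [e1, e2]
  · have e1 := DNF_sg_inj h0
    have e2 := DNF_sg_inj h1
    rw [e1, e2]
  · have e1 := DNF_sg_inj h2
    have e2 := DNF_sg_inj h0
    rw [e1, e2]

theorem DNF_dod : Dod = Poly nD (fun _ => 1) := by
  have hL := DNF_Ld_pos
  have hg : 0 < goldenRatio := goldenRatio_pos
  have hLd : √(1 + goldenRatio ^ 2) = Ld := rfl
  ext x
  constructor
  · rintro ⟨h0, h1, h2⟩ ⟨i, b, d⟩
    rw [hLd] at h0 h1 h2
    fin_cases i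
    · change ⟪nD (0, b, d), x⟫ ≤ 1
      rw [DNF_in0, div_le_one hL]
      nlinarith [DNF_le b (x 1), DNF_le d (x 2)]
    · change ⟪nD (1, b, d), x⟫ ≤ 1
      rw [DNF_in1, div_le_one hL]
      nlinarith [DNF_le b (x 0), DNF_le d (x 1)]
    · change ⟪nD (2, b, d), x⟫ ≤ 1
      rw [DNF_in2, div_le_one hL]
      nlinarith [DNF_le b (x 2), DNF_le d (x 0)]
  · intro h
    refine ⟨?_, ?_, ?_⟩
    · obtain ⟨b, hb⟩ := DNF_ex (x 1)
      obtain ⟨d, hd⟩ := DNF_ex (x 2)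
      have h3 : ⟪nD (0, b, d), x⟫ ≤ 1 := h (0, b, d)
      rw [DNF_in0, div_le_one hL, hb, hd] at h3
      exact h3
    · obtain ⟨b, hb⟩ := DNF_ex (x 0)
      obtain ⟨d, hd⟩ := DNF_ex (x 1)
      have h3 : ⟪nD (1, b, d), x⟫ ≤ 1 := h (1, b, d)
      rw [DNF_in1, div_le_one hL, hb, hd] at h3
      exact h3
    · obtain ⟨b, hb⟩ := DNF_ex (x 2)
      obtain ⟨d, hd⟩ := DNF_ex (x 0)
      have h3 : ⟪nD (2, b, d), x⟫ ≤ 1 := h (2, b, d)
      rw [DNF_in2, div_le_one hL, hb, hd] at h3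
      exact h3

theorem DNF_big (x : E3) (hx : x ≠ 0) : ∃ k, ‖x‖ < 3 * ⟪nD k, x⟫ := by
  have hL := DNF_Ld_pos
  have hL2 := DNF_Ld_sq
  have hg : 0 < goldenRatio := goldenRatio_pos
  have hLg : Ld < 1 + goldenRatio := by nlinarith
  set S := |x 0| + |x 1| + |x 2| with hS
  have hSn : ‖x‖ ≤ S := by
    have h1 := DNF_norm x
    have h0 : 0 ≤ S := by positivity
    have h2 : ‖x‖ ^ 2 ≤ S ^ 2 := by
      rw [h1, hS, ← sq_abs (x 0), ← sq_abs (x 1), ← sq_abs (x 2)]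
      nlinarith [mul_nonneg (abs_nonneg (x 0)) (abs_nonneg (x 1)),
        mul_nonneg (abs_nonneg (x 0)) (abs_nonneg (x 2)),
        mul_nonneg (abs_nonneg (x 1)) (abs_nonneg (x 2))]
    exact abs_le_of_sq_le_sq' h2 h0 |>.2
  have hSp : 0 < S := lt_of_lt_of_le (norm_pos_iff.mpr hx) hSn
  by_contra hcon
  push Not at hcon
  obtain ⟨b0, hb0⟩ := DNF_ex (x 0)
  obtain ⟨b1, hb1⟩ := DNF_ex (x 1)
  obtain ⟨b2, hb2⟩ := DNF_ex (x 2)
  have k0 := hcon (0, b1, b2)
  have k1 := hcon (1, b0, b1)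
  have k2 := hcon (2, b2, b0)
  rw [DNF_in0, hb1, hb2, ← mul_div_assoc, div_le_iff₀ hL] at k0
  rw [DNF_in1, hb0, hb1, ← mul_div_assoc, div_le_iff₀ hL] at k1
  rw [DNF_in2, hb2, hb0, ← mul_div_assoc, div_le_iff₀ hL] at k2
  have h3 : 3 * ((1 + goldenRatio) * S) ≤ 3 * (‖x‖ * Ld) := by
    rw [hS]
    linarith
  have h4 : ‖x‖ * Ld ≤ S * Ld := mul_le_mul_of_nonneg_right hSn hL.le
  nlinarith

theorem p_DNF : T_DNF := ⟨DNF_onb, DNF_inj, DNF_dod, DNF_big⟩

end Pool.Agent.SDC
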