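import Pool.Agent.SDC.Defs

set_option autoImplicit false

/-!
# SDC targets, parts B (volumes), C (one facet), D (counting), E (the dodecahedron), F (assembly).
The proof of every target is in its docstring.
-/

open MeasureTheory Set Real
open scoped RealInnerProductSpace

namespace Pool.Agent.SDC

/-! ## Part A, supplement: the truncated exit -/

/-- TR (uses HCL, BF, KAP, BET, ALP). PROOF. `ρ = √(R²/h² - 1)`, `cc ρ = R/h`, `B = Bf t R ≥ 0`. By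
HCL and `h³ Bf (t/h) (R/h) = h Bf t R`, `h³ Bf (t/h) 1 = h³/2 - (3/2)t²h + t³` for `h ≥ t`, `0` for
`h ≤ t`: `H t κ β h ρ = φ h := h B - κ (h R² - h³)/2 - β (1 - h/R) - [h ≥ t](h³/2 - (3/2)t²h + t³)`.
`φ 1 = alp t` (HCL, `h = 1`). For `1 ≤ h ≤ h' ≤ t`, `φ h ≤ φ h'`, as `h³ - hR²` is monotone on
`[1, ∞)` (`3 > R²`). For `t ≤ h ≤ R`, `φ` is a cubic polynomial with `φ'' = -3(1-κ)h ≤ 0`: concave,
and `φ t ≥ φ 1 = alp t`, `φ R = H .. R 0 = 0 ≥ alp t`. -/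
def T_TR : Prop := ∀ t h : ℝ, 1 ≤ t → t < R → 1 ≤ h → h ≤ R →
  alp t ≤ H t (kap t) (bet t) h √(R ^ 2 / h ^ 2 - 1)

/-! ## Part B: volumes -/

/-- ONB. PROOF. E.g. an orthonormal basis of the orthogonal complement of `span {n}`
(`finrank = 2`), or explicit coordinates. -/
def T_ONB : Prop := ∀ n : E3, ‖n‖ = 1 → ∃ e f : E3, Onb n e f

/-- CRD. Coordinates. PROOF. `x ↦ (⟪n,x⟫, (⟪e,x⟫, ⟪f,x⟫))` is the composition of the isometry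
`b.repr` of an orthonormal basis `b` (`OrthonormalBasis.mk`, `measurePreserving_repr`), of
`EuclideanSpace.volume_preserving_measurableEquiv` and of the measure preserving identification
of `Fin 3 → ℝ` with `ℝ × (ℝ × ℝ)` (`MeasurableEquiv.piFinSuccAbove`, `volume_preserving_..`). -/
def T_CRD : Prop := ∀ n e f : E3, Onb n e f →
  MeasurePreserving (fun x : E3 => (⟪n, x⟫, (⟪e, x⟫, ⟪f, x⟫))) volume volume ∧
  ∀ x : E3, ‖x‖ ^ 2 = ⟪n, x⟫ ^ 2 + ⟪e, x⟫ ^ 2 + ⟪f, x⟫ ^ 2 ∧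
    x = ⟪n, x⟫ • n + ⟪e, x⟫ • e + ⟪f, x⟫ • f

/-- SLI (uses CRD). PROOF. By CRD the volume is `∫⁻ z in Ioi 0` of the area of
`{p | z⁻¹ • p ∈ Q ∧ z ≤ m (z⁻¹ • p)}` (`Measure.prod_apply`), i.e. of `z • {w ∈ Q | z ≤ m w}`,
which is `z² * area {w ∈ Q | z ≤ m w}` (`Measure.addHaar_smul`). Tonelli and `∫ z in 0..m, z² =
m³/3`. -/
def T_SLI : Prop := ∀ n e f : E3, Onb n e f → ∀ (Q : Set (ℝ × ℝ)) (m : ℝ × ℝ → ℝ),
  MeasurableSet Q → Measurable m → (∀ w, 0 ≤ m w) →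
  volume {x : E3 | 0 < ⟪n, x⟫ ∧ (⟪e, x⟫ / ⟪n, x⟫, ⟪f, x⟫ / ⟪n, x⟫) ∈ Q ∧
    ⟪n, x⟫ ≤ m (⟪e, x⟫ / ⟪n, x⟫, ⟪f, x⟫ / ⟪n, x⟫)} =
    ∫⁻ w in Q, ENNReal.ofReal (m w ^ 3 / 3)

/-- FRM (uses CRD, SLI). One facet. PROOF. Put `z = ⟪n i,x⟫`, `w = (⟪e,x⟫/z, ⟪f,x⟫/z)`,
`c = cc (nr w)`; `‖x‖ = z c`. Then `x ∈ CR n h ϱ i ↔ 0 < z ∧ w ∈ Q`, where
`Q = {w ∈ Qs | h i * cc (nr w) < ϱ}` (`⟪n j, x⟫ = z (⟪n j,n i⟫ + w.1 ⟪n j,e⟫ + w.2 ⟪n j,f⟫)`), and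
for such `x`: `x ∈ Poly ↔ z ≤ h i`, `‖x‖ ≤ s ↔ z ≤ s/c` and `z ≤ h i` implies `‖x‖ ≤ ϱ`. So by SLI
the three volumes are the integrals over `Q` of `h³/3`, `min (h, t/c)³/3`, `(1/c)³/3`; `Q` is
bounded (`nr w < ϱ / h i`), so all are finite and integrable; and
`G = h³ - min (h, t/c)³ - κ h³ - β/c³`. -/
def T_FRM : Prop := ∀ (ι : Type) [Fintype ι] (n : ι → E3) (h : ι → ℝ) (i : ι) (e f : E3)
  (t κ β ϱ : ℝ), (∀ i, ‖n i‖ = 1) → (∀ i, 0 < h i) → Onb (n i) e f → 0 < t → 0 < ϱ →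
  3 * ((1 - κ) * (volume (Poly n h ∩ Metric.closedBall 0 ϱ ∩ CR n h ϱ i)).toReal
    - (volume (Poly n h ∩ Metric.closedBall 0 t ∩ CR n h ϱ i)).toReal
    - β * (volume (Metric.closedBall 0 1 ∩ CR n h ϱ i)).toReal) =
    ∫ w in {w | w ∈ Qs n h i e f ∧ h i * cc (nr w) < ϱ}, G t κ β (h i) (nr w)

/-- PAR. PROOF. If `x ∉ Cinf` then some `⟪n i,x⟫/h i > ‖x‖/ϱ`; for the `i` with the largest quotient
`x ∈ CR n h ϱ i`. `Cinf` and `CR i` are disjoint; for `i ≠ j`,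
`CR i ∩ CR j ⊆ {x | ⟪h i • n j - h j • n i, x⟫ = 0}`, a null set, because
`h i • n j = h j • n i` would give `n i = n j` (norms). All sets are measurable
(`measure_iUnion₀` or induction, `measure_inter_add_diff₀`). -/
def T_PAR : Prop := ∀ (ι : Type) [Fintype ι] (n : ι → E3) (h : ι → ℝ) (ϱ : ℝ) (A : Set E3),
  (∀ i, ‖n i‖ = 1) → (∀ i, 0 < h i) → Function.Injective n → 0 < ϱ → MeasurableSet A →
  volume A = volume (A ∩ Cinf n h ϱ) + ∑ i, volume (A ∩ CR n h ϱ i)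

/-- SUM (uses FRM, PAR). PROOF. PAR for `A = Poly ∩ B_ϱ`, `Poly ∩ B_t`, `B_1`, and FRM. On `Cinf`,
`Poly ∩ B_s ∩ Cinf = B_s ∩ Cinf` for `s ≤ ϱ` (`⟪n i,x⟫ ≤ h i ‖x‖/ϱ ≤ h i`), with volume
`s³ vol (B_1 ∩ Cinf)` (`Cinf` is a cone; `Measure.addHaar_smul`). The volume of the unit ball is
`4π/3` (`EuclideanSpace.volume_closedBall_fin_three`). -/
def T_SUM : Prop := ∀ (ι : Type) [Fintype ι] (n e f : ι → E3) (h : ι → ℝ) (t κ β ϱ : ℝ),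
  (∀ i, 0 < h i) → Function.Injective n → (∀ i, Onb (n i) (e i) (f i)) → 0 < t → t ≤ ϱ →
  3 * ((1 - κ) * (volume (Poly n h ∩ Metric.closedBall 0 ϱ)).toReal
    - (volume (Poly n h ∩ Metric.closedBall 0 t)).toReal) =
    4 * π * β + (∑ i, ∫ w in {w | w ∈ Qs n h i (e i) (f i) ∧ h i * cc (nr w) < ϱ},
      G t κ β (h i) (nr w)) +
    3 * (volume (Metric.closedBall (0 : E3) 1 ∩ Cinf n h ϱ)).toReal *
      ((1 - κ) * ϱ ^ 3 - t ^ 3 - β)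

/-! ## Part C: one facet -/

/-- FC1. One ray. PROOF. Let `S = {s | 0 < s ∧ s < ρ ∧ ∀ j, s * b j ≤ a j}`, an interval
(`OrdConnected`), `I r = ∫ s in 0..r, g s * s`. If `S = ∅` the integral is `0 ≥ α`. Otherwise let
`p = sInf S`, `q = sSup S`, `0 ≤ p ≤ q ≤ ρ`, `0 < q`: the integral is `I q - I p`. By the change of
sign (`g ≤ 0` on `[0,r]` or `0 ≤ g` on `[r,∞)` for every `r`), `I p ≤ max 0 (I q)` for `0 ≤ p ≤ q`,
so the integral is `≥ min (I q) 0`. If `q = ρ`: `≥ min (I ρ) 0 ≥ α`. If `q < ρ`: all constraints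
hold at `q` (closedness), and some constraint is tight at `q` with `0 < b j` (otherwise `q + ε ∈ S`
for small `ε > 0`; finitely many `j`). -/
def T_FC1 : Prop := ∀ (J : Type) [Fintype J] (b a : J → ℝ) (ρ α : ℝ) (g : ℝ → ℝ), Continuous g →
  (∀ r r', 0 ≤ r → r ≤ r' → 0 ≤ g r → 0 ≤ g r') → 0 < ρ → α ≤ 0 →
  α ≤ ∫ s in (0 : ℝ)..ρ, g s * s →
  α ≤ ∫ s in {s | 0 < s ∧ s < ρ ∧ ∀ j, s * b j ≤ a j}, g s * s ∨
  ∃ j s, 0 < s ∧ s < ρ ∧ (∀ k, s * b k ≤ a k) ∧ s * b j = a j ∧ 0 < b j ∧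
    min (∫ r in (0 : ℝ)..s, g r * r) 0 ≤
      ∫ r in {s | 0 < s ∧ s < ρ ∧ ∀ j, s * b j ≤ a j}, g r * r

/-- The contribution of a side. -/
noncomputable def Us (g : ℝ → ℝ) (α a x : ℝ) : ℝ :=
  if 0 < x then max (α - ∫ s in (0 : ℝ)..(a / x), g s * s) 0 else 0

/-- FC2. PROOF. `Us g α a` is continuous (it vanishes for `x ≤ a/ρ'`), so
`ψ ↦ Us g α a (cos (ψ - θ))` is continuous, with period `2π`; its integral over `[-π, π]` is the one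
for `θ = 0` (`Function.Periodic.intervalIntegral_add_eq`), which is even in `ψ` and vanishes for
`π/2 ≤ |ψ| ≤ π`. At `ψ = π/2` the two integrands are both `0` or the point is negligible. -/
def T_FC2 : Prop := ∀ (g : ℝ → ℝ) (α τ a θ : ℝ), Continuous g → 0 < a →
  (∃ ρ', 0 < ρ' ∧ ∀ r, ρ' ≤ r → α ≤ ∫ s in (0 : ℝ)..r, g s * s) →
  ∫ ψ in (0 : ℝ)..(π / 2), max (α - ∫ s in (0 : ℝ)..(a / cos ψ), g s * s) 0 ≤ τ →
  Continuous (fun ψ => Us g α a (cos (ψ - θ))) ∧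
  ∫ ψ in Ioo (-π) π, Us g α a (cos (ψ - θ)) ≤ 2 * τ

/-- FC3. Polar coordinates. PROOF. `integral_comp_polarCoord_symm` and Fubini; the integrand
`g r * r` is bounded on the bounded set in question. -/
def T_FC3 : Prop := ∀ (Q : Set (ℝ × ℝ)) (ρ : ℝ) (g : ℝ → ℝ), MeasurableSet Q → 0 < ρ →
  Continuous g →
  IntegrableOn (fun ψ : ℝ => ∫ s in {s : ℝ | 0 < s ∧ s < ρ ∧ (s * cos ψ, s * sin ψ) ∈ Q},
    g s * s) (Ioo (-π) π) ∧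
  ∫ w in {w | w ∈ Q ∧ nr w < ρ}, g (nr w) =
    ∫ ψ in Ioo (-π) π, ∫ s in {s : ℝ | 0 < s ∧ s < ρ ∧ (s * cos ψ, s * sin ψ) ∈ Q}, g s * s

/-- FC4. The exceptional directions. PROOF. For each pair `j ≠ k` the point `(s cos ψ, s sin ψ)` is
the same for all such `(s, ψ)` by the hypothesis, and not `0`, so `ψ ∈ (-π, π)` is unique. The set
is finite. -/
def T_FC4 : Prop := ∀ (J : Type) [Fintype J] (θ a : J → ℝ) (Q : Set (ℝ × ℝ)),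
  (∀ j k, j ≠ k → ∀ w ∈ Q, ∀ w' ∈ Q, w.1 * cos (θ j) + w.2 * sin (θ j) = a j →
    w.1 * cos (θ k) + w.2 * sin (θ k) = a k → w'.1 * cos (θ j) + w'.2 * sin (θ j) = a j →
    w'.1 * cos (θ k) + w'.2 * sin (θ k) = a k → w = w') →
  {ψ : ℝ | ψ ∈ Ioo (-π) π ∧ ∃ j k, j ≠ k ∧ ∃ s, 0 < s ∧ (s * cos ψ, s * sin ψ) ∈ Q ∧
    s * cos (ψ - θ j) = a j ∧ s * cos (ψ - θ k) = a k}.Finite

/-- FAC (uses FC1, FC2, FC3, FC4). One facet in the plane. PROOF. `Q` = the set of all `w` which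
satisfy the constraints; `r (cos ψ, sin ψ)` satisfies the constraint `j` iff
`r cos (ψ - θ j) ≤ a j`. For `ψ` outside of the finite set of FC4, FC1 (`b j = cos (ψ - θ j)`)
gives for the inner integral `K ψ` of FC3: `K ψ ≥ α`, or there are `j`, `s` with exit point
`w = s (cos ψ, sin ψ) ∈ Q`, tight `j` only (so `j ∈ S`, the set in the conclusion), `a j = s b j >
0` and `K ψ ≥ min (I s) 0 ≥ α + min (I s - α) 0 = α - Us g α (a j) (cos (ψ - θ j))`, `s = a j / b j`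
(`α ≤ 0`). So in all cases `K ψ ≥ α - ∑ j ∈ S', Us g α (a j) (cos (ψ - θ j))`, where
`S' = {j ∈ S | 0 < a j}`. Integrate over `(-π, π)` with FC2 (`0 ≤ τ`, e.g. from the hypothesis on
`τ` for `a = 1`). -/
def T_FAC : Prop := ∀ (J : Type) [Fintype J] (θ a : J → ℝ) (ρ α τ : ℝ) (g : ℝ → ℝ),
  Continuous g → (∀ r r', 0 ≤ r → r ≤ r' → 0 ≤ g r → 0 ≤ g r') → 0 < ρ → α ≤ 0 →
  α ≤ ∫ s in (0 : ℝ)..ρ, g s * s →
  (∃ ρ', 0 < ρ' ∧ ∀ r, ρ' ≤ r → α ≤ ∫ s in (0 : ℝ)..r, g s * s) →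
  (∀ a', 0 < a' →
    ∫ ψ in (0 : ℝ)..(π / 2), max (α - ∫ s in (0 : ℝ)..(a' / cos ψ), g s * s) 0 ≤ τ) →
  (∀ j k, j ≠ k → ∀ w w' : ℝ × ℝ, (∀ l, w.1 * cos (θ l) + w.2 * sin (θ l) ≤ a l) →
    (∀ l, w'.1 * cos (θ l) + w'.2 * sin (θ l) ≤ a l) →
    w.1 * cos (θ j) + w.2 * sin (θ j) = a j →
    w.1 * cos (θ k) + w.2 * sin (θ k) = a k → w'.1 * cos (θ j) + w'.2 * sin (θ j) = a j →
    w'.1 * cos (θ k) + w'.2 * sin (θ k) = a k → w = w') →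
  2 * π * α - 2 * τ * ({j : J | ∃ w : ℝ × ℝ, w.1 * cos (θ j) + w.2 * sin (θ j) = a j ∧
      ∀ k, k ≠ j → w.1 * cos (θ k) + w.2 * sin (θ k) < a k}.ncard : ℝ) ≤
    ∫ w in {w : ℝ × ℝ | (∀ l, w.1 * cos (θ l) + w.2 * sin (θ l) ≤ a l) ∧ nr w < ρ}, g (nr w)

/-- FCT (uses FAC, THR). One facet in space. PROOF. `J = {j // j ≠ i ∧ n j ≠ - n i}`. For `j ∈ J`
the vector `(⟪n j,e⟫, ⟪n j,f⟫)` is not zero (its norm squared is `1 - ⟪n j,n i⟫²`, and `n j ≠ n i`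
by `Irr`: from `n i = n j`, `i ≠ j`, follows `h i < h j < h i`), write it as
`L j (cos θ j, sin θ j)`, `L j > 0`; the constraint `j` of `Qs` is
`w.1 cos θ j + w.2 sin θ j ≤ a j := (h j / h i - ⟪n j,n i⟫)/L j`. The constraints of `i` and of the
`j` with `n j = - n i` hold always (strictly: `-h i < h j`). If two constraints `j ≠ k` of `J` are
tight at `w, w'`, `w ≠ w'`, then `v = h i (n i + w.1 e + w.2 f)` lies on the planes `i, j, k` and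
`u = (w.1 - w'.1) e + (w.2 - w'.2) f ≠ 0` is orthogonal to `n i, n j, n k`, impossible by THR. If
only the constraint `j` of `J` is tight at `w` then `x = h i (n i + w.1 e + w.2 f)` shows
`Adj n h i j`; so the number of FAC is at most `ncard {j | Adj n h i j}` (`0 ≤ τ`). -/
def T_FCT : Prop := ∀ (ι : Type) [Fintype ι] (n : ι → E3) (h : ι → ℝ) (i : ι) (e f : E3)
  (ρ α τ : ℝ) (g : ℝ → ℝ), (∀ i, ‖n i‖ = 1) → (∀ i, 0 < h i) → Irr n h → Onb (n i) e f →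
  Continuous g → (∀ r r', 0 ≤ r → r ≤ r' → 0 ≤ g r → 0 ≤ g r') → 0 < ρ → α ≤ 0 →
  α ≤ ∫ s in (0 : ℝ)..ρ, g s * s →
  (∃ ρ', 0 < ρ' ∧ ∀ r, ρ' ≤ r → α ≤ ∫ s in (0 : ℝ)..r, g s * s) →
  (∀ a', 0 < a' →
    ∫ ψ in (0 : ℝ)..(π / 2), max (α - ∫ s in (0 : ℝ)..(a' / cos ψ), g s * s) 0 ≤ τ) →
  2 * π * α - 2 * τ * ({j | Adj n h i j}.ncard : ℝ) ≤
    ∫ w in {w | w ∈ Qs n h i e f ∧ nr w < ρ}, g (nr w)

/-! ## Part D: counting the sides -/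

/-- L3. PROOF. Four vectors in a space of dimension three are dependent:
`x0 • m0 + x1 • m1 + x2 • m2 + x3 • m3 = 0`, not all coefficients zero. The inner products with
`d1`, `d2`, `d3` give `x2 ⟪m2,d1⟫ + x3 ⟪m3,d1⟫ = 0` etc. with negative inner products: each two of
`x1, x2, x3` have opposite signs or are both zero. So all three are zero, and `x0 • m0 = 0`. -/
def T_L3 : Prop := ∀ m0 m1 m2 m3 d1 d2 d3 : E3, m0 ≠ 0 →
  ⟪m0, d1⟫ = 0 → ⟪m0, d2⟫ = 0 → ⟪m0, d3⟫ = 0 →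
  ⟪m1, d1⟫ = 0 → ⟪m2, d2⟫ = 0 → ⟪m3, d3⟫ = 0 →
  ⟪m2, d1⟫ < 0 → ⟪m3, d1⟫ < 0 → ⟪m1, d2⟫ < 0 → ⟪m3, d2⟫ < 0 → ⟪m1, d3⟫ < 0 → ⟪m2, d3⟫ < 0 →
  False

/-- THR (uses L3). Three planes through `v` have no line in common. PROOF. Let `y i` be the point of
`Irr` for `i`, and `d i = y i - v`, projected to the orthogonal complement of `u` (if `u ≠ 0`); this
does not change the inner products with `n i, n k, n l`. L3 with `m0 = u`. -/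
def T_THR : Prop := ∀ (ι : Type) (n : ι → E3) (h : ι → ℝ), Irr n h → ∀ i k l : ι, i ≠ k →
  i ≠ l → k ≠ l → ∀ v u : E3, ⟪n i, v⟫ = h i → ⟪n k, v⟫ = h k → ⟪n l, v⟫ = h l →
  ⟪n i, u⟫ = 0 → ⟪n k, u⟫ = 0 → ⟪n l, u⟫ = 0 → u = 0

/-- SD2 (uses L3). At most two sides of a facet at a point. PROOF. `x j` = the point of `Adj i j`,
`d j = x j - v`: `⟪n i,d j⟫ = ⟪n j,d j⟫ = 0`, `⟪n k,d j⟫ < 0`, `⟪n l,d j⟫ < 0`. L3, `m0 = n i`. -/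
def T_SD2 : Prop := ∀ (ι : Type) (n : ι → E3) (h : ι → ℝ), (∀ i, ‖n i‖ = 1) →
  ∀ i j k l : ι, j ≠ k → j ≠ l → k ≠ l → Adj n h i j → Adj n h i k → Adj n h i l →
  ∀ v : E3, ⟪n i, v⟫ = h i → ⟪n j, v⟫ = h j → ⟪n k, v⟫ = h k → ⟪n l, v⟫ = h l → False

/-- MX2 (uses L3). At most two mixed facets at a point. PROOF. Let `y i` be the point of `Irr`. If
`⟪c,y i⟫ ≥ ⟪c,v⟫` take the point `z i` of the segment from `y i` to a point `x ∈ Fc i` with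
`⟪c,x⟫ < ⟪c,v⟫`, at the height `⟪c,v⟫` (`z i ≠ x`), otherwise use `x ∈ Fc i` with `⟪c,v⟫ < ⟪c,x⟫`.
Then `d i = z i - v` has `⟪c,d i⟫ = ⟪n i,d i⟫ = 0` and `⟪n j,d i⟫ < 0` for `j ≠ i` tight at `v`. L3
with `m0 = c` (`c ≠ 0`). -/
def T_MX2 : Prop := ∀ (ι : Type) (n : ι → E3) (h : ι → ℝ) (c : E3), Irr n h →
  ∀ i j k : ι, i ≠ j → i ≠ k → j ≠ k → ∀ v : E3, v ∈ Fc n h i → v ∈ Fc n h j → v ∈ Fc n h k →
  (∀ l, l = i ∨ l = j ∨ l = k →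
    (∃ x ∈ Fc n h l, ⟪c, x⟫ < ⟪c, v⟫) ∧ ∃ x ∈ Fc n h l, ⟪c, v⟫ < ⟪c, x⟫) → False

/-- LOW. If two sides of a facet start at `v`, it is the lowest point. PROOF. `x j`, `x k` = the
points of `Adj i j`, `Adj i k` (both in `Poly`), `d j = x j - v`, `d k = x k - v`, `d = x - v`.
`n i, n j, n k` are independent (pair a relation with `d j`, `d k`), and
`d - μ d j - ν d k`, `μ = ⟪n k,d⟫/⟪n k,d j⟫ ≥ 0`, `ν = ⟪n j,d⟫/⟪n j,d k⟫ ≥ 0`, is orthogonal to all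
three, hence zero (dimension three). So `⟪c,d⟫ = μ ⟪c,d j⟫ + ν ⟪c,d k⟫ ≥ 0`. -/
def T_LOW : Prop := ∀ (ι : Type) (n : ι → E3) (h : ι → ℝ) (c : E3), (∀ i, ‖n i‖ = 1) →
  ∀ i j k : ι, j ≠ k → Adj n h i j → Adj n h i k →
  ∀ v : E3, v ∈ Fc n h i → v ∈ Fc n h j → v ∈ Fc n h k →
  (∀ x ∈ Fc n h i ∩ Fc n h j, ⟪c, v⟫ ≤ ⟪c, x⟫) → (∀ x ∈ Fc n h i ∩ Fc n h k, ⟪c, v⟫ ≤ ⟪c, x⟫) →
  ∀ x ∈ Fc n h i, ⟪c, v⟫ ≤ ⟪c, x⟫

/-- TRI. At least three facets at a vertex. PROOF. Otherwise the constraints tight at `v` are among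
`i, j`. Take `u` from `Gen` with `⟪c,u⟫ < 0` (change the sign), then `v + ε u`, `ε > 0` small, is in
`Poly` (finitely many strict constraints), all constraints tight at `v` stay tight, but
`⟪c, v + ε u⟫ < ⟪c,v⟫`. -/
def T_TRI : Prop := ∀ (ι : Type) [Fintype ι] (n : ι → E3) (h : ι → ℝ) (c : E3), Gen n c →
  ∀ v ∈ Poly n h,
  (∀ x ∈ Poly n h, (∀ k, ⟪n k, v⟫ = h k → ⟪n k, x⟫ = h k) → ⟪c, v⟫ ≤ ⟪c, x⟫) →
  ∀ i j : ι, ∃ k, k ≠ i ∧ k ≠ j ∧ v ∈ Fc n h k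

/-- UNQ (uses TRI, THR). The lowest point of a facet is unique. PROOF. Let `m` be the midpoint of
`v, v'`, again a lowest point of `Fc i`. By TRI at `m` for `(i, i)` there is `k ≠ i`, for `(i, k)`
there is `l ≠ i, k`, tight at `m`, hence tight at `v` and at `v'`. THR for `u = v' - v`. -/
def T_UNQ : Prop := ∀ (ι : Type) [Fintype ι] (n : ι → E3) (h : ι → ℝ) (c : E3), Gen n c →
  Irr n h → ∀ i, ∀ v ∈ Fc n h i, ∀ v' ∈ Fc n h i, (∀ x ∈ Fc n h i, ⟪c, v⟫ ≤ ⟪c, x⟫) →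
  (∀ x ∈ Fc n h i, ⟪c, v'⟫ ≤ ⟪c, x⟫) → v = v'

/-- SLC. Every slice meets three facets. PROOF. Choose `d ≠ 0` with `⟪c,d⟫ = ⟪n i,d⟫ = 0`
(dimension) and `⟪n j,d⟫ ≤ 0` (sign). `{s ≥ 0 | x + s d ∈ Poly}` is closed, bounded by the
hypothesis, an interval `[0, s1]`; at `x1 = x + s1 d` some constraint `k` with `0 < ⟪n k,d⟫` is
tight. -/
def T_SLC : Prop := ∀ (ι : Type) [Fintype ι] (n : ι → E3) (h : ι → ℝ) (c : E3),
  (∀ s : ℝ, Bornology.IsBounded {x | x ∈ Poly n h ∧ ⟪c, x⟫ ≤ s}) →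
  ∀ x ∈ Poly n h, ∀ i j : ι, ∃ k, k ≠ i ∧ k ≠ j ∧ ∃ y ∈ Fc n h k, ⟪c, y⟫ = ⟪c, x⟫

/-- GEN. A generic functional with bounded sublevel sets. PROOF. For all `i, j` choose a unit vector
`u i j` orthogonal to `n i` and `n j`. The set of the `c` with `⟪c,u i j⟫ ≠ 0` for all `i, j` is a
finite intersection of dense open sets, hence dense. Let `m x = max_i ⟪n i,x⟫` and
`c0 = - ∑ i, n i`. For every `x ≠ 0`, `m x > 0` or `⟪c0,x⟫ > 0` (if all `⟪n i,x⟫ ≤ 0` then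
`⟪c0,x⟫ ≥ 0`, with equality only if all vanish, `x = 0`). By compactness of the sphere
`max (m x) ⟪c0,x⟫ ≥ δ ‖x‖`, `δ > 0`; take `c` generic with `‖c - c0‖ < δ/2`; then
`max (m x) ⟪c,x⟫ ≥ (δ/2) ‖x‖`, so `x ∈ Poly`, `⟪c,x⟫ ≤ s` give `‖x‖ ≤ (2/δ) max (max_i |h i|) |s|`.
-/
def T_GEN : Prop := ∀ (ι : Type) [Fintype ι] (n : ι → E3),
  (∀ x, (∀ i, ⟪n i, x⟫ = 0) → x = 0) →
  ∃ c, Gen n c ∧ ∀ (h : ι → ℝ) (s : ℝ), Bornology.IsBounded {x | x ∈ Poly n h ∧ ⟪c, x⟫ ≤ s}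

/-- CNT. Counting, pure combinatorics. PROOF. `v` is mixed for `i` if `v ∈ F i`, and `F i` has a
lower and a higher point. `V` = the (finite) set of the `low i j` with `A i j`, `V'` = the set of
the `v ∈ V` which are mixed for some `i`. (1) For `i`: `#{j | A i j} = ∑ v ∈ V, #{j | A i j ∧ low i
j = v}`. The `v` that are lowest in `F i` (at most one by (f)) contribute at most `2` (b), the
others at most `1` each (c), and only if mixed for `i` (a). So `∑ i, #{j | A i j} ≤ 2 #ι + ∑ v ∈ V,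
#{i | v mixed for i} ≤ 2 #ι + 2 #V'` (d). (2) Let `v ∈ V'`. By (e) at least three `F i` contain
`v`, at most two are mixed, so `v` is the lowest or the highest point of some `F i`. By (f) the map
`v ↦ i` is injective on each of the two classes, so `#V' ≤ #K₋ + #K₊`, `K₋` (`K₊`) = the set of `i`
such that the lowest (highest) point of `F i` exists and is in `V'`. (3) `#K₊ ≤ #ι - 3`: if `V'` is
empty this follows from (k). Otherwise let `v*` be the highest element of `V'`; it is mixed for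
some `l`, so there is `x ∈ F l` with `c v* < c x`; by (g) for all `i, j` there is `k ≠ i, j` and `y
∈ F k` with `c y = c x`, so `k ∉ K₊`. So the complement of `K₊` is not contained in any `{i, j}`.
Same for `K₋`. Together `∑ i ≤ 2 #ι + 2 (2 #ι - 6)`. -/
def T_CNT : Prop := ∀ (ι E : Type) [Fintype ι] (A : ι → ι → Prop) (low : ι → ι → E)
  (F : ι → Set E) (c : E → ℝ),
  (∀ i j, A i j → low i j ∈ F i ∧ ∃ x ∈ F i, c (low i j) < c x) →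
  (∀ i v, {j | A i j ∧ low i j = v}.ncard ≤ 2) →
  (∀ i v, (∃ x ∈ F i, c x < c v) → {j | A i j ∧ low i j = v}.ncard ≤ 1) →
  (∀ v, {i | v ∈ F i ∧ (∃ x ∈ F i, c x < c v) ∧ ∃ x ∈ F i, c v < c x}.ncard ≤ 2) →
  (∀ i j, A i j → ∀ p q, ∃ k, k ≠ p ∧ k ≠ q ∧ low i j ∈ F k) →
  (∀ i, ∀ v ∈ F i, ∀ v' ∈ F i, (∀ x ∈ F i, c v ≤ c x) → (∀ x ∈ F i, c v' ≤ c x) → v = v') →
  (∀ i, ∀ v ∈ F i, ∀ v' ∈ F i, (∀ x ∈ F i, c x ≤ c v) → (∀ x ∈ F i, c x ≤ c v') → v = v') →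
  (∀ l, ∀ x ∈ F l, ∀ i j, ∃ k, k ≠ i ∧ k ≠ j ∧ ∃ y ∈ F k, c y = c x) →
  3 ≤ Fintype.card ι →
  ∑ i, {j | A i j}.ncard + 12 ≤ 6 * Fintype.card ι

/-- SDA (uses SD2, MX2, LOW, TRI, UNQ, SLC, GEN, CNT). PROOF. `c` from GEN. For `Adj i j` the set
`Fc i ∩ Fc j` is closed, nonempty, its part with `⟪c,x⟫ ≤ s` is compact, so `⟪c,·⟫` has a minimum
at a point `low i j`. CNT with `A = Adj`, `F = Fc`: (a) the point `x` of `Adj i j`; move it along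
`± u`, `⟪n i,u⟫ = ⟪n j,u⟫ = 0`, `⟪c,u⟫ ≠ 0` (`Gen`): a point of `Fc i` higher than `x`, and
`⟪c,low i j⟫ ≤ ⟪c,x⟫`. (b) SD2 (a set with `ncard ≥ 3` contains three distinct elements). (c) LOW.
(d) MX2. (e) TRI. (f) UNQ for `c` and for `-c`. (g) SLC. `3 ≤ #ι`: the `n i` span. -/
def T_SDA : Prop := ∀ (ι : Type) [Fintype ι] (n : ι → E3) (h : ι → ℝ), (∀ i, ‖n i‖ = 1) →
  Irr n h → (∀ x, (∀ i, ⟪n i, x⟫ = 0) → x = 0) →
  ∑ i, {j | Adj n h i j}.ncard + 12 ≤ 6 * Fintype.card ι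

/-- SDB. All normals orthogonal to a vector: at most two sides. PROOF. Let `e ≠ 0` be orthogonal to
`n i` and `u`. Suppose `Adj i j`, `Adj i k`, `Adj i l`, `j, k, l` distinct, with points `x, y, z`.
As `⟪n i,x - y⟫ = 0`, `x - y` is a combination of `e` and `u`, so `⟪n m,x - y⟫ = s ⟪n m,e⟫` for all
`m`, `s` = the quotient of `⟪e,x-y⟫` and `⟪e,e⟫`. Order the three numbers `⟪e,x⟫, ⟪e,y⟫, ⟪e,z⟫`; say
`⟪e,y⟫ = (1-λ) ⟪e,x⟫ + λ ⟪e,z⟫`; then `⟪n k,y⟫ = (1-λ)⟪n k,x⟫ + λ⟪n k,z⟫ < h k`, a contradiction. -/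
def T_SDB : Prop := ∀ (ι : Type) [Fintype ι] (n : ι → E3) (h : ι → ℝ), (∀ i, ‖n i‖ = 1) →
  (∃ u, u ≠ 0 ∧ ∀ i, ⟪n i, u⟫ = 0) → ∀ i, {j | Adj n h i j}.ncard ≤ 2

/-- SID (uses SDA, SDB). -/
def T_SID : Prop := ∀ (ι : Type) [Fintype ι] (n : ι → E3) (h : ι → ℝ), (∀ i, ‖n i‖ = 1) →
  Irr n h → Fintype.card ι ≤ 12 → ∑ i, {j | Adj n h i j}.ncard ≤ 60

/-! ## Part E: the dodecahedron -/

/-- DNF. The normals and frames. PROOF. Coordinates; `Ld² = 1 + φ² = 2 + φ`. The last part: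
`‖x‖ ≤ |x 0| + |x 1| + |x 2|`, the sum of the three left sides of `Dod` is
`(1 + φ)(|x 0| + |x 1| + |x 2|)`, and each left side is `Ld * ⟪nD k, x⟫` for a suitable `k`;
`(1+φ)/(3 Ld) > 1/3`. -/
def T_DNF : Prop := (∀ k, Onb (nD k) (eD k) (fD k)) ∧ Function.Injective nD ∧
  Dod = Poly nD (fun _ => 1) ∧ ∀ x : E3, x ≠ 0 → ∃ k, ‖x‖ < 3 * ⟪nD k, x⟫

/-- DPN (uses DNF). The trace is a regular pentagon. PROOF. For `w` the point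
`y = nD k + w.1 • eD k + w.2 • fD k` has (up to signs and a cyclic shift) the coordinates
`w.1, (1 + φ w.2)/L, (φ - w.2)/L`, `L = Ld`, and `w ∈ Qs ↔ y ∈ Poly nD 1 = Dod`, i.e. (in all cases)
(1) `|1 + φ w.2| + φ |φ - w.2| ≤ L²`, (2) `L |w.1| + φ |1 + φ w.2| ≤ L²`,
(3) `φ L |w.1| + |φ - w.2| ≤ L²`. (1) ↔ `-1/φ ≤ w.2 ≤ φ`; given (1), (2) ↔
`L |w.1| + φ² w.2 ≤ 2` and (3) ↔ `φ L |w.1| - w.2 ≤ 2`; divided by `2φ` these are the constraints of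
`Pen` in the directions `-90°`, `54°, 126°`, `-18°, 198°`: `sin 18° = 1/(2φ)`, `cos 18° = L/2`,
`sin 54° = φ/2`, `cos 54° = L/(2φ)`, `a0 = 1/φ`. -/
def T_DPN : Prop := ∀ k, Qs nD (fun _ => 1) k (eD k) (fD k) = Pen

/-- PNI. Integral over the pentagon. PROOF. Polar coordinates (`integral_comp_polarCoord_symm`):
`r (cos ψ, sin ψ) ∈ Pen ↔ r M ψ ≤ a0`, `M ψ = max_k cos (ψ - θ k) ≥ cos (π/5)`. The function `M` is
continuous with period `2π/5`, and `M ψ = cos (ψ + π/2)` for `|ψ + π/2| ≤ π/5`. So the integral is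
`∫ ψ in -π..π, I (a0 / M ψ) = 5 ∫ ψ in -π/5..π/5, I (a0 / cos ψ) = 10 ∫ ψ in 0..π/5, I (a0/cos ψ)`,
`I r = ∫ s in 0..r, g s * s`. -/
def T_PNI : Prop := ∀ g : ℝ → ℝ, Continuous g → Bornology.IsBounded Pen ∧ MeasurableSet Pen ∧
  ∫ w in Pen, g (nr w) =
    10 * ∫ ψ in (0 : ℝ)..(π / 5), ∫ s in (0 : ℝ)..(a0 / cos ψ), g s * s

/-- DOD (uses DNF, DPN, PNI, SUM, HCL, BF). PROOF. SUM for `nD`, `h = 1`, `ϱ = 3`, `β = 0`,
`κ = kap t`: `Cinf ⊆ {0}`, `Dod ⊆ closedBall 0 3` and `cc (nr w) < 3` for `w ∈ Pen` by the last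
part of DNF (for `x ∈ Dod`, `‖x‖ < 3 ⟪nD k,x⟫ ≤ 3`; for `w ∈ Qs`, `x = nD k + w.1 eD k + w.2 fD k`
is in the cone, `⟪nD j, x⟫ ≤ ⟪nD k, x⟫ = 1`). So
`3((1-κ) vol D - vol (D ∩ B_t)) = 12 * 10 ∫ ψ in 0..π/5, H t κ 0 1 (a0 / cos ψ)` (PNI) `= 0` by HCL
and the definition of `kap`. `kap R = 0`: `cc (a0/cos ψ) ≤ R`. -/
def T_DOD : Prop := (volume Dod ≠ 0 ∧ volume Dod ≠ ⊤) ∧ kap R = 0 ∧ ∀ t : ℝ, 1 ≤ t → t ≤ R →
  (volume (Dod ∩ Metric.closedBall 0 t)).toReal = (1 - kap t) * (volume Dod).toReal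

/-! ## Part F: assembly -/

/-- IRR. Irredundant subfamily. PROOF. Take a finite set `s` of minimal cardinality with
`Poly (restriction to s) = Poly n h`. For `i ∈ s` there is `y` with `⟪n k,y⟫ ≤ h k` for all
`k ∈ s`, `k ≠ i`, and `h i < ⟪n i,y⟫`. With `λ = h i/⟪n i,y⟫ ∈ (0,1)`, `x = λ y`: `⟪n i,x⟫ = h i`,
`⟪n k,x⟫ ≤ λ h k < h k` (if `⟪n k,y⟫ ≤ h k`, `0 < h k`). -/
def T_IRR : Prop := ∀ (ι : Type) [Fintype ι] (n : ι → E3) (h : ι → ℝ), (∀ i, 0 < h i) →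
  ∃ s : Set ι, Poly (fun i : s => n i) (fun i : s => h i) = Poly n h ∧
    Irr (fun i : s => n i) (fun i : s => h i)

/-- MA1 (uses SUM, ONB, FCT, SID, LOC1, LOCH, FAR, TR, SGN, HCL, KAP, BET, ALP, IDN). PROOF. SUM for
`ϱ = R`, `κ = kap t`, `β = bet t`; the last bracket is `R³ G t κ β 1 rv ≥ 0` (BET, HCL: `cc rv = R`,
`t < R`). For `h i < R`: `h i cc (nr w) < R ↔ nr w < ρ = √(R²/h i² - 1)`, FCT with
`g = G t κ β (h i)`, `α = alp t`, `τ = - J0 t` (SGN, TR, FAR, LOCH; `H` is the integral of `g s * s`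
by definition). For `h i ≥ R` the region is empty and `0 ≥ 2π alp t + 2 J0 t k` (ALP, LOC1). Sum:
`≥ 4πβ + 2π N α + 2 J0 ∑ k_i ≥ 4πβ + 24πα + 120 J0 = 0` (SID, IDN). `n` is injective by `Irr`. -/
def T_MA1 : Prop := ∀ (ι : Type) [Fintype ι] (n : ι → E3) (h : ι → ℝ), (∀ i, ‖n i‖ = 1) →
  (∀ i, 1 ≤ h i) → Irr n h → Fintype.card ι ≤ 12 → ∀ t : ℝ, 1 ≤ t → t < R →
  (volume (Poly n h ∩ Metric.closedBall 0 t)).toReal ≤
    (1 - kap t) * (volume (Poly n h ∩ Metric.closedBall 0 R)).toReal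

/-- MA2 (uses MA1, IRR). PROOF. IRR (the subtype has at most as many elements). -/
def T_MA2 : Prop := ∀ (ι : Type) [Fintype ι] (n : ι → E3) (h : ι → ℝ), (∀ i, ‖n i‖ = 1) →
  (∀ i, 1 ≤ h i) → Fintype.card ι ≤ 12 → ∀ t : ℝ, 1 ≤ t → t < R →
  (volume (Poly n h ∩ Metric.closedBall 0 t)).toReal ≤
    (1 - kap t) * (volume (Poly n h ∩ Metric.closedBall 0 R)).toReal

/-- MA3 (uses MA2, DOD). PROOF. If `t ≥ R` the right side is `1` (DOD for `t = R`, monotonicity) and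
the left side is `≤ 1`. If `t < R`: `volume K ≥ volume (Poly ∩ B_R) > 0` (it contains the unit
ball), the ratio on the left is `≤ vol (Poly ∩ B_t)/vol (Poly ∩ B_R) ≤ 1 - kap t`, which is the
right side by DOD. -/
def T_MA3 : Prop := ∀ (ι : Type) [Fintype ι] (n : ι → E3) (h : ι → ℝ), (∀ i, ‖n i‖ = 1) →
  (∀ i, 1 ≤ h i) → Fintype.card ι ≤ 12 → ∀ (K : Set E3),
  K ∩ Metric.closedBall 0 R = Poly n h ∩ Metric.closedBall 0 R → ∀ t : ℝ, 1 ≤ t →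
  volume (K ∩ Metric.closedBall 0 t) / volume K ≤
    volume (Dod ∩ Metric.closedBall 0 t) / volume Dod

/-- VOR (uses MA3). The result for packings. PROOF. Translate by `c`
(`measure_preimage_add_right` or `Measure.IsAddHaarMeasure`): `K = {v | ∀ y ∈ X, ‖v‖ ≤ ‖v -
(y-c)‖}`; `‖v‖ ≤ ‖v - w‖ ↔ ⟪w,v⟫ ≤ ‖w‖²/2 ↔ ⟪n,v⟫ ≤ h`, `n = w/‖w‖`, `h = ‖w‖/2 ≥ 1`. Index type:
the subtype of `S`. -/
def T_VOR : Prop := ∀ (X : Set E3), (∀ x ∈ X, ∀ y ∈ X, x ≠ y → (2 : ℝ) ≤ dist x y) →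
  ∀ c ∈ X, ∀ S : Set E3, S ⊆ X → c ∉ S → S.Finite → S.ncard ≤ 12 →
  (∀ x, dist x c ≤ R → (∀ y ∈ S, dist x c ≤ dist x y) → ∀ y ∈ X, dist x c ≤ dist x y) →
  ∀ r : ℝ, 0 ≤ r →
  volume ({x : E3 | ∀ y ∈ X, dist x c ≤ dist x y} ∩ Metric.closedBall c (1 + r))
      / volume {x : E3 | ∀ y ∈ X, dist x c ≤ dist x y}
    ≤ volume (Dod ∩ Metric.closedBall (0 : E3) (1 + r)) / volume Dod

/-- FIN. Packings are locally finite. PROOF. If the set is infinite, then by compactness of the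
closed ball it has an accumulation point, and two of its points are at distance `< 2`
(`Set.Infinite.exists_accPt_of_subset_isCompact`, or a totally bounded set with distances `≥ 2`). -/
def T_FIN : Prop := ∀ (X : Set E3), (∀ x ∈ X, ∀ y ∈ X, x ≠ y → (2 : ℝ) ≤ dist x y) →
  ∀ (c : E3) (r : ℝ), {y | y ∈ X ∧ dist y c < r}.Finite

/-- NBR (uses VOR, FIN). At most twelve centres at distance less than `2 R`. PROOF. VOR for the set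
`S = {y | y ∈ X ∧ y ≠ c ∧ dist y c < 2 * R}`; if `dist x c ≤ R` and `2 R ≤ dist y c` then
`dist x y ≥ dist y c - dist x c ≥ R ≥ dist x c`. -/
def T_NBR : Prop := ∀ (X : Set E3), (∀ x ∈ X, ∀ y ∈ X, x ≠ y → (2 : ℝ) ≤ dist x y) →
  ∀ c ∈ X, {y | y ∈ X ∧ y ≠ c ∧ dist y c < 2 * R}.ncard ≤ 12 → ∀ r : ℝ, 0 ≤ r →
  volume ({x : E3 | ∀ y ∈ X, dist x c ≤ dist x y} ∩ Metric.closedBall c (1 + r))
      / volume {x : E3 | ∀ y ∈ X, dist x c ≤ dist x y}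
    ≤ volume (Dod ∩ Metric.closedBall (0 : E3) (1 + r)) / volume Dod

end Pool.Agent.SDC
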