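import Pool.Agent.SDC.Targets
import Pool.Agent.SDC.Targets2

set_option autoImplicit false

open MeasureTheory Set Real
open scoped RealInnerProductSpace

namespace Pool.Agent.SDC

theorem DOD_cos {ψ : ℝ} (h : ψ ∈ Icc 0 (π / 5)) : 0 < cos ψ :=
  cos_pos_of_mem_Ioo ⟨by linarith [h.1, Real.pi_pos], by linarith [h.2, Real.pi_pos]⟩

theorem DOD_cont : ContinuousOn (fun ψ : ℝ => a0 / cos ψ) (Icc 0 (π / 5)) :=
  continuousOn_const.div continuous_cos.continuousOn fun _ h => (DOD_cos h).ne'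

theorem DOD_cc : Continuous cc := by
  unfold cc
  fun_prop

theorem DOD_contB (hBF : T_BF) {t : ℝ} (ht : 0 < t) :
    ContinuousOn (fun ψ : ℝ => Bf t (cc (a0 / cos ψ))) (Icc 0 (π / 5)) := by
  intro ψ hψ
  have h1 : ContinuousAt (Bf t) (cc (a0 / cos ψ)) := (hBF.2.1 t _ ht (cc_pos _)).continuousAt
  exact ContinuousAt.comp_continuousWithinAt (f := fun ψ : ℝ => cc (a0 / cos ψ)) h1
    ((DOD_cc.comp_continuousOn DOD_cont) ψ hψ)

theorem DOD_pi : (0 : ℝ) ≤ π / 5 := by positivity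

theorem DOD_den : 0 < ∫ ψ in (0 : ℝ)..(π / 5), (a0 / cos ψ) ^ 2 / 2 := by
  apply intervalIntegral.intervalIntegral_pos_of_pos_on
  · apply ContinuousOn.intervalIntegrable
    rw [uIcc_of_le DOD_pi]
    exact (DOD_cont.pow 2).div_const 2
  · intro x hx
    have h1 := DOD_cos (Ioo_subset_Icc_self hx)
    have h2 : 0 < a0 / cos x := div_pos a0_pos h1
    positivity
  · positivity

/-- The integral of `H` with `β = 0` over the triangle vanishes. -/
theorem DOD_zero (hHCL : T_HCL) (hBF : T_BF) {t : ℝ} (ht : 1 ≤ t) :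
    ∫ ψ in (0 : ℝ)..(π / 5), (∫ s in (0 : ℝ)..(a0 / cos ψ), G t (kap t) 0 1 s * s) = 0 := by
  have h1 : ∫ ψ in (0 : ℝ)..(π / 5), (∫ s in (0 : ℝ)..(a0 / cos ψ), G t (kap t) 0 1 s * s) =
      ∫ ψ in (0 : ℝ)..(π / 5), (Bf t (cc (a0 / cos ψ)) - kap t * ((a0 / cos ψ) ^ 2 / 2)) := by
    apply intervalIntegral.integral_congr
    intro ψ hψ
    rw [uIcc_of_le DOD_pi] at hψ
    have h2 : 0 ≤ a0 / cos ψ := (div_pos a0_pos (DOD_cos hψ)).le
    have h3 := hHCL.2 t (kap t) 0 1 (a0 / cos ψ) (by linarith) one_pos h2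
    have h4 : Bf t 1 = 0 := by
      rw [Bf, if_pos ht]
    rw [div_one, h4] at h3
    have h5 : H t (kap t) 0 1 (a0 / cos ψ) =
      ∫ s in (0 : ℝ)..(a0 / cos ψ), G t (kap t) 0 1 s * s := rfl
    change (∫ s in (0 : ℝ)..(a0 / cos ψ), G t (kap t) 0 1 s * s) = _
    rw [← h5, h3]
    ring
  have i1 : IntervalIntegrable (fun ψ : ℝ => Bf t (cc (a0 / cos ψ))) volume 0 (π / 5) := by
    apply ContinuousOn.intervalIntegrable
    rw [uIcc_of_le DOD_pi]
    exact DOD_contB hBF (by linarith)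
  have i2 : IntervalIntegrable (fun ψ : ℝ => kap t * ((a0 / cos ψ) ^ 2 / 2)) volume 0 (π / 5) := by
    apply ContinuousOn.intervalIntegrable
    rw [uIcc_of_le DOD_pi]
    exact continuousOn_const.mul ((DOD_cont.pow 2).div_const 2)
  rw [h1, intervalIntegral.integral_sub i1 i2, intervalIntegral.integral_const_mul]
  have h6 : kap t * ∫ ψ in (0 : ℝ)..(π / 5), (a0 / cos ψ) ^ 2 / 2 =
      ∫ ψ in (0 : ℝ)..(π / 5), Bf t (cc (a0 / cos ψ)) := by
    rw [kap, div_mul_cancel₀ _ DOD_den.ne']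
  rw [h6, sub_self]

theorem DOD_kapR : kap R = 0 := by
  have h1 : ∫ ψ in (0 : ℝ)..(π / 5), Bf R (cc (a0 / cos ψ)) = ∫ ψ in (0 : ℝ)..(π / 5), (0 : ℝ) := by
    apply intervalIntegral.integral_congr
    intro ψ hψ
    rw [uIcc_of_le DOD_pi] at hψ
    have h2 : a0 / cos ψ ≤ rv := by
      rw [← a0_div_cos]
      have h3 : cos (π / 5) ≤ cos ψ :=
        cos_le_cos_of_nonneg_of_le_pi hψ.1 (by linarith [Real.pi_pos]) hψ.2
      exact div_le_div_of_nonneg_left a0_pos.le (DOD_cos ⟨DOD_pi, le_rfl⟩) h3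
    have h4 : 0 ≤ a0 / cos ψ := (div_pos a0_pos (DOD_cos hψ)).le
    have h5 : cc (a0 / cos ψ) ≤ R := by
      rw [← cc_rv]
      unfold cc
      apply Real.sqrt_le_sqrt
      nlinarith
    change Bf R (cc (a0 / cos ψ)) = 0
    rw [Bf, if_pos h5]
  rw [kap, h1]
  simp

theorem DOD_ball (hDNF : T_DNF) : Poly nD (fun _ => 1) ⊆ Metric.closedBall 0 3 := by
  intro x hx
  rw [mem_closedBall_zero_iff]
  by_cases h0 : x = 0
  · rw [h0, norm_zero]
    norm_num
  · obtain ⟨k, hk⟩ := hDNF.2.2.2 x h0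
    have h1 : ⟪nD k, x⟫ ≤ 1 := hx k
    linarith

theorem DOD_set (hDNF : T_DNF) (hDPN : T_DPN) (k : ID) :
    {w : ℝ × ℝ | w ∈ Qs nD (fun _ => 1) k (eD k) (fD k) ∧ (1 : ℝ) * cc (nr w) < 3} = Pen := by
  rw [← hDPN k]
  ext w
  constructor
  · exact fun h => h.1
  · intro h
    refine ⟨h, ?_⟩
    have ho := hDNF.1 k
    set x : E3 := nD k + w.1 • eD k + w.2 • fD k with hx
    have hn : ‖x‖ ^ 2 = 1 + (w.1 ^ 2 + w.2 ^ 2) := by
      rw [hx, @norm_add_sq_real, @norm_add_sq_real, norm_smul, norm_smul, ho.nn, ho.ee, ho.ff,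
        inner_add_left, inner_smul_right, inner_smul_right, inner_smul_right, inner_smul_left,
        ho.ne, ho.nf, ho.ef, mul_one, mul_one, Real.norm_eq_abs, Real.norm_eq_abs, sq_abs, sq_abs]
      simp
      ring
    have hc : ‖x‖ = cc (nr w) := by
      rw [cc, nr, Real.sq_sqrt (by positivity), ← hn, Real.sqrt_sq (norm_nonneg _)]
    have hx0 : x ≠ 0 := by
      intro h0
      rw [h0, norm_zero] at hc
      exact (cc_pos (nr w)).ne hc
    obtain ⟨j, hj⟩ := hDNF.2.2.2 x hx0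
    have h1 := h j
    have h2 : ⟪nD j, x⟫ = ⟪nD j, nD k⟫ + w.1 * ⟪nD j, eD k⟫ + w.2 * ⟪nD j, fD k⟫ := by
      rw [hx, inner_add_right, inner_add_right, inner_smul_right, inner_smul_right]
    rw [h2, hc] at hj
    linarith

/-- DOD. -/
theorem p_DOD (hDNF : T_DNF) (hDPN : T_DPN) (hPNI : T_PNI) (hSUM : T_SUM) (hHCL : T_HCL)
    (hBF : T_BF) : T_DOD := by
  have hD : Dod = Poly nD (fun _ => 1) := hDNF.2.2.1
  have hsub := DOD_ball hDNF
  refine ⟨⟨?_, ?_⟩, DOD_kapR, ?_⟩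
  · rw [hD]
    have h1 : Metric.ball (0 : E3) 1 ⊆ Poly nD (fun _ => 1) := by
      intro x hx k
      rw [mem_ball_zero_iff] at hx
      have h2 := real_inner_le_norm (nD k) x
      rw [(hDNF.1 k).nn, one_mul] at h2
      linarith
    exact (lt_of_lt_of_le (Metric.measure_ball_pos volume (0 : E3) one_pos)
      (measure_mono h1)).ne'
  · rw [hD]
    exact (lt_of_le_of_lt (measure_mono hsub) measure_closedBall_lt_top).ne
  · intro t ht1 htR
    have ht0 : 0 < t := by linarith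
    have h1 := hSUM ID nD eD fD (fun _ => 1) t (kap t) 0 3 (fun _ => one_pos) hDNF.2.1 hDNF.1 ht0
      (by linarith [R_hi])
    have h2 : (∑ i, ∫ w in {w | w ∈ Qs nD (fun _ => 1) i (eD i) (fD i) ∧ (1 : ℝ) * cc (nr w) < 3},
        G t (kap t) 0 1 (nr w)) = 0 := by
      apply Finset.sum_eq_zero
      intro i _
      rw [DOD_set hDNF hDPN i, (hPNI (G t (kap t) 0 1) (hHCL.1 t (kap t) 0 1)).2.2,
        DOD_zero hHCL hBF ht1, mul_zero]
    have h3 : volume (Metric.closedBall (0 : E3) 1 ∩ Cinf nD (fun _ => 1) 3) = 0 := by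
      refine measure_mono_null (t := {(0 : E3)}) ?_ (measure_singleton _)
      intro x hx
      by_contra h0
      obtain ⟨k, hk⟩ := hDNF.2.2.2 x h0
      have h4 := hx.2 k
      linarith
    rw [inter_eq_left.mpr hsub, h2, h3] at h1
    rw [hD]
    simp only [ENNReal.toReal_zero, mul_zero, zero_mul, add_zero] at h1
    linarith

end Pool.Agent.SDC
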