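import Pool.Agent.SDC.Targets2

set_option autoImplicit false

/-!
# SDC target DPN: the trace of the dodecahedron is a regular pentagon
-/

open MeasureTheory Set Real
open scoped RealInnerProductSpace

namespace Pool.Agent.SDC

theorem DPN_L2 : Ld ^ 2 = 2 + goldenRatio := by
  rw [Ld, Real.sq_sqrt (by positivity), goldenRatio_sq]
  ring

theorem DPN_Lpos : 0 < Ld := by
  rw [Ld]
  exact Real.sqrt_pos.mpr (by positivity)

theorem DPN_gpos : 0 < goldenRatio := goldenRatio_pos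

theorem DPN_sq5 : √5 = 2 * goldenRatio - 1 := by
  rw [goldenRatio]
  ring

theorem DPN_a0 : a0 * goldenRatio = 1 := by
  rw [a0, DPN_sq5]
  nlinarith [goldenRatio_sq]

theorem DPN_c1 : cos (π / 5) = goldenRatio / 2 := by
  rw [cos36_eq, DPN_sq5]
  ring

theorem DPN_s1 : goldenRatio * sin (π / 5) = Ld / 2 := by
  have h0 : 0 < sin (π / 5) :=
    sin_pos_of_pos_of_lt_pi (by positivity) (by linarith [Real.pi_pos])
  have h1 := sin_sq_add_cos_sq (π / 5)
  rw [DPN_c1] at h1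
  have h2 : (goldenRatio * sin (π / 5)) ^ 2 = (Ld / 2) ^ 2 := by
    have h3 : sin (π / 5) ^ 2 = 1 - (goldenRatio / 2) ^ 2 := by linarith
    have h5 : (Ld / 2) ^ 2 = (2 + goldenRatio) / 4 := by
      rw [div_pow, DPN_L2]
      norm_num
    rw [mul_pow, h3, h5]
    have h6 : goldenRatio ^ 2 = goldenRatio + 1 := goldenRatio_sq
    have h7 : goldenRatio ^ 4 = (goldenRatio + 1) ^ 2 := by
      rw [← h6]
      ring
    linear_combination h6 - h7 / 4 + h6 * (-1 / 4)
  have h4 : 0 ≤ goldenRatio * sin (π / 5) := by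
    have := DPN_gpos
    positivity
  exact (pow_left_inj₀ h4 (by have := DPN_Lpos; positivity) two_ne_zero).mp h2

theorem DPN_c2 : 2 * goldenRatio * cos (2 * (π / 5)) = 1 := by
  rw [cos_two_mul, DPN_c1]
  nlinarith [goldenRatio_sq]

theorem DPN_s2 : sin (2 * (π / 5)) = Ld / 2 := by
  rw [sin_two_mul, DPN_c1, ← DPN_s1]
  ring

/-- The constraints of the pentagon. -/
theorem DPN_pen (w : ℝ × ℝ) : w ∈ Pen ↔ -1 ≤ goldenRatio * w.2 ∧
    goldenRatio * Ld * |w.1| - w.2 ≤ 2 ∧ Ld * |w.1| + goldenRatio ^ 2 * w.2 ≤ 2 := by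
  have g0 := DPN_gpos
  have k0 : w.1 * cos (-(π / 2) + 0 * (2 * π / 5)) + w.2 * sin (-(π / 2) + 0 * (2 * π / 5)) ≤ a0 ↔
      -1 ≤ goldenRatio * w.2 := by
    have e1 : cos (-(π / 2) + 0 * (2 * π / 5)) = 0 := by simp
    have e2 : sin (-(π / 2) + 0 * (2 * π / 5)) = -1 := by simp
    rw [e1, e2]
    have ha := DPN_a0
    constructor
    · intro h
      have := mul_le_mul_of_nonneg_left h g0.le
      linarith
    · intro h
      refine le_of_mul_le_mul_left ?_ g0
      linarith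
  have c1 : cos (-(π / 2) + 1 * (2 * π / 5)) = Ld / 2 := by
    rw [show -(π / 2) + 1 * (2 * π / 5) = -(π / 2 - 2 * (π / 5)) by ring, cos_neg,
      cos_pi_div_two_sub, DPN_s2]
  have s1 : sin (-(π / 2) + 1 * (2 * π / 5)) = -cos (2 * (π / 5)) := by
    rw [show -(π / 2) + 1 * (2 * π / 5) = -(π / 2 - 2 * (π / 5)) by ring, sin_neg,
      sin_pi_div_two_sub]
  have c2 : cos (-(π / 2) + 2 * (2 * π / 5)) = sin (π / 5) := by
    rw [show -(π / 2) + 2 * (2 * π / 5) = π / 2 - π / 5 by ring, cos_pi_div_two_sub]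
  have s2 : sin (-(π / 2) + 2 * (2 * π / 5)) = goldenRatio / 2 := by
    rw [show -(π / 2) + 2 * (2 * π / 5) = π / 2 - π / 5 by ring, sin_pi_div_two_sub, DPN_c1]
  have c3 : cos (-(π / 2) + 3 * (2 * π / 5)) = -sin (π / 5) := by
    rw [show -(π / 2) + 3 * (2 * π / 5) = π / 5 + π / 2 by ring, cos_add_pi_div_two]
  have s3 : sin (-(π / 2) + 3 * (2 * π / 5)) = goldenRatio / 2 := by
    rw [show -(π / 2) + 3 * (2 * π / 5) = π / 5 + π / 2 by ring, sin_add_pi_div_two, DPN_c1]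
  have c4 : cos (-(π / 2) + 4 * (2 * π / 5)) = -(Ld / 2) := by
    rw [show -(π / 2) + 4 * (2 * π / 5) = (π / 2 - 2 * (π / 5)) + π by ring, cos_add_pi,
      cos_pi_div_two_sub, DPN_s2]
  have s4 : sin (-(π / 2) + 4 * (2 * π / 5)) = -cos (2 * (π / 5)) := by
    rw [show -(π / 2) + 4 * (2 * π / 5) = (π / 2 - 2 * (π / 5)) + π by ring, sin_add_pi,
      sin_pi_div_two_sub]
  have hc := DPN_c2
  have hs := DPN_s1
  have ha := DPN_a0
  have k1 : w.1 * cos (-(π / 2) + 1 * (2 * π / 5)) + w.2 * sin (-(π / 2) + 1 * (2 * π / 5)) ≤ a0 ↔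
      goldenRatio * Ld * w.1 - w.2 ≤ 2 := by
    rw [c1, s1]
    constructor
    · intro h
      have h1 := mul_le_mul_of_nonneg_left h (by positivity : (0 : ℝ) ≤ 2 * goldenRatio)
      have h2 : 2 * goldenRatio * (w.1 * (Ld / 2) + w.2 * -cos (2 * (π / 5))) =
          goldenRatio * Ld * w.1 - w.2 * (2 * goldenRatio * cos (2 * (π / 5))) := by ring
      rw [h2, hc] at h1
      linarith
    · intro h
      refine le_of_mul_le_mul_left ?_ (by positivity : (0 : ℝ) < 2 * goldenRatio)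
      have h2 : 2 * goldenRatio * (w.1 * (Ld / 2) + w.2 * -cos (2 * (π / 5))) =
          goldenRatio * Ld * w.1 - w.2 * (2 * goldenRatio * cos (2 * (π / 5))) := by ring
      rw [h2, hc]
      linarith
  have k4 : w.1 * cos (-(π / 2) + 4 * (2 * π / 5)) + w.2 * sin (-(π / 2) + 4 * (2 * π / 5)) ≤ a0 ↔
      goldenRatio * Ld * (-w.1) - w.2 ≤ 2 := by
    rw [c4, s4]
    have h2 : 2 * goldenRatio * (w.1 * (-(Ld / 2)) + w.2 * -cos (2 * (π / 5))) =
        goldenRatio * Ld * (-w.1) - w.2 * (2 * goldenRatio * cos (2 * (π / 5))) := by ring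
    rw [hc] at h2
    constructor
    · intro h
      have h1 := mul_le_mul_of_nonneg_left h (by positivity : (0 : ℝ) ≤ 2 * goldenRatio)
      rw [h2] at h1
      linarith
    · intro h
      refine le_of_mul_le_mul_left ?_ (by positivity : (0 : ℝ) < 2 * goldenRatio)
      rw [h2]
      linarith
  have k2 : w.1 * cos (-(π / 2) + 2 * (2 * π / 5)) + w.2 * sin (-(π / 2) + 2 * (2 * π / 5)) ≤ a0 ↔
      Ld * w.1 + goldenRatio ^ 2 * w.2 ≤ 2 := by
    rw [c2, s2]
    have h2 : 2 * goldenRatio * (w.1 * sin (π / 5) + w.2 * (goldenRatio / 2)) =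
        2 * w.1 * (goldenRatio * sin (π / 5)) + goldenRatio ^ 2 * w.2 := by ring
    rw [hs] at h2
    constructor
    · intro h
      have h1 := mul_le_mul_of_nonneg_left h (by positivity : (0 : ℝ) ≤ 2 * goldenRatio)
      rw [h2] at h1
      linarith
    · intro h
      refine le_of_mul_le_mul_left ?_ (by positivity : (0 : ℝ) < 2 * goldenRatio)
      rw [h2]
      linarith
  have k3 : w.1 * cos (-(π / 2) + 3 * (2 * π / 5)) + w.2 * sin (-(π / 2) + 3 * (2 * π / 5)) ≤ a0 ↔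
      Ld * (-w.1) + goldenRatio ^ 2 * w.2 ≤ 2 := by
    rw [c3, s3]
    have h2 : 2 * goldenRatio * (w.1 * (-sin (π / 5)) + w.2 * (goldenRatio / 2)) =
        -2 * w.1 * (goldenRatio * sin (π / 5)) + goldenRatio ^ 2 * w.2 := by ring
    rw [hs] at h2
    constructor
    · intro h
      have h1 := mul_le_mul_of_nonneg_left h (by positivity : (0 : ℝ) ≤ 2 * goldenRatio)
      rw [h2] at h1
      linarith
    · intro h
      refine le_of_mul_le_mul_left ?_ (by positivity : (0 : ℝ) < 2 * goldenRatio)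
      rw [h2]
      linarith
  have hL := DPN_Lpos
  have hP : w ∈ Pen ↔ (w.1 * cos (-(π / 2) + 0 * (2 * π / 5)) +
      w.2 * sin (-(π / 2) + 0 * (2 * π / 5)) ≤ a0) ∧ (w.1 * cos (-(π / 2) + 1 * (2 * π / 5)) +
      w.2 * sin (-(π / 2) + 1 * (2 * π / 5)) ≤ a0) ∧ (w.1 * cos (-(π / 2) + 2 * (2 * π / 5)) +
      w.2 * sin (-(π / 2) + 2 * (2 * π / 5)) ≤ a0) ∧ (w.1 * cos (-(π / 2) + 3 * (2 * π / 5)) +
      w.2 * sin (-(π / 2) + 3 * (2 * π / 5)) ≤ a0) ∧ (w.1 * cos (-(π / 2) + 4 * (2 * π / 5)) +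
      w.2 * sin (-(π / 2) + 4 * (2 * π / 5)) ≤ a0) := by
    have v0 : (((0 : Fin 5) : ℕ) : ℝ) = 0 := by norm_num
    have v1 : (((1 : Fin 5) : ℕ) : ℝ) = 1 := by norm_num
    have v2 : (((2 : Fin 5) : ℕ) : ℝ) = 2 := by norm_num
    have v3 : (((3 : Fin 5) : ℕ) : ℝ) = 3 := by norm_num
    have v4 : (((4 : Fin 5) : ℕ) : ℝ) = 4 := by norm_num
    constructor
    · intro h
      have h0 := h 0
      have h1 := h 1
      have h2 := h 2
      have h3 := h 3
      have h4 := h 4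
      rw [v0] at h0
      rw [v1] at h1
      rw [v2] at h2
      rw [v3] at h3
      rw [v4] at h4
      exact ⟨h0, h1, h2, h3, h4⟩
    · rintro ⟨h0, h1, h2, h3, h4⟩ k
      fin_cases k
      · change w.1 * cos (-(π / 2) + ((0 : Fin 5) : ℕ) * (2 * π / 5)) +
          w.2 * sin (-(π / 2) + ((0 : Fin 5) : ℕ) * (2 * π / 5)) ≤ a0
        rw [v0]
        exact h0
      · change w.1 * cos (-(π / 2) + ((1 : Fin 5) : ℕ) * (2 * π / 5)) +
          w.2 * sin (-(π / 2) + ((1 : Fin 5) : ℕ) * (2 * π / 5)) ≤ a0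
        rw [v1]
        exact h1
      · change w.1 * cos (-(π / 2) + ((2 : Fin 5) : ℕ) * (2 * π / 5)) +
          w.2 * sin (-(π / 2) + ((2 : Fin 5) : ℕ) * (2 * π / 5)) ≤ a0
        rw [v2]
        exact h2
      · change w.1 * cos (-(π / 2) + ((3 : Fin 5) : ℕ) * (2 * π / 5)) +
          w.2 * sin (-(π / 2) + ((3 : Fin 5) : ℕ) * (2 * π / 5)) ≤ a0
        rw [v3]
        exact h3
      · change w.1 * cos (-(π / 2) + ((4 : Fin 5) : ℕ) * (2 * π / 5)) +
          w.2 * sin (-(π / 2) + ((4 : Fin 5) : ℕ) * (2 * π / 5)) ≤ a0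
        rw [v4]
        exact h4
  rw [hP, k0, k1, k2, k3, k4]
  have hGL : 0 < goldenRatio * Ld := by positivity
  constructor
  · rintro ⟨a, b, c, d, e⟩
    refine ⟨a, ?_, ?_⟩
    · rcases abs_cases w.1 with ⟨h, _⟩ | ⟨h, _⟩ <;> rw [h] <;> assumption
    · rcases abs_cases w.1 with ⟨h, _⟩ | ⟨h, _⟩ <;> rw [h] <;> assumption
  · rintro ⟨a, b, c⟩
    have q1 := le_abs_self w.1
    have q2 := neg_le_abs w.1
    have r1 := mul_le_mul_of_nonneg_left q1 hGL.le
    have r2 := mul_le_mul_of_nonneg_left q2 hGL.le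
    have r3 := mul_le_mul_of_nonneg_left q1 hL.le
    have r4 := mul_le_mul_of_nonneg_left q2 hL.le
    exact ⟨a, by linarith, by linarith, by linarith, by linarith⟩

/-- The constraints of the dodecahedron in the plane of a face. -/
theorem DPN_core (u v : ℝ) :
    (|(1 + goldenRatio * v) / Ld| + goldenRatio * |(goldenRatio - v) / Ld| ≤ Ld ∧
      |u| + goldenRatio * |(1 + goldenRatio * v) / Ld| ≤ Ld ∧
      |(goldenRatio - v) / Ld| + goldenRatio * |u| ≤ Ld) ↔
    -1 ≤ goldenRatio * v ∧ goldenRatio * Ld * |u| - v ≤ 2 ∧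
      Ld * |u| + goldenRatio ^ 2 * v ≤ 2 := by
  have g0 := DPN_gpos
  have g2 : goldenRatio ^ 2 = goldenRatio + 1 := goldenRatio_sq
  have hL := DPN_Lpos
  have hL2 := DPN_L2
  have hu := abs_nonneg u
  have e : ∀ x : ℝ, |x / Ld| = |x| / Ld := fun x => by rw [abs_div, abs_of_pos hL]
  rw [e, e]
  have m1 : |1 + goldenRatio * v| / Ld + goldenRatio * (|goldenRatio - v| / Ld) ≤ Ld ↔
      |1 + goldenRatio * v| + goldenRatio * |goldenRatio - v| ≤ 2 + goldenRatio := by
    rw [← hL2, sq, ← div_le_iff₀ hL]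
    rw [add_div, mul_div_assoc]
  have m2 : |u| + goldenRatio * (|1 + goldenRatio * v| / Ld) ≤ Ld ↔
      Ld * |u| + goldenRatio * |1 + goldenRatio * v| ≤ 2 + goldenRatio := by
    rw [← hL2, sq, ← div_le_iff₀ hL]
    rw [add_div, show Ld * |u| = |u| * Ld by ring, mul_div_assoc, div_self hL.ne', mul_one,
      mul_div_assoc]
  have m3 : |goldenRatio - v| / Ld + goldenRatio * |u| ≤ Ld ↔
      goldenRatio * Ld * |u| + |goldenRatio - v| ≤ 2 + goldenRatio := by
    rw [← hL2, sq, ← div_le_iff₀ hL]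
    rw [add_div, show goldenRatio * Ld * |u| = goldenRatio * |u| * Ld by ring, mul_div_assoc,
      div_self hL.ne', mul_one, add_comm]
  rw [m1, m2, m3]
  constructor
  · rintro ⟨h1, h2, h3⟩
    have a1 := neg_le_abs (1 + goldenRatio * v)
    have a2 := le_abs_self (1 + goldenRatio * v)
    have a3 := neg_le_abs (goldenRatio - v)
    have a4 := le_abs_self (goldenRatio - v)
    have b4 := mul_le_mul_of_nonneg_left a4 g0.le
    have b2 := mul_le_mul_of_nonneg_left a2 g0.le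
    refine ⟨?_, ?_, ?_⟩
    · have : -(1 + goldenRatio * v) + goldenRatio * (goldenRatio - v) ≤ 2 + goldenRatio := by
        linarith
      nlinarith
    · nlinarith
    · nlinarith
  · rintro ⟨h1, h2, h3⟩
    have p1 : |1 + goldenRatio * v| = 1 + goldenRatio * v := abs_of_nonneg (by linarith)
    have p2 : v ≤ goldenRatio := by
      have q : 0 ≤ Ld * |u| := by positivity
      have q1 : (1 : ℝ) < goldenRatio := one_lt_goldenRatio
      by_contra hc
      push Not at hc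
      have q2 : goldenRatio ^ 2 * v ≤ 2 := by linarith
      have q3 : goldenRatio ^ 2 * goldenRatio < goldenRatio ^ 2 * v :=
        mul_lt_mul_of_pos_left hc (by positivity)
      have q4 : goldenRatio ^ 2 * goldenRatio = goldenRatio ^ 2 + goldenRatio := by
        rw [g2]
        nlinarith
      nlinarith
    have p3 : |goldenRatio - v| = goldenRatio - v := abs_of_nonneg (by linarith)
    rw [p1, p3]
    refine ⟨?_, ?_, ?_⟩
    · nlinarith
    · nlinarith
    · nlinarith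

theorem DPN_sg (b : Bool) (x : ℝ) : |sg b * x| = |x| := by
  rw [abs_mul]
  cases b <;> simp [sg]

/-- DPN. -/
theorem p_DPN (hDNF : T_DNF) : T_DPN := by
  intro k
  ext w
  rw [DPN_pen, ← DPN_core]
  have hD : Dod = Poly nD (fun _ => 1) := hDNF.2.2.1
  have h1 : w ∈ Qs nD (fun _ => 1) k (eD k) (fD k) ↔
      nD k + w.1 • eD k + w.2 • fD k ∈ Dod := by
    rw [hD]
    refine forall_congr' fun j => ?_
    rw [inner_add_right, inner_add_right, inner_smul_right, inner_smul_right, one_mul]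
  rw [h1]
  obtain ⟨i, b, d⟩ := k
  have hLd : √(1 + goldenRatio ^ 2) = Ld := rfl
  fin_cases i
  · have y0 : (nD (0, b, d) + w.1 • eD (0, b, d) + w.2 • fD (0, b, d)) 0 = w.1 := by
      simp [nD, eD, fD]
    have y1 : (nD (0, b, d) + w.1 • eD (0, b, d) + w.2 • fD (0, b, d)) 1 =
        sg b * ((1 + goldenRatio * w.2) / Ld) := by
      simp [nD, eD, fD]
      ring
    have y2 : (nD (0, b, d) + w.1 • eD (0, b, d) + w.2 • fD (0, b, d)) 2 =
        sg d * ((goldenRatio - w.2) / Ld) := by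
      simp [nD, eD, fD]
      ring
    change (|_| + goldenRatio * |_| ≤ _ ∧ |_| + goldenRatio * |_| ≤ _ ∧
      goldenRatio * |_| + |_| ≤ _) ↔ _
    rw [hLd]
    erw [y0, y1, y2]
    rw [DPN_sg, DPN_sg]
    constructor
    · rintro ⟨a, b, c⟩
      exact ⟨a, b, by linarith⟩
    · rintro ⟨a, b, c⟩
      exact ⟨a, b, by linarith⟩
  · have y0 : (nD (1, b, d) + w.1 • eD (1, b, d) + w.2 • fD (1, b, d)) 0 =
        sg b * ((1 + goldenRatio * w.2) / Ld) := by
      simp [nD, eD, fD]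
      ring
    have y1 : (nD (1, b, d) + w.1 • eD (1, b, d) + w.2 • fD (1, b, d)) 1 =
        sg d * ((goldenRatio - w.2) / Ld) := by
      simp [nD, eD, fD]
      ring
    have y2 : (nD (1, b, d) + w.1 • eD (1, b, d) + w.2 • fD (1, b, d)) 2 = w.1 := by
      simp [nD, eD, fD]
    change (|_| + goldenRatio * |_| ≤ _ ∧ |_| + goldenRatio * |_| ≤ _ ∧
      goldenRatio * |_| + |_| ≤ _) ↔ _
    rw [hLd]
    erw [y0, y1, y2]
    rw [DPN_sg, DPN_sg]
    constructor
    · rintro ⟨a, b, c⟩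
      exact ⟨b, by linarith, a⟩
    · rintro ⟨a, b, c⟩
      exact ⟨c, a, by linarith⟩
  · have y0 : (nD (2, b, d) + w.1 • eD (2, b, d) + w.2 • fD (2, b, d)) 0 =
        sg d * ((goldenRatio - w.2) / Ld) := by
      simp [nD, eD, fD]
      ring
    have y1 : (nD (2, b, d) + w.1 • eD (2, b, d) + w.2 • fD (2, b, d)) 1 = w.1 := by
      simp [nD, eD, fD]
    have y2 : (nD (2, b, d) + w.1 • eD (2, b, d) + w.2 • fD (2, b, d)) 2 =
        sg b * ((1 + goldenRatio * w.2) / Ld) := by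
      simp [nD, eD, fD]
      ring
    change (|_| + goldenRatio * |_| ≤ _ ∧ |_| + goldenRatio * |_| ≤ _ ∧
      goldenRatio * |_| + |_| ≤ _) ↔ _
    rw [hLd]
    erw [y0, y1, y2]
    rw [DPN_sg, DPN_sg]
    constructor
    · rintro ⟨a, b, c⟩
      exact ⟨by linarith, a, b⟩
    · rintro ⟨a, b, c⟩
      exact ⟨b, c, by linarith⟩

end Pool.Agent.SDC
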