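import Pool.Agent.SDC.Targets2

set_option autoImplicit false

/-!
# SDC: FAC, one facet in the plane
-/

open MeasureTheory Set Real
open scoped RealInnerProductSpace

namespace Pool.Agent.SDC

theorem FAC_aux_cos (s ψ t : ℝ) :
    s * cos ψ * cos t + s * sin ψ * sin t = s * cos (ψ - t) := by
  rw [Real.cos_sub]
  ring

theorem FAC_aux_Us_nonneg (g : ℝ → ℝ) (α a x : ℝ) : 0 ≤ Us g α a x := by
  unfold Us
  split_ifs
  · exact le_max_right _ _
  · exact le_refl 0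

/-- The inequality on one ray. -/
theorem FAC_aux_ray (h1 : T_FC1) {J : Type} [Fintype J] {θ a : J → ℝ} {ρ α : ℝ} {g : ℝ → ℝ}
    (hg : Continuous g) (hs : ∀ r r', 0 ≤ r → r ≤ r' → 0 ≤ g r → 0 ≤ g r') (hρ : 0 < ρ)
    (hα : α ≤ 0) (hI : α ≤ ∫ s in (0 : ℝ)..ρ, g s * s) (S : Finset J)
    (hS : ∀ j, 0 < a j → (∃ w : ℝ × ℝ, w.1 * cos (θ j) + w.2 * sin (θ j) = a j ∧
      ∀ k, k ≠ j → w.1 * cos (θ k) + w.2 * sin (θ k) < a k) → j ∈ S) {ψ : ℝ}
    (hE : ¬ ∃ j k, j ≠ k ∧ ∃ s, 0 < s ∧ (∀ l, s * cos (ψ - θ l) ≤ a l) ∧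
      s * cos (ψ - θ j) = a j ∧ s * cos (ψ - θ k) = a k) :
    α - ∑ j ∈ S, Us g α (a j) (cos (ψ - θ j)) ≤
      ∫ s in {s : ℝ | 0 < s ∧ s < ρ ∧ ∀ j, s * cos (ψ - θ j) ≤ a j}, g s * s := by
  have hsum : 0 ≤ ∑ j ∈ S, Us g α (a j) (cos (ψ - θ j)) :=
    Finset.sum_nonneg fun j _ => FAC_aux_Us_nonneg _ _ _ _
  rcases h1 J (fun j => cos (ψ - θ j)) a ρ α g hg hs hρ hα hI with h | h
  · linarith
  · obtain ⟨j, s, hs0, _, hall, hj, hb, hmin⟩ := h
    have haj : 0 < a j := by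
      rw [← hj]
      exact mul_pos hs0 hb
    have hjS : j ∈ S := by
      refine hS j haj ⟨(s * cos ψ, s * sin ψ), ?_, ?_⟩
      · simp only [FAC_aux_cos]
        exact hj
      · intro k hk
        simp only [FAC_aux_cos]
        refine lt_of_le_of_ne (hall k) ?_
        intro hk'
        exact hE ⟨j, k, hk.symm, s, hs0, hall, hj, hk'⟩
    have hle : Us g α (a j) (cos (ψ - θ j)) ≤ ∑ j ∈ S, Us g α (a j) (cos (ψ - θ j)) :=
      Finset.single_le_sum (f := fun j => Us g α (a j) (cos (ψ - θ j)))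
        (fun j _ => FAC_aux_Us_nonneg _ _ _ _) hjS
    have hU : Us g α (a j) (cos (ψ - θ j)) = max (α - ∫ r in (0 : ℝ)..s, g r * r) 0 := by
      have h3 : a j / cos (ψ - θ j) = s := by
        rw [← hj]
        field_simp
      unfold Us
      rw [if_pos hb, h3]
    have h4 : α - max (α - ∫ r in (0 : ℝ)..s, g r * r) 0 ≤ min (∫ r in (0 : ℝ)..s, g r * r) 0 := by
      refine le_min ?_ ?_
      · linarith [le_max_left (α - ∫ r in (0 : ℝ)..s, g r * r) 0]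
      · linarith [le_max_right (α - ∫ r in (0 : ℝ)..s, g r * r) 0]
    rw [hU] at hle
    linarith

theorem p_FAC (h1 : T_FC1) (h2 : T_FC2) (h3 : T_FC3) (h4 : T_FC4) : T_FAC := by
  classical
  intro J _ θ a ρ α τ g hg hs hρ hα hI hρ' hτ huniq
  set Q : Set (ℝ × ℝ) := {w | ∀ l, w.1 * cos (θ l) + w.2 * sin (θ l) ≤ a l} with hQdef
  have hQ : MeasurableSet Q := by
    have : Q = ⋂ l, {w : ℝ × ℝ | w.1 * cos (θ l) + w.2 * sin (θ l) ≤ a l} := by
      ext w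
      simp [hQdef]
    rw [this]
    exact MeasurableSet.iInter fun l =>
      measurableSet_le (by fun_prop) measurable_const
  obtain ⟨hK, hKint⟩ := h3 Q ρ g hQ hρ hg
  have hlhs : {w : ℝ × ℝ | (∀ l, w.1 * cos (θ l) + w.2 * sin (θ l) ≤ a l) ∧ nr w < ρ} =
      {w | w ∈ Q ∧ nr w < ρ} := rfl
  rw [hlhs, hKint]
  have hset : ∀ ψ : ℝ, {s : ℝ | 0 < s ∧ s < ρ ∧ (s * cos ψ, s * sin ψ) ∈ Q} =
      {s : ℝ | 0 < s ∧ s < ρ ∧ ∀ j, s * cos (ψ - θ j) ≤ a j} := by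
    intro ψ
    ext s
    simp only [hQdef, Set.mem_ofPred_eq, FAC_aux_cos]
  simp only [hset] at hK ⊢
  have hfin := h4 J θ a Q (by
    intro j k hjk w hw w' hw' e1 e2 e3 e4
    exact huniq j k hjk w w' hw hw' e1 e2 e3 e4)
  set E : Set ℝ := {ψ : ℝ | ψ ∈ Ioo (-π) π ∧ ∃ j k, j ≠ k ∧ ∃ s, 0 < s ∧
    (s * cos ψ, s * sin ψ) ∈ Q ∧ s * cos (ψ - θ j) = a j ∧ s * cos (ψ - θ k) = a k} with hEdef
  set P : J → Prop := fun j => ∃ w : ℝ × ℝ, w.1 * cos (θ j) + w.2 * sin (θ j) = a j ∧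
      ∀ k, k ≠ j → w.1 * cos (θ k) + w.2 * sin (θ k) < a k with hP
  set S : Finset J := Finset.univ.filter fun j => P j ∧ 0 < a j with hSdef
  have hτ0 : 0 ≤ τ := by
    refine le_trans ?_ (hτ 1 one_pos)
    exact intervalIntegral.integral_nonneg (by positivity) fun ψ _ => le_max_right _ _
  have hScard : (S.card : ℝ) ≤ ({j : J | P j}.ncard : ℝ) := by
    have h5 : S.card ≤ {j : J | P j}.ncard := by
      rw [← Set.ncard_coe_finset]
      refine Set.ncard_le_ncard ?_ (Set.toFinite _)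
      intro j hj
      have := (Finset.mem_filter.1 (Finset.mem_coe.1 hj)).2
      exact this.1
    exact_mod_cast h5
  have hUc : ∀ j ∈ S, Continuous (fun ψ => Us g α (a j) (cos (ψ - θ j))) ∧
      ∫ ψ in Ioo (-π) π, Us g α (a j) (cos (ψ - θ j)) ≤ 2 * τ := by
    intro j hj
    have haj : 0 < a j := ((Finset.mem_filter.1 hj).2).2
    exact h2 g α τ (a j) (θ j) hg haj hρ' (hτ (a j) haj)
  have hUi : ∀ j ∈ S, IntegrableOn (fun ψ => Us g α (a j) (cos (ψ - θ j))) (Ioo (-π) π) := by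
    intro j hj
    exact ((hUc j hj).1.integrableOn_Icc (a := -π) (b := π)).mono_set Ioo_subset_Icc_self
  have hsumi : IntegrableOn (fun ψ => ∑ j ∈ S, Us g α (a j) (cos (ψ - θ j))) (Ioo (-π) π) :=
    integrable_finsetSum S hUi
  have hvol : volume (Ioo (-π) π) = ENNReal.ofReal (2 * π) := by
    rw [Real.volume_Ioo]
    congr 1
    ring
  have hci : IntegrableOn (fun _ : ℝ => α) (Ioo (-π) π) := by
    refine integrableOn_const ?_
    rw [hvol]
    exact ENNReal.ofReal_ne_top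
  have hmono : ∫ ψ in Ioo (-π) π, (α - ∑ j ∈ S, Us g α (a j) (cos (ψ - θ j))) ≤
      ∫ ψ in Ioo (-π) π, ∫ s in {s : ℝ | 0 < s ∧ s < ρ ∧ ∀ j, s * cos (ψ - θ j) ≤ a j},
        g s * s := by
    refine setIntegral_mono_ae_restrict (hci.sub hsumi) hK ?_
    have hnull : ∀ᵐ ψ ∂(volume.restrict (Ioo (-π) π)), ψ ∉ E := by
      refine ae_restrict_of_ae ?_
      exact (Set.Finite.measure_zero hfin volume) |> measure_eq_zero_iff_ae_notMem.1
    filter_upwards [hnull, ae_restrict_mem measurableSet_Ioo] with ψ hψ hψ'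
    refine FAC_aux_ray h1 hg hs hρ hα hI S ?_ ?_
    · intro j hj hPj
      exact Finset.mem_filter.2 ⟨Finset.mem_univ j, hPj, hj⟩
    · rintro ⟨j, k, hjk, s, hs0, hall, e1, e2⟩
      refine hψ ⟨hψ', j, k, hjk, s, hs0, ?_, e1, e2⟩
      simp only [hQdef, Set.mem_ofPred_eq, FAC_aux_cos]
      exact hall
  have hleft : ∫ ψ in Ioo (-π) π, (α - ∑ j ∈ S, Us g α (a j) (cos (ψ - θ j))) =
      2 * π * α - ∑ j ∈ S, ∫ ψ in Ioo (-π) π, Us g α (a j) (cos (ψ - θ j)) := by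
    rw [integral_sub hci hsumi, integral_finsetSum S hUi]
    congr 1
    rw [setIntegral_const]
    have hr : (volume : Measure ℝ).real (Ioo (-π) π) = 2 * π := by
      rw [Measure.real, hvol, ENNReal.toReal_ofReal (by positivity)]
    rw [hr, smul_eq_mul]
  have hsumle : ∑ j ∈ S, ∫ ψ in Ioo (-π) π, Us g α (a j) (cos (ψ - θ j)) ≤
      2 * τ * S.card := by
    calc ∑ j ∈ S, ∫ ψ in Ioo (-π) π, Us g α (a j) (cos (ψ - θ j))
        ≤ ∑ j ∈ S, 2 * τ := Finset.sum_le_sum fun j hj => (hUc j hj).2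
      _ = 2 * τ * S.card := by
        rw [Finset.sum_const, nsmul_eq_mul]
        ring
  have hfinal : 2 * τ * (S.card : ℝ) ≤ 2 * τ * ({j : J | P j}.ncard : ℝ) :=
    mul_le_mul_of_nonneg_left hScard (by positivity)
  rw [hleft] at hmono
  linarith

end Pool.Agent.SDC
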