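import Pool.Agent.SDC.Targets

set_option autoImplicit false

/-!
# SDC: target FAR
-/

open MeasureTheory Set Real
open scoped RealInnerProductSpace

namespace Pool.Agent.SDC

theorem FAR_kap (hKAP : T_KAP) (hKB : T_KB) (t : ℝ) (h1 : 1 ≤ t) (h2 : t < R) :
    0 ≤ kap t ∧ kap t * rv ^ 2 ≤ R ^ 2 - t ^ 2 := by
  obtain ⟨h3, h4⟩ := hKAP t h1 h2
  have h5 := h4.trans (hKB t h1 h2)
  refine ⟨h3, ?_⟩
  set q : ℝ := √(t ^ 2 - 1) / rv with hq
  have hq0 : 0 ≤ q := div_nonneg (Real.sqrt_nonneg _) rv_pos.le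
  have ht : 0 ≤ t ^ 2 - 1 := by nlinarith
  have hq2 : q ^ 2 * rv ^ 2 = t ^ 2 - 1 := by
    rw [hq, div_pow, Real.sq_sqrt ht]
    field_simp [rv_pos.ne']
  have hq1 : q ≤ 1 := by
    rw [hq, div_le_one rv_pos]
    rw [Real.sqrt_le_left rv_pos.le]
    have := R_sq'
    nlinarith [R_pos]
  have h6 : (1 - q) ^ 2 * (2 + q) / 2 ≤ 1 - q ^ 2 := by
    have h7 : 0 ≤ (1 - q) * (q * (3 + q)) := by
      apply mul_nonneg (by linarith)
      positivity
    nlinarith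
  have h8 : kap t * rv ^ 2 ≤ (1 - q ^ 2) * rv ^ 2 := by
    apply mul_le_mul_of_nonneg_right (h5.trans h6) (by positivity)
  have h9 := R_sq'
  nlinarith

theorem FAR_Bf_lo (σ c : ℝ) (h : c ≤ σ) : Bf σ c = 0 := by
  rw [Bf, if_pos h]

theorem FAR_Bf_hi (σ c : ℝ) (hc : 0 < c) (h : σ ≤ c) :
    Bf σ c = c ^ 2 / 2 + σ ^ 3 / c - 3 / 2 * σ ^ 2 := by
  rcases h.lt_or_eq with h | h
  · rw [Bf, if_neg (not_le.2 h)]
    field_simp
    ring
  · rw [Bf, if_pos h.ge, h]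
    field_simp
    ring

theorem FAR_base (hHCL : T_HCL) (hKAP : T_KAP) (hKB : T_KB) (t h : ℝ) (h1 : 1 ≤ t)
    (h2 : t < R) (hh : 1 ≤ h) : alp t ≤ H t (kap t) (bet t) h rv := by
  obtain ⟨hk0, hk1⟩ := FAR_kap hKAP hKB t h1 h2
  have ht0 : 0 < t := by linarith
  have hh0 : 0 < h := by linarith
  have hR := R_sq'
  rw [alp, hHCL.2 t (kap t) (bet t) 1 rv ht0 one_pos rv_pos.le,
    hHCL.2 t (kap t) (bet t) h rv ht0 hh0 rv_pos.le, cc_rv, div_one,
    FAR_Bf_lo t 1 h1, FAR_Bf_hi t R R_pos h2.le]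
  have e1 : h ^ 3 * Bf (t / h) R = h ^ 3 * R ^ 2 / 2 + t ^ 3 / R - 3 / 2 * t ^ 2 * h := by
    rw [FAR_Bf_hi (t / h) R R_pos]
    · field_simp
    · rw [div_le_iff₀ hh0]
      nlinarith [R_pos]
  rw [mul_sub (h ^ 3), e1]
  set κ := kap t with hκ
  set β := bet t with hβ
  have hcube : 1 ≤ h ^ 3 := one_le_pow₀ hh
  rcases le_total t h with hth | hth
  · have e2 : h ^ 3 * Bf (t / h) 1 = h ^ 3 / 2 + t ^ 3 - 3 / 2 * t ^ 2 * h := by
      rw [FAR_Bf_hi (t / h) 1 one_pos]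
      · field_simp
      · rw [div_le_one hh0]
        exact hth
    rw [e2]
    have h3 : t ^ 3 ≤ h ^ 3 := by gcongr
    have h4 : (t ^ 2 - 1) ≤ (1 - κ) * rv ^ 2 := by nlinarith
    have h5 : 0 ≤ t ^ 2 - 1 := by nlinarith
    have h6 : (t ^ 3 - 1) * (t ^ 2 - 1) ≤ (h ^ 3 - 1) * ((1 - κ) * rv ^ 2) := by
      apply mul_le_mul (by linarith) h4 h5 (by linarith)
    have h7 : 0 ≤ (t - 1) ^ 2 * ((t ^ 2 + t + 1) * (t + 1) - 2 * t - 1) := by
      apply mul_nonneg (sq_nonneg _)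
      nlinarith
    nlinarith
  · have e2 : Bf (t / h) 1 = 0 := by
      apply FAR_Bf_lo
      rw [le_div_iff₀ hh0, one_mul]
      exact hth
    rw [e2]
    have h3 : (h ^ 3 - 1) * (κ * rv ^ 2) ≤ (h ^ 3 - 1) * (R ^ 2 - t ^ 2) := by
      apply mul_le_mul_of_nonneg_left hk1 (by linarith)
    have h4 : 0 ≤ t ^ 2 * ((h - 1) ^ 2 * (h + 2)) := by positivity
    nlinarith

theorem FAR_int (hHCL : T_HCL) (t κ β h a b : ℝ) (ha : 0 ≤ a) (hab : a ≤ b)
    (hG : ∀ s, a ≤ s → 0 ≤ G t κ β h s) : H t κ β h a ≤ H t κ β h b := by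
  have hc : Continuous (fun s => G t κ β h s * s) := (hHCL.1 t κ β h).mul continuous_id
  have h1 : H t κ β h b - H t κ β h a = ∫ s in a..b, G t κ β h s * s := by
    unfold H
    exact intervalIntegral.integral_interval_sub_left (hc.intervalIntegrable _ _)
      (hc.intervalIntegrable _ _)
  have h2 : 0 ≤ ∫ s in a..b, G t κ β h s * s := by
    apply intervalIntegral.integral_nonneg hab
    intro s hs
    exact mul_nonneg (hG s hs.1) (ha.trans hs.1)
  linarith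

theorem p_FAR (hHCL : T_HCL) (hSGN : T_SGN) (hKAP : T_KAP) (hKB : T_KB) (hBET : T_BET) :
    T_FAR := by
  intro t h h1 h2 hh
  obtain ⟨hk0, hk1⟩ := FAR_kap hKAP hKB t h1 h2
  obtain ⟨hb0, hb1⟩ := hBET t h1 h2
  have ht0 : 0 < t := by linarith
  have hh0 : 0 < h := by linarith
  have hcube : 1 ≤ h ^ 3 := one_le_pow₀ hh
  have hR1 := R_one
  have hRR : 0 < R := R_pos
  have hk2 : kap t ≤ 1 := by
    have h3 := R_sq'
    have h4 : kap t * rv ^ 2 ≤ 1 * rv ^ 2 := by nlinarith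
    exact le_of_mul_le_mul_right h4 (by have := rv_pos; positivity)
  set κ := kap t with hκ
  set β := bet t with hβ
  -- the value at `rv`
  have hG1 : G t κ β 1 rv = 1 - t ^ 3 / R ^ 3 - κ - β / R ^ 3 := by
    rw [G, cc_rv, one_pow, mul_one, max_eq_left]
    rw [sub_nonneg, div_le_one (by positivity)]
    gcongr
  constructor
  · intro r hr
    have h3 : 0 ≤ G t κ β h rv := by
      have h4 : G t κ β 1 rv ≤ G t κ β h rv := by
        rw [hG1, G, cc_rv]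
        have h5 := le_max_left (h ^ 3 - t ^ 3 / R ^ 3) 0
        nlinarith
      exact hb1.trans h4
    refine (FAR_base hHCL hKAP hKB t h h1 h2 hh).trans ?_
    apply FAR_int hHCL t κ β h rv r rv_pos.le hr
    intro s hs
    exact hSGN t κ β h rv s ht0 hh0 hk0 hb0 rv_pos.le hs h3
  · intro hRh r hr
    have h3 : ∀ s, 0 ≤ s → 0 ≤ G t κ β h s := by
      intro s _
      have h4 := le_max_left (h ^ 3 - t ^ 3 / cc s ^ 3) 0
      have hc1 : 1 ≤ cc s ^ 3 := one_le_pow₀ (cc_one s)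
      have h5 : t ^ 3 / cc s ^ 3 ≤ t ^ 3 := div_le_self (by positivity) hc1
      have h6 : β / cc s ^ 3 ≤ β := div_le_self hb0 hc1
      have h7 : R ^ 3 ≤ h ^ 3 := by gcongr
      have h8 : 0 ≤ R ^ 3 * (1 - κ) - (t ^ 3 + β) := by
        rw [hG1] at hb1
        have h9 : R ^ 3 * (1 - t ^ 3 / R ^ 3 - κ - β / R ^ 3) =
            R ^ 3 * (1 - κ) - (t ^ 3 + β) := by
          field_simp
          ring
        rw [← h9]
        positivity
      have h10 : R ^ 3 * (1 - κ) ≤ h ^ 3 * (1 - κ) := by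
        apply mul_le_mul_of_nonneg_right h7 (by linarith)
      rw [G]
      nlinarith
    have h4 := FAR_int hHCL t κ β h 0 r le_rfl hr h3
    have h5 : H t κ β h 0 = 0 := by simp [H]
    linarith

end Pool.Agent.SDC
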