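import Pool.Agent.SDC.Targets2

set_option autoImplicit false

/-! # SDC: one ray (target FC1) -/

open MeasureTheory Set Real
open scoped RealInnerProductSpace

namespace Pool.Agent.SDC

theorem FC1_int {g : ℝ → ℝ} (hg : Continuous g) (p q : ℝ) :
    IntervalIntegrable (fun s => g s * s) volume p q :=
  (hg.mul continuous_id).intervalIntegrable p q

theorem FC1_max {g : ℝ → ℝ} (hg : Continuous g)
    (hs : ∀ r r', 0 ≤ r → r ≤ r' → 0 ≤ g r → 0 ≤ g r') {p q : ℝ} (hp : 0 ≤ p) (hpq : p ≤ q) :
    ∫ s in (0 : ℝ)..p, g s * s ≤ max 0 (∫ s in (0 : ℝ)..q, g s * s) := by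
  rcases le_or_gt 0 (g p) with h | h
  · refine le_max_of_le_right ?_
    have h1 : 0 ≤ ∫ s in p..q, g s * s := by
      refine intervalIntegral.integral_nonneg hpq fun u hu => ?_
      exact mul_nonneg (hs p u hp hu.1 h) (hp.trans hu.1)
    have h2 := intervalIntegral.integral_add_adjacent_intervals (FC1_int hg 0 p)
      (FC1_int hg p q)
    linarith
  · refine le_max_of_le_left ?_
    have h1 : 0 ≤ ∫ s in (0 : ℝ)..p, -(g s * s) := by
      refine intervalIntegral.integral_nonneg hp fun u hu => ?_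
      have h2 : g u < 0 := by
        by_contra h3
        exact absurd (hs u p hu.1 hu.2 (not_lt.1 h3)) (not_le.2 h)
      have h4 : g u * u ≤ 0 := mul_nonpos_of_nonpos_of_nonneg h2.le hu.1
      linarith
    rw [intervalIntegral.integral_neg] at h1
    linarith

theorem p_FC1 : T_FC1 := by
  intro J _ b a ρ α g hg hs hρ hα hαρ
  set S : Set ℝ := {s | 0 < s ∧ s < ρ ∧ ∀ j, s * b j ≤ a j} with hS
  rcases S.eq_empty_or_nonempty with hE | ⟨s0, hs0⟩
  · left
    rw [hE]
    simpa using hα
  have hbA : BddAbove S := ⟨ρ, fun x hx => hx.2.1.le⟩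
  have hbB : BddBelow S := ⟨0, fun x hx => hx.1.le⟩
  set p := sInf S with hp
  set q := sSup S with hq
  have hp0 : 0 ≤ p := le_csInf ⟨s0, hs0⟩ fun x hx => hx.1.le
  have hqρ : q ≤ ρ := csSup_le ⟨s0, hs0⟩ fun x hx => hx.2.1.le
  have hps : p ≤ s0 := csInf_le hbB hs0
  have hsq : s0 ≤ q := le_csSup hbA hs0
  have hpq : p ≤ q := hps.trans hsq
  have hq0 : 0 < q := lt_of_lt_of_le hs0.1 hsq
  have hconv : ∀ x ∈ S, ∀ y ∈ S, ∀ z, x ≤ z → z ≤ y → z ∈ S := by
    intro x hx y hy z hxz hzy
    refine ⟨lt_of_lt_of_le hx.1 hxz, lt_of_le_of_lt hzy hy.2.1, fun j => ?_⟩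
    rcases le_or_gt 0 (b j) with h | h
    · exact (mul_le_mul_of_nonneg_right hzy h).trans (hy.2.2 j)
    · exact (mul_le_mul_of_nonpos_right hxz h.le).trans (hx.2.2 j)
  have hsub1 : Ioo p q ⊆ S := by
    intro z hz
    obtain ⟨x, hx, hxz⟩ := exists_lt_of_csInf_lt ⟨s0, hs0⟩ hz.1
    obtain ⟨y, hy, hzy⟩ := exists_lt_of_lt_csSup ⟨s0, hs0⟩ hz.2
    exact hconv x hx y hy z hxz.le hzy.le
  have hsub2 : S ⊆ Icc p q := fun x hx => ⟨csInf_le hbB hx, le_csSup hbA hx⟩
  have hae : S =ᵐ[volume] Ioc p q := by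
    refine Filter.EventuallyLE.antisymm ?_ ?_
    · exact (LE.le.eventuallyLE hsub2).trans
        (Ioc_ae_eq_Icc (μ := (volume : Measure ℝ)) (a := p) (b := q)).symm.le
    · exact (Ioo_ae_eq_Ioc (μ := (volume : Measure ℝ)) (a := p) (b := q)).symm.le.trans
        (LE.le.eventuallyLE hsub1)
  have hint : ∫ s in S, g s * s = (∫ s in (0 : ℝ)..q, g s * s) - ∫ s in (0 : ℝ)..p, g s * s := by
    rw [setIntegral_congr_set hae, ← intervalIntegral.integral_of_le hpq,
      intervalIntegral.integral_interval_sub_left (FC1_int hg 0 q) (FC1_int hg 0 p)]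
  have hlow : min (∫ s in (0 : ℝ)..q, g s * s) 0 ≤ ∫ s in S, g s * s := by
    rw [hint]
    have h1 := FC1_max hg hs hp0 hpq
    rcases le_total 0 (∫ s in (0 : ℝ)..q, g s * s) with h2 | h2
    · rw [max_eq_right h2] at h1
      rw [min_eq_right h2]
      linarith
    · rw [max_eq_left h2] at h1
      rw [min_eq_left h2]
      linarith
  rcases hqρ.eq_or_lt with hqe | hql
  · left
    refine le_trans ?_ hlow
    rw [hqe]
    exact le_min hαρ hα
  · right
    have hcl : ∀ k, q * b k ≤ a k := by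
      intro k
      have h1 : IsClosed {s : ℝ | s * b k ≤ a k} :=
        isClosed_le (continuous_id.mul continuous_const) continuous_const
      have h2 : q ∈ closure S := csSup_mem_closure ⟨s0, hs0⟩ hbA
      have h3 : S ⊆ {s : ℝ | s * b k ≤ a k} := fun x hx => hx.2.2 k
      exact (closure_minimal h3 h1) h2
    have hex : ∃ j, q * b j = a j ∧ 0 < b j := by
      by_contra hno
      push Not at hno
      have hlt : ∀ j, 0 < b j → q * b j < a j := by
        intro j hj
        refine lt_of_le_of_ne (hcl j) fun h => ?_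
        exact absurd (hno j h) (not_le.2 hj)
      have hev : ∀ᶠ s in nhds q, ∀ j, 0 < b j → s * b j < a j := by
        rw [Filter.eventually_all]
        intro j
        by_cases hj : 0 < b j
        · have h1 : IsOpen {s : ℝ | s * b j < a j} :=
            isOpen_lt (continuous_id.mul continuous_const) continuous_const
          filter_upwards [h1.mem_nhds (hlt j hj)] with s hs' _
          exact hs'
        · exact Filter.Eventually.of_forall fun s h => absurd h hj
      have hev2 : ∀ᶠ s in nhdsWithin q (Ioi q), (∀ j, 0 < b j → s * b j < a j) ∧ s < ρ ∧ q < s := by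
        have h2 : ∀ᶠ s in nhds q, s < ρ := Iio_mem_nhds hql
        exact (hev.filter_mono nhdsWithin_le_nhds).and
          ((h2.filter_mono nhdsWithin_le_nhds).and self_mem_nhdsWithin)
      obtain ⟨s, h1, h2, h3⟩ := hev2.exists
      have hsS : s ∈ S := by
        refine ⟨hq0.trans h3, h2, fun j => ?_⟩
        by_cases hj : 0 < b j
        · exact (h1 j hj).le
        · exact (mul_le_mul_of_nonpos_right h3.le (not_lt.1 hj)).trans (hcl j)
      exact absurd (le_csSup hbA hsS) (not_le.2 h3)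
    obtain ⟨j, hj1, hj2⟩ := hex
    exact ⟨j, q, hq0, hql, hcl, hj1, hj2, hlow⟩

end Pool.Agent.SDC
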