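import Pool.Agent.SDC.Targets2

set_option autoImplicit false

/-!
# SDC: the contribution of a side (target FC2)
-/

open MeasureTheory Set Real

namespace Pool.Agent.SDC

theorem FC2_cont (g : ℝ → ℝ) (α a : ℝ) (hg : Continuous g) (ha : 0 < a)
    (hρ : ∃ ρ', 0 < ρ' ∧ ∀ r, ρ' ≤ r → α ≤ ∫ s in (0 : ℝ)..r, g s * s) :
    Continuous (Us g α a) := by
  obtain ⟨ρ', hρ', h⟩ := hρ
  have hI : Continuous fun r : ℝ => ∫ s in (0 : ℝ)..r, g s * s :=
    intervalIntegral.continuous_primitive
      (fun u v => (hg.mul continuous_id).intervalIntegrable u v) 0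
  rw [continuous_iff_continuousAt]
  intro x
  rcases lt_or_ge 0 x with hx | hx
  · have h1 : ContinuousAt (fun y : ℝ => max (α - ∫ s in (0 : ℝ)..(a / y), g s * s) 0) x := by
      have h2 : ContinuousAt (fun y : ℝ => a / y) x :=
        continuousAt_const.div continuousAt_id hx.ne'
      have h3 : ContinuousAt (fun y : ℝ => ∫ s in (0 : ℝ)..(a / y), g s * s) x :=
        ContinuousAt.comp (g := fun r : ℝ => ∫ s in (0 : ℝ)..r, g s * s) hI.continuousAt h2
      exact (continuousAt_const.sub h3).max continuousAt_const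
    refine h1.congr ?_
    filter_upwards [Ioi_mem_nhds hx] with y hy
    simp only [Us, if_pos (mem_Ioi.1 hy)]
  · have h1 : ContinuousAt (fun _ : ℝ => (0 : ℝ)) x := continuousAt_const
    refine h1.congr ?_
    have hx' : x < a / ρ' := lt_of_le_of_lt hx (div_pos ha hρ')
    filter_upwards [Iio_mem_nhds hx'] with y hy
    by_cases h0 : 0 < y
    · have h2 : ρ' ≤ a / y := by
        rw [le_div_iff₀ h0]
        have := (lt_div_iff₀ hρ').1 (mem_Iio.1 hy)
        linarith
      have h3 := h _ h2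
      simp only [Us, if_pos h0]
      rw [max_eq_right (by linarith)]
    · simp only [Us, if_neg h0]

theorem p_FC2 : T_FC2 := by
  intro g α τ a θ hg ha hρ hτ
  have hV := FC2_cont g α a hg ha hρ
  have hc : Continuous fun ψ : ℝ => Us g α a (cos ψ) := hV.comp continuous_cos
  have hint : ∀ u v : ℝ, IntervalIntegrable (fun ψ : ℝ => Us g α a (cos ψ)) volume u v :=
    fun u v => hc.intervalIntegrable u v
  refine ⟨hV.comp (continuous_cos.comp (continuous_id.sub continuous_const)), ?_⟩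
  have hper : Function.Periodic (fun ψ : ℝ => Us g α a (cos ψ)) (2 * π) := fun ψ => by
    simp only [cos_add_two_pi]
  have e1 : ∫ ψ in Ioo (-π) π, Us g α a (cos (ψ - θ)) =
      ∫ ψ in (-π)..π, Us g α a (cos (ψ - θ)) := by
    rw [intervalIntegral.integral_of_le (by linarith [pi_pos]), integral_Ioc_eq_integral_Ioo]
  have e2 : ∫ ψ in (-π)..π, Us g α a (cos (ψ - θ)) = ∫ ψ in (-π - θ)..(π - θ),
      Us g α a (cos ψ) :=
    intervalIntegral.integral_comp_sub_right (fun ψ => Us g α a (cos ψ)) θ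
  have e3 : ∫ ψ in (-π - θ)..(π - θ), Us g α a (cos ψ) = ∫ ψ in (-π)..π, Us g α a (cos ψ) := by
    have h1 := hper.intervalIntegral_add_eq (-π - θ) (-π)
    rw [show -π - θ + 2 * π = π - θ by ring, show -π + 2 * π = π by ring] at h1
    exact h1
  have e4 : ∫ ψ in (-π)..(0 : ℝ), Us g α a (cos ψ) = ∫ ψ in (0 : ℝ)..π, Us g α a (cos ψ) := by
    have h1 := intervalIntegral.integral_comp_neg (a := (0 : ℝ)) (b := π)
      (fun ψ => Us g α a (cos ψ))
    rw [neg_zero] at h1
    rw [← h1]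
    simp only [cos_neg]
  have e5 : ∫ ψ in (-π)..π, Us g α a (cos ψ) = 2 * ∫ ψ in (0 : ℝ)..π, Us g α a (cos ψ) := by
    rw [← intervalIntegral.integral_add_adjacent_intervals (hint (-π) 0) (hint 0 π), e4]
    ring
  have e6 : ∫ ψ in (π / 2)..π, Us g α a (cos ψ) = 0 := by
    have h1 : ∫ ψ in (π / 2)..π, Us g α a (cos ψ) = ∫ ψ in (π / 2)..π, (0 : ℝ) := by
      refine intervalIntegral.integral_congr fun ψ hψ => ?_
      rw [uIcc_of_le (by linarith [pi_pos])] at hψ
      have h2 : cos ψ ≤ 0 :=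
        cos_nonpos_of_pi_div_two_le_of_le hψ.1 (by linarith [hψ.2, pi_pos])
      simp only [Us, if_neg (not_lt.2 h2)]
    rw [h1]
    simp
  have e7 : ∫ ψ in (0 : ℝ)..(π / 2), Us g α a (cos ψ) =
      ∫ ψ in (0 : ℝ)..(π / 2), max (α - ∫ s in (0 : ℝ)..(a / cos ψ), g s * s) 0 := by
    rw [intervalIntegral.integral_of_le (by linarith [pi_pos]),
      intervalIntegral.integral_of_le (by linarith [pi_pos]), integral_Ioc_eq_integral_Ioo,
      integral_Ioc_eq_integral_Ioo]
    refine setIntegral_congr_fun measurableSet_Ioo fun ψ hψ => ?_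
    have h2 : 0 < cos ψ := cos_pos_of_mem_Ioo ⟨by linarith [hψ.1, pi_pos], hψ.2⟩
    simp only [Us, if_pos h2]
  have e8 : ∫ ψ in (0 : ℝ)..π, Us g α a (cos ψ) =
      ∫ ψ in (0 : ℝ)..(π / 2), max (α - ∫ s in (0 : ℝ)..(a / cos ψ), g s * s) 0 := by
    rw [← intervalIntegral.integral_add_adjacent_intervals (hint 0 (π / 2)) (hint (π / 2) π), e6,
      e7, add_zero]
  rw [e1, e2, e3, e5, e8]
  linarith

end Pool.Agent.SDC
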