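import Pool.Agent.SDC.Targets2

set_option autoImplicit false

/-!
# SDC: FC3, polar coordinates
-/

open MeasureTheory Set Real
open scoped RealInnerProductSpace

namespace Pool.Agent.SDC

theorem FC3_aux_nr {r ψ : ℝ} (hr : 0 < r) : nr (r * cos ψ, r * sin ψ) = r := by
  have h1 : (r * cos ψ) ^ 2 + (r * sin ψ) ^ 2 = r ^ 2 := by
    have := cos_sq_add_sin_sq ψ
    calc (r * cos ψ) ^ 2 + (r * sin ψ) ^ 2 = r ^ 2 * (cos ψ ^ 2 + sin ψ ^ 2) := by ring
      _ = r ^ 2 := by rw [this, mul_one]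
  simp only [nr]
  rw [h1, Real.sqrt_sq hr.le]

theorem FC3_aux_cont : Continuous nr := by
  unfold nr
  fun_prop

theorem p_FC3 : T_FC3 := by
  classical
  intro Q ρ g hQ hρ hg
  have hmap : Measurable (fun p : ℝ × ℝ => (p.1 * cos p.2, p.1 * sin p.2)) := by fun_prop
  have hT : MeasurableSet {p : ℝ × ℝ | 0 < p.1 ∧ p.1 < ρ ∧
      (p.1 * cos p.2, p.1 * sin p.2) ∈ Q} := by
    refine (measurableSet_lt measurable_const measurable_fst).inter
      ((measurableSet_lt measurable_fst measurable_const).inter (hmap hQ))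
  have hS : ∀ ψ : ℝ, MeasurableSet {s : ℝ | 0 < s ∧ s < ρ ∧ (s * cos ψ, s * sin ψ) ∈ Q} := by
    intro ψ
    have h1 : Measurable (fun s : ℝ => (s, ψ)) := by fun_prop
    exact h1 hT
  have hD : MeasurableSet {w : ℝ × ℝ | w ∈ Q ∧ nr w < ρ} :=
    hQ.inter (measurableSet_lt FC3_aux_cont.measurable measurable_const)
  set T : Set (ℝ × ℝ) := {p : ℝ × ℝ | 0 < p.1 ∧ p.1 < ρ ∧
      (p.1 * cos p.2, p.1 * sin p.2) ∈ Q} with hTdef
  set F : ℝ × ℝ → ℝ := T.indicator (fun p => g p.1 * p.1) with hF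
  have hFc : Continuous (fun p : ℝ × ℝ => g p.1 * p.1) := by fun_prop
  have hint : Integrable F ((volume.restrict (Ioi (0 : ℝ))).prod
      (volume.restrict (Ioo (-π) π))) := by
    rw [Measure.prod_restrict]
    rw [hF]
    rw [integrable_indicator_iff hT]
    rw [IntegrableOn, Measure.restrict_restrict hT]
    have h1 : IntegrableOn (fun p : ℝ × ℝ => g p.1 * p.1) (Icc (0 : ℝ) ρ ×ˢ Icc (-π) π)
        (volume.prod volume) :=
      hFc.continuousOn.integrableOn_compact (isCompact_Icc.prod isCompact_Icc)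
    refine h1.mono_set ?_
    rintro ⟨x, y⟩ ⟨⟨hx1, hx2, _⟩, _, hy⟩
    exact ⟨⟨hx1.le, hx2.le⟩, ⟨hy.1.le, hy.2.le⟩⟩
  have hin : ∀ ψ : ℝ, ∫ x in Ioi (0 : ℝ), F (x, ψ) =
      ∫ s in {s : ℝ | 0 < s ∧ s < ρ ∧ (s * cos ψ, s * sin ψ) ∈ Q}, g s * s := by
    intro ψ
    have h1 : (fun x : ℝ => F (x, ψ)) =
        {s : ℝ | 0 < s ∧ s < ρ ∧ (s * cos ψ, s * sin ψ) ∈ Q}.indicator (fun s => g s * s) := by
      funext x
      simp only [hF, hTdef, Set.indicator_apply, Set.mem_ofPred_eq]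
    rw [h1, setIntegral_indicator (hS ψ)]
    congr 2
    ext x
    simp only [mem_inter_iff, mem_Ioi, Set.mem_ofPred_eq]
    tauto
  constructor
  · have h1 := hint.integral_prod_right
    simpa only [hin] using! h1
  · have h2 := integral_prod_symm F hint
    simp only [hin] at h2
    rw [← h2, Measure.prod_restrict]
    rw [← integral_indicator hD, ← integral_comp_polarCoord_symm]
    have ht : polarCoord.target = Ioi (0 : ℝ) ×ˢ Ioo (-π) π := rfl
    rw [ht]
    refine setIntegral_congr_fun (measurableSet_Ioi.prod measurableSet_Ioo) ?_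
    rintro ⟨x, y⟩ ⟨hx, _⟩
    have hx' : 0 < x := hx
    have h3 : polarCoord.symm (x, y) = (x * cos y, x * sin y) := rfl
    simp only [hF, hTdef, Set.indicator_apply, Set.mem_ofPred_eq, h3, FC3_aux_nr hx',
      smul_eq_mul]
    by_cases hq : (x * cos y, x * sin y) ∈ Q <;> by_cases hxr : x < ρ <;>
      simp [hq, hxr, hx', mul_comm]

end Pool.Agent.SDC
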