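import Pool.Agent.SDC.Targets2

set_option autoImplicit false

/-!
# SDC, FC4: the exceptional directions
-/

open MeasureTheory Set Real

namespace Pool.Agent.SDC

theorem FC4_arg {s s' ψ ψ' : ℝ} (hs : 0 < s) (hs' : 0 < s') (h : ψ ∈ Ioo (-π) π)
    (h' : ψ' ∈ Ioo (-π) π) (h1 : s * cos ψ = s' * cos ψ') (h2 : s * sin ψ = s' * sin ψ') :
    ψ = ψ' := by
  have e1 := Complex.arg_mul_cos_add_sin_mul_I hs ⟨h.1, h.2.le⟩
  have e2 := Complex.arg_mul_cos_add_sin_mul_I hs' ⟨h'.1, h'.2.le⟩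
  rw [← e1, ← e2]
  congr 1
  apply Complex.ext
  · simpa [Complex.cos_ofReal_re, Complex.sin_ofReal_re, Complex.cos_ofReal_im,
      Complex.sin_ofReal_im] using h1
  · simpa [Complex.cos_ofReal_re, Complex.sin_ofReal_re, Complex.cos_ofReal_im,
      Complex.sin_ofReal_im] using h2

theorem p_FC4 : T_FC4 := by
  intro J _ θ a Q hQ
  refine Set.Finite.subset (Set.finite_iUnion (ι := J × J)
    (f := fun p => {ψ : ℝ | ψ ∈ Ioo (-π) π ∧ p.1 ≠ p.2 ∧ ∃ s, 0 < s ∧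
      (s * cos ψ, s * sin ψ) ∈ Q ∧ s * cos (ψ - θ p.1) = a p.1 ∧
      s * cos (ψ - θ p.2) = a p.2}) ?_) ?_
  · rintro ⟨j, k⟩
    apply Set.Subsingleton.finite
    rintro ψ ⟨h, hjk, s, hs, hw, e1, e2⟩ ψ' ⟨h', -, s', hs', hw', e1', e2'⟩
    rw [cos_sub] at e1 e2 e1' e2'
    have hh := hQ j k hjk _ hw _ hw' (by linear_combination e1) (by linear_combination e2)
      (by linear_combination e1') (by linear_combination e2')
    exact FC4_arg hs hs' h h' (Prod.mk.inj hh).1 (Prod.mk.inj hh).2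
  · rintro ψ ⟨h, j, k, hjk, s, hs, hw, e1, e2⟩
    exact Set.mem_iUnion.2 ⟨(j, k), h, hjk, s, hs, hw, e1, e2⟩

end Pool.Agent.SDC
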