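import Pool.Agent.SDC.Targets2

set_option autoImplicit false

/-!
# FIN and NBR: packings are locally finite; at most twelve near centres
-/

open MeasureTheory Set Real

namespace Pool.Agent.SDC

theorem p_FIN : T_FIN := by
  intro X hX c r
  have h := (isCompact_closedBall c r).totallyBounded
  rw [Metric.totallyBounded_iff] at h
  obtain ⟨t, ht, hcov⟩ := h 1 one_pos
  have hex : ∀ y : E3, ∃ z : E3, (y ∈ X ∧ dist y c < r) → z ∈ t ∧ dist y z < 1 := by
    intro y
    by_cases hy : y ∈ X ∧ dist y c < r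
    · have h1 := hcov (Metric.mem_closedBall.mpr hy.2.le)
      simp only [mem_iUnion, Metric.mem_ball, exists_prop] at h1
      obtain ⟨z, hz, hd⟩ := h1
      exact ⟨z, fun _ => ⟨hz, hd⟩⟩
    · exact ⟨0, fun h => absurd h hy⟩
  choose f hf using hex
  refine Set.Finite.of_injOn (f := f) (t := t) ?_ ?_ ht
  · intro y hy
    exact (hf y hy).1
  · intro x hx y hy hxy
    by_contra hne
    have h1 := (hf x hx).2
    have h2 := (hf y hy).2
    have h3 := hX x hx.1 y hy.1 hne
    have h4 := dist_triangle_right x y (f x)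
    rw [hxy] at h4 h1
    linarith

theorem p_NBR (hVOR : T_VOR) (hFIN : T_FIN) : T_NBR := by
  intro X hX c hc hcard r hr
  refine hVOR X hX c hc {y | y ∈ X ∧ y ≠ c ∧ dist y c < 2 * R} (fun y hy => hy.1)
    (fun h => h.2.1 rfl) ?_ hcard ?_ r hr
  · exact (hFIN X hX c (2 * R)).subset fun y hy => ⟨hy.1, hy.2.2⟩
  · intro x hx hS y hy
    by_cases hyc : y = c
    · rw [hyc]
    · by_cases hd : dist y c < 2 * R
      · exact hS y ⟨hy, hyc, hd⟩
      · have h1 := dist_triangle y x c
        rw [dist_comm y x] at h1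
        linarith [not_lt.mp hd]

end Pool.Agent.SDC
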