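import Pool.Agent.SDC.Targets2

/-!
# SDC: target GEN (a generic functional with bounded sublevel sets)
-/

set_option autoImplicit false

open MeasureTheory Set Real
open scoped RealInnerProductSpace

namespace Pool.Agent.SDC

/-- two vectors of the space have a common orthogonal vector -/
theorem GEN_aux1 (a b : E3) : ∃ u : E3, u ≠ 0 ∧ ⟪a, u⟫ = 0 ∧ ⟪b, u⟫ = 0 := by
  let f : E3 →ₗ[ℝ] ℝ × ℝ := ((innerSL ℝ a).toLinearMap).prod ((innerSL ℝ b).toLinearMap)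
  have hf : LinearMap.ker f ≠ ⊥ := by
    apply LinearMap.ker_ne_bot_of_finrank_lt
    simp
  obtain ⟨u, hu, hu0⟩ := Submodule.exists_mem_ne_zero_of_ne_bot hf
  have h1 : f u = 0 := hu
  have h2 : (⟪a, u⟫, ⟪b, u⟫) = ((0, 0) : ℝ × ℝ) := h1
  exact ⟨u, hu0, (Prod.mk.inj h2).1, (Prod.mk.inj h2).2⟩

/-- the vectors which are not orthogonal to a given one are dense -/
theorem GEN_aux2 (u : E3) (hu : u ≠ 0) :
    IsOpen {c : E3 | ⟪c, u⟫ ≠ 0} ∧ Dense {c : E3 | ⟪c, u⟫ ≠ 0} := by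
  constructor
  · exact isOpen_ne_fun (by fun_prop) continuous_const
  · intro c
    rw [Metric.mem_closure_iff]
    intro ε hε
    by_cases h : ⟪c, u⟫ = 0
    · have hn : 0 < ‖u‖ := norm_pos_iff.mpr hu
      refine ⟨c + (ε / (2 * ‖u‖)) • u, ?_, ?_⟩
      · change ⟪c + (ε / (2 * ‖u‖)) • u, u⟫ ≠ 0
        rw [inner_add_left, h, inner_smul_left, real_inner_self_eq_norm_sq, zero_add]
        have : 0 < ε / (2 * ‖u‖) := by positivity
        have h3 : (starRingEnd ℝ) (ε / (2 * ‖u‖)) = ε / (2 * ‖u‖) := rfl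
        rw [h3]
        positivity
      · rw [dist_eq_norm, sub_add_cancel_left, norm_neg, norm_smul, Real.norm_eq_abs,
          abs_of_pos (by positivity : 0 < ε / (2 * ‖u‖))]
        have h4 : ε / (2 * ‖u‖) * ‖u‖ = ε / 2 := by
          field_simp
        rw [h4]
        linarith
    · exact ⟨c, h, by rwa [dist_self]⟩

/-- the gauge -/
noncomputable def GEN_F {ι : Type} [Fintype ι] (n : ι → E3) (c : E3) (x : E3) : ℝ :=
  ∑ i, max ⟪n i, x⟫ 0 + max ⟪c, x⟫ 0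

theorem GEN_aux3 {ι : Type} [Fintype ι] (n : ι → E3) (c : E3) : Continuous (GEN_F n c) := by
  unfold GEN_F
  fun_prop

theorem GEN_aux4 {ι : Type} [Fintype ι] (n : ι → E3) (c : E3) (t : ℝ) (ht : 0 ≤ t) (x : E3) :
    GEN_F n c (t • x) = t * GEN_F n c x := by
  unfold GEN_F
  rw [mul_add, Finset.mul_sum]
  congr 1
  · apply Finset.sum_congr rfl
    intro i _
    rw [inner_smul_right, mul_max_of_nonneg _ _ ht, mul_zero]
  · rw [inner_smul_right, mul_max_of_nonneg _ _ ht, mul_zero]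

theorem GEN_aux5 {ι : Type} [Fintype ι] (n : ι → E3)
    (hn : ∀ x, (∀ i, ⟪n i, x⟫ = 0) → x = 0) (x : E3) (hx : x ≠ 0) :
    0 < GEN_F n (- ∑ i, n i) x := by
  have h0 : ∀ i, 0 ≤ max ⟪n i, x⟫ 0 := fun i => le_max_right _ _
  have h1 : 0 ≤ ∑ i, max ⟪n i, x⟫ 0 := Finset.sum_nonneg fun i _ => h0 i
  have h2 : 0 ≤ max ⟪- ∑ i, n i, x⟫ 0 := le_max_right _ _
  by_contra hcon
  have h3 : GEN_F n (- ∑ i, n i) x = 0 := le_antisymm (not_lt.mp hcon) (add_nonneg h1 h2)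
  unfold GEN_F at h3
  have h4 : ∑ i, max ⟪n i, x⟫ 0 = 0 := by linarith
  have h5 : max ⟪- ∑ i, n i, x⟫ 0 = 0 := by linarith
  have h6 : ∀ i, ⟪n i, x⟫ ≤ 0 := by
    intro i
    have := (Finset.sum_eq_zero_iff_of_nonneg fun i _ => h0 i).1 h4 i (Finset.mem_univ i)
    rw [← this]
    exact le_max_left _ _
  have h7 : ⟪- ∑ i, n i, x⟫ ≤ 0 := by
    rw [← h5]
    exact le_max_left _ _
  rw [inner_neg_left, sum_inner] at h7
  have h8 : ∑ i, (- ⟪n i, x⟫) = 0 := by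
    apply le_antisymm
    · rw [Finset.sum_neg_distrib]
      exact h7
    · exact Finset.sum_nonneg fun i _ => by linarith [h6 i]
  apply hx
  apply hn
  intro i
  have := (Finset.sum_eq_zero_iff_of_nonneg fun i _ => by linarith [h6 i]).1 h8 i
    (Finset.mem_univ i)
  linarith

theorem p_GEN : T_GEN := by
  intro ι _ n hn
  choose u hu0 hui huj using fun p : ι × ι => GEN_aux1 (n p.1) (n p.2)
  have hdense : Dense (⋂ p : ι × ι, {c : E3 | ⟪c, u p⟫ ≠ 0}) :=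
    dense_iInter_of_isOpen (fun p => (GEN_aux2 (u p) (hu0 p)).1)
      (fun p => (GEN_aux2 (u p) (hu0 p)).2)
  set c0 : E3 := - ∑ i, n i with hc0
  obtain ⟨x0, hx0, hmin⟩ := (isCompact_sphere (0 : E3) 1).exists_isMinOn
    (NormedSpace.sphere_nonempty.mpr zero_le_one) (GEN_aux3 n c0).continuousOn
  have hx0' : x0 ≠ 0 := by
    intro h
    rw [h, mem_sphere_zero_iff_norm, norm_zero] at hx0
    exact zero_ne_one hx0
  set δ := GEN_F n c0 x0 with hδ
  have hδ0 : 0 < δ := GEN_aux5 n hn x0 hx0'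
  have hF : ∀ x : E3, δ * ‖x‖ ≤ GEN_F n c0 x := by
    intro x
    by_cases hx : x = 0
    · rw [hx, norm_zero, mul_zero]
      have := GEN_aux4 n c0 0 le_rfl 0
      rw [smul_zero, zero_mul] at this
      exact this.ge
    · have hnx : 0 < ‖x‖ := norm_pos_iff.mpr hx
      have hy : ‖x‖⁻¹ • x ∈ Metric.sphere (0 : E3) 1 := by
        rw [mem_sphere_zero_iff_norm, norm_smul, norm_inv, norm_norm]
        field_simp
      have h1 : δ ≤ GEN_F n c0 (‖x‖⁻¹ • x) := hmin hy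
      rw [GEN_aux4 n c0 _ (by positivity)] at h1
      have h2 := mul_le_mul_of_nonneg_right h1 hnx.le
      calc δ * ‖x‖ ≤ ‖x‖⁻¹ * GEN_F n c0 x * ‖x‖ := h2
        _ = GEN_F n c0 x := by field_simp
  obtain ⟨c, hc, hdist⟩ := hdense.exists_dist_lt c0 (half_pos hδ0)
  rw [mem_iInter] at hc
  refine ⟨c, ?_, ?_⟩
  · intro i j
    exact ⟨u (i, j), hui (i, j), huj (i, j), hc (i, j)⟩
  · intro h s
    rw [Metric.isBounded_iff_subset_closedBall 0]
    refine ⟨2 / δ * (∑ i, |h i| + |s|), ?_⟩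
    rintro x ⟨hx1, hx2⟩
    rw [mem_closedBall_zero_iff]
    have h1 : ∑ i, max ⟪n i, x⟫ 0 ≤ ∑ i, |h i| := by
      apply Finset.sum_le_sum
      intro i _
      exact max_le ((hx1 i).trans (le_abs_self _)) (abs_nonneg _)
    have h2 : ⟪c0, x⟫ ≤ |s| + δ / 2 * ‖x‖ := by
      have e1 : ⟪c0, x⟫ = ⟪c, x⟫ + ⟪c0 - c, x⟫ := by
        rw [inner_sub_left]
        ring
      have e2 : ⟪c0 - c, x⟫ ≤ ‖c0 - c‖ * ‖x‖ := real_inner_le_norm _ _
      have e3 : ‖c0 - c‖ * ‖x‖ ≤ δ / 2 * ‖x‖ := by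
        apply mul_le_mul_of_nonneg_right _ (norm_nonneg x)
        rw [← dist_eq_norm]
        exact hdist.le
      have e4 : s ≤ |s| := le_abs_self s
      rw [e1]
      linarith
    have h3 : max ⟪c0, x⟫ 0 ≤ |s| + δ / 2 * ‖x‖ := max_le h2 (by positivity)
    have h4 := hF x
    unfold GEN_F at h4
    have h5 : δ / 2 * ‖x‖ ≤ ∑ i, |h i| + |s| := by linarith
    have h6 : ‖x‖ = 2 / δ * (δ / 2 * ‖x‖) := by
      field_simp
    rw [h6]
    exact mul_le_mul_of_nonneg_left h5 (by positivity)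

end Pool.Agent.SDC
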