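import Pool.Agent.SDC.Targets

set_option autoImplicit false

/-!
# SDC, target GMN: the function `gg` is monotone

The proof is algebraic: `p³/s`, `p² = s² - e`, is a convex function of `s²`, so it lies above its
tangent lines (`GMN_tan`).
-/

open MeasureTheory Set Real

namespace Pool.Agent.SDC

theorem GMN_tan {q u v y : ℝ} (hq0 : 0 ≤ q) (hu : 0 ≤ u) (hv : 0 < v)
    (h1 : u ^ 2 = q ^ 2 - y) (h2 : v ^ 2 = 1 - y) :
    q ^ 3 ≤ u ^ 3 / v + (3 * q - q ^ 3) / 2 * y := by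
  have hyq : y ≤ q ^ 2 := by nlinarith [sq_nonneg u]
  by_cases hB : q ^ 3 - (3 * q - q ^ 3) / 2 * y ≤ 0
  · have h3 : 0 ≤ u ^ 3 / v := by positivity
    linarith
  · push Not at hB
    have hb : (3 - q ^ 2) * y ≤ 2 * q ^ 2 := by
      by_contra h
      push Not at h
      have e1 : q ^ 3 - (3 * q - q ^ 3) / 2 * y = q * (q ^ 2 - (3 - q ^ 2) * y / 2) := by ring
      have e2 : q * (q ^ 2 - (3 - q ^ 2) * y / 2) ≤ 0 :=
        mul_nonpos_of_nonneg_of_nonpos hq0 (by linarith)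
      linarith
    have hd : 0 ≤ 3 * q ^ 2 - y * (4 - q ^ 2) := by nlinarith
    have key : (v * (q ^ 3 - (3 * q - q ^ 3) / 2 * y)) ^ 2 ≤ (u ^ 3) ^ 2 := by
      have e1 : (v * (q ^ 3 - (3 * q - q ^ 3) / 2 * y)) ^ 2 =
          (1 - y) * (q ^ 3 - (3 * q - q ^ 3) / 2 * y) ^ 2 := by
        rw [mul_pow, h2]
      have e2 : (u ^ 3) ^ 2 = (q ^ 2 - y) ^ 3 := by
        rw [← h1]
        ring
      have e3 : (q ^ 2 - y) ^ 3 - (1 - y) * (q ^ 3 - (3 * q - q ^ 3) / 2 * y) ^ 2 =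
          y ^ 2 * (1 - q ^ 2) ^ 2 / 4 * (3 * q ^ 2 - y * (4 - q ^ 2)) := by
        ring
      have e4 : 0 ≤ y ^ 2 * (1 - q ^ 2) ^ 2 / 4 * (3 * q ^ 2 - y * (4 - q ^ 2)) :=
        mul_nonneg (by positivity) hd
      rw [e1, e2]
      linarith
    have hle := (pow_le_pow_iff_left₀ (by positivity) (by positivity) two_ne_zero).1 key
    have h3 : q ^ 3 - (3 * q - q ^ 3) / 2 * y ≤ u ^ 3 / v := by
      rw [le_div_iff₀ hv]
      linarith
    linarith

theorem GMN_step {t W W' : ℝ} (htR : t ^ 2 < R ^ 2) (hW : W ≤ W') (hW' : W' ≤ t ^ 2) :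
    √(t ^ 2 - W) ^ 3 / √(R ^ 2 - W) ≤ √(t ^ 2 - W') ^ 3 / √(R ^ 2 - W') +
      (3 * (√(t ^ 2 - W) / √(R ^ 2 - W)) - (√(t ^ 2 - W) / √(R ^ 2 - W)) ^ 3) / 2 *
        (W' - W) := by
  have hs : 0 < √(R ^ 2 - W) := Real.sqrt_pos.mpr (by linarith)
  have hs' : 0 < √(R ^ 2 - W') := Real.sqrt_pos.mpr (by linarith)
  have es : √(R ^ 2 - W) ^ 2 = R ^ 2 - W := Real.sq_sqrt (by linarith)
  have es' : √(R ^ 2 - W') ^ 2 = R ^ 2 - W' := Real.sq_sqrt (by linarith)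
  have ep : √(t ^ 2 - W) ^ 2 = t ^ 2 - W := Real.sq_sqrt (by linarith)
  have ep' : √(t ^ 2 - W') ^ 2 = t ^ 2 - W' := Real.sq_sqrt (by linarith)
  have hp : 0 ≤ √(t ^ 2 - W) := Real.sqrt_nonneg _
  have hp' : 0 ≤ √(t ^ 2 - W') := Real.sqrt_nonneg _
  generalize √(R ^ 2 - W) = s at *
  generalize √(R ^ 2 - W') = s' at *
  generalize √(t ^ 2 - W) = p at *
  generalize √(t ^ 2 - W') = p' at *
  have h1 : (p' / s) ^ 2 = (p / s) ^ 2 - (W' - W) / s ^ 2 := by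
    rw [div_pow, div_pow, ep, ep', ← sub_div]
    congr 1
    ring
  have h2 : (s' / s) ^ 2 = 1 - (W' - W) / s ^ 2 := by
    rw [div_pow, es', eq_sub_iff_add_eq, ← add_div, div_eq_one_iff_eq (by positivity), es]
    ring
  have h3 := GMN_tan (q := p / s) (u := p' / s) (v := s' / s) (y := (W' - W) / s ^ 2)
    (by positivity) (by positivity) (by positivity) h1 h2
  have h4 := mul_le_mul_of_nonneg_right h3 (by positivity : (0 : ℝ) ≤ s ^ 2)
  have e1 : (p / s) ^ 3 * s ^ 2 = p ^ 3 / s := by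
    field_simp
  have e2 : ((p' / s) ^ 3 / (s' / s) + (3 * (p / s) - (p / s) ^ 3) / 2 * ((W' - W) / s ^ 2)) *
      s ^ 2 = p' ^ 3 / s' + (3 * (p / s) - (p / s) ^ 3) / 2 * (W' - W) := by
    field_simp
  rw [e1, e2] at h4
  exact h4

/-- GMN: `gg` is monotone. -/
theorem p_GMN : T_GMN := by
  intro t κ ht1 htR hκ
  have htR2 : t ^ 2 < R ^ 2 := by nlinarith
  have ht2 : 1 ≤ t ^ 2 := by nlinarith
  have hR2 : (1 : ℝ) < R ^ 2 := by linarith
  have hrv := rv_pos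
  have hrv2 : rv ^ 2 = R ^ 2 - 1 := by linarith [R_sq']
  have hrs : rv = √(R ^ 2 - 1) := by
    rw [← hrv2, Real.sqrt_sq hrv.le]
  -- `q1`
  obtain ⟨q1, hq1⟩ : ∃ q1, q1 = √(t ^ 2 - 1) / rv := ⟨_, rfl⟩
  rw [← hq1] at hκ
  have hq10 : 0 ≤ q1 := by
    rw [hq1]
    positivity
  have hq1s : q1 ^ 2 * (R ^ 2 - 1) = t ^ 2 - 1 := by
    rw [hq1, div_pow, Real.sq_sqrt (by linarith), hrv2]
    exact div_mul_cancel₀ _ (by linarith)
  have hq11 : q1 ≤ 1 := by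
    by_contra h
    push Not at h
    nlinarith
  have hκ1 : (3 * q1 - q1 ^ 3) / 2 ≤ 1 - κ := by nlinarith
  -- the bound for the derivative
  have hder : ∀ W, 1 ≤ W → W ≤ t ^ 2 →
      (3 * (√(t ^ 2 - W) / √(R ^ 2 - W)) - (√(t ^ 2 - W) / √(R ^ 2 - W)) ^ 3) / 2 ≤ 1 - κ := by
    intro W hW1 hW2
    obtain ⟨q, hq⟩ : ∃ q, q = √(t ^ 2 - W) / √(R ^ 2 - W) := ⟨_, rfl⟩
    rw [← hq]
    have hq0 : 0 ≤ q := by
      rw [hq]
      positivity
    have hqs : q ^ 2 * (R ^ 2 - W) = t ^ 2 - W := by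
      rw [hq, div_pow, Real.sq_sqrt (by linarith), Real.sq_sqrt (by linarith)]
      exact div_mul_cancel₀ _ (by linarith)
    have hqq : q ^ 2 ≤ q1 ^ 2 := by
      by_contra h
      push Not at h
      have e1 : 0 < (q ^ 2 - q1 ^ 2) * (R ^ 2 - W) :=
        mul_pos (by linarith) (by linarith)
      have e2 : q1 ^ 2 ≤ 1 := by nlinarith
      have e3 : 0 ≤ (1 - q1 ^ 2) * (W - 1) := mul_nonneg (by linarith) (by linarith)
      nlinarith
    have hqq1 : q ≤ q1 := (pow_le_pow_iff_left₀ hq0 hq10 two_ne_zero).1 hqq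
    have e4 : 0 ≤ (q1 - q) * (3 - q1 ^ 2 - q1 * q - q ^ 2) := by
      refine mul_nonneg (by linarith) ?_
      have e5 : q1 ^ 2 ≤ 1 := by nlinarith
      have e6 : q1 * q ≤ 1 := by nlinarith
      have e7 : q ^ 2 ≤ 1 := by linarith
      linarith
    nlinarith
  have hκ0 : 0 ≤ 1 - κ := by
    have e5 : q1 ^ 3 ≤ q1 := by
      have e6 : q1 ^ 2 ≤ 1 := by nlinarith
      nlinarith
    linarith
  -- monotone on the two parts
  have part1 : ∀ W W', 1 ≤ W → W ≤ W' → W' ≤ t ^ 2 → gg t κ W ≤ gg t κ W' := by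
    intro W W' h1 h2 h3
    rw [gg, gg, max_eq_left (by linarith), max_eq_left (by linarith)]
    have h4 := GMN_step htR2 h2 h3
    have h5 := mul_le_mul_of_nonneg_right (hder W h1 (by linarith))
      (by linarith : (0 : ℝ) ≤ W' - W)
    nlinarith
  have part2 : ∀ W W', t ^ 2 ≤ W → W ≤ W' → gg t κ W ≤ gg t κ W' := by
    intro W W' h1 h2
    rw [gg, gg, max_eq_right (by linarith), max_eq_right (by linarith)]
    have h4 := mul_le_mul_of_nonneg_left h2 hκ0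
    simp only [Real.sqrt_zero]
    norm_num
    exact h4
  intro W hW W' hW' hWW
  rcases le_total W' (t ^ 2) with h1 | h1
  · exact part1 W W' hW.1 hWW h1
  · rcases le_total W (t ^ 2) with h2 | h2
    · exact (part1 W (t ^ 2) hW.1 h2 le_rfl).trans (part2 (t ^ 2) W' le_rfl h1)
    · exact part2 W W' h2 hWW

end Pool.Agent.SDC
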