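import Pool.Agent.SDC.Targets

set_option autoImplicit false

/-!
# SDC: the closed form of `H`
-/

open MeasureTheory Set Real
open scoped RealInnerProductSpace

namespace Pool.Agent.SDC

theorem HCL_aux_cc_cont : Continuous cc := by
  unfold cc
  fun_prop

theorem HCL_aux_G_cont (t κ β h : ℝ) : Continuous (G t κ β h) := by
  have h1 : Continuous fun r : ℝ => cc r ^ 3 := HCL_aux_cc_cont.pow 3
  have h2 : ∀ r : ℝ, cc r ^ 3 ≠ 0 := fun r => (pow_pos (cc_pos r) 3).ne'
  have h3 : Continuous fun r : ℝ => t ^ 3 / cc r ^ 3 := continuous_const.div h1 h2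
  have h4 : Continuous fun r : ℝ => β / cc r ^ 3 := continuous_const.div h1 h2
  have h5 : Continuous fun r : ℝ => max (h ^ 3 - t ^ 3 / cc r ^ 3) 0 :=
    (continuous_const.sub h3).max continuous_const
  exact (h5.sub continuous_const).sub h4

theorem HCL_aux_cc_deriv (r : ℝ) : HasDerivAt cc (r / cc r) r := by
  have h0 : (1 + r ^ 2) ≠ 0 := by positivity
  have h1 : HasDerivAt (fun s : ℝ => 1 + s ^ 2) (2 * r) r := by
    simpa using (hasDerivAt_pow 2 r).const_add 1
  have h2 := h1.sqrt h0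
  have h3 : 2 * r / (2 * √(1 + r ^ 2)) = r / cc r := by
    rw [cc, mul_div_mul_left _ _ (two_ne_zero)]
  rw [h3] at h2
  exact h2

theorem HCL_aux_max (t h r : ℝ) (hh : 0 < h) :
    h ^ 3 * (max (cc r - (t / h) ^ 3 / cc r ^ 2) 0 * (r / cc r)) =
      max (h ^ 3 - t ^ 3 / cc r ^ 3) 0 * r := by
  have hc := cc_pos r
  have h1 : h ^ 3 * (max (cc r - (t / h) ^ 3 / cc r ^ 2) 0 * (r / cc r)) =
      (h ^ 3 / cc r * max (cc r - (t / h) ^ 3 / cc r ^ 2) 0) * r := by ring
  have h2 : (0 : ℝ) ≤ h ^ 3 / cc r := by positivity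
  have h3 : h ^ 3 / cc r * (cc r - (t / h) ^ 3 / cc r ^ 2) = h ^ 3 - t ^ 3 / cc r ^ 3 := by
    field_simp
  rw [h1, mul_max_of_nonneg _ _ h2, h3, mul_zero]

theorem p_HCL (hBF : T_BF) : T_HCL := by
  refine ⟨HCL_aux_G_cont, ?_⟩
  intro t κ β h r ht hh _
  obtain ⟨-, hB, -⟩ := hBF
  have hσ : 0 < t / h := div_pos ht hh
  have hd : ∀ x : ℝ, HasDerivAt (fun s : ℝ => h ^ 3 * (Bf (t / h) (cc s) - Bf (t / h) 1)
      - κ * h ^ 3 * s ^ 2 / 2 - β * (1 - 1 / cc s)) (G t κ β h x * x) x := by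
    intro x
    have hc := cc_pos x
    have h1 : HasDerivAt (fun s : ℝ => Bf (t / h) (cc s))
        (max (cc x - (t / h) ^ 3 / cc x ^ 2) 0 * (x / cc x)) x :=
      (hB (t / h) (cc x) hσ hc).comp x (HCL_aux_cc_deriv x)
    have h2 : HasDerivAt (fun s : ℝ => h ^ 3 * (Bf (t / h) (cc s) - Bf (t / h) 1))
        (h ^ 3 * (max (cc x - (t / h) ^ 3 / cc x ^ 2) 0 * (x / cc x))) x :=
      (h1.sub_const _).const_mul _
    have h3 : HasDerivAt (fun s : ℝ => κ * h ^ 3 * s ^ 2 / 2) (κ * h ^ 3 * x) x := by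
      have h4 : HasDerivAt (fun s : ℝ => s ^ 2) (2 * x) x := by
        simpa using hasDerivAt_pow 2 x
      have h5 := (h4.const_mul (κ * h ^ 3)).div_const 2
      have h6 : κ * h ^ 3 * (2 * x) / 2 = κ * h ^ 3 * x := by ring
      rw [h6] at h5
      exact h5
    have h7 : HasDerivAt (fun s : ℝ => β * (1 - 1 / cc s)) (β * (x / cc x / cc x ^ 2)) x := by
      have h8 : HasDerivAt (fun s : ℝ => (cc s)⁻¹) (-(x / cc x) / cc x ^ 2) x :=
        (HCL_aux_cc_deriv x).inv hc.ne'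
      have h9 := (h8.const_sub 1).const_mul β
      have h10 : β * -(-(x / cc x) / cc x ^ 2) = β * (x / cc x / cc x ^ 2) := by ring
      rw [h10] at h9
      simpa [one_div] using h9
    have h11 := (h2.sub h3).sub h7
    have h12 : h ^ 3 * (max (cc x - (t / h) ^ 3 / cc x ^ 2) 0 * (x / cc x)) - κ * h ^ 3 * x
        - β * (x / cc x / cc x ^ 2) = G t κ β h x * x := by
      rw [HCL_aux_max t h x hh, G]
      have h13 : x / cc x / cc x ^ 2 = x / cc x ^ 3 := by
        field_simp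
      rw [h13]
      ring
    rw [h12] at h11
    exact h11
  have hi : IntervalIntegrable (fun x => G t κ β h x * x) volume 0 r :=
    ((HCL_aux_G_cont t κ β h).mul continuous_id).intervalIntegrable 0 r
  have hF := intervalIntegral.integral_eq_sub_of_hasDerivAt (fun x _ => hd x) hi
  rw [H, hF]
  simp [cc_zero]

end Pool.Agent.SDC
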