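import Pool.Agent.SDC.Targets2

/-!
# SDC, part B: an irredundant subfamily (IRR)
-/

set_option autoImplicit false

open MeasureTheory Set Real
open scoped RealInnerProductSpace

namespace Pool.Agent.SDC

theorem p_IRR : T_IRR := by
  classical
  intro ι _ n h hpos
  let P : Finset ι → Prop := fun s => {x : E3 | ∀ i ∈ s, ⟪n i, x⟫ ≤ h i} = Poly n h
  have hex : ((Finset.univ : Finset (Finset ι)).filter P).Nonempty := by
    refine ⟨Finset.univ, ?_⟩
    rw [Finset.mem_filter]
    refine ⟨Finset.mem_univ _, ?_⟩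
    show {x : E3 | ∀ i ∈ (Finset.univ : Finset ι), ⟪n i, x⟫ ≤ h i} = Poly n h
    ext x
    simp [Poly]
  obtain ⟨s, hs, hmin⟩ := Finset.exists_min_image _ (fun s : Finset ι => s.card) hex
  rw [Finset.mem_filter] at hs
  have hsP : {x : E3 | ∀ i ∈ s, ⟪n i, x⟫ ≤ h i} = Poly n h := hs.2
  have key : ∀ i ∈ s, ∃ y : E3, (∀ k ∈ s, k ≠ i → ⟪n k, y⟫ ≤ h k) ∧ h i < ⟪n i, y⟫ := by
    intro i hi
    by_contra hcon
    push Not at hcon
    have hPe : P (s.erase i) := by
      show {x : E3 | ∀ k ∈ s.erase i, ⟪n k, x⟫ ≤ h k} = Poly n h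
      rw [← hsP]
      ext x
      simp only [mem_ofPred_eq]
      constructor
      · intro hx k hk
        by_cases hki : k = i
        · rw [hki]
          refine hcon x ?_
          intro k' hk' hne
          exact hx k' (Finset.mem_erase.mpr ⟨hne, hk'⟩)
        · exact hx k (Finset.mem_erase.mpr ⟨hki, hk⟩)
      · intro hx k hk
        exact hx k (Finset.mem_of_mem_erase hk)
    have h1 := hmin (s.erase i) (Finset.mem_filter.mpr ⟨Finset.mem_univ _, hPe⟩)
    have h2 := Finset.card_erase_lt_of_mem hi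
    omega
  refine ⟨(s : Set ι), ?_, ?_⟩
  · rw [← hsP]
    ext x
    constructor
    · intro hx i hi
      exact hx ⟨i, hi⟩
    · intro hx i
      exact hx i.1 i.2
  · rintro ⟨i, hi⟩
    obtain ⟨y, hy1, hy2⟩ := key i hi
    have hhi := hpos i
    have hypos : 0 < ⟪n i, y⟫ := hhi.trans hy2
    have hl0 : 0 < h i / ⟪n i, y⟫ := div_pos hhi hypos
    have hl1 : h i / ⟪n i, y⟫ < 1 := (div_lt_one hypos).mpr hy2
    refine ⟨(h i / ⟪n i, y⟫) • y, ?_, ?_⟩
    · show ⟪n i, (h i / ⟪n i, y⟫) • y⟫ = h i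
      rw [real_inner_smul_right]
      field_simp
    · rintro ⟨k, hk⟩ hne
      show ⟪n k, (h i / ⟪n i, y⟫) • y⟫ < h k
      rw [real_inner_smul_right]
      have hki : k ≠ i := by
        intro hc
        apply hne
        exact Subtype.ext hc
      have h1 := hy1 k hk hki
      have h2 := hpos k
      calc h i / ⟪n i, y⟫ * ⟪n k, y⟫ ≤ h i / ⟪n i, y⟫ * h k :=
            mul_le_mul_of_nonneg_left h1 hl0.le
        _ < 1 * h k := mul_lt_mul_of_pos_right hl1 h2
        _ = h k := one_mul _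

end Pool.Agent.SDC
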