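import Pool.Agent.SDC.Targets

set_option autoImplicit false

open MeasureTheory Set Real
open scoped RealInnerProductSpace

namespace Pool.Agent.SDC

theorem KAP_ineq {t c : ℝ} (h1 : 1 ≤ t) (htc : t ≤ c) (hcR : c ≤ R) :
    (c - t) ^ 2 * (c + 2 * t) * (R * (R ^ 2 - 1)) ≤
      (R - t) ^ 2 * (R + 2 * t) * (c * (c ^ 2 - 1)) := by
  have hR := R_hi
  have hR1 := R_one
  have e1 : (c - t) * (R - 1) ≤ (R - t) * (c - 1) := by nlinarith
  have e2 : ((c - t) * (c + 2 * t)) * (R * (R + 1)) ≤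
      ((R - t) * (R + 2 * t)) * (c * (c + 1)) := by
    have e3 : ((R - t) * (R + 2 * t)) * (c * (c + 1)) -
        ((c - t) * (c + 2 * t)) * (R * (R + 1)) =
        (R - c) * (c * R * (1 - t) + 2 * t ^ 2 * (R + c + 1)) := by ring
    have e4 : 0 ≤ c * R * (1 - t) + 2 * t ^ 2 * (R + c + 1) := by
      have e5 : c * R * (t - 1) ≤ 2 * t ^ 2 * (R + c + 1) := by
        have : c * R ≤ 2 := by nlinarith
        have : c * R * (t - 1) ≤ 2 * (t - 1) :=
          mul_le_mul_of_nonneg_right this (by linarith)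
        nlinarith
      linarith
    have e6 := mul_nonneg (sub_nonneg.mpr hcR) e4
    linarith
  have e7 : 0 ≤ (c - t) * (R - 1) := mul_nonneg (by linarith) (by linarith)
  have e8 : 0 ≤ ((c - t) * (c + 2 * t)) * (R * (R + 1)) := by
    have hx1 : 0 ≤ c - t := by linarith
    have hx2 : 0 ≤ c + 2 * t := by linarith
    have hx3 : 0 ≤ R := by linarith
    positivity
  have e9 := mul_le_mul e1 e2 e8 (e7.trans e1)
  calc (c - t) ^ 2 * (c + 2 * t) * (R * (R ^ 2 - 1))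
      = (c - t) * (R - 1) * ((c - t) * (c + 2 * t) * (R * (R + 1))) := by ring
    _ ≤ (R - t) * (c - 1) * ((R - t) * (R + 2 * t) * (c * (c + 1))) := e9
    _ = (R - t) ^ 2 * (R + 2 * t) * (c * (c ^ 2 - 1)) := by ring

theorem KAP_pt {t c : ℝ} (h1 : 1 ≤ t) (htR : t < R) (hc : 1 ≤ c) (hcR : c ≤ R) :
    Bf t c * rv ^ 2 ≤ Bf t R * (c ^ 2 - 1) := by
  have hR1 := R_one
  have hrv : rv ^ 2 = R ^ 2 - 1 := by linarith [R_sq']
  have hBR : Bf t R = (R - t) ^ 2 * (R + 2 * t) / (2 * R) := by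
    unfold Bf
    rw [if_neg (by linarith)]
  have hBR0 : 0 ≤ Bf t R := by
    rw [hBR]
    have : 0 ≤ R := by linarith
    positivity
  rcases le_or_gt c t with hct | hct
  · have : Bf t c = 0 := by
      unfold Bf
      rw [if_pos hct]
    rw [this, zero_mul]
    exact mul_nonneg hBR0 (by nlinarith)
  · have hBc : Bf t c = (c - t) ^ 2 * (c + 2 * t) / (2 * c) := by
      unfold Bf
      rw [if_neg (by linarith)]
    rw [hBc, hBR, hrv, div_mul_eq_mul_div, div_mul_eq_mul_div,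
      div_le_div_iff₀ (by linarith) (by linarith)]
    have := KAP_ineq h1 hct.le hcR
    nlinarith

theorem KAP_c {ψ : ℝ} (h : ψ ∈ Icc (0 : ℝ) (π / 5)) :
    0 < cos ψ ∧ 1 ≤ cc (a0 / cos ψ) ∧ cc (a0 / cos ψ) ≤ R := by
  have hp := Real.pi_pos
  have h0 : 0 < cos ψ := cos_pos_of_mem_Ioo ⟨by linarith [h.1], by linarith [h.2]⟩
  refine ⟨h0, cc_one _, ?_⟩
  rw [← cc_rv, cc, cc]
  apply Real.sqrt_le_sqrt
  have h1 : cos (π / 5) ≤ cos ψ := cos_le_cos_of_nonneg_of_le_pi h.1 (by linarith [h.2]) h.2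
  have h2 : 0 < cos (π / 5) := cos_pos_of_mem_Ioo ⟨by linarith, by linarith⟩
  have h3 : a0 / cos ψ ≤ rv := by
    rw [← a0_div_cos]
    exact div_le_div_of_nonneg_left a0_pos.le h2 h1
  have h4 : 0 ≤ a0 / cos ψ := div_nonneg a0_pos.le h0.le
  nlinarith

theorem KAP_cont : ContinuousOn (fun ψ => a0 / cos ψ) (Icc (0 : ℝ) (π / 5)) :=
  continuousOn_const.div continuous_cos.continuousOn fun _ hψ => (KAP_c hψ).1.ne'

theorem p_KAP (hBF : T_BF) : T_KAP := by
  intro t ht htR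
  have hp := Real.pi_pos
  have h5 : (0 : ℝ) ≤ π / 5 := by positivity
  have ht0 : 0 < t := by linarith
  have hrv := rv_pos
  have hcc : Continuous cc := by unfold cc; fun_prop
  have hcB : ContinuousOn (fun ψ => Bf t (cc (a0 / cos ψ))) (uIcc (0 : ℝ) (π / 5)) := by
    rw [uIcc_of_le h5]
    intro ψ hψ
    have h1 : ContinuousAt (Bf t) (cc (a0 / cos ψ)) :=
      (hBF.2.1 t _ ht0 (cc_pos _)).continuousAt
    have h2 : ContinuousOn (fun ψ => cc (a0 / cos ψ)) (Icc (0 : ℝ) (π / 5)) :=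
      hcc.comp_continuousOn KAP_cont
    exact ContinuousAt.comp_continuousWithinAt (g := Bf t) (f := fun ψ => cc (a0 / cos ψ)) h1
      (h2 ψ hψ)
  have hcD : ContinuousOn (fun ψ => (a0 / cos ψ) ^ 2 / 2) (uIcc (0 : ℝ) (π / 5)) := by
    rw [uIcc_of_le h5]
    exact (KAP_cont.pow 2).div_const 2
  have hD : 0 < ∫ ψ in (0 : ℝ)..(π / 5), (a0 / cos ψ) ^ 2 / 2 := by
    apply intervalIntegral.intervalIntegral_pos_of_pos_on hcD.intervalIntegrable _ (by positivity)
    intro ψ hψ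
    have := (KAP_c (Ioo_subset_Icc_self hψ)).1
    have := a0_pos
    positivity
  have hN : 0 ≤ ∫ ψ in (0 : ℝ)..(π / 5), Bf t (cc (a0 / cos ψ)) :=
    intervalIntegral.integral_nonneg h5 fun ψ _ => hBF.1 t _ ht0 (cc_pos _)
  unfold kap
  refine ⟨div_nonneg hN hD.le, ?_⟩
  rw [div_le_div_iff₀ hD (by positivity)]
  have h6 : ∫ ψ in (0 : ℝ)..(π / 5), Bf t (cc (a0 / cos ψ)) * rv ^ 2 ≤
      ∫ ψ in (0 : ℝ)..(π / 5), 2 * Bf t R * ((a0 / cos ψ) ^ 2 / 2) := by
    apply intervalIntegral.integral_mono_on h5 (hcB.intervalIntegrable.mul_const _)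
      (hcD.intervalIntegrable.const_mul _)
    intro ψ hψ
    obtain ⟨_, h7, h8⟩ := KAP_c hψ
    have h9 := KAP_pt ht htR h7 h8
    rw [cc_sq] at h9
    linarith
  rwa [intervalIntegral.integral_mul_const, intervalIntegral.integral_const_mul] at h6

end Pool.Agent.SDC
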