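import Pool.Agent.SDC.Targets2

set_option autoImplicit false

open MeasureTheory Set Real
open scoped RealInnerProductSpace

namespace Pool.Agent.SDC

/-- Signs: a linear system with negative coefficients has only the trivial solution. -/
theorem L3_aux {x1 x2 x3 a b c d e f : ℝ} (ha : a < 0) (hb : b < 0) (hc : c < 0) (hd : d < 0)
    (he : e < 0) (hf : f < 0) (h1 : x2 * a + x3 * b = 0) (h2 : x1 * c + x3 * d = 0)
    (h3 : x1 * e + x2 * f = 0) : x1 = 0 ∧ x2 = 0 ∧ x3 = 0 := by
  have h4 : x3 = 0 := by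
    rcases lt_trichotomy x3 0 with h | h | h
    · exfalso
      have h5 : 0 < x2 := by
        by_contra hn
        push Not at hn
        nlinarith [mul_pos_of_neg_of_neg h hb, mul_nonneg_of_nonpos_of_nonpos hn ha.le]
      have h6 : 0 < x1 := by
        by_contra hn
        push Not at hn
        nlinarith [mul_pos_of_neg_of_neg h hd, mul_nonneg_of_nonpos_of_nonpos hn hc.le]
      nlinarith [mul_neg_of_pos_of_neg h6 he, mul_neg_of_pos_of_neg h5 hf]
    · exact h
    · exfalso
      have h5 : x2 < 0 := by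
        by_contra hn
        push Not at hn
        nlinarith [mul_neg_of_pos_of_neg h hb, mul_nonpos_of_nonneg_of_nonpos hn ha.le]
      have h6 : x1 < 0 := by
        by_contra hn
        push Not at hn
        nlinarith [mul_neg_of_pos_of_neg h hd, mul_nonpos_of_nonneg_of_nonpos hn hc.le]
      nlinarith [mul_pos_of_neg_of_neg h6 he, mul_pos_of_neg_of_neg h5 hf]
  rw [h4, zero_mul, add_zero] at h1 h2
  refine ⟨?_, ?_, h4⟩
  · rcases mul_eq_zero.1 h2 with h | h
    · exact h
    · exact absurd h hc.ne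
  · rcases mul_eq_zero.1 h1 with h | h
    · exact h
    · exact absurd h ha.ne

/-- L3. -/
theorem p_L3 : T_L3 := by
  intro m0 m1 m2 m3 d1 d2 d3 hm0 h01 h02 h03 h11 h22 h33 h21 h31 h12 h32 h13 h23
  have hdep : ¬ LinearIndependent ℝ ![m0, m1, m2, m3] := by
    intro hli
    have h1 := hli.fintype_card_le_finrank
    simp at h1
  rw [Fintype.not_linearIndependent_iff] at hdep
  obtain ⟨x, hx, k, hk⟩ := hdep
  rw [Fin.sum_univ_four] at hx
  simp only [Matrix.cons_val_zero, Matrix.cons_val_one, Matrix.cons_val] at hx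
  have hin : ∀ d : E3, x 0 * ⟪m0, d⟫ + x 1 * ⟪m1, d⟫ + x 2 * ⟪m2, d⟫ + x 3 * ⟪m3, d⟫ = 0 := by
    intro d
    have h1 : ⟪x 0 • m0 + x 1 • m1 + x 2 • m2 + x 3 • m3, d⟫ = 0 := by
      rw [hx, inner_zero_left]
    simpa only [inner_add_left, real_inner_smul_left] using h1
  have e1 := hin d1
  have e2 := hin d2
  have e3 := hin d3
  rw [h01, h11] at e1
  rw [h02, h22] at e2
  rw [h03, h33] at e3
  obtain ⟨g1, g2, g3⟩ := L3_aux (x1 := x 1) (x2 := x 2) (x3 := x 3) h21 h31 h12 h32 h13 h23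
    (by linarith) (by linarith) (by linarith)
  have g0 : x 0 = 0 := by
    rw [g1, g2, g3] at hx
    simp only [zero_smul, add_zero] at hx
    rcases smul_eq_zero.1 hx with h | h
    · exact h
    · exact absurd h hm0
  apply hk
  fin_cases k
  · exact g0
  · exact g1
  · exact g2
  · exact g3

/-- SD2 (uses L3). -/
theorem p_SD2 (hL3 : T_L3) : T_SD2 := by
  intro ι n h hn i j k l hjk hjl hkl hij hik hil v hvi hvj hvk hvl
  obtain ⟨hne1, x1, a1, a2, a3⟩ := hij
  obtain ⟨hne2, x2, b1, b2, b3⟩ := hik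
  obtain ⟨hne3, x3, c1, c2, c3⟩ := hil
  have hni : n i ≠ 0 := by
    intro h0
    have := hn i
    rw [h0, norm_zero] at this
    exact zero_ne_one this
  have e1 := a3 k (Ne.symm hne2) (Ne.symm hjk)
  have e2 := a3 l (Ne.symm hne3) (Ne.symm hjl)
  have e3 := b3 j (Ne.symm hne1) hjk
  have e4 := b3 l (Ne.symm hne3) (Ne.symm hkl)
  have e5 := c3 j (Ne.symm hne1) hjl
  have e6 := c3 k (Ne.symm hne2) hkl
  refine hL3 (n i) (n j) (n k) (n l) (x1 - v) (x2 - v) (x3 - v) hni ?_ ?_ ?_ ?_ ?_ ?_ ?_ ?_ ?_ ?_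
    ?_ ?_ <;> rw [inner_sub_right] <;> linarith

end Pool.Agent.SDC
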