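import Pool.Agent.SDC.Targets

set_option autoImplicit false

open MeasureTheory Set Real
open scoped RealInnerProductSpace

namespace Pool.Agent.SDC

/-- LOC1. -/
theorem p_LOC1 (hLOCA : T_LOCA) (hHCL : T_HCL) (hSGN : T_SGN) (hKAP : T_KAP) (hBET : T_BET)
    (hALP : T_ALP) (hPSG : T_PSG) : T_LOC1 := by
  intro t ht1 htR a ha
  obtain ⟨hk0, -⟩ := hKAP t ht1 htR
  obtain ⟨hb0, hG⟩ := hBET t ht1 htR
  obtain ⟨hP1, hP2⟩ := hPSG t ht1 htR
  have hal := hALP t ht1 htR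
  have key := hLOCA (G t (kap t) (bet t) 1) rv a0 (hHCL.1 t (kap t) (bet t) 1) a0_pos a0_lt_rv
    (fun r r' hr hrr h0 => hSGN t (kap t) (bet t) 1 r r' (by linarith) one_pos hk0 hb0 hr hrr h0)
    hG hal hP1 hP2 a ha
  have hJ : - J0 t = ∫ ψ in (0 : ℝ)..arccos (a0 / rv),
      ((∫ s in (0 : ℝ)..rv, G t (kap t) (bet t) 1 s * s)
        - ∫ s in (0 : ℝ)..(a0 / cos ψ), G t (kap t) (bet t) 1 s * s) := by
    rw [arccos_a0, J0, ← intervalIntegral.integral_neg]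
    congr 1
    funext ψ
    rw [neg_sub]
    rfl
  rw [hJ]
  exact key

end Pool.Agent.SDC
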