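import Pool.Agent.SDC.Targets

set_option autoImplicit false

/-!
# SDC: target LOCA
-/

open MeasureTheory Set Real
open scoped RealInnerProductSpace

namespace Pool.Agent.SDC

/-- The radial primitive. -/
noncomputable def LOCA_I (G : ℝ → ℝ) (r : ℝ) : ℝ := ∫ s in (0 : ℝ)..r, G s * s

theorem LOCA_int {G : ℝ → ℝ} (hG : Continuous G) (x y : ℝ) :
    IntervalIntegrable (fun s => G s * s) volume x y :=
  (hG.mul continuous_id).intervalIntegrable x y

theorem LOCA_cont {G : ℝ → ℝ} (hG : Continuous G) : Continuous (LOCA_I G) :=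
  intervalIntegral.continuous_primitive (fun a b => LOCA_int hG a b) 0

theorem LOCA_deriv {G : ℝ → ℝ} (hG : Continuous G) (r : ℝ) :
    HasDerivAt (LOCA_I G) (G r * r) r :=
  intervalIntegral.integral_hasDerivAt_right (LOCA_int hG 0 r)
    ((hG.mul continuous_id).stronglyMeasurableAtFilter volume _)
    (hG.mul continuous_id).continuousAt

theorem LOCA_sub {G : ℝ → ℝ} (hG : Continuous G) (x y : ℝ) :
    LOCA_I G y - LOCA_I G x = ∫ s in x..y, G s * s :=
  intervalIntegral.integral_interval_sub_left (LOCA_int hG 0 y) (LOCA_int hG 0 x)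

theorem LOCA_key {G : ℝ → ℝ} {ρ : ℝ} (hG : Continuous G)
    (hsgn : ∀ r r', 0 ≤ r → r ≤ r' → 0 ≤ G r → 0 ≤ G r') {r : ℝ} (hr0 : 0 ≤ r) (hr : r ≤ ρ)
    (h : LOCA_I G ρ < LOCA_I G r) {s : ℝ} (hs0 : 0 ≤ s) (hs : s ≤ r) :
    LOCA_I G r ≤ LOCA_I G s := by
  have h1 : ∃ x ∈ Ioo r ρ, G x * x < 0 := by
    by_contra hc
    push Not at hc
    have h2 : MonotoneOn (LOCA_I G) (Icc r ρ) := by
      refine monotoneOn_of_deriv_nonneg (convex_Icc r ρ) (LOCA_cont hG).continuousOn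
        (fun x _ => (LOCA_deriv hG x).differentiableAt.differentiableWithinAt) ?_
      intro x hx
      rw [interior_Icc] at hx
      rw [(LOCA_deriv hG x).deriv]
      exact hc x hx
    exact absurd (h2 ⟨le_refl r, hr⟩ ⟨hr, le_refl ρ⟩ hr) (not_le.2 h)
  obtain ⟨x, hx, hGx⟩ := h1
  have hx0 : 0 ≤ x := hr0.trans hx.1.le
  have hGneg : G x < 0 := by
    by_contra hc
    push Not at hc
    exact absurd (mul_nonneg hc hx0) (not_le.2 hGx)
  have h3 : AntitoneOn (LOCA_I G) (Icc 0 x) := by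
    refine antitoneOn_of_deriv_nonpos (convex_Icc 0 x) (LOCA_cont hG).continuousOn
      (fun y _ => (LOCA_deriv hG y).differentiableAt.differentiableWithinAt) ?_
    intro y hy
    rw [interior_Icc] at hy
    rw [(LOCA_deriv hG y).deriv]
    have h4 : G y ≤ 0 := by
      by_contra hc
      push Not at hc
      exact absurd (hsgn y x hy.1.le hy.2.le hc.le) (not_le.2 hGneg)
    exact mul_nonpos_of_nonpos_of_nonneg h4 hy.1.le
  exact h3 ⟨hs0, hs.trans hx.1.le⟩ ⟨hr0, hx.1.le⟩ hs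

theorem LOCA_b {G : ℝ → ℝ} {ρ : ℝ} (hG : Continuous G) (hρ : 0 < ρ)
    (hsgn : ∀ r r', 0 ≤ r → r ≤ r' → 0 ≤ G r → 0 ≤ G r') (hα : LOCA_I G ρ ≤ 0) :
    ∃ b, 0 ≤ b ∧ b ≤ ρ ∧ (∀ r, 0 ≤ r → r ≤ b → LOCA_I G ρ ≤ LOCA_I G r) ∧
      ∀ r, b ≤ r → r ≤ ρ → LOCA_I G r ≤ LOCA_I G ρ := by
  have hI := LOCA_cont hG
  have hI0 : LOCA_I G 0 = 0 := intervalIntegral.integral_same
  have hK : IsCompact (Icc 0 ρ ∩ {r | LOCA_I G r ≤ LOCA_I G ρ}) :=
    isCompact_Icc.inter_right (isClosed_le hI continuous_const)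
  obtain ⟨b, hb, hbl⟩ := hK.exists_isLeast ⟨ρ, ⟨hρ.le, le_refl ρ⟩, le_refl (LOCA_I G ρ)⟩
  have hlt : ∀ r, 0 ≤ r → r < b → LOCA_I G ρ ≤ LOCA_I G r := by
    intro r h0 h1
    by_contra hc
    push Not at hc
    exact absurd (hbl ⟨⟨h0, h1.le.trans hb.1.2⟩, hc.le⟩) (not_le.2 h1)
  have hbb : LOCA_I G ρ ≤ LOCA_I G b := by
    rcases hb.1.1.eq_or_lt with h0 | h0
    · rw [← h0, hI0]
      exact hα
    · have hc : IsClosed {r | LOCA_I G ρ ≤ LOCA_I G r} := isClosed_le continuous_const hI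
      have h1 : closure (Ico 0 b) ⊆ {r | LOCA_I G ρ ≤ LOCA_I G r} :=
        hc.closure_subset_iff.2 fun r hr => hlt r hr.1 hr.2
      rw [closure_Ico h0.ne] at h1
      exact h1 ⟨h0.le, le_refl b⟩
  refine ⟨b, hb.1.1, hb.1.2, ?_, ?_⟩
  · intro r h0 h1
    rcases h1.eq_or_lt with h2 | h2
    · rw [h2]
      exact hbb
    · exact hlt r h0 h2
  · intro r h1 h2
    by_contra hc
    push Not at hc
    have h3 := LOCA_key hG hsgn (hb.1.1.trans h1) h2 hc hb.1.1 h1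
    have h4 : LOCA_I G b ≤ LOCA_I G ρ := hb.2
    linarith

theorem LOCA_ge {G : ℝ → ℝ} {ρ : ℝ} (hG : Continuous G) (hρ : 0 < ρ)
    (hsgn : ∀ r r', 0 ≤ r → r ≤ r' → 0 ≤ G r → 0 ≤ G r') (hGρ : 0 ≤ G ρ) {r : ℝ} (hr : ρ ≤ r) :
    LOCA_I G ρ ≤ LOCA_I G r := by
  have h1 := LOCA_sub hG ρ r
  have h2 : 0 ≤ ∫ s in ρ..r, G s * s := by
    refine intervalIntegral.integral_nonneg hr ?_
    intro s hs
    exact mul_nonneg (hsgn ρ s hρ.le hs.1 hGρ) (hρ.le.trans hs.1)
  linarith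

/-- The truncated function. -/
noncomputable def LOCA_U (G : ℝ → ℝ) (ρ r : ℝ) : ℝ :=
  max (LOCA_I G ρ - LOCA_I G (max r 0)) 0

/-- The integrals over the chords. -/
noncomputable def LOCA_P (G : ℝ → ℝ) (ρ u : ℝ) : ℝ :=
  ∫ y in (0 : ℝ)..√(ρ ^ 2 - u ^ 2), G √(u ^ 2 + y ^ 2)

theorem LOCA_Pc {G : ℝ → ℝ} (hG : Continuous G) (ρ : ℝ) : Continuous (LOCA_P G ρ) := by
  refine intervalIntegral.continuous_parametric_intervalIntegral_of_continuous
    (f := fun u y => G √(u ^ 2 + y ^ 2)) ?_ ?_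
  · change Continuous fun p : ℝ × ℝ => G √(p.1 ^ 2 + p.2 ^ 2)
    fun_prop
  · fun_prop

theorem LOCA_core (hMP : T_MP) {G : ℝ → ℝ} {ρ A : ℝ} (hG : Continuous G) (hA : 0 < A)
    (hAρ : A < ρ) (hsgn : ∀ r r', 0 ≤ r → r ≤ r' → 0 ≤ G r → 0 ≤ G r') (hGρ : 0 ≤ G ρ)
    (hP1 : ∀ a, 0 < a → a ≤ A → LOCA_P G ρ a ≤ 0) (hP2 : ∀ a, A ≤ a → a < ρ → 0 ≤ LOCA_P G ρ a)
    {b : ℝ} (hb0 : 0 ≤ b) (h1 : ∀ r, 0 ≤ r → r ≤ b → LOCA_I G ρ ≤ LOCA_I G r)
    (h2 : ∀ r, b ≤ r → r ≤ ρ → LOCA_I G r ≤ LOCA_I G ρ) {a : ℝ} (ha : 0 < a) (hba : b ≤ a) :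
    ∫ ψ in (0 : ℝ)..(π / 2), LOCA_U G ρ (a / cos ψ) ≤ ∫ u in A..ρ, LOCA_P G ρ u := by
  have hρ : 0 < ρ := hA.trans hAρ
  have hPc := LOCA_Pc hG ρ
  have hU0 : LOCA_U G ρ 0 = 0 := by
    have h3 := h1 0 le_rfl hb0
    rw [LOCA_U, max_self]
    exact max_eq_right (by linarith)
  have hUρ : ∀ r, ρ ≤ r → LOCA_U G ρ r = 0 := by
    intro r hr
    have h3 := LOCA_ge hG hρ hsgn hGρ hr
    rw [LOCA_U, max_eq_left (hρ.le.trans hr)]
    exact max_eq_right (by linarith)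
  have hnn : 0 ≤ ∫ u in A..ρ, LOCA_P G ρ u := by
    refine intervalIntegral.integral_nonneg_of_ae_restrict hAρ.le ?_
    rw [Filter.EventuallyLE, ae_restrict_iff' measurableSet_Icc]
    have h3 : ∀ᵐ x : ℝ ∂volume, x ≠ ρ := by
      rw [ae_iff]
      simp
    filter_upwards [h3] with x hx hxI
    exact hP2 x hxI.1 (lt_of_le_of_ne hxI.2 hx)
  have hz : ∀ ψ, 0 ≤ cos ψ → ρ * cos ψ ≤ a → LOCA_U G ρ (a / cos ψ) = 0 := by
    intro ψ hc hle
    rcases hc.eq_or_lt with h3 | h3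
    · rw [← h3, div_zero]
      exact hU0
    · exact hUρ _ ((le_div_iff₀ h3).2 hle)
  rcases le_or_gt ρ a with hρa | haρ
  · have h3 : ∫ ψ in (0 : ℝ)..(π / 2), LOCA_U G ρ (a / cos ψ) = 0 := by
      rw [intervalIntegral.integral_congr (g := fun _ => (0 : ℝ)), intervalIntegral.integral_zero]
      intro ψ hψ
      rw [uIcc_of_le (by positivity)] at hψ
      refine hz ψ (cos_nonneg_of_mem_Icc ⟨by linarith [hψ.1, Real.pi_pos], hψ.2⟩) ?_
      have h4 := cos_le_one ψ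
      nlinarith
    rw [h3]
    exact hnn
  · have hq0 : 0 < a / ρ := by positivity
    have hq1 : a / ρ ≤ 1 := (div_le_one hρ).2 haρ.le
    have hac : cos (arccos (a / ρ)) = a / ρ := cos_arccos (by linarith) hq1
    have hac0 : 0 ≤ arccos (a / ρ) := arccos_nonneg _
    have hac2 : arccos (a / ρ) ≤ π / 2 := arccos_le_pi_div_two.2 hq0.le
    have hcos : ∀ ψ ∈ Icc 0 (arccos (a / ρ)), a / ρ ≤ cos ψ := by
      intro ψ hψ
      rw [← hac]
      exact cos_le_cos_of_nonneg_of_le_pi hψ.1 (hac2.trans (by linarith [Real.pi_pos])) hψ.2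
    have e1 : ∀ ψ ∈ Icc 0 (arccos (a / ρ)), LOCA_U G ρ (a / cos ψ) =
        ∫ s in (a / cos ψ)..ρ, G s * s := by
      intro ψ hψ
      have hc := hcos ψ hψ
      have hc0 : 0 < cos ψ := hq0.trans_le hc
      have h3 : a / cos ψ ≤ ρ := by
        rw [div_le_iff₀ hc0]
        rw [div_le_iff₀ hρ] at hc
        linarith
      have h4 : b ≤ a / cos ψ := by
        refine hba.trans ?_
        rw [le_div_iff₀ hc0]
        have := cos_le_one ψ
        nlinarith
      have h5 : 0 ≤ a / cos ψ := by positivity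
      rw [LOCA_U, max_eq_left h5, ← LOCA_sub hG]
      exact max_eq_left (by linarith [h2 _ h4 h3])
    have e2 : ∀ ψ ∈ Icc (arccos (a / ρ)) (π / 2), LOCA_U G ρ (a / cos ψ) = 0 := by
      intro ψ hψ
      refine hz ψ (cos_nonneg_of_mem_Icc ⟨by linarith [hψ.1, Real.pi_pos], hψ.2⟩) ?_
      have h3 : cos ψ ≤ a / ρ := by
        rw [← hac]
        exact cos_le_cos_of_nonneg_of_le_pi hac0 (by linarith [hψ.2, Real.pi_pos]) hψ.1
      rw [le_div_iff₀ hρ] at h3
      linarith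
    have i1 : IntervalIntegrable (fun ψ => LOCA_U G ρ (a / cos ψ)) volume 0
        (arccos (a / ρ)) := by
      refine ContinuousOn.intervalIntegrable ?_
      rw [uIcc_of_le hac0]
      have h3 : Continuous (LOCA_U G ρ) :=
        (continuous_const.sub ((LOCA_cont hG).comp (continuous_id.max continuous_const))).max
          continuous_const
      refine h3.comp_continuousOn ?_
      refine continuousOn_const.div continuous_cos.continuousOn ?_
      intro ψ hψ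
      exact (hq0.trans_le (hcos ψ hψ)).ne'
    have i2 : IntervalIntegrable (fun ψ => LOCA_U G ρ (a / cos ψ)) volume
        (arccos (a / ρ)) (π / 2) := by
      refine ContinuousOn.intervalIntegrable ?_
      rw [uIcc_of_le hac2]
      exact continuousOn_const.congr e2
    have h3 : ∫ ψ in (0 : ℝ)..(π / 2), LOCA_U G ρ (a / cos ψ) = ∫ u in a..ρ, LOCA_P G ρ u := by
      rw [← intervalIntegral.integral_add_adjacent_intervals i1 i2]
      have h4 : ∫ ψ in (arccos (a / ρ))..(π / 2), LOCA_U G ρ (a / cos ψ) = 0 := by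
        rw [intervalIntegral.integral_congr (g := fun _ => (0 : ℝ)),
          intervalIntegral.integral_zero]
        intro ψ hψ
        rw [uIcc_of_le hac2] at hψ
        exact e2 ψ hψ
      have h5 : ∫ ψ in (0 : ℝ)..(arccos (a / ρ)), LOCA_U G ρ (a / cos ψ) =
          ∫ ψ in (0 : ℝ)..(arccos (a / ρ)), (∫ s in (a / cos ψ)..ρ, G s * s) := by
        refine intervalIntegral.integral_congr ?_
        intro ψ hψ
        rw [uIcc_of_le hac0] at hψ
        exact e1 ψ hψ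
      rw [h4, h5, add_zero]
      exact hMP G hG ρ a ha haρ
    rw [h3]
    rcases le_total a A with h4 | h4
    · have h5 := intervalIntegral.integral_add_adjacent_intervals
        (hPc.intervalIntegrable (μ := volume) a A) (hPc.intervalIntegrable (μ := volume) A ρ)
      have h6 : ∫ u in a..A, LOCA_P G ρ u ≤ 0 := by
        have h7 : 0 ≤ ∫ u in a..A, -(LOCA_P G ρ u) := by
          refine intervalIntegral.integral_nonneg h4 ?_
          intro u hu
          have := hP1 u (ha.trans_le hu.1) hu.2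
          linarith
        rw [intervalIntegral.integral_neg] at h7
        linarith
      linarith
    · have h5 := intervalIntegral.integral_add_adjacent_intervals
        (hPc.intervalIntegrable (μ := volume) A a) (hPc.intervalIntegrable (μ := volume) a ρ)
      have h6 : 0 ≤ ∫ u in A..a, LOCA_P G ρ u := by
        refine intervalIntegral.integral_nonneg h4 ?_
        intro u hu
        exact hP2 u hu.1 (hu.2.trans_lt haρ)
      linarith

theorem p_LOCA (hMP : T_MP) (hMNT : T_MNT) : T_LOCA := by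
  intro G ρ A hG hA hAρ hsgn hGρ hα hP1 hP2 a ha
  have hρ : 0 < ρ := hA.trans hAρ
  obtain ⟨b, hb0, hbρ, h1, h2⟩ := LOCA_b hG hρ hsgn hα
  have hR : ∫ ψ in (0 : ℝ)..arccos (A / ρ), ((∫ s in (0 : ℝ)..ρ, G s * s)
      - ∫ s in (0 : ℝ)..(A / cos ψ), G s * s) = ∫ u in A..ρ, LOCA_P G ρ u := by
    have h3 := hMP G hG ρ A hA hAρ
    rw [show (∫ u in A..ρ, LOCA_P G ρ u) = ∫ u in A..ρ, ∫ y in (0 : ℝ)..√(ρ ^ 2 - u ^ 2),
      G √(u ^ 2 + y ^ 2) from rfl, ← h3]
    refine intervalIntegral.integral_congr ?_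
    intro ψ _
    exact LOCA_sub hG (A / cos ψ) ρ
  have hL : ∫ ψ in (0 : ℝ)..(π / 2), max ((∫ s in (0 : ℝ)..ρ, G s * s)
      - ∫ s in (0 : ℝ)..(a / cos ψ), G s * s) 0 =
      ∫ ψ in (0 : ℝ)..(π / 2), LOCA_U G ρ (a / cos ψ) := by
    refine intervalIntegral.integral_congr ?_
    intro ψ hψ
    rw [uIcc_of_le (by positivity)] at hψ
    have hc : 0 ≤ cos ψ := cos_nonneg_of_mem_Icc ⟨by linarith [hψ.1, Real.pi_pos], hψ.2⟩
    have h3 : 0 ≤ a / cos ψ := div_nonneg ha.le hc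
    change max (LOCA_I G ρ - LOCA_I G (a / cos ψ)) 0 = LOCA_U G ρ (a / cos ψ)
    rw [LOCA_U, max_eq_left h3]
  rw [hR, hL]
  have core : ∀ x, 0 < x → b ≤ x →
      ∫ ψ in (0 : ℝ)..(π / 2), LOCA_U G ρ (x / cos ψ) ≤ ∫ u in A..ρ, LOCA_P G ρ u :=
    fun x hx hbx => LOCA_core hMP hG hA hAρ hsgn hGρ hP1 hP2 hb0 h1 h2 hx hbx
  rcases le_or_gt b a with hba | hab
  · exact core a ha hba
  · refine le_trans ?_ (core b (ha.trans hab) le_rfl)
    refine hMNT (LOCA_U G ρ) a b ρ ?_ (fun r => le_max_right _ _) ha hab.le ?_ ?_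
    · exact (continuous_const.sub
        ((LOCA_cont hG).comp (continuous_id.max continuous_const))).max continuous_const
    · intro r hr
      have h3 := h1 (max r 0) (le_max_right _ _) (max_le hr hb0)
      rw [LOCA_U]
      exact max_eq_right (by linarith)
    · intro r hr
      have h3 := LOCA_ge hG hρ hsgn hGρ hr
      rw [LOCA_U, max_eq_left (hρ.le.trans hr)]
      exact max_eq_right (by linarith)

end Pool.Agent.SDC
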