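import Pool.Agent.SDC.Targets

set_option autoImplicit false

open MeasureTheory Set Real
open scoped RealInnerProductSpace

namespace Pool.Agent.SDC

theorem LOCH_int (hF : T_FAR) (hH : T_HCL) {t h a : ℝ} (ht1 : 1 ≤ t) (htR : t < R) (hh : 1 ≤ h)
    (ha : 0 < a) : IntervalIntegrable
      (fun ψ => max (alp t - H t (kap t) (bet t) h (a / cos ψ)) 0) volume 0 (π / 2) := by
  have hcont : Continuous fun r => max (alp t - H t (kap t) (bet t) h r) 0 := by
    have h1 : Continuous fun r => H t (kap t) (bet t) h r := by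
      have h2 : Continuous fun s : ℝ => G t (kap t) (bet t) h s * s :=
        (hH.1 t (kap t) (bet t) h).mul continuous_id
      exact intervalIntegral.continuous_primitive (fun x y => h2.intervalIntegrable x y) 0
    exact (continuous_const.sub h1).max continuous_const
  obtain ⟨M, hM⟩ := (isCompact_Icc (a := (0 : ℝ)) (b := rv)).exists_bound_of_continuousOn
    hcont.continuousOn
  have hM0 : 0 ≤ M := (norm_nonneg _).trans (hM 0 ⟨le_rfl, rv_pos.le⟩)
  rw [intervalIntegrable_iff_integrableOn_Icc_of_le (by positivity)]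
  refine Measure.integrableOn_of_bounded (M := M) (by simp) ?_ ?_
  · have h3 : Measurable fun ψ : ℝ => a / cos ψ :=
      measurable_const.div Real.measurable_cos
    exact (hcont.measurable.comp h3).aestronglyMeasurable
  · refine (ae_restrict_iff' measurableSet_Icc).2 (Filter.Eventually.of_forall fun ψ hψ => ?_)
    have hr : 0 ≤ a / cos ψ := by
      apply div_nonneg ha.le
      exact cos_nonneg_of_mem_Icc ⟨by linarith [hψ.1, Real.pi_pos], hψ.2⟩
    rcases le_total (a / cos ψ) rv with h4 | h4
    · exact hM _ ⟨hr, h4⟩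
    · have h5 := (hF t h ht1 htR hh).1 _ h4
      rw [max_eq_right (by linarith), norm_zero]
      exact hM0

theorem p_LOCH (h1 : T_LOC1) (hC : T_CMP) (hF : T_FAR) (hA : T_ALP) (hB : T_BET) (hH : T_HCL) :
    T_LOCH := by
  intro t ht1 htR h a hh ha
  have hpi : (0 : ℝ) ≤ π / 2 := by positivity
  have hcos : ∀ ψ ∈ Icc (0 : ℝ) (π / 2), 0 ≤ cos ψ := fun ψ hψ =>
    cos_nonneg_of_mem_Icc ⟨by linarith [hψ.1, Real.pi_pos], hψ.2⟩
  rcases le_total R h with hR | hR
  · have h2 : ∫ ψ in (0 : ℝ)..(π / 2), max (alp t - H t (kap t) (bet t) h (a / cos ψ)) 0 = 0 := by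
      have h3 : ∫ ψ in (0 : ℝ)..(π / 2), max (alp t - H t (kap t) (bet t) h (a / cos ψ)) 0 =
          ∫ ψ in (0 : ℝ)..(π / 2), (0 : ℝ) := by
        apply intervalIntegral.integral_congr
        intro ψ hψ
        rw [uIcc_of_le hpi] at hψ
        have h4 := (hF t h ht1 htR hh).2 hR _ (div_nonneg ha.le (hcos ψ hψ))
        have h5 := hA t ht1 htR
        change max (alp t - H t (kap t) (bet t) h (a / cos ψ)) 0 = 0
        exact max_eq_right (by linarith)
      rw [h3]
      simp
    rw [h2]
    refine le_trans ?_ (h1 t ht1 htR a ha)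
    exact intervalIntegral.integral_nonneg hpi fun ψ _ => le_max_right _ _
  · have ht0 : 0 < t := by linarith
    have hh0 : 0 < h := by linarith
    have ha' : 0 < h * √h * a := by positivity
    refine le_trans ?_ (h1 t ht1 htR _ ha')
    refine intervalIntegral.integral_mono_on hpi (LOCH_int hF hH ht1 htR hh ha)
      (LOCH_int hF hH ht1 htR le_rfl ha') ?_
    intro ψ hψ
    have hr : 0 ≤ a / cos ψ := div_nonneg ha.le (hcos ψ hψ)
    rcases le_total rv (a / cos ψ) with h3 | h3
    · have h4 := (hF t h ht1 htR hh).1 _ h3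
      rw [max_eq_right (by linarith)]
      exact le_max_right _ _
    · have h5 : (a / cos ψ) ^ 2 * h ^ 2 ≤ h + 1 := by
        have h6 : (a / cos ψ) ^ 2 ≤ 0.764 ^ 2 := by
          apply pow_le_pow_left₀ hr
          linarith [rv_hi]
        have h7 : h ^ 2 ≤ 1.2586 ^ 2 := by
          apply pow_le_pow_left₀ hh0.le
          linarith [R_hi]
        calc (a / cos ψ) ^ 2 * h ^ 2 ≤ 0.764 ^ 2 * 1.2586 ^ 2 :=
              mul_le_mul h6 h7 (by positivity) (by norm_num)
          _ ≤ 1 + 1 := by norm_num
          _ ≤ h + 1 := by linarith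
      have h8 := hC t (kap t) (bet t) h (a / cos ψ) ht0 (hB t ht1 htR).1 hh hr h5
      have h9 : h * √h * a / cos ψ = h * √h * (a / cos ψ) := by ring
      rw [h9]
      exact max_le_max (by linarith) le_rfl

end Pool.Agent.SDC
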