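import Pool.Agent.SDC.Targets2

/-!
# SDC: proof of T_LOW
-/

set_option autoImplicit false

open scoped RealInnerProductSpace

namespace Pool.Agent.SDC

theorem LOW_zero {a b c u : E3} (hli : LinearIndependent ℝ ![a, b, c])
    (ha : ⟪a, u⟫ = 0) (hb : ⟪b, u⟫ = 0) (hc : ⟪c, u⟫ = 0) : u = 0 := by
  have hspan : Submodule.span ℝ (Set.range ![a, b, c]) = ⊤ :=
    hli.span_eq_top_of_card_eq_finrank (by simp)
  have hall : ∀ w ∈ Submodule.span ℝ (Set.range ![a, b, c]), ⟪w, u⟫ = 0 := by
    intro w hw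
    induction hw using Submodule.span_induction with
    | mem x hx =>
      obtain ⟨t, rfl⟩ := hx
      fin_cases t
      · exact ha
      · exact hb
      · exact hc
    | zero => simp
    | add x y _ _ hx hy => rw [inner_add_left, hx, hy, add_zero]
    | smul r x _ hx => rw [real_inner_smul_left, hx, mul_zero]
  have h := hall u (by rw [hspan]; trivial)
  exact inner_self_eq_zero.1 h

theorem p_LOW : T_LOW := by
  intro ι n h c hn i j k hjk hij hik v hvi hvj hvk hcj hck x hx
  obtain ⟨hij0, xj, hxji, hxjj, hxjl⟩ := hij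
  obtain ⟨hik0, xk, hxki, hxkk, hxkl⟩ := hik
  have hPj : xj ∈ Poly n h := by
    intro l
    by_cases h1 : l = i
    · rw [h1, hxji]
    · by_cases h2 : l = j
      · rw [h2, hxjj]
      · exact (hxjl l h1 h2).le
  have hPk : xk ∈ Poly n h := by
    intro l
    by_cases h1 : l = i
    · rw [h1, hxki]
    · by_cases h2 : l = k
      · rw [h2, hxkk]
      · exact (hxkl l h1 h2).le
  have hcj' := hcj xj ⟨⟨hPj, hxji⟩, ⟨hPj, hxjj⟩⟩
  have hck' := hck xk ⟨⟨hPk, hxki⟩, ⟨hPk, hxkk⟩⟩
  have e1 : ⟪n i, xj - v⟫ = 0 := by rw [inner_sub_right, hxji, hvi.2, sub_self]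
  have e2 : ⟪n j, xj - v⟫ = 0 := by rw [inner_sub_right, hxjj, hvj.2, sub_self]
  have e3 : ⟪n k, xj - v⟫ < 0 := by
    rw [inner_sub_right, hvk.2]
    have := hxjl k (Ne.symm hik0) (Ne.symm hjk)
    linarith
  have f1 : ⟪n i, xk - v⟫ = 0 := by rw [inner_sub_right, hxki, hvi.2, sub_self]
  have f2 : ⟪n k, xk - v⟫ = 0 := by rw [inner_sub_right, hxkk, hvk.2, sub_self]
  have f3 : ⟪n j, xk - v⟫ < 0 := by
    rw [inner_sub_right, hvj.2]
    have := hxkl j (Ne.symm hij0) hjk
    linarith
  have g1 : ⟪n i, x - v⟫ = 0 := by rw [inner_sub_right, hx.2, hvi.2, sub_self]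
  have g2 : ⟪n j, x - v⟫ ≤ 0 := by
    rw [inner_sub_right, hvj.2]
    have := hx.1 j
    linarith
  have g3 : ⟪n k, x - v⟫ ≤ 0 := by
    rw [inner_sub_right, hvk.2]
    have := hx.1 k
    linarith
  have hli : LinearIndependent ℝ ![n i, n j, n k] := by
    rw [Fintype.linearIndependent_iff]
    intro g hg
    rw [Fin.sum_univ_three] at hg
    simp only [Matrix.cons_val_zero, Matrix.cons_val_one, Matrix.cons_val] at hg
    have s1 : ⟪g 0 • n i + g 1 • n j + g 2 • n k, xj - v⟫ = 0 := by rw [hg, inner_zero_left]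
    have s2 : ⟪g 0 • n i + g 1 • n j + g 2 • n k, xk - v⟫ = 0 := by rw [hg, inner_zero_left]
    rw [inner_add_left, inner_add_left, real_inner_smul_left, real_inner_smul_left,
      real_inner_smul_left, e1, e2] at s1
    rw [inner_add_left, inner_add_left, real_inner_smul_left, real_inner_smul_left,
      real_inner_smul_left, f1, f2] at s2
    have t2 : g 2 = 0 := by
      have : g 2 * ⟪n k, xj - v⟫ = 0 := by linarith
      rcases mul_eq_zero.1 this with h0 | h0
      · exact h0
      · exact absurd h0 e3.ne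
    have t1 : g 1 = 0 := by
      have : g 1 * ⟪n j, xk - v⟫ = 0 := by linarith
      rcases mul_eq_zero.1 this with h0 | h0
      · exact h0
      · exact absurd h0 f3.ne
    have t0 : g 0 = 0 := by
      rw [t1, t2, zero_smul, zero_smul, add_zero, add_zero] at hg
      rcases smul_eq_zero.1 hg with h0 | h0
      · exact h0
      · have := hn i
        rw [h0, norm_zero] at this
        norm_num at this
    intro t
    fin_cases t
    · exact t0
    · exact t1
    · exact t2
  set μ : ℝ := ⟪n k, x - v⟫ / ⟪n k, xj - v⟫ with hμ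
  set ν : ℝ := ⟪n j, x - v⟫ / ⟪n j, xk - v⟫ with hν
  have hμ0 : 0 ≤ μ := div_nonneg_of_nonpos g3 e3.le
  have hν0 : 0 ≤ ν := div_nonneg_of_nonpos g2 f3.le
  have hμ1 : μ * ⟪n k, xj - v⟫ = ⟪n k, x - v⟫ := div_mul_cancel₀ _ e3.ne
  have hν1 : ν * ⟪n j, xk - v⟫ = ⟪n j, x - v⟫ := div_mul_cancel₀ _ f3.ne
  have hu : (x - v) - μ • (xj - v) - ν • (xk - v) = 0 := by
    apply LOW_zero hli
    · rw [inner_sub_right, inner_sub_right, real_inner_smul_right, real_inner_smul_right, e1, f1,
        g1]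
      ring
    · rw [inner_sub_right (n j) (x - v - μ • (xj - v)), inner_sub_right (n j) (x - v),
        real_inner_smul_right, real_inner_smul_right, e2, hν1]
      ring
    · rw [inner_sub_right (n k) (x - v - μ • (xj - v)), inner_sub_right (n k) (x - v),
        real_inner_smul_right, real_inner_smul_right, f2, hμ1]
      ring
  have hd : x - v = μ • (xj - v) + ν • (xk - v) := by
    rw [sub_sub, sub_eq_zero] at hu
    exact hu
  have hc : ⟪c, x - v⟫ = μ * ⟪c, xj - v⟫ + ν * ⟪c, xk - v⟫ := by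
    rw [hd, inner_add_right, real_inner_smul_right, real_inner_smul_right]
  have c1 : 0 ≤ ⟪c, xj - v⟫ := by
    rw [inner_sub_right]
    linarith
  have c2 : 0 ≤ ⟪c, xk - v⟫ := by
    rw [inner_sub_right]
    linarith
  have c3 : 0 ≤ ⟪c, x - v⟫ := by
    rw [hc]
    exact add_nonneg (mul_nonneg hμ0 c1) (mul_nonneg hν0 c2)
  rw [inner_sub_right] at c3
  linarith

end Pool.Agent.SDC
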