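import Pool.Agent.SDC.Targets
import Pool.Agent.SDC.Targets2

/-!
# SDC, target MA1: the main inequality in the irredundant case
-/

set_option autoImplicit false

open MeasureTheory Set Real
open scoped RealInnerProductSpace

namespace Pool.Agent.SDC

/-- The normals of an irredundant family are different. -/
theorem MA1_inj {ι : Type} {n : ι → E3} {h : ι → ℝ} (hI : Irr n h) : Function.Injective n := by
  intro i j hij
  by_contra hne
  obtain ⟨x, hx, hx'⟩ := hI i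
  obtain ⟨y, hy, hy'⟩ := hI j
  have h1 := hx' j (Ne.symm hne)
  have h2 := hy' i hne
  rw [← hij] at h1 hy
  linarith

/-- The last bracket of SUM is nonnegative. -/
theorem MA1_bracket {t κ β : ℝ} (h0 : 0 ≤ t) (ht : t < R) (hG : 0 ≤ G t κ β 1 rv) :
    0 ≤ (1 - κ) * R ^ 3 - t ^ 3 - β := by
  have hR := R_pos
  have hR3 : 0 < R ^ 3 := by positivity
  rw [G, cc_rv] at hG
  have h1 : t ^ 3 ≤ R ^ 3 := pow_le_pow_left₀ h0 ht.le 3
  have h2 : t ^ 3 / R ^ 3 ≤ 1 := (div_le_one hR3).2 h1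
  rw [max_eq_left (by linarith)] at hG
  have h3 : 0 ≤ (1 ^ 3 - t ^ 3 / R ^ 3 - κ * 1 ^ 3 - β / R ^ 3) * R ^ 3 :=
    mul_nonneg hG hR3.le
  have h4 : (1 ^ 3 - t ^ 3 / R ^ 3 - κ * 1 ^ 3 - β / R ^ 3) * R ^ 3 =
      (1 - κ) * R ^ 3 - t ^ 3 - β := by
    field_simp
    ring
  linarith

/-- The condition on the distance. -/
theorem MA1_lt {h r : ℝ} (h0 : 0 < h) (hr : 0 ≤ r) :
    h * cc r < R ↔ r < √(R ^ 2 / h ^ 2 - 1) := by
  have hc := cc_pos r
  have hcs := cc_sq r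
  have hR := R_pos
  rw [Real.lt_sqrt hr]
  have h1 : h * cc r < R ↔ (h * cc r) ^ 2 < R ^ 2 :=
    (sq_lt_sq₀ (by positivity) hR.le).symm
  rw [h1, mul_pow, hcs]
  have h2 : 0 < h ^ 2 := by positivity
  have h3 : r ^ 2 < R ^ 2 / h ^ 2 - 1 ↔ r ^ 2 + 1 < R ^ 2 / h ^ 2 := by
    constructor <;> intro h <;> linarith
  rw [h3, lt_div_iff₀ h2]
  constructor <;> intro h <;> nlinarith

/-- One facet. -/
theorem MA1_facet (hFCT : T_FCT) (hLOC1 : T_LOC1) (hLOCH : T_LOCH) (hFAR : T_FAR) (hTR : T_TR)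
    (hSGN : T_SGN) (hHCL : T_HCL) (hKAP : T_KAP) (hBET : T_BET) (hALP : T_ALP)
    {ι : Type} [Fintype ι] {n : ι → E3} {h : ι → ℝ} (hn : ∀ i, ‖n i‖ = 1) (hh : ∀ i, 1 ≤ h i)
    (hI : Irr n h) {t : ℝ} (ht1 : 1 ≤ t) (htR : t < R) {i : ι} {e f : E3}
    (ho : Onb (n i) e f) :
    2 * π * alp t + 2 * J0 t * ({j | Adj n h i j}.ncard : ℝ) ≤
      ∫ w in {w | w ∈ Qs n h i e f ∧ h i * cc (nr w) < R}, G t (kap t) (bet t) (h i) (nr w) := by
  have h0 : ∀ i, 0 < h i := fun i => lt_of_lt_of_le one_pos (hh i)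
  have ht0 : 0 < t := lt_of_lt_of_le one_pos ht1
  have hal := hALP t ht1 htR
  have hJ : J0 t ≤ 0 := by
    have h1 := hLOC1 t ht1 htR 1 one_pos
    have h2 : 0 ≤ ∫ ψ in (0 : ℝ)..(π / 2),
        max (alp t - H t (kap t) (bet t) 1 (1 / cos ψ)) 0 :=
      intervalIntegral.integral_nonneg (by positivity) fun _ _ => le_max_right _ _
    linarith
  rcases lt_or_ge (h i) R with hlt | hge
  · have hset : {w | w ∈ Qs n h i e f ∧ h i * cc (nr w) < R} =
        {w | w ∈ Qs n h i e f ∧ nr w < √(R ^ 2 / h i ^ 2 - 1)} := by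
      ext w
      simp only [mem_ofPred_eq]
      rw [MA1_lt (h0 i) (show 0 ≤ nr w from Real.sqrt_nonneg _)]
    rw [hset]
    have hρ : 0 < √(R ^ 2 / h i ^ 2 - 1) := by
      apply Real.sqrt_pos.2
      have h3 : h i ^ 2 < R ^ 2 := pow_lt_pow_left₀ hlt (h0 i).le two_ne_zero
      have h4 : 1 < R ^ 2 / h i ^ 2 := (one_lt_div (by have := h0 i; positivity)).2 h3
      linarith
    have hmain := hFCT ι n h i e f √(R ^ 2 / h i ^ 2 - 1) (alp t) (- J0 t)
      (G t (kap t) (bet t) (h i)) hn h0 hI ho (hHCL.1 _ _ _ _)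
      (fun r r' hr hrr hg => hSGN t (kap t) (bet t) (h i) r r' ht0 (h0 i)
        (hKAP t ht1 htR).1 (hBET t ht1 htR).1 hr hrr hg) hρ hal
      (hTR t (h i) ht1 htR (hh i) hlt.le)
      ⟨rv, rv_pos, fun r hr => (hFAR t (h i) ht1 htR (hh i)).1 r hr⟩
      (fun a' ha' => hLOCH t ht1 htR (h i) a' (hh i) ha')
    linarith
  · have hset : {w | w ∈ Qs n h i e f ∧ h i * cc (nr w) < R} = ∅ := by
      ext w
      simp only [mem_ofPred_eq, mem_empty_iff_false, iff_false, not_and, not_lt]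
      intro _
      have := cc_one (nr w)
      nlinarith [h0 i]
    rw [hset, Measure.restrict_empty, integral_zero_measure]
    have h5 : 2 * π * alp t ≤ 0 := mul_nonpos_of_nonneg_of_nonpos (by positivity) hal
    have h6 : 2 * J0 t * ({j | Adj n h i j}.ncard : ℝ) ≤ 0 :=
      mul_nonpos_of_nonpos_of_nonneg (by linarith) (by positivity)
    linarith

theorem p_MA1 (hSUM : T_SUM) (hONB : T_ONB) (hFCT : T_FCT) (hSID : T_SID) (hLOC1 : T_LOC1)
    (hLOCH : T_LOCH) (hFAR : T_FAR) (hTR : T_TR) (hSGN : T_SGN) (hHCL : T_HCL) (hKAP : T_KAP)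
    (hBET : T_BET) (hALP : T_ALP) (hIDN : T_IDN) : T_MA1 := by
  intro ι _ n h hn hh hI hN t ht1 htR
  have h0 : ∀ i, 0 < h i := fun i => lt_of_lt_of_le one_pos (hh i)
  have ht0 : 0 < t := lt_of_lt_of_le one_pos ht1
  choose e f hef using fun i => hONB (n i) (hn i)
  have hS := hSUM ι n e f h t (kap t) (bet t) R h0 (MA1_inj hI) hef ht0 htR.le
  have hal := hALP t ht1 htR
  have hJ : J0 t ≤ 0 := by
    have h1 := hLOC1 t ht1 htR 1 one_pos
    have h2 : 0 ≤ ∫ ψ in (0 : ℝ)..(π / 2),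
        max (alp t - H t (kap t) (bet t) 1 (1 / cos ψ)) 0 :=
      intervalIntegral.integral_nonneg (by positivity) fun _ _ => le_max_right _ _
    linarith
  have hbr := MA1_bracket ht0.le htR (hBET t ht1 htR).2
  have hfac : ∑ i, (2 * π * alp t + 2 * J0 t * ({j | Adj n h i j}.ncard : ℝ)) ≤
      ∑ i, ∫ w in {w | w ∈ Qs n h i (e i) (f i) ∧ h i * cc (nr w) < R},
        G t (kap t) (bet t) (h i) (nr w) :=
    Finset.sum_le_sum fun i _ => MA1_facet hFCT hLOC1 hLOCH hFAR hTR hSGN hHCL hKAP hBET hALP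
      hn hh hI ht1 htR (hef i)
  have hsum : ∑ i, (2 * π * alp t + 2 * J0 t * ({j | Adj n h i j}.ncard : ℝ)) =
      2 * π * alp t * (Fintype.card ι : ℝ) +
        2 * J0 t * ((∑ i, {j | Adj n h i j}.ncard : ℕ) : ℝ) := by
    rw [Finset.sum_add_distrib, Finset.sum_const, ← Finset.mul_sum, Finset.card_univ,
      nsmul_eq_mul]
    push_cast
    ring
  have hk : ((∑ i, {j | Adj n h i j}.ncard : ℕ) : ℝ) ≤ 60 := by
    exact_mod_cast hSID ι n h hn hI hN
  have hNc : (Fintype.card ι : ℝ) ≤ 12 := by exact_mod_cast hN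
  have h7 : 24 * π * alp t ≤ 2 * π * alp t * (Fintype.card ι : ℝ) := by
    have h8 : 0 ≤ (2 * π * (- alp t)) * (12 - (Fintype.card ι : ℝ)) :=
      mul_nonneg (mul_nonneg (by positivity) (by linarith)) (by linarith)
    nlinarith
  have h9 : 120 * J0 t ≤ 2 * J0 t * ((∑ i, {j | Adj n h i j}.ncard : ℕ) : ℝ) := by
    have h8 : 0 ≤ (- J0 t) * (60 - ((∑ i, {j | Adj n h i j}.ncard : ℕ) : ℝ)) :=
      mul_nonneg (by linarith) (by linarith)
    nlinarith
  have hid := hIDN t ht1 htR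
  have hlast : 0 ≤ 3 * (volume (Metric.closedBall (0 : E3) 1 ∩ Cinf n h R)).toReal *
      ((1 - kap t) * R ^ 3 - t ^ 3 - bet t) :=
    mul_nonneg (mul_nonneg (by norm_num) ENNReal.toReal_nonneg) hbr
  rw [hsum] at hfac
  linarith

end Pool.Agent.SDC
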