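import Pool.Agent.SDC.Targets

/-!
# SDC: MNT, monotonicity by a substitution
-/

set_option autoImplicit false

open MeasureTheory Set Real

namespace Pool.Agent.SDC

/-- `x ↦ U (a / x)` is continuous. -/
theorem MNT_cont {U : ℝ → ℝ} {a b ρ : ℝ} (hU : Continuous U) (ha : 0 < a) (hb : 0 ≤ b)
    (h1 : ∀ r, r ≤ b → U r = 0) (h2 : ∀ r, ρ ≤ r → U r = 0) :
    Continuous fun x : ℝ => U (a / x) := by
  rw [continuous_iff_continuousAt]
  intro x
  rcases eq_or_ne x 0 with rfl | hx
  · have hρ : 0 < max ρ 1 := lt_of_lt_of_le one_pos (le_max_right _ _)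
    have hev : (fun x : ℝ => U (a / x)) =ᶠ[nhds 0] fun _ => (0 : ℝ) := by
      have hm : Metric.ball (0 : ℝ) (a / max ρ 1) ∈ nhds (0 : ℝ) :=
        Metric.ball_mem_nhds _ (div_pos ha hρ)
      filter_upwards [hm] with y hy
      rw [Metric.mem_ball, dist_zero_right, Real.norm_eq_abs] at hy
      rcases lt_or_ge 0 y with hy0 | hy0
      · apply h2
        rw [abs_of_pos hy0, lt_div_iff₀ hρ] at hy
        refine le_trans (le_max_left ρ 1) ?_
        rw [le_div_iff₀ hy0]
        linarith
      · apply h1
        exact le_trans (div_nonpos_of_nonneg_of_nonpos ha.le hy0) hb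
    exact continuousAt_const.congr hev.symm
  · exact hU.continuousAt.comp (continuousAt_const.div continuousAt_id hx)

theorem p_MNT : T_MNT := by
  intro U a b ρ hU hU0 ha hab h1 h2
  have hb : 0 < b := lt_of_lt_of_le ha hab
  rcases eq_or_lt_of_le hab with rfl | hlt
  · exact le_refl _
  have hcA := MNT_cont hU ha hb.le h1 h2
  have hcB := MNT_cont hU hb hb.le h1 h2
  set q : ℝ := a / b with hq
  have hq0 : 0 < q := div_pos ha hb
  have hq1 : q < 1 := (div_lt_one hb).2 hlt
  have hbq : ∀ θ : ℝ, U (a / (q * cos θ)) = U (b / cos θ) := by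
    intro θ
    congr 1
    rw [hq]
    rcases eq_or_ne (cos θ) 0 with h | h
    · rw [h]
      simp
    · field_simp
  have hrange : ∀ θ : ℝ, -1 < q * cos θ ∧ q * cos θ < 1 := by
    intro θ
    have c1 := cos_le_one θ
    have c2 := neg_one_le_cos θ
    constructor <;> nlinarith
  have hpos : ∀ θ : ℝ, 0 < 1 - (q * cos θ) ^ 2 := by
    intro θ
    obtain ⟨e1, e2⟩ := hrange θ
    nlinarith
  have hder : ∀ θ ∈ uIcc (0 : ℝ) (π / 2), HasDerivAt (fun θ => arccos (q * cos θ))
      (-(1 / √(1 - (q * cos θ) ^ 2)) * (q * (-sin θ))) θ := by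
    intro θ _
    have d1 := Real.hasDerivAt_arccos (hrange θ).1.ne' (hrange θ).2.ne
    have d2 : HasDerivAt (fun θ => q * cos θ) (q * (-sin θ)) θ :=
      (Real.hasDerivAt_cos θ).const_mul q
    exact HasDerivAt.comp (h₂ := arccos) (h := fun θ => q * cos θ) θ d1 d2
  have hcont : ContinuousOn (fun θ : ℝ => -(1 / √(1 - (q * cos θ) ^ 2)) * (q * (-sin θ)))
      (uIcc (0 : ℝ) (π / 2)) := by
    apply Continuous.continuousOn
    apply Continuous.mul
    · apply Continuous.neg
      apply Continuous.div continuous_const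
      · exact (continuous_const.sub ((continuous_const.mul continuous_cos).pow 2)).sqrt
      · intro θ
        exact (Real.sqrt_pos.2 (hpos θ)).ne'
    · exact continuous_const.mul continuous_sin.neg
  have hsub := intervalIntegral.integral_comp_mul_deriv (f := fun θ => arccos (q * cos θ))
    (f' := fun θ => -(1 / √(1 - (q * cos θ) ^ 2)) * (q * (-sin θ)))
    (g := fun ψ => U (a / cos ψ)) (a := 0) (b := π / 2) hder hcont
    (hcA.comp continuous_cos)
  have e0 : arccos (q * cos 0) = arccos q := by rw [cos_zero, mul_one]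
  have e1 : arccos (q * cos (π / 2)) = π / 2 := by
    rw [cos_pi_div_two, mul_zero, arccos_zero]
  rw [e0, e1] at hsub
  have hIA : ∀ c d : ℝ, IntervalIntegrable (fun ψ => U (a / cos ψ)) volume c d := fun c d =>
    (hcA.comp continuous_cos).intervalIntegrable c d
  have hIB : ∀ c d : ℝ, IntervalIntegrable (fun ψ => U (b / cos ψ)) volume c d := fun c d =>
    (hcB.comp continuous_cos).intervalIntegrable c d
  have hsplit := intervalIntegral.integral_add_adjacent_intervals (hIA 0 (arccos q))
    (hIA (arccos q) (π / 2))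
  have hz : ∫ ψ in (0 : ℝ)..arccos q, U (a / cos ψ) = 0 := by
    rw [intervalIntegral.integral_congr (g := fun _ => (0 : ℝ))]
    · simp
    intro ψ hψ
    rw [uIcc_of_le (arccos_nonneg q)] at hψ
    apply h1
    have hc : q ≤ cos ψ := by
      have := cos_le_cos_of_nonneg_of_le_pi hψ.1 (arccos_le_pi q) hψ.2
      rwa [cos_arccos (by linarith) hq1.le] at this
    rw [div_le_iff₀ (lt_of_lt_of_le hq0 hc)]
    rw [hq, div_le_iff₀ hb] at hc
    linarith
  have hpi : (0 : ℝ) ≤ π / 2 := by positivity
  calc ∫ ψ in (0 : ℝ)..(π / 2), U (a / cos ψ)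
      = ∫ ψ in arccos q..(π / 2), U (a / cos ψ) := by rw [← hsplit, hz, zero_add]
    _ = ∫ θ in (0 : ℝ)..(π / 2), ((fun ψ => U (a / cos ψ)) ∘ fun θ => arccos (q * cos θ)) θ *
          (-(1 / √(1 - (q * cos θ) ^ 2)) * (q * (-sin θ))) := hsub.symm
    _ ≤ ∫ θ in (0 : ℝ)..(π / 2), U (b / cos θ) := by
      apply intervalIntegral.integral_mono_on hpi
      · apply Continuous.intervalIntegrable
        apply Continuous.mul
        · have : Continuous fun θ : ℝ => U (a / (q * cos θ)) :=
            hcA.comp (continuous_const.mul continuous_cos)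
          refine this.congr ?_
          intro θ
          simp only [Function.comp]
          rw [cos_arccos (hrange θ).1.le (hrange θ).2.le]
        · apply Continuous.mul
          · apply Continuous.neg
            apply Continuous.div continuous_const
            · exact (continuous_const.sub ((continuous_const.mul continuous_cos).pow 2)).sqrt
            · intro θ
              exact (Real.sqrt_pos.2 (hpos θ)).ne'
          · exact continuous_const.mul continuous_sin.neg
      · exact hIB _ _
      · intro θ hθ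
        simp only [Function.comp]
        rw [cos_arccos (hrange θ).1.le (hrange θ).2.le, hbq θ]
        have hs0 : 0 ≤ sin θ := sin_nonneg_of_nonneg_of_le_pi hθ.1 (by linarith [hθ.2, pi_pos])
        have hsq := Real.sqrt_pos.2 (hpos θ)
        have hle : -(1 / √(1 - (q * cos θ) ^ 2)) * (q * (-sin θ)) ≤ 1 := by
          have hh : -(1 / √(1 - (q * cos θ) ^ 2)) * (q * (-sin θ)) =
              q * sin θ / √(1 - (q * cos θ) ^ 2) := by ring
          rw [hh, div_le_one hsq]
          apply Real.le_sqrt_of_sq_le
          have hx : (q * sin θ) ^ 2 + (q * cos θ) ^ 2 = q ^ 2 := by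
            rw [mul_pow, mul_pow, ← mul_add, sin_sq_add_cos_sq, mul_one]
          have hy : q ^ 2 ≤ 1 := by nlinarith
          linarith
        calc U (b / cos θ) * (-(1 / √(1 - (q * cos θ) ^ 2)) * (q * (-sin θ)))
            ≤ U (b / cos θ) * 1 := mul_le_mul_of_nonneg_left hle (hU0 _)
          _ = U (b / cos θ) := mul_one _

end Pool.Agent.SDC
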