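import Pool.Agent.SDC.Targets2

set_option autoImplicit false

open MeasureTheory Set Real
open scoped RealInnerProductSpace

namespace Pool.Agent.SDC

/-- A direction in the level plane of `c` into the interior of the facet `l`. -/
theorem MX2_dir {ι : Type} {n : ι → E3} {h : ι → ℝ} {c v x y : E3} {l : ι}
    (hy : ⟪n l, y⟫ = h l) (hy' : ∀ k, k ≠ l → ⟪n k, y⟫ < h k) (hv : v ∈ Fc n h l)
    (hx : x ∈ Fc n h l) (h0 : ⟪c, x⟫ - ⟪c, v⟫ ≠ 0)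
    (h1 : (⟪c, x⟫ - ⟪c, v⟫) * (⟪c, y⟫ - ⟪c, v⟫) ≤ 0) :
    ∃ d : E3, ⟪c, d⟫ = 0 ∧ ⟪n l, d⟫ = 0 ∧ ∀ m, m ≠ l → ⟪n m, v⟫ = h m → ⟪n m, d⟫ < 0 := by
  set α : ℝ := ⟪c, x⟫ - ⟪c, v⟫ with hα
  set β : ℝ := ⟪c, y⟫ - ⟪c, v⟫ with hβ
  have hsq : 0 < α ^ 2 := by positivity
  have hne : α - β ≠ 0 := by
    intro hc
    have : α = β := by linarith
    rw [← this] at h1
    nlinarith
  have hp2 : 0 < (α - β) ^ 2 := by positivity
  have hs0 : 0 < α / (α - β) := by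
    have : α / (α - β) = α * (α - β) / (α - β) ^ 2 := by
      field_simp
    rw [this]
    apply div_pos _ hp2
    nlinarith
  have hs1 : α / (α - β) ≤ 1 := by
    have : 1 - α / (α - β) = (- β * (α - β)) / (α - β) ^ 2 := by
      field_simp
      ring
    have h2 : 0 ≤ (- β * (α - β)) / (α - β) ^ 2 := by
      apply div_nonneg _ hp2.le
      nlinarith [sq_nonneg β]
    linarith
  set s : ℝ := α / (α - β) with hs
  refine ⟨x + s • (y - x) - v, ?_, ?_, ?_⟩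
  · rw [inner_sub_right, inner_add_right, inner_smul_right, inner_sub_right]
    have h3 : ⟪c, x⟫ = α + ⟪c, v⟫ := by rw [hα]; ring
    have h4 : ⟪c, y⟫ = β + ⟪c, v⟫ := by rw [hβ]; ring
    rw [h3, h4, hs]
    field_simp
    ring
  · rw [inner_sub_right, inner_add_right, inner_smul_right, inner_sub_right, hy, hx.2, hv.2]
    ring
  · intro m hm hmv
    rw [inner_sub_right, inner_add_right, inner_smul_right, inner_sub_right, hmv]
    have h3 := hy' m hm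
    have h4 : ⟪n m, x⟫ ≤ h m := hx.1 m
    nlinarith

/-- A direction in the level plane of `c` into the interior of a mixed facet `l`. -/
theorem MX2_mix {ι : Type} {n : ι → E3} {h : ι → ℝ} {c v : E3} {l : ι} (hI : Irr n h)
    (hv : v ∈ Fc n h l) (h1 : ∃ x ∈ Fc n h l, ⟪c, x⟫ < ⟪c, v⟫)
    (h2 : ∃ x ∈ Fc n h l, ⟪c, v⟫ < ⟪c, x⟫) :
    ∃ d : E3, ⟪c, d⟫ = 0 ∧ ⟪n l, d⟫ = 0 ∧ ∀ m, m ≠ l → ⟪n m, v⟫ = h m → ⟪n m, d⟫ < 0 := by
  obtain ⟨y, hy, hy'⟩ := hI l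
  rcases le_total ⟪c, v⟫ ⟪c, y⟫ with hc | hc
  · obtain ⟨x, hx, hxc⟩ := h1
    exact MX2_dir hy hy' hv hx (by
      intro h0
      linarith) (by nlinarith)
  · obtain ⟨x, hx, hxc⟩ := h2
    exact MX2_dir hy hy' hv hx (by
      intro h0
      linarith) (by nlinarith)

/-- MX2. -/
theorem p_MX2 (hL3 : T_L3) : T_MX2 := by
  intro ι n h c hI i j k hij hik hjk v hvi hvj hvk hm
  obtain ⟨hi1, hi2⟩ := hm i (Or.inl rfl)
  obtain ⟨hj1, hj2⟩ := hm j (Or.inr (Or.inl rfl))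
  obtain ⟨hk1, hk2⟩ := hm k (Or.inr (Or.inr rfl))
  obtain ⟨d1, a1, b1, c1⟩ := MX2_mix hI hvi hi1 hi2
  obtain ⟨d2, a2, b2, c2⟩ := MX2_mix hI hvj hj1 hj2
  obtain ⟨d3, a3, b3, c3⟩ := MX2_mix hI hvk hk1 hk2
  have hc0 : c ≠ 0 := by
    rintro rfl
    obtain ⟨x, -, hx⟩ := hi1
    simp at hx
  exact hL3 c (n i) (n j) (n k) d1 d2 d3 hc0 a1 a2 a3 b1 b2 b3 (c1 j hij.symm hvj.2)
    (c1 k hik.symm hvk.2) (c2 i hij hvi.2) (c2 k hjk.symm hvk.2) (c3 i hik hvi.2) (c3 j hjk hvj.2)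

end Pool.Agent.SDC
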