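import Pool.Agent.SDC.Targets

set_option autoImplicit false

/-!
# SDC: OM and IDN
-/

open MeasureTheory Set Real
open scoped RealInnerProductSpace

namespace Pool.Agent.SDC

theorem OM_cos {ψ : ℝ} (h : ψ ∈ uIcc (0 : ℝ) (π / 5)) : 0 < cos ψ := by
  rw [uIcc_of_le (by positivity)] at h
  apply cos_pos_of_mem_Ioo
  constructor
  · linarith [h.1, Real.pi_pos]
  · linarith [h.2, Real.pi_pos]

theorem OM_W (ψ : ℝ) : 0 < W0 - sin ψ ^ 2 := by
  have h1 := W0_lo
  have h2 := sin_sq_le_one ψ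
  linarith

theorem OM_inv {ψ : ℝ} (h : 0 < cos ψ) :
    1 / cc (a0 / cos ψ) = cos ψ / √(W0 - sin ψ ^ 2) := by
  have h1 : cc (a0 / cos ψ) = √(W0 - sin ψ ^ 2) / cos ψ := by
    have h2 : 1 + (a0 / cos ψ) ^ 2 = (W0 - sin ψ ^ 2) / cos ψ ^ 2 := by
      rw [W0_eq]
      field_simp
      linarith [sin_sq_add_cos_sq ψ]
    rw [cc, h2, Real.sqrt_div (OM_W ψ).le, Real.sqrt_sq h.le]
  rw [h1, one_div_div]

theorem OM_deriv (ψ : ℝ) :
    HasDerivAt (fun x => arcsin (sin x / √W0)) (cos ψ / √(W0 - sin ψ ^ 2)) ψ := by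
  have hW : 0 < W0 := by linarith [W0_lo]
  have hs : 0 < √W0 := Real.sqrt_pos.mpr hW
  have hq : (sin ψ / √W0) ^ 2 < 1 := by
    rw [div_pow, Real.sq_sqrt hW.le, div_lt_one hW]
    linarith [OM_W ψ]
  have h1 : HasDerivAt (fun x => sin x / √W0) (cos ψ / √W0) ψ := (hasDerivAt_sin ψ).div_const _
  have h2 : HasDerivAt arcsin (1 / √(1 - (sin ψ / √W0) ^ 2)) (sin ψ / √W0) := by
    apply hasDerivAt_arcsin
    · intro h
      rw [h] at hq
      norm_num at hq
    · intro h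
      rw [h] at hq
      norm_num at hq
  have h3 := h2.comp ψ h1
  have h4 : 1 / √(1 - (sin ψ / √W0) ^ 2) * (cos ψ / √W0) = cos ψ / √(W0 - sin ψ ^ 2) := by
    have h5 : 1 - (sin ψ / √W0) ^ 2 = (W0 - sin ψ ^ 2) / W0 := by
      rw [div_pow, Real.sq_sqrt hW.le]
      field_simp
    rw [h5, Real.sqrt_div (OM_W ψ).le]
    have h6 : 0 < √(W0 - sin ψ ^ 2) := Real.sqrt_pos.mpr (OM_W ψ)
    field_simp
  rw [h4] at h3
  exact h3

theorem OM_half : sin (π / 5) / √W0 = 1 / 2 := by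
  have hW : 0 < W0 := by linarith [W0_lo]
  have hs : 0 < √W0 := Real.sqrt_pos.mpr hW
  have hp : 0 < sin (π / 5) := sin_pos_of_pos_of_lt_pi (by positivity) (by linarith [Real.pi_pos])
  have h1 : (sin (π / 5) / √W0) ^ 2 = (1 / 2) ^ 2 := by
    rw [div_pow, Real.sq_sqrt hW.le, div_eq_iff hW.ne']
    have h2 := sin_sq_add_cos_sq (π / 5)
    rw [cos36_eq] at h2
    rw [W0]
    nlinarith [s5_sq]
  exact (pow_left_inj₀ (by positivity) (by positivity) (by norm_num)).mp h1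

theorem OM_cont : Continuous fun ψ : ℝ => cos ψ / √(W0 - sin ψ ^ 2) := by
  apply Continuous.div continuous_cos
  · fun_prop
  · intro ψ
    exact (Real.sqrt_pos.mpr (OM_W ψ)).ne'

theorem OM_ii : IntervalIntegrable (fun ψ => 1 / cc (a0 / cos ψ)) volume 0 (π / 5) := by
  apply ContinuousOn.intervalIntegrable
  apply OM_cont.continuousOn.congr
  intro ψ hψ
  exact OM_inv (OM_cos hψ)

theorem OM_int : ∫ ψ in (0 : ℝ)..(π / 5), 1 / cc (a0 / cos ψ) = π / 6 := by
  have h1 : ∫ ψ in (0 : ℝ)..(π / 5), 1 / cc (a0 / cos ψ) =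
      ∫ ψ in (0 : ℝ)..(π / 5), cos ψ / √(W0 - sin ψ ^ 2) :=
    intervalIntegral.integral_congr fun ψ hψ => OM_inv (OM_cos hψ)
  rw [h1, intervalIntegral.integral_eq_sub_of_hasDerivAt (fun ψ _ => OM_deriv ψ)
    (OM_cont.intervalIntegrable _ _), OM_half, sin_zero, zero_div, arcsin_zero, sub_zero,
    ← sin_pi_div_six, arcsin_sin (by linarith [Real.pi_pos]) (by linarith [Real.pi_pos])]

theorem p_OM : T_OM := by
  unfold T_OM
  rw [intervalIntegral.integral_sub intervalIntegrable_const OM_ii, OM_int,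
    intervalIntegral.integral_const, smul_eq_mul]
  ring

theorem OM_sq_cont : ContinuousOn (fun ψ => (a0 / cos ψ) ^ 2 / 2) (uIcc (0 : ℝ) (π / 5)) := by
  apply ContinuousOn.div_const
  apply ContinuousOn.pow
  exact continuousOn_const.div continuous_cos.continuousOn fun ψ hψ => (OM_cos hψ).ne'

theorem OM_Bf_cont (hBF : T_BF) {t : ℝ} (ht : 0 < t) :
    ContinuousOn (fun ψ => Bf t (cc (a0 / cos ψ))) (uIcc (0 : ℝ) (π / 5)) := by
  have h1 : ContinuousOn (Bf t) (Ioi 0) := fun c hc =>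
    (hBF.2.1 t c ht hc).continuousAt.continuousWithinAt
  have h2 : ContinuousOn (fun ψ => cc (a0 / cos ψ)) (uIcc (0 : ℝ) (π / 5)) := by
    unfold cc
    apply ContinuousOn.sqrt
    apply continuousOn_const.add
    apply ContinuousOn.pow
    exact continuousOn_const.div continuous_cos.continuousOn fun ψ hψ => (OM_cos hψ).ne'
  exact h1.comp h2 fun ψ _ => cc_pos _

theorem OM_den : 0 < ∫ ψ in (0 : ℝ)..(π / 5), (a0 / cos ψ) ^ 2 / 2 := by
  apply intervalIntegral.intervalIntegral_pos_of_pos_on OM_sq_cont.intervalIntegrable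
  · intro ψ hψ
    have h1 : 0 < cos ψ := OM_cos (by
      rw [uIcc_of_le (by positivity)]
      exact Ioo_subset_Icc_self hψ)
    have h2 := a0_pos
    positivity
  · positivity

theorem p_IDN (hHCL : T_HCL) (hOM : T_OM) (hBF : T_BF) : T_IDN := by
  intro t ht _
  have ht0 : 0 < t := by linarith
  have hB1 : Bf t 1 = 0 := by
    unfold Bf
    rw [if_pos ht]
  have hH : ∀ ψ ∈ uIcc (0 : ℝ) (π / 5),
      H t (kap t) (bet t) 1 (a0 / cos ψ) - alp t =
        Bf t (cc (a0 / cos ψ)) - kap t * ((a0 / cos ψ) ^ 2 / 2) -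
          bet t * (1 - 1 / cc (a0 / cos ψ)) - alp t := by
    intro ψ hψ
    have h1 : 0 ≤ a0 / cos ψ := div_nonneg a0_pos.le (OM_cos hψ).le
    rw [hHCL.2 t (kap t) (bet t) 1 (a0 / cos ψ) ht0 one_pos h1, div_one, hB1]
    ring
  have i1 : IntervalIntegrable (fun ψ => Bf t (cc (a0 / cos ψ))) volume 0 (π / 5) :=
    (OM_Bf_cont hBF ht0).intervalIntegrable
  have i2 : IntervalIntegrable (fun ψ => kap t * ((a0 / cos ψ) ^ 2 / 2)) volume 0 (π / 5) :=
    OM_sq_cont.intervalIntegrable.const_mul _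
  have i3 : IntervalIntegrable (fun ψ => bet t * (1 - 1 / cc (a0 / cos ψ))) volume 0 (π / 5) :=
    (intervalIntegrable_const.sub OM_ii).const_mul _
  have hK : kap t * (∫ ψ in (0 : ℝ)..(π / 5), (a0 / cos ψ) ^ 2 / 2) =
      ∫ ψ in (0 : ℝ)..(π / 5), Bf t (cc (a0 / cos ψ)) := by
    unfold kap
    exact div_mul_cancel₀ _ OM_den.ne'
  have hJ : J0 t = - bet t * (π / 30) - alp t * (π / 5) := by
    unfold J0
    rw [intervalIntegral.integral_congr hH, intervalIntegral.integral_sub ((i1.sub i2).sub i3)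
      intervalIntegrable_const, intervalIntegral.integral_sub (i1.sub i2) i3,
      intervalIntegral.integral_sub i1 i2, intervalIntegral.integral_const_mul,
      intervalIntegral.integral_const_mul, hK, hOM, intervalIntegral.integral_const, smul_eq_mul]
    ring
  rw [hJ]
  ring

end Pool.Agent.SDC
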