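import Pool.Agent.SDC.Targets2

set_option autoImplicit false

/-!
# SDC: target ONB, existence of frames
-/

open scoped RealInnerProductSpace

namespace Pool.Agent.SDC

/-- ONB. -/
theorem p_ONB : T_ONB := by
  intro n hn
  have hv : Orthonormal ℝ (({0} : Set (Fin 3)).restrict fun _ => n) := by
    refine ⟨fun i => hn, fun i j hij => absurd (Subtype.ext ?_) hij⟩
    rw [Set.mem_singleton_iff.mp i.2, Set.mem_singleton_iff.mp j.2]
  obtain ⟨b, hb⟩ := hv.exists_orthonormalBasis_extension_of_card_eq (by simp)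
  have h0 : b 0 = n := hb 0 rfl
  have ho := b.orthonormal
  refine ⟨b 1, b 2, hn, ho.1 1, ho.1 2, ?_, ?_, ho.2 (by decide)⟩
  · rw [← h0]
    exact ho.2 (by decide)
  · rw [← h0]
    exact ho.2 (by decide)

end Pool.Agent.SDC
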