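import Pool.Agent.SDC.Targets2

set_option autoImplicit false

/-!
# SDC, target PAR: the partition of the space into the cones
-/

open MeasureTheory Set Real
open scoped RealInnerProductSpace

namespace Pool.Agent.SDC

theorem PAR_meas_Cinf {ι : Type} [Fintype ι] (n : ι → E3) (h : ι → ℝ) (ϱ : ℝ) :
    MeasurableSet (Cinf n h ϱ) := by
  have : Cinf n h ϱ = ⋂ i, {x : E3 | ϱ * ⟪n i, x⟫ ≤ h i * ‖x‖} := by
    ext x
    simp [Cinf]
  rw [this]
  refine MeasurableSet.iInter fun i => ?_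
  exact (isClosed_le (by fun_prop) (by fun_prop)).measurableSet

theorem PAR_meas_CR {ι : Type} [Fintype ι] (n : ι → E3) (h : ι → ℝ) (ϱ : ℝ) (i : ι) :
    MeasurableSet (CR n h ϱ i) := by
  have : CR n h ϱ i = {x : E3 | 0 < ⟪n i, x⟫} ∩
      (⋂ j, {x : E3 | h i * ⟪n j, x⟫ ≤ h j * ⟪n i, x⟫}) ∩
      {x : E3 | h i * ‖x‖ < ϱ * ⟪n i, x⟫} := by
    ext x
    simp [CR, Cn]
  rw [this]
  refine MeasurableSet.inter (MeasurableSet.inter ?_ ?_) ?_
  · exact (isOpen_lt (by fun_prop) (by fun_prop)).measurableSet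
  · refine MeasurableSet.iInter fun j => ?_
    exact (isClosed_le (by fun_prop) (by fun_prop)).measurableSet
  · exact (isOpen_lt (by fun_prop) (by fun_prop)).measurableSet

/-- The complement of `Cinf` is covered by the cones. -/
theorem PAR_cover {ι : Type} [Fintype ι] (n : ι → E3) (h : ι → ℝ) (ϱ : ℝ)
    (hh : ∀ i, 0 < h i) (hϱ : 0 < ϱ) (A : Set E3) :
    A \ Cinf n h ϱ = ⋃ i, (A ∩ CR n h ϱ i) := by
  ext x
  simp only [mem_diff, mem_iUnion, mem_inter_iff]
  constructor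
  · rintro ⟨hA, hx⟩
    simp only [Cinf, mem_setOf_eq, not_forall, not_le] at hx
    obtain ⟨i0, hi0⟩ := hx
    haveI : Nonempty ι := ⟨i0⟩
    obtain ⟨i, hi⟩ := Finite.exists_max fun i => ⟪n i, x⟫ / h i
    have h0 : ‖x‖ / ϱ < ⟪n i0, x⟫ / h i0 := by
      rw [div_lt_div_iff₀ hϱ (hh i0)]
      linarith
    have h1 : ‖x‖ / ϱ < ⟪n i, x⟫ / h i := lt_of_lt_of_le h0 (hi i0)
    have h2 : 0 < ⟪n i, x⟫ / h i := lt_of_le_of_lt (by positivity) h1
    have h3 : 0 < ⟪n i, x⟫ := by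
      have := mul_pos h2 (hh i)
      rwa [div_mul_cancel₀ _ (hh i).ne'] at this
    refine ⟨i, hA, ⟨h3, fun j => ?_⟩, ?_⟩
    · have := hi j
      rw [div_le_div_iff₀ (hh j) (hh i)] at this
      linarith
    · rw [div_lt_div_iff₀ hϱ (hh i)] at h1
      linarith
  · rintro ⟨i, hA, -, hx⟩
    refine ⟨hA, fun hc => ?_⟩
    have := hc i
    linarith

/-- Different cones have an intersection of measure zero. -/
theorem PAR_null {ι : Type} [Fintype ι] (n : ι → E3) (h : ι → ℝ) (ϱ : ℝ)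
    (hn : ∀ i, ‖n i‖ = 1) (hh : ∀ i, 0 < h i) (hinj : Function.Injective n) {i j : ι}
    (hij : i ≠ j) : volume (CR n h ϱ i ∩ CR n h ϱ j) = 0 := by
  set v : E3 := h i • n j - h j • n i with hv
  have hv0 : v ≠ 0 := by
    intro h0
    have h1 : h i • n j = h j • n i := sub_eq_zero.1 h0
    have h2 : ‖h i • n j‖ = ‖h j • n i‖ := by rw [h1]
    rw [norm_smul, norm_smul, hn, hn, mul_one, mul_one, Real.norm_of_nonneg (hh i).le,
      Real.norm_of_nonneg (hh j).le] at h2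
    rw [h2] at h1
    exact hij (hinj (smul_right_injective E3 (hh j).ne' h1).symm)
  have hsub : CR n h ϱ i ∩ CR n h ϱ j ⊆ ((ℝ ∙ v)ᗮ : Submodule ℝ E3) := by
    rintro x ⟨⟨⟨-, h1⟩, -⟩, ⟨⟨-, h2⟩, -⟩⟩
    have e1 := h1 j
    have e2 := h2 i
    rw [SetLike.mem_coe, Submodule.mem_orthogonal_singleton_iff_inner_right, hv, inner_sub_left,
      inner_smul_left, inner_smul_left]
    simp only [conj_trivial]
    linarith
  refine measure_mono_null hsub (Measure.addHaar_submodule volume _ ?_)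
  intro htop
  have : v ∈ ((ℝ ∙ v)ᗮ : Submodule ℝ E3) := by rw [htop]; trivial
  rw [Submodule.mem_orthogonal_singleton_iff_inner_right] at this
  exact hv0 (inner_self_eq_zero.1 this)

theorem p_PAR : T_PAR := by
  intro ι _ n h ϱ A hn hh hinj hϱ hA
  rw [← measure_inter_add_diff A (PAR_meas_Cinf n h ϱ), PAR_cover n h ϱ hh hϱ A]
  congr 1
  have hd : Pairwise (Function.onFun (AEDisjoint volume) fun i => A ∩ CR n h ϱ i) := by
    intro i j hij
    refine measure_mono_null ?_ (PAR_null n h ϱ hn hh hinj hij)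
    rintro x ⟨⟨-, h1⟩, ⟨-, h2⟩⟩
    exact ⟨h1, h2⟩
  rw [measure_iUnion₀ hd fun i => (hA.inter (PAR_meas_CR n h ϱ i)).nullMeasurableSet,
    tsum_fintype]

end Pool.Agent.SDC
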