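import Pool.Agent.SDC.Targets

set_option autoImplicit false

/-!
# SDC: target PCL, the integral over a side in closed form
-/

open MeasureTheory Set Real

namespace Pool.Agent.SDC

theorem PCL_pos {W : ℝ} (hW : 0 < W) (y : ℝ) : 0 < √(W + y ^ 2) :=
  Real.sqrt_pos.mpr (by positivity)

theorem PCL_der {W : ℝ} (hW : 0 < W) (y : ℝ) :
    HasDerivAt (fun y : ℝ => y / (W * √(W + y ^ 2))) (1 / √(W + y ^ 2) ^ 3) y := by
  have hC := PCL_pos hW y
  have hsq : √(W + y ^ 2) ^ 2 = W + y ^ 2 := Real.sq_sqrt (by positivity)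
  have h1 : HasDerivAt (fun y : ℝ => W + y ^ 2) (2 * y) y := by
    have := (hasDerivAt_pow 2 y).const_add W
    simpa using this
  have h2 : HasDerivAt (fun y : ℝ => √(W + y ^ 2)) (2 * y / (2 * √(W + y ^ 2))) y :=
    h1.sqrt (by positivity)
  have h3 := h2.const_mul W
  have h4 := (hasDerivAt_id' y).div h3 (by positivity)
  refine h4.congr_deriv ?_
  rw [div_eq_div_iff (by positivity) (by positivity)]
  field_simp
  rw [hsq]
  ring

theorem PCL_cont {W : ℝ} (hW : 0 < W) : Continuous fun y : ℝ => 1 / √(W + y ^ 2) ^ 3 := by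
  refine continuous_const.div (by fun_prop) fun y => ?_
  have := PCL_pos hW y
  positivity

theorem PCL_int {W : ℝ} (hW : 0 < W) (u v : ℝ) :
    ∫ y in u..v, 1 / √(W + y ^ 2) ^ 3 = v / (W * √(W + v ^ 2)) - u / (W * √(W + u ^ 2)) :=
  intervalIntegral.integral_eq_sub_of_hasDerivAt (fun y _ => PCL_der hW y)
    ((PCL_cont hW).intervalIntegrable _ _)

theorem PCL_cont2 {W : ℝ} (hW : 0 < W) (t : ℝ) :
    Continuous fun y : ℝ => max (1 - t ^ 3 / √(W + y ^ 2) ^ 3) 0 := by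
  refine (continuous_const.sub (continuous_const.div (by fun_prop) fun y => ?_)).max
    continuous_const
  have := PCL_pos hW y
  positivity

/-- The part with the maximum. -/
theorem PCL_max {W t Y : ℝ} (hW : 0 < W) (ht : 0 < t)
    (hY : √(max (t ^ 2 - W) 0) ≤ Y) :
    ∫ y in (0 : ℝ)..Y, max (1 - t ^ 3 / √(W + y ^ 2) ^ 3) 0 =
      Y - t ^ 3 * (Y / (W * √(W + Y ^ 2))) + √(max (t ^ 2 - W) 0) ^ 3 / W := by
  set Z := √(max (t ^ 2 - W) 0) with hZ
  have hZ0 : 0 ≤ Z := Real.sqrt_nonneg _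
  have hZ2 : Z ^ 2 = max (t ^ 2 - W) 0 := Real.sq_sqrt (le_max_right _ _)
  have c := PCL_cont2 hW t
  rw [← intervalIntegral.integral_add_adjacent_intervals (c.intervalIntegrable 0 Z)
    (c.intervalIntegrable Z Y)]
  have e1 : ∫ y in (0 : ℝ)..Z, max (1 - t ^ 3 / √(W + y ^ 2) ^ 3) 0 = 0 := by
    have : ∫ y in (0 : ℝ)..Z, max (1 - t ^ 3 / √(W + y ^ 2) ^ 3) 0 =
        ∫ y in (0 : ℝ)..Z, (0 : ℝ) := by
      refine intervalIntegral.integral_congr_ae ?_
      filter_upwards with y hy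
      rw [uIoc_of_le hZ0] at hy
      have hC := PCL_pos hW y
      have hZp : 0 < Z := lt_of_lt_of_le hy.1 hy.2
      have hm : max (t ^ 2 - W) 0 = t ^ 2 - W := by
        rcases max_choice (t ^ 2 - W) 0 with h | h
        · exact h
        · rw [h] at hZ2
          exact absurd hZ2 (by positivity)
      have hle : √(W + y ^ 2) ≤ t := by
        rw [Real.sqrt_le_left ht.le]
        have : y ^ 2 ≤ Z ^ 2 := pow_le_pow_left₀ hy.1.le hy.2 2
        rw [hZ2, hm] at this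
        linarith
      have h3 : √(W + y ^ 2) ^ 3 ≤ t ^ 3 := pow_le_pow_left₀ hC.le hle 3
      refine max_eq_right ?_
      rw [sub_nonpos, le_div_iff₀ (by positivity)]
      linarith
    rw [this]
    simp
  have e2 : ∫ y in Z..Y, max (1 - t ^ 3 / √(W + y ^ 2) ^ 3) 0 =
      ∫ y in Z..Y, (1 - t ^ 3 * (1 / √(W + y ^ 2) ^ 3)) := by
    refine intervalIntegral.integral_congr fun y hy => ?_
    rw [uIcc_of_le hY] at hy
    have hC := PCL_pos hW y
    have hle : t ≤ √(W + y ^ 2) := by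
      refine Real.le_sqrt_of_sq_le ?_
      have h1 : Z ^ 2 ≤ y ^ 2 := pow_le_pow_left₀ hZ0 hy.1 2
      have h2 : t ^ 2 - W ≤ max (t ^ 2 - W) 0 := le_max_left _ _
      linarith
    have h3 : t ^ 3 ≤ √(W + y ^ 2) ^ 3 := pow_le_pow_left₀ ht.le hle 3
    show max (1 - t ^ 3 / √(W + y ^ 2) ^ 3) 0 = 1 - t ^ 3 * (1 / √(W + y ^ 2) ^ 3)
    rw [max_eq_left, mul_one_div]
    rw [sub_nonneg, div_le_iff₀ (by positivity)]
    linarith
  have e3 : ∫ y in Z..Y, (1 - t ^ 3 * (1 / √(W + y ^ 2) ^ 3)) =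
      (Y - Z) - t ^ 3 * (Y / (W * √(W + Y ^ 2)) - Z / (W * √(W + Z ^ 2))) := by
    rw [intervalIntegral.integral_sub (by simp)
      (((PCL_cont hW).const_mul _).intervalIntegrable _ _),
      intervalIntegral.integral_const_mul, PCL_int hW]
    simp
  rw [e1, e2, e3, zero_add]
  have key : -Z + t ^ 3 * (Z / (W * √(W + Z ^ 2))) = Z ^ 3 / W := by
    rcases eq_or_lt_of_le hZ0 with h | h
    · rw [← h]; simp
    · have hm : max (t ^ 2 - W) 0 = t ^ 2 - W := by
        rcases max_choice (t ^ 2 - W) 0 with h' | h'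
        · exact h'
        · rw [h'] at hZ2
          exact absurd hZ2 (by positivity)
      have hs : √(W + Z ^ 2) = t := by
        rw [hZ2, hm, add_sub_cancel, Real.sqrt_sq ht.le]
      have hZ3 : Z ^ 3 = Z * (t ^ 2 - W) := by rw [← hm, ← hZ2]; ring
      rw [hs, hZ3]
      field_simp
      ring
  linarith

/-- PCL. -/
theorem p_PCL : T_PCL := by
  intro t κ β a ht htR ha har
  have hW : 0 < 1 + a ^ 2 := by positivity
  have ht0 : 0 < t := by linarith
  have hR := R_pos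
  have hRs := R_sq'
  have hrv := rv_pos
  have hlt : a ^ 2 < rv ^ 2 := pow_lt_pow_left₀ har ha.le (by norm_num)
  have hYp : 0 < √(rv ^ 2 - a ^ 2) := Real.sqrt_pos.mpr (by linarith)
  have hYs : √(rv ^ 2 - a ^ 2) ^ 2 = rv ^ 2 - a ^ 2 := Real.sq_sqrt (by linarith)
  have hYe : √(R ^ 2 - (1 + a ^ 2)) = √(rv ^ 2 - a ^ 2) := by rw [hRs]; congr 1; ring
  have hCY : √(1 + a ^ 2 + √(rv ^ 2 - a ^ 2) ^ 2) = R := by
    rw [hYs, show 1 + a ^ 2 + (rv ^ 2 - a ^ 2) = R ^ 2 by rw [hRs]; ring, Real.sqrt_sq hR.le]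
  have hZY : √(max (t ^ 2 - (1 + a ^ 2)) 0) ≤ √(rv ^ 2 - a ^ 2) := by
    refine Real.sqrt_le_sqrt (max_le ?_ (by linarith))
    have : t ^ 2 ≤ R ^ 2 := pow_le_pow_left₀ ht0.le htR.le 2
    linarith
  have hfun : ∀ y : ℝ, G t κ β 1 √(a ^ 2 + y ^ 2) =
      max (1 - t ^ 3 / √(1 + a ^ 2 + y ^ 2) ^ 3) 0 -
        (κ + β * (1 / √(1 + a ^ 2 + y ^ 2) ^ 3)) := by
    intro y
    have hc : cc √(a ^ 2 + y ^ 2) = √(1 + a ^ 2 + y ^ 2) := by
      rw [cc, Real.sq_sqrt (by positivity), add_assoc]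
    rw [G, hc]
    ring_nf
  simp_rw [hfun]
  have hc1 : Continuous fun y : ℝ => κ + β * (1 / √(1 + a ^ 2 + y ^ 2) ^ 3) :=
    continuous_const.add (continuous_const.mul (PCL_cont hW))
  rw [intervalIntegral.integral_sub ((PCL_cont2 hW t).intervalIntegrable _ _)
    (hc1.intervalIntegrable _ _),
    intervalIntegral.integral_add (by simp) (((PCL_cont hW).const_mul β).intervalIntegrable _ _),
    intervalIntegral.integral_const_mul, PCL_int hW, PCL_max hW ht0 hZY, hCY, gg, hYe]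
  simp only [intervalIntegral.integral_const, smul_eq_mul, sub_zero, zero_div]
  field_simp
  ring

end Pool.Agent.SDC
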