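import Pool.Agent.SDC.Targets2

set_option autoImplicit false

/-!
# PNI: the integral of a radial function over the regular pentagon
-/

open MeasureTheory Set Real

namespace Pool.Agent.SDC

/-- The direction functions. -/
noncomputable def PNI_c (j : ℕ) (ψ : ℝ) : ℝ := cos (ψ + π / 2 - j * (2 * π / 5))

/-- The maximum of the five direction functions. -/
noncomputable def PNI_M (ψ : ℝ) : ℝ :=
  max (PNI_c 0 ψ) (max (PNI_c 1 ψ) (max (PNI_c 2 ψ) (max (PNI_c 3 ψ) (PNI_c 4 ψ))))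

theorem PNI_cont_c (j : ℕ) : Continuous (PNI_c j) := by
  unfold PNI_c
  fun_prop

theorem PNI_cont_M : Continuous PNI_M := by
  unfold PNI_M
  exact (PNI_cont_c 0).max ((PNI_cont_c 1).max ((PNI_cont_c 2).max
    ((PNI_cont_c 3).max (PNI_cont_c 4))))

theorem PNI_le_M (j : ℕ) (hj : j < 5) (ψ : ℝ) : PNI_c j ψ ≤ PNI_M ψ := by
  unfold PNI_M
  interval_cases j <;> simp

theorem PNI_M_le_iff (ψ x : ℝ) : PNI_M ψ ≤ x ↔ ∀ j, j < 5 → PNI_c j ψ ≤ x := by
  constructor
  · intro h j hj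
    exact (PNI_le_M j hj ψ).trans h
  · intro h
    unfold PNI_M
    exact max_le (h 0 (by norm_num)) (max_le (h 1 (by norm_num)) (max_le (h 2 (by norm_num))
      (max_le (h 3 (by norm_num)) (h 4 (by norm_num)))))

theorem PNI_c_succ (j : ℕ) (ψ : ℝ) : PNI_c (j + 1) (ψ + 2 * π / 5) = PNI_c j ψ := by
  unfold PNI_c
  congr 1
  push_cast
  ring

theorem PNI_c_zero (ψ : ℝ) : PNI_c 0 (ψ + 2 * π / 5) = PNI_c 4 ψ := by
  unfold PNI_c
  rw [← cos_sub_two_pi]
  congr 1
  push_cast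
  ring

theorem PNI_per : Function.Periodic PNI_M (2 * π / 5) := by
  intro ψ
  apply le_antisymm
  · rw [PNI_M_le_iff]
    intro j hj
    rcases j with _ | j
    · rw [PNI_c_zero]
      exact PNI_le_M 4 (by norm_num) ψ
    · rw [PNI_c_succ]
      exact PNI_le_M j (by omega) ψ
  · rw [PNI_M_le_iff]
    intro j hj
    by_cases h4 : j = 4
    · subst h4
      rw [← PNI_c_zero]
      exact PNI_le_M 0 (by norm_num) _
    · rw [← PNI_c_succ]
      exact PNI_le_M (j + 1) (by omega) _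

/-- The value of the maximum near the direction of the lowest side. -/
theorem PNI_M_eq (x : ℝ) (hx : |x| ≤ π / 5) : PNI_M (x - π / 2) = cos x := by
  have hpi := Real.pi_pos
  rw [abs_le] at hx
  apply le_antisymm
  · rw [PNI_M_le_iff]
    intro j hj
    have h1 : PNI_c j (x - π / 2) = cos (x - j * (2 * π / 5)) := by
      unfold PNI_c
      congr 1
      ring
    rw [h1]
    by_cases hj0 : j = 0
    · subst hj0
      simp
    · have hj1 : (1 : ℝ) ≤ j := by
        have : 1 ≤ j := Nat.one_le_iff_ne_zero.mpr hj0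
        exact_mod_cast this
      have hj4 : (j : ℝ) ≤ 4 := by
        have : j ≤ 4 := by omega
        exact_mod_cast this
      have h2 : cos x - cos (x - j * (2 * π / 5)) =
          2 * (sin (j * (π / 5) - x) * sin (j * (π / 5))) := by
        rw [cos_sub_cos]
        have e1 : (x + (x - j * (2 * π / 5))) / 2 = -(j * (π / 5) - x) := by ring
        have e2 : (x - (x - j * (2 * π / 5))) / 2 = j * (π / 5) := by ring
        rw [e1, e2, sin_neg]
        ring
      have h3 : 0 ≤ sin (j * (π / 5) - x) :=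
        sin_nonneg_of_nonneg_of_le_pi (by nlinarith) (by nlinarith)
      have h4 : 0 ≤ sin (j * (π / 5)) :=
        sin_nonneg_of_nonneg_of_le_pi (by positivity) (by nlinarith)
      have h5 := mul_nonneg h3 h4
      linarith
  · have h := PNI_le_M 0 (by norm_num) (x - π / 2)
    have h1 : PNI_c 0 (x - π / 2) = cos x := by
      unfold PNI_c
      congr 1
      push_cast
      ring
    rwa [h1] at h

/-- The maximum is at least the cosine of 36 degrees. -/
theorem PNI_M_ge (ψ : ℝ) : cos (π / 5) ≤ PNI_M ψ := by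
  have hpi := Real.pi_pos
  obtain ⟨m, hm⟩ : ∃ m : ℤ, |ψ + π / 2 - m * (2 * π / 5)| ≤ π / 5 := by
    refine ⟨round ((ψ + π / 2) / (2 * π / 5)), ?_⟩
    have h := abs_sub_round ((ψ + π / 2) / (2 * π / 5))
    have e : ψ + π / 2 - round ((ψ + π / 2) / (2 * π / 5)) * (2 * π / 5) =
        ((ψ + π / 2) / (2 * π / 5) - round ((ψ + π / 2) / (2 * π / 5))) * (2 * π / 5) := by
      field_simp
    rw [e, abs_mul, abs_of_pos (show (0 : ℝ) < 2 * π / 5 by positivity)]
    nlinarith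
  have h1 : PNI_M ψ = PNI_M (ψ - m * (2 * π / 5)) := (PNI_per.sub_int_mul_eq m).symm
  have h2 : ψ - m * (2 * π / 5) = (ψ + π / 2 - m * (2 * π / 5)) - π / 2 := by ring
  rw [h1, h2, PNI_M_eq _ hm]
  rw [← cos_abs (ψ + π / 2 - m * (2 * π / 5))]
  exact cos_le_cos_of_nonneg_of_le_pi (abs_nonneg _) (by linarith) hm

theorem PNI_cos_pos : 0 < cos (π / 5) := by
  rw [cos36_eq]
  positivity

theorem PNI_M_pos (ψ : ℝ) : 0 < PNI_M ψ := PNI_cos_pos.trans_le (PNI_M_ge ψ)

/-- The pentagon in polar coordinates. -/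
theorem PNI_mem (r ψ : ℝ) (hr : 0 ≤ r) :
    ((r * cos ψ, r * sin ψ) : ℝ × ℝ) ∈ Pen ↔ r * PNI_M ψ ≤ a0 := by
  have key : ∀ k : ℕ, r * cos ψ * cos (- (π / 2) + k * (2 * π / 5)) +
      r * sin ψ * sin (- (π / 2) + k * (2 * π / 5)) = r * PNI_c k ψ := by
    intro k
    have e : ψ + π / 2 - k * (2 * π / 5) = ψ - (- (π / 2) + k * (2 * π / 5)) := by ring
    unfold PNI_c
    rw [e, cos_sub]
    ring
  constructor
  · intro h
    rcases hr.eq_or_lt with h0 | h0
    · rw [← h0, zero_mul]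
      exact a0_pos.le
    · rw [← le_div_iff₀' h0, PNI_M_le_iff]
      intro j hj
      rw [le_div_iff₀' h0, ← key]
      exact h ⟨j, hj⟩
  · intro h k
    have h1 := key k
    have h2 := PNI_le_M k k.2 ψ
    have h3 : r * PNI_c k ψ ≤ r * PNI_M ψ := mul_le_mul_of_nonneg_left h2 hr
    exact (h1.le.trans h3).trans h

theorem PNI_nr (r ψ : ℝ) (hr : 0 ≤ r) : nr (r * cos ψ, r * sin ψ) = r := by
  unfold nr
  have e : (r * cos ψ) ^ 2 + (r * sin ψ) ^ 2 = r ^ 2 := by
    have := sin_sq_add_cos_sq ψ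
    nlinarith
  simp only [e]
  exact Real.sqrt_sq hr

theorem PNI_le_rv (r ψ : ℝ) (h : r * PNI_M ψ ≤ a0) (hr : 0 ≤ r) : r ≤ rv := by
  have h1 : r * cos (π / 5) ≤ a0 := (mul_le_mul_of_nonneg_left (PNI_M_ge ψ) hr).trans h
  rw [← a0_div_cos, le_div_iff₀ PNI_cos_pos]
  exact h1

theorem PNI_bdd : Bornology.IsBounded Pen := by
  refine (Metric.isBounded_closedBall (x := (0 : ℝ × ℝ)) (r := rv)).subset ?_
  intro w hw
  have h1 : ‖(⟨w.1, w.2⟩ : ℂ)‖ * cos (Complex.arg ⟨w.1, w.2⟩) = w.1 := by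
    rw [Complex.norm_mul_cos_arg]
  have h2 : ‖(⟨w.1, w.2⟩ : ℂ)‖ * sin (Complex.arg ⟨w.1, w.2⟩) = w.2 := by
    rw [Complex.norm_mul_sin_arg]
  have hw' := (PNI_mem ‖(⟨w.1, w.2⟩ : ℂ)‖ (Complex.arg ⟨w.1, w.2⟩) (norm_nonneg _)).mp
    (by rw [h1, h2]; exact hw)
  have h3 := PNI_le_rv _ _ hw' (norm_nonneg _)
  rw [mem_closedBall_zero_iff, Prod.norm_def]
  refine max_le ?_ ?_
  · rw [Real.norm_eq_abs]
    exact (Complex.abs_re_le_norm ⟨w.1, w.2⟩).trans h3
  · rw [Real.norm_eq_abs]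
    exact (Complex.abs_im_le_norm ⟨w.1, w.2⟩).trans h3

theorem PNI_meas : MeasurableSet Pen := by
  have h : IsClosed Pen := by
    have e : Pen = ⋂ k : Fin 5, {w : ℝ × ℝ | w.1 * cos (- (π / 2) + k * (2 * π / 5)) +
        w.2 * sin (- (π / 2) + k * (2 * π / 5)) ≤ a0} := by
      ext w
      simp [Pen]
    rw [e]
    refine isClosed_iInter fun k => isClosed_le (by fun_prop) continuous_const
  exact h.measurableSet

/-- The set of the polar coordinates. -/
def PNI_A : Set (ℝ × ℝ) := {p | p.1 * PNI_M p.2 ≤ a0}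

theorem PNI_A_closed : IsClosed PNI_A :=
  isClosed_le (continuous_fst.mul (PNI_cont_M.comp continuous_snd)) continuous_const

theorem PNI_int_on (g : ℝ → ℝ) (hg : Continuous g) :
    IntegrableOn (PNI_A.indicator (fun p : ℝ × ℝ => g p.1 * p.1))
      (Ioi (0 : ℝ) ×ˢ Ioo (-π) π) (volume.prod volume) := by
  rw [IntegrableOn, integrable_indicator_iff PNI_A_closed.measurableSet, IntegrableOn,
    Measure.restrict_restrict PNI_A_closed.measurableSet]
  have hc : Continuous (fun p : ℝ × ℝ => g p.1 * p.1) := by fun_prop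
  have hK : IsCompact (Icc (0 : ℝ) rv ×ˢ Icc (-π) π) := isCompact_Icc.prod isCompact_Icc
  have h1 : IntegrableOn (fun p : ℝ × ℝ => g p.1 * p.1) (Icc (0 : ℝ) rv ×ˢ Icc (-π) π)
      (volume.prod volume) := hc.continuousOn.integrableOn_compact hK
  refine IntegrableOn.mono_set h1 ?_
  rintro ⟨r, ψ⟩ ⟨h2, h3⟩
  simp only [mem_prod, mem_Ioi, mem_Ioo] at h3
  have h2 : r * PNI_M ψ ≤ a0 := h2
  exact ⟨⟨h3.1.le, PNI_le_rv r ψ h2 h3.1.le⟩, ⟨h3.2.1.le, h3.2.2.le⟩⟩

/-- The integral in polar coordinates. -/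
theorem PNI_polar (g : ℝ → ℝ) (hg : Continuous g) : ∫ w in Pen, g (nr w) =
    ∫ ψ in (-π)..π, ∫ s in (0 : ℝ)..(a0 / PNI_M ψ), g s * s := by
  rw [← integral_indicator PNI_meas, ← integral_comp_polarCoord_symm]
  have e1 : ∫ p in polarCoord.target, p.1 • Pen.indicator (fun w => g (nr w))
      (polarCoord.symm p) = ∫ p in Ioi (0 : ℝ) ×ˢ Ioo (-π) π,
        PNI_A.indicator (fun p : ℝ × ℝ => g p.1 * p.1) p := by
    rw [polarCoord_target]
    refine setIntegral_congr_fun (measurableSet_Ioi.prod measurableSet_Ioo) ?_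
    rintro ⟨r, ψ⟩ hp
    simp only [mem_prod, mem_Ioi, mem_Ioo] at hp
    have hs : polarCoord.symm (r, ψ) = (r * cos ψ, r * sin ψ) := rfl
    simp only [hs, smul_eq_mul]
    by_cases h : r * PNI_M ψ ≤ a0
    · have h1 : ((r * cos ψ, r * sin ψ) : ℝ × ℝ) ∈ Pen := (PNI_mem r ψ hp.1.le).mpr h
      have h2 : ((r, ψ) : ℝ × ℝ) ∈ PNI_A := h
      rw [indicator_of_mem h1, indicator_of_mem h2, PNI_nr r ψ hp.1.le]
      ring
    · have h1 : ((r * cos ψ, r * sin ψ) : ℝ × ℝ) ∉ Pen := fun hh =>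
        h ((PNI_mem r ψ hp.1.le).mp hh)
      have h2 : ((r, ψ) : ℝ × ℝ) ∉ PNI_A := h
      rw [indicator_of_notMem h1, indicator_of_notMem h2, mul_zero]
  rw [e1, Measure.volume_eq_prod, ← setIntegral_prod_swap]
  have hint := PNI_int_on g hg
  rw [setIntegral_prod]
  · have e2 : ∀ ψ : ℝ, ∫ r in Ioi (0 : ℝ),
        PNI_A.indicator (fun p : ℝ × ℝ => g p.1 * p.1) (Prod.swap (ψ, r)) =
        ∫ s in (0 : ℝ)..(a0 / PNI_M ψ), g s * s := by
      intro ψ
      have hM := PNI_M_pos ψ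
      have e3 : ∀ r : ℝ, PNI_A.indicator (fun p : ℝ × ℝ => g p.1 * p.1) (Prod.swap (ψ, r)) =
          (Iic (a0 / PNI_M ψ)).indicator (fun s => g s * s) r := by
        intro r
        by_cases h : r * PNI_M ψ ≤ a0
        · have h1 : Prod.swap (ψ, r) ∈ PNI_A := h
          have h2 : r ∈ Iic (a0 / PNI_M ψ) := (le_div_iff₀ hM).mpr h
          rw [indicator_of_mem h1, indicator_of_mem h2]
          rfl
        · have h1 : Prod.swap (ψ, r) ∉ PNI_A := h
          have h2 : r ∉ Iic (a0 / PNI_M ψ) := fun hh => h ((le_div_iff₀ hM).mp hh)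
          rw [indicator_of_notMem h1, indicator_of_notMem h2]
      simp only [e3]
      rw [setIntegral_indicator measurableSet_Iic, Ioi_inter_Iic,
        intervalIntegral.integral_of_le (div_nonneg a0_pos.le hM.le)]
    simp only [e2]
    rw [intervalIntegral.integral_of_le (by linarith [Real.pi_pos]), integral_Ioc_eq_integral_Ioo]
  · exact hint.swap

theorem PNI_cont_F (g : ℝ → ℝ) (hg : Continuous g) :
    Continuous fun ψ : ℝ => ∫ s in (0 : ℝ)..(a0 / PNI_M ψ), g s * s := by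
  have h1 : Continuous fun x : ℝ => ∫ s in (0 : ℝ)..x, g s * s := by
    refine intervalIntegral.continuous_primitive (fun a b => ?_) 0
    exact (hg.mul continuous_id).intervalIntegrable a b
  exact h1.comp (continuous_const.div PNI_cont_M fun ψ => (PNI_M_pos ψ).ne')

theorem p_PNI : T_PNI := by
  intro g hg
  refine ⟨PNI_bdd, PNI_meas, ?_⟩
  rw [PNI_polar g hg]
  set F : ℝ → ℝ := fun ψ => ∫ s in (0 : ℝ)..(a0 / PNI_M ψ), g s * s with hF
  have hFc : Continuous F := PNI_cont_F g hg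
  have hper : Function.Periodic F (2 * π / 5) := by
    intro ψ
    simp only [hF]
    rw [PNI_per ψ]
  have hint : ∀ a b, IntervalIntegrable F volume a b := fun a b => hFc.intervalIntegrable a b
  have e1 : ∫ ψ in (-π)..π, F ψ = 5 * ∫ ψ in (-π)..(-π + 2 * π / 5), F ψ := by
    have h := hper.intervalIntegral_add_zsmul_eq 5 (-π) hint
    have e : -π + (5 : ℤ) • (2 * π / 5) = π := by
      rw [zsmul_eq_mul]
      push_cast
      ring
    rw [e, zsmul_eq_mul] at h
    rw [h]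
    norm_num
  have e2 : ∫ ψ in (-π)..(-π + 2 * π / 5), F ψ =
      ∫ ψ in (-(π / 5) - π / 2)..(-(π / 5) - π / 2 + 2 * π / 5), F ψ :=
    hper.intervalIntegral_add_eq _ _
  have e3 : ∫ ψ in (-(π / 5) - π / 2)..(-(π / 5) - π / 2 + 2 * π / 5), F ψ =
      ∫ x in (-(π / 5))..(π / 5), F (x - π / 2) := by
    rw [intervalIntegral.integral_comp_sub_right]
    congr 1
    ring
  have hpi := Real.pi_pos
  have e4 : ∀ x ∈ Icc (-(π / 5)) (π / 5), F (x - π / 2) =
      ∫ s in (0 : ℝ)..(a0 / cos x), g s * s := by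
    intro x hx
    simp only [hF]
    rw [PNI_M_eq x (abs_le.mpr hx)]
  have e5 : ∫ x in (-(π / 5))..(π / 5), F (x - π / 2) =
      (∫ x in (-(π / 5))..(0 : ℝ), F (x - π / 2)) + ∫ x in (0 : ℝ)..(π / 5), F (x - π / 2) := by
    have hc : Continuous fun x => F (x - π / 2) := hFc.comp (continuous_id.sub continuous_const)
    exact (intervalIntegral.integral_add_adjacent_intervals (hc.intervalIntegrable _ _)
      (hc.intervalIntegrable _ _)).symm
  have e6 : ∫ x in (0 : ℝ)..(π / 5), F (x - π / 2) =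
      ∫ ψ in (0 : ℝ)..(π / 5), ∫ s in (0 : ℝ)..(a0 / cos ψ), g s * s := by
    refine intervalIntegral.integral_congr ?_
    intro x hx
    rw [uIcc_of_le (by positivity)] at hx
    exact e4 x ⟨by linarith [hx.1], hx.2⟩
  have e7 : ∫ x in (-(π / 5))..(0 : ℝ), F (x - π / 2) =
      ∫ ψ in (0 : ℝ)..(π / 5), ∫ s in (0 : ℝ)..(a0 / cos ψ), g s * s := by
    have h := intervalIntegral.integral_comp_neg (a := 0) (b := π / 5)
      (fun x => F (x - π / 2))
    rw [neg_zero] at h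
    rw [← h]
    refine intervalIntegral.integral_congr ?_
    intro x hx
    rw [uIcc_of_le (by positivity)] at hx
    have h1 := e4 (-x) ⟨by linarith [hx.2], by linarith [hx.1]⟩
    rw [cos_neg] at h1
    exact h1
  rw [e1, e2, e3, e5, e6, e7]
  ring

end Pool.Agent.SDC
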