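import Pool.Agent.SDC.Targets

/-!
# SDC, part A: the sign of the integral over a side (PSG)
-/

set_option autoImplicit false

open MeasureTheory Set Real
open scoped RealInnerProductSpace

namespace Pool.Agent.SDC

/-- The integral over a side as a multiple of a difference of values of `gg`. -/
theorem PSG_aux (hPCL : T_PCL) (t a : ℝ) (ht : 1 ≤ t) (htR : t < R) (ha : 0 < a) (har : a < rv) :
    ∫ y in (0 : ℝ)..√(rv ^ 2 - a ^ 2), G t (kap t) (bet t) 1 √(a ^ 2 + y ^ 2) =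
      √(rv ^ 2 - a ^ 2) / ((1 + a ^ 2) * R) *
        (R * (gg t (kap t) (1 + a ^ 2) - gg t (kap t) W0)) := by
  rw [hPCL t (kap t) (bet t) a ht htR ha har, bet]
  ring

theorem p_PSG (hKAP : T_KAP) (hKB : T_KB) (hGMN : T_GMN) (hPCL : T_PCL) : T_PSG := by
  intro t ht htR
  have hmono : MonotoneOn (gg t (kap t)) (Ico 1 (R ^ 2)) :=
    hGMN t (kap t) ht htR ((hKAP t ht htR).2.trans (hKB t ht htR))
  have hW0 : W0 ∈ Ico (1 : ℝ) (R ^ 2) := ⟨by linarith [W0_lo], W0_lt⟩
  have hmem : ∀ a : ℝ, 0 < a → a < rv → 1 + a ^ 2 ∈ Ico (1 : ℝ) (R ^ 2) := by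
    intro a ha har
    refine ⟨by nlinarith [sq_nonneg a], ?_⟩
    rw [R_sq']
    nlinarith [rv_pos]
  have hc : ∀ a : ℝ, 0 ≤ √(rv ^ 2 - a ^ 2) / ((1 + a ^ 2) * R) := by
    intro a
    have h1 := R_pos
    positivity
  refine ⟨fun a ha haa => ?_, fun a haa har => ?_⟩
  · have har : a < rv := lt_of_le_of_lt haa a0_lt_rv
    rw [PSG_aux hPCL t a ht htR ha har]
    have h2 : gg t (kap t) (1 + a ^ 2) ≤ gg t (kap t) W0 := by
      refine hmono (hmem a ha har) hW0 ?_
      rw [W0_eq]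
      nlinarith [a0_pos]
    refine mul_nonpos_of_nonneg_of_nonpos (hc a) ?_
    exact mul_nonpos_of_nonneg_of_nonpos R_pos.le (by linarith)
  · have ha : 0 < a := lt_of_lt_of_le a0_pos haa
    rw [PSG_aux hPCL t a ht htR ha har]
    have h2 : gg t (kap t) W0 ≤ gg t (kap t) (1 + a ^ 2) := by
      refine hmono hW0 (hmem a ha har) ?_
      rw [W0_eq]
      nlinarith [a0_pos]
    exact mul_nonneg (hc a) (mul_nonneg R_pos.le (by linarith))

end Pool.Agent.SDC
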