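import Pool.Agent.SDC.Targets2

set_option autoImplicit false

/-!
# SDC, target SDA: the sum of the numbers of sides
-/

open MeasureTheory Set Real
open scoped RealInnerProductSpace

namespace Pool.Agent.SDC

theorem SDA_clP {ι : Type} (n : ι → E3) (h : ι → ℝ) : IsClosed (Poly n h) := by
  have h1 : Poly n h = ⋂ i, {x : E3 | ⟪n i, x⟫ ≤ h i} := by
    ext x
    simp [Poly]
  rw [h1]
  exact isClosed_iInter fun i => isClosed_le (continuous_const.inner continuous_id)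
    continuous_const

theorem SDA_clF {ι : Type} (n : ι → E3) (h : ι → ℝ) (i : ι) : IsClosed (Fc n h i) := by
  have h1 : Fc n h i = Poly n h ∩ {x : E3 | ⟪n i, x⟫ = h i} := rfl
  rw [h1]
  exact (SDA_clP n h).inter (isClosed_eq (continuous_const.inner continuous_id)
    continuous_const)

/-- The lowest point of a side. -/
theorem SDA_low {ι : Type} (n : ι → E3) (h : ι → ℝ) (c : E3)
    (hb : ∀ s : ℝ, Bornology.IsBounded {x | x ∈ Poly n h ∧ ⟪c, x⟫ ≤ s}) (i j : ι)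
    (hA : Adj n h i j) :
    ∃ v, v ∈ Fc n h i ∧ v ∈ Fc n h j ∧ ∀ x ∈ Fc n h i ∩ Fc n h j, ⟪c, v⟫ ≤ ⟪c, x⟫ := by
  obtain ⟨-, x0, hi, hj, hk⟩ := hA
  have hP : x0 ∈ Poly n h := by
    intro k
    by_cases h1 : k = i
    · rw [h1, hi]
    · by_cases h2 : k = j
      · rw [h2, hj]
      · exact (hk k h1 h2).le
  have hcl : IsClosed ((Fc n h i ∩ Fc n h j) ∩ {x : E3 | ⟪c, x⟫ ≤ ⟪c, x0⟫}) :=
    ((SDA_clF n h i).inter (SDA_clF n h j)).inter
      (isClosed_le (continuous_const.inner continuous_id) continuous_const)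
  have hbd : Bornology.IsBounded ((Fc n h i ∩ Fc n h j) ∩ {x : E3 | ⟪c, x⟫ ≤ ⟪c, x0⟫}) := by
    refine (hb ⟪c, x0⟫).subset ?_
    intro x hx
    exact ⟨hx.1.1.1, hx.2⟩
  have hco := Metric.isCompact_of_isClosed_isBounded hcl hbd
  have hx0 : x0 ∈ (Fc n h i ∩ Fc n h j) ∩ {x : E3 | ⟪c, x⟫ ≤ ⟪c, x0⟫} :=
    ⟨⟨⟨hP, hi⟩, ⟨hP, hj⟩⟩, le_refl ⟪c, x0⟫⟩
  obtain ⟨v, hv, hm⟩ := hco.exists_isMinOn ⟨x0, hx0⟩
    (f := fun x : E3 => ⟪c, x⟫) (continuous_const.inner continuous_id).continuousOn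
  refine ⟨v, hv.1.1, hv.1.2, ?_⟩
  intro x hx
  by_cases h1 : ⟪c, x⟫ ≤ ⟪c, x0⟫
  · exact hm ⟨hx, h1⟩
  · exact hv.2.trans (not_le.1 h1).le

/-- A higher point of the facet. -/
theorem SDA_up {ι : Type} [Fintype ι] (n : ι → E3) (h : ι → ℝ) (c : E3) (hc : Gen n c) (i j : ι)
    (hA : Adj n h i j) : ∃ x0 ∈ Fc n h i ∩ Fc n h j, ∃ x ∈ Fc n h i, ⟪c, x0⟫ < ⟪c, x⟫ := by
  obtain ⟨-, x0, hi, hj, hk⟩ := hA
  have hP : x0 ∈ Poly n h := by
    intro k
    by_cases h1 : k = i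
    · rw [h1, hi]
    · by_cases h2 : k = j
      · rw [h2, hj]
      · exact (hk k h1 h2).le
  obtain ⟨u, hui, huj, huc⟩ : ∃ u, ⟪n i, u⟫ = 0 ∧ ⟪n j, u⟫ = 0 ∧ 0 < ⟪c, u⟫ := by
    obtain ⟨u, h1, h2, h3⟩ := hc i j
    rcases lt_or_gt_of_ne h3 with h4 | h4
    · refine ⟨-u, ?_, ?_, ?_⟩
      · rw [inner_neg_right, h1, neg_zero]
      · rw [inner_neg_right, h2, neg_zero]
      · rw [inner_neg_right]
        linarith
    · exact ⟨u, h1, h2, h4⟩
  have hev : ∀ᶠ ε : ℝ in nhdsWithin 0 (Set.Ioi 0), ∀ k, k ≠ i → k ≠ j →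
      ⟪n k, x0 + ε • u⟫ < h k := by
    refine Filter.Eventually.filter_mono nhdsWithin_le_nhds (Filter.eventually_all.2 ?_)
    intro k
    by_cases h1 : k = i
    · exact Filter.Eventually.of_forall fun ε h2 => absurd h1 h2
    · by_cases h2 : k = j
      · exact Filter.Eventually.of_forall fun ε _ h3 => absurd h2 h3
      · have h3 : Continuous fun ε : ℝ => ⟪n k, x0 + ε • u⟫ :=
          continuous_const.inner (continuous_const.add (continuous_id.smul continuous_const))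
        have h4 : ∀ᶠ ε : ℝ in nhds 0, ⟪n k, x0 + ε • u⟫ < h k := by
          apply (h3.tendsto 0).eventually_lt_const
          rw [zero_smul, add_zero]
          exact hk k h1 h2
        exact h4.mono fun ε h5 _ _ => h5
  obtain ⟨ε, h1, h2⟩ := (hev.and self_mem_nhdsWithin).exists
  have hε : 0 < ε := h2
  refine ⟨x0, ⟨⟨hP, hi⟩, ⟨hP, hj⟩⟩, x0 + ε • u, ⟨?_, ?_⟩, ?_⟩
  · intro k
    by_cases h3 : k = i
    · rw [h3, inner_add_right, inner_smul_right, hui, mul_zero, add_zero, hi]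
    · by_cases h4 : k = j
      · rw [h4, inner_add_right, inner_smul_right, huj, mul_zero, add_zero, hj]
      · exact (h1 k h3 h4).le
  · rw [inner_add_right, inner_smul_right, hui, mul_zero, add_zero, hi]
  · rw [inner_add_right, inner_smul_right]
    have := mul_pos hε huc
    linarith

/-- At least three facets. -/
theorem SDA_three {ι : Type} [Fintype ι] (n : ι → E3) (hs : ∀ x, (∀ i, ⟪n i, x⟫ = 0) → x = 0) :
    3 ≤ Fintype.card ι := by
  let f : E3 →ₗ[ℝ] (ι → ℝ) := LinearMap.pi fun i => (innerSL ℝ (n i)).toLinearMap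
  have hf : Function.Injective f := by
    rw [injective_iff_map_eq_zero]
    intro x hx
    apply hs
    intro i
    exact congrFun hx i
  have h1 := LinearMap.finrank_le_finrank_of_injective hf
  rw [finrank_euclideanSpace_fin, Module.finrank_fintype_fun_eq_card] at h1
  exact h1

/-- Target SDA. -/
theorem p_SDA (hSD2 : T_SD2) (hMX2 : T_MX2) (hLOW : T_LOW) (hTRI : T_TRI) (hUNQ : T_UNQ)
    (hSLC : T_SLC) (hGEN : T_GEN) (hCNT : T_CNT) : T_SDA := by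
  intro ι _ n h hn hI hs
  obtain ⟨c, hc, hb'⟩ := hGEN ι n hs
  have hb := hb' h
  have hex : ∀ i j, ∃ v, Adj n h i j → (v ∈ Fc n h i ∧ v ∈ Fc n h j ∧
      ∀ x ∈ Fc n h i ∩ Fc n h j, ⟪c, v⟫ ≤ ⟪c, x⟫) := by
    intro i j
    by_cases hA : Adj n h i j
    · obtain ⟨v, hv⟩ := SDA_low n h c hb i j hA
      exact ⟨v, fun _ => hv⟩
    · exact ⟨0, fun h1 => absurd h1 hA⟩
  choose low hlow using hex
  have hcm : Gen n (-c) := by
    intro i j
    obtain ⟨u, h1, h2, h3⟩ := hc i j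
    refine ⟨u, h1, h2, ?_⟩
    rw [inner_neg_left]
    exact neg_ne_zero.2 h3
  refine hCNT ι E3 (Adj n h) low (Fc n h) (fun x => ⟪c, x⟫) ?_ ?_ ?_ ?_ ?_ ?_ ?_ ?_
    (SDA_three n hs)
  · intro i j hA
    obtain ⟨h1, h2, h3⟩ := hlow i j hA
    refine ⟨h1, ?_⟩
    obtain ⟨x0, hx0, x, hx, h4⟩ := SDA_up n h c hc i j hA
    exact ⟨x, hx, (h3 x0 hx0).trans_lt h4⟩
  · intro i v
    by_contra hlt
    rw [not_le, Set.two_lt_ncard] at hlt
    obtain ⟨j, ⟨hj, ej⟩, k, ⟨hk, ek⟩, l, ⟨hl, el⟩, hjk, hjl, hkl⟩ := hlt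
    have h1 := hlow i j hj
    have h2 := hlow i k hk
    have h3 := hlow i l hl
    rw [ej] at h1
    rw [ek] at h2
    rw [el] at h3
    exact hSD2 ι n h hn i j k l hjk hjl hkl hj hk hl v h1.1.2 h1.2.1.2 h2.2.1.2 h3.2.1.2
  · intro i v hx
    by_contra hlt
    rw [not_le, Set.one_lt_ncard] at hlt
    obtain ⟨j, ⟨hj, ej⟩, k, ⟨hk, ek⟩, hjk⟩ := hlt
    have h1 := hlow i j hj
    have h2 := hlow i k hk
    rw [ej] at h1
    rw [ek] at h2
    obtain ⟨x, hx1, hx2⟩ := hx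
    have h3 := hLOW ι n h c hn i j k hjk hj hk v h1.1 h1.2.1 h2.2.1 h1.2.2 h2.2.2 x hx1
    exact absurd hx2 (not_lt.2 h3)
  · intro v
    by_contra hlt
    rw [not_le, Set.two_lt_ncard] at hlt
    obtain ⟨i, hi, j, hj, k, hk, hij, hik, hjk⟩ := hlt
    refine hMX2 ι n h c hI i j k hij hik hjk v hi.1 hj.1 hk.1 ?_
    rintro l (rfl | rfl | rfl)
    · exact hi.2
    · exact hj.2
    · exact hk.2
  · intro i j hA p r
    obtain ⟨h1, h2, h3⟩ := hlow i j hA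
    refine hTRI ι n h c hc (low i j) h1.1 ?_ p r
    intro x hx ht
    exact h3 x ⟨⟨hx, ht i h1.2⟩, ⟨hx, ht j h2.2⟩⟩
  · intro i v hv v' hv' h1 h2
    exact hUNQ ι n h c hc hI i v hv v' hv' h1 h2
  · intro i v hv v' hv' h1 h2
    refine hUNQ ι n h (-c) hcm hI i v hv v' hv' ?_ ?_
    · intro x hx
      rw [inner_neg_left, inner_neg_left]
      exact neg_le_neg (h1 x hx)
    · intro x hx
      rw [inner_neg_left, inner_neg_left]
      exact neg_le_neg (h2 x hx)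
  · intro l x hx i j
    exact hSLC ι n h c hb x hx.1 i j

end Pool.Agent.SDC
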