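import Pool.Agent.SDC.Targets2

set_option autoImplicit false

/-!
# SDC, target SDB: all normals orthogonal to a vector, at most two sides
-/

open MeasureTheory Set Real
open scoped RealInnerProductSpace

namespace Pool.Agent.SDC

/-- A nonzero vector orthogonal to two given vectors. -/
theorem SDB_dir (a b : E3) : ∃ d : E3, d ≠ 0 ∧ ⟪a, d⟫ = 0 ∧ ⟪b, d⟫ = 0 := by
  let f : E3 →ₗ[ℝ] ℝ × ℝ := (innerₛₗ ℝ a).prod (innerₛₗ ℝ b)
  have hk : LinearMap.ker f ≠ ⊥ := by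
    apply LinearMap.ker_ne_bot_of_finrank_lt
    simp
  obtain ⟨d, hd, hd0⟩ := Submodule.exists_mem_ne_zero_of_ne_bot hk
  have hd1 : f d = 0 := hd
  exact ⟨d, hd0, congrArg Prod.fst hd1, congrArg Prod.snd hd1⟩

/-- A vector orthogonal to three nonzero pairwise orthogonal vectors is zero. -/
theorem SDB_zero (a b c w : E3) (ha : a ≠ 0) (hb : b ≠ 0) (hc : c ≠ 0) (hab : ⟪a, b⟫ = 0)
    (hac : ⟪a, c⟫ = 0) (hbc : ⟪b, c⟫ = 0) (haw : ⟪a, w⟫ = 0) (hbw : ⟪b, w⟫ = 0)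
    (hcw : ⟪c, w⟫ = 0) : w = 0 := by
  by_contra hw
  have hba : ⟪b, a⟫ = 0 := by rw [real_inner_comm]; exact hab
  have hca : ⟪c, a⟫ = 0 := by rw [real_inner_comm]; exact hac
  have hcb : ⟪c, b⟫ = 0 := by rw [real_inner_comm]; exact hbc
  have hwa : ⟪w, a⟫ = 0 := by rw [real_inner_comm]; exact haw
  have hwb : ⟪w, b⟫ = 0 := by rw [real_inner_comm]; exact hbw
  have hwc : ⟪w, c⟫ = 0 := by rw [real_inner_comm]; exact hcw
  have hli : LinearIndependent ℝ (![a, b, c, w] : Fin 4 → E3) := by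
    apply linearIndependent_of_ne_zero_of_inner_eq_zero
    · intro i
      fin_cases i
      · exact ha
      · exact hb
      · exact hc
      · exact hw
    · intro i j hij
      fin_cases i <;> fin_cases j <;> first
        | exact absurd rfl hij
        | assumption
  have h4 := hli.fintype_card_le_finrank
  simp at h4

/-- In the plane spanned by `e` and `u`, up to `u`. -/
theorem SDB_par (m u e a b : E3) (hm : m ≠ 0) (hu : u ≠ 0) (he : e ≠ 0) (hmu : ⟪m, u⟫ = 0)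
    (hme : ⟪m, e⟫ = 0) (hue : ⟪u, e⟫ = 0) (hab : ⟪m, a⟫ = ⟪m, b⟫) (q : E3) (hq : ⟪q, u⟫ = 0) :
    (⟪q, a⟫ - ⟪q, b⟫) * ⟪e, e⟫ = (⟪e, a⟫ - ⟪e, b⟫) * ⟪q, e⟫ := by
  have hee : ⟪e, e⟫ ≠ 0 := fun h => he (inner_self_eq_zero.mp h)
  have huu : ⟪u, u⟫ ≠ 0 := fun h => hu (inner_self_eq_zero.mp h)
  have heu : ⟪e, u⟫ = 0 := by rw [real_inner_comm]; exact hue
  have hw : (a - b) - (⟪e, a - b⟫ / ⟪e, e⟫) • e - (⟪u, a - b⟫ / ⟪u, u⟫) • u = 0 := by
    apply SDB_zero m u e _ hm hu he hmu hme hue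
    · rw [inner_sub_right, inner_sub_right, inner_smul_right, inner_smul_right, hme, hmu,
        inner_sub_right, hab]
      ring
    · rw [inner_sub_right, inner_sub_right, inner_smul_right, inner_smul_right, hue,
        div_mul_cancel₀ _ huu]
      ring
    · rw [inner_sub_right, inner_sub_right, inner_smul_right, inner_smul_right, heu,
        div_mul_cancel₀ _ hee]
      ring
  have h1 : ⟪q, (a - b) - (⟪e, a - b⟫ / ⟪e, e⟫) • e - (⟪u, a - b⟫ / ⟪u, u⟫) • u⟫ = 0 := by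
    rw [hw, inner_zero_right]
  rw [inner_sub_right, inner_sub_right, inner_smul_right, inner_smul_right, hq, mul_zero,
    sub_zero, inner_sub_right, inner_sub_right] at h1
  field_simp at h1
  linarith

/-- The middle one of three sides cannot exist. -/
theorem SDB_mid {ι : Type} (n : ι → E3) (h : ι → ℝ) (u e : E3) (i j k l : ι) (hn : n i ≠ 0)
    (hu : u ≠ 0) (he : e ≠ 0) (hnu : ∀ m, ⟪n m, u⟫ = 0) (hie : ⟪n i, e⟫ = 0) (hue : ⟪u, e⟫ = 0)
    (hik : k ≠ i) (hjk : k ≠ j) (hkl : k ≠ l) (x y z : E3) (hxi : ⟪n i, x⟫ = h i)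
    (hyi : ⟪n i, y⟫ = h i) (hzi : ⟪n i, z⟫ = h i) (hyk : ⟪n k, y⟫ = h k)
    (hx : ∀ m, m ≠ i → m ≠ j → ⟪n m, x⟫ < h m) (hz : ∀ m, m ≠ i → m ≠ l → ⟪n m, z⟫ < h m)
    (h1 : ⟪e, x⟫ ≤ ⟪e, y⟫) (h2 : ⟪e, y⟫ ≤ ⟪e, z⟫) : False := by
  have hee : 0 < ⟪e, e⟫ := real_inner_self_pos.mpr he
  have p1 := SDB_par (n i) u e y x hn hu he (hnu i) hie hue (by rw [hyi, hxi]) (n k) (hnu k)
  have p2 := SDB_par (n i) u e z y hn hu he (hnu i) hie hue (by rw [hzi, hyi]) (n k) (hnu k)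
  have q1 := hx k hik hjk
  have q2 := hz k hik hkl
  rw [hyk] at p1 p2
  have r1 : 0 < (h k - ⟪n k, x⟫) * ⟪e, e⟫ := mul_pos (by linarith) hee
  have r2 : (⟪n k, z⟫ - h k) * ⟪e, e⟫ < 0 := mul_neg_of_neg_of_pos (by linarith) hee
  rw [p1] at r1
  rw [p2] at r2
  have hA : 0 ≤ ⟪e, y⟫ - ⟪e, x⟫ := by linarith
  have hB : 0 ≤ ⟪e, z⟫ - ⟪e, y⟫ := by linarith
  have ht : 0 < ⟪n k, e⟫ := by
    by_contra hcon
    push Not at hcon
    linarith [mul_nonpos_of_nonneg_of_nonpos hA hcon]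
  linarith [mul_nonneg hB ht.le]

theorem p_SDB : T_SDB := by
  intro ι _ n h hn hu i
  classical
  obtain ⟨u, hu0, hnu⟩ := hu
  by_contra hcon
  push Not at hcon
  obtain ⟨j, k, l, hj, hk, hl, hjk, hjl, hkl⟩ := (Set.two_lt_ncard_iff (Set.toFinite _)).mp hcon
  obtain ⟨hij, x, hxi, hxj, hx⟩ := hj
  obtain ⟨hik, y, hyi, hyk, hy⟩ := hk
  obtain ⟨hil, z, hzi, hzl, hz⟩ := hl
  have hni : n i ≠ 0 := by
    intro h0
    have := hn i
    rw [h0, norm_zero] at this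
    exact zero_ne_one this
  obtain ⟨e, he, hie, hue⟩ := SDB_dir (n i) u
  have key := SDB_mid n h u e
  rcases le_total ⟪e, x⟫ ⟪e, y⟫ with h1 | h1
  · rcases le_total ⟪e, y⟫ ⟪e, z⟫ with h2 | h2
    · exact key i j k l hni hu0 he hnu hie hue hik.symm hjk.symm hkl x y z hxi hyi hzi hyk hx hz
        h1 h2
    · rcases le_total ⟪e, x⟫ ⟪e, z⟫ with h3 | h3
      · exact key i j l k hni hu0 he hnu hie hue hil.symm hjl.symm hkl.symm x z y hxi hzi hyi hzl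
          hx hy h3 h2
      · exact key i l j k hni hu0 he hnu hie hue hij.symm hjl hjk z x y hzi hxi hyi hxj hz hy
          h3 h1
  · rcases le_total ⟪e, x⟫ ⟪e, z⟫ with h2 | h2
    · exact key i k j l hni hu0 he hnu hie hue hij.symm hjk hjl y x z hyi hxi hzi hxj hy hz h1 h2
    · rcases le_total ⟪e, y⟫ ⟪e, z⟫ with h3 | h3
      · exact key i k l j hni hu0 he hnu hie hue hil.symm hkl.symm hjl.symm y z x hyi hzi hxi hzl
          hy hx h3 h2
      · exact key i l k j hni hu0 he hnu hie hue hik.symm hkl hjk.symm z y x hzi hyi hxi hyk hz hx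
          h3 h1

end Pool.Agent.SDC
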