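import Pool.Agent.SDC.Targets

set_option autoImplicit false

/-!
# SDC: the target T_SGN (one change of sign) and T_KB (bound of `κ`)
-/

open MeasureTheory Set Real
open scoped RealInnerProductSpace

namespace Pool.Agent.SDC

theorem SGN_cc {r r' : ℝ} (h0 : 0 ≤ r) (h : r ≤ r') : cc r ≤ cc r' := by
  unfold cc
  apply Real.sqrt_le_sqrt
  nlinarith

theorem p_SGN : T_SGN := by
  intro t κ β h r r' ht hh hκ hβ hr hrr hG
  have hc := SGN_cc hr hrr
  have hc3 : cc r ^ 3 ≤ cc r' ^ 3 := pow_le_pow_left₀ (cc_pos r).le hc 3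
  have hp : 0 < cc r ^ 3 := pow_pos (cc_pos r) 3
  have h1 : t ^ 3 / cc r' ^ 3 ≤ t ^ 3 / cc r ^ 3 :=
    div_le_div_of_nonneg_left (pow_pos ht 3).le hp hc3
  have h2 : β / cc r' ^ 3 ≤ β / cc r ^ 3 := div_le_div_of_nonneg_left hβ hp hc3
  have h3 : max (h ^ 3 - t ^ 3 / cc r ^ 3) 0 ≤ max (h ^ 3 - t ^ 3 / cc r' ^ 3) 0 :=
    max_le_max (by linarith) le_rfl
  unfold G at hG ⊢
  linarith

theorem p_KB : T_KB := by
  intro t ht1 htR
  have hrv := rv_pos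
  have hR := R_pos
  have hR2 := R_sq'
  have hlo := R_lo
  have hhi := R_hi
  set q : ℝ := √(t ^ 2 - 1) / rv with hq
  have hs0 : 0 ≤ t ^ 2 - 1 := by nlinarith
  have hq0 : 0 ≤ q := div_nonneg (Real.sqrt_nonneg _) hrv.le
  have hqv : q ^ 2 * rv ^ 2 = t ^ 2 - 1 := by
    rw [hq, div_pow, div_mul_cancel₀ _ (pow_ne_zero 2 hrv.ne'), Real.sq_sqrt hs0]
  have hv : 0 < rv ^ 2 := pow_pos hrv 2
  have htt : t ^ 2 < R ^ 2 := by nlinarith
  have hq1 : q ≤ 1 := by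
    by_contra hcon
    push Not at hcon
    have : (1 : ℝ) < q ^ 2 := by nlinarith
    nlinarith
  have hB : Bf t R = (R - t) ^ 2 * (R + 2 * t) / (2 * R) := by
    unfold Bf
    rw [if_neg (not_le.mpr htR)]
  have hkey : (R - t) * (R + t) = rv ^ 2 * (1 - q ^ 2) := by nlinarith
  have hRt : 0 < R + t := by linarith
  have hRt' : R - t = rv ^ 2 * (1 - q ^ 2) / (R + t) := by
    rw [eq_div_iff hRt.ne']
    exact hkey
  have e1 : 2 * Bf t R / rv ^ 2 =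
      (1 - q) ^ 2 * (rv ^ 2 * (1 + q) ^ 2 * (R + 2 * t) / (R * (R + t) ^ 2)) := by
    rw [hB, hRt']
    field_simp
    ring
  rw [e1, show (1 - q) ^ 2 * (2 + q) / 2 = (1 - q) ^ 2 * ((2 + q) / 2) by ring]
  apply mul_le_mul_of_nonneg_left _ (sq_nonneg _)
  rw [div_le_div_iff₀ (by positivity) (by norm_num)]
  have hv2 : rv ^ 2 = (R - 1) * (R + 1) := by nlinarith
  have a1 : rv ^ 2 * (1 + q) ^ 2 * (R + 2 * t) ≤ rv ^ 2 * (1 + q) ^ 2 * (3 * R) := by
    apply mul_le_mul_of_nonneg_left (by linarith) (by positivity)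
  have a2 : (2 + q) * (R * (R + 1) ^ 2) ≤ (2 + q) * (R * (R + t) ^ 2) := by
    apply mul_le_mul_of_nonneg_left _ (by linarith)
    apply mul_le_mul_of_nonneg_left _ hR.le
    apply pow_le_pow_left₀ (by linarith) (by linarith)
  have a3 : (1 + q) ^ 2 ≤ 2 * (1 + q) := by nlinarith
  have a4 : 6 * (R - 1) * (1 + q) ^ 2 ≤ (2 + q) * (R + 1) := by
    have : 6 * (R - 1) * (1 + q) ^ 2 ≤ 6 * (R - 1) * (2 * (1 + q)) :=
      mul_le_mul_of_nonneg_left a3 (by linarith)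
    nlinarith
  have a5 : rv ^ 2 * (1 + q) ^ 2 * (3 * R) * 2 ≤ (2 + q) * (R * (R + 1) ^ 2) := by
    have h6 : 0 ≤ R * (R + 1) := by positivity
    have h7 := mul_le_mul_of_nonneg_left a4 h6
    rw [hv2]
    nlinarith
  linarith

end Pool.Agent.SDC
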