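import Pool.Agent.SDC.Targets2

set_option autoImplicit false

open MeasureTheory Set Real
open scoped RealInnerProductSpace

namespace Pool.Agent.SDC

theorem p_SID (hA : T_SDA) (hB : T_SDB) : T_SID := by
  intro ι _ n h hn hI hc
  by_cases hs : ∀ x, (∀ i, ⟪n i, x⟫ = 0) → x = 0
  · have h1 := hA ι n h hn hI hs
    omega
  · push Not at hs
    obtain ⟨u, hu1, hu2⟩ := hs
    have h1 : ∑ i, {j | Adj n h i j}.ncard ≤ ∑ _i : ι, 2 :=
      Finset.sum_le_sum fun i _ => hB ι n h hn ⟨u, hu2, hu1⟩ i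
    simp only [Finset.sum_const, Finset.card_univ, smul_eq_mul] at h1
    omega

theorem p_MA2 (h1 : T_MA1) (h2 : T_IRR) : T_MA2 := by
  intro ι _ n h hn hh hc t ht htR
  obtain ⟨s, hs1, hs2⟩ := h2 ι n h (fun i => lt_of_lt_of_le one_pos (hh i))
  classical
  have h3 := h1 s (fun i : s => n i) (fun i : s => h i) (fun i => hn i) (fun i => hh i) hs2
    ((Fintype.card_subtype_le _).trans hc) t ht htR
  rwa [hs1] at h3

end Pool.Agent.SDC
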