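import Pool.Agent.SDC.Targets2

set_option autoImplicit false

/-!
# SDC, target SLC: every slice meets three facets
-/

open MeasureTheory Set Real
open scoped RealInnerProductSpace

namespace Pool.Agent.SDC

/-- A nonzero vector orthogonal to two given vectors, on the good side of a third one. -/
theorem SLC_dir (a b c : E3) : ∃ d : E3, d ≠ 0 ∧ ⟪a, d⟫ = 0 ∧ ⟪b, d⟫ = 0 ∧ ⟪c, d⟫ ≤ 0 := by
  let f : E3 →ₗ[ℝ] ℝ × ℝ := (innerₛₗ ℝ a).prod (innerₛₗ ℝ b)
  have hk : LinearMap.ker f ≠ ⊥ := by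
    apply LinearMap.ker_ne_bot_of_finrank_lt
    simp
  obtain ⟨d, hd, hd0⟩ := Submodule.exists_mem_ne_zero_of_ne_bot hk
  have hd1 : f d = 0 := hd
  have ha : ⟪a, d⟫ = 0 := congrArg Prod.fst hd1
  have hb : ⟪b, d⟫ = 0 := congrArg Prod.snd hd1
  rcases le_total ⟪c, d⟫ 0 with hc | hc
  · exact ⟨d, hd0, ha, hb, hc⟩
  · refine ⟨-d, neg_ne_zero.mpr hd0, ?_, ?_, ?_⟩
    · rw [inner_neg_right, ha, neg_zero]
    · rw [inner_neg_right, hb, neg_zero]
    · rw [inner_neg_right]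
      linarith

/-- A half line in a set with bounded sublevel sets leaves the polyhedron. -/
theorem SLC_pos {ι : Type} (n : ι → E3) (h : ι → ℝ) (c x d : E3)
    (hB : Bornology.IsBounded {y | y ∈ Poly n h ∧ ⟪c, y⟫ ≤ ⟪c, x⟫}) (hx : x ∈ Poly n h)
    (hd : d ≠ 0) (hc : ⟪c, d⟫ = 0) : ∃ k, 0 < ⟪n k, d⟫ := by
  by_contra hcon
  push Not at hcon
  obtain ⟨C, hC⟩ := hB.exists_norm_le
  have hdn : 0 < ‖d‖ := norm_pos_iff.mpr hd
  have hxC : 0 ≤ C + ‖x‖ := by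
    have := hC x ⟨hx, le_rfl⟩
    linarith [norm_nonneg x]
  have hs : 0 ≤ (C + ‖x‖ + 1) / ‖d‖ := by positivity
  set s : ℝ := (C + ‖x‖ + 1) / ‖d‖ with hsdef
  have h1 : ‖x + s • d‖ ≤ C := by
    apply hC
    constructor
    · intro k
      rw [inner_add_right, inner_smul_right]
      have := hx k
      have h2 : s * ⟪n k, d⟫ ≤ 0 := mul_nonpos_of_nonneg_of_nonpos hs (hcon k)
      linarith
    · rw [inner_add_right, inner_smul_right, hc]
      simp
  have h2 : ‖s • d‖ ≤ ‖x + s • d‖ + ‖x‖ := by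
    have := norm_sub_le (x + s • d) x
    simpa using this
  rw [norm_smul, Real.norm_of_nonneg hs] at h2
  have h3 : s * ‖d‖ = C + ‖x‖ + 1 := by
    rw [hsdef]
    field_simp
  linarith

theorem p_SLC : T_SLC := by
  intro ι _ n h c hB x hx i j
  classical
  obtain ⟨d, hd, hc, hi, hj⟩ := SLC_dir c (n i) (n j)
  obtain ⟨k0, hk0⟩ := SLC_pos n h c x d (hB _) hx hd hc
  let K : Finset ι := Finset.univ.filter fun k => 0 < ⟪n k, d⟫
  have hK : K.Nonempty := ⟨k0, by simp [K, hk0]⟩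
  obtain ⟨k, hkK, hmin⟩ := Finset.exists_min_image K (fun k => (h k - ⟪n k, x⟫) / ⟪n k, d⟫) hK
  have hk : 0 < ⟪n k, d⟫ := (Finset.mem_filter.mp hkK).2
  set s : ℝ := (h k - ⟪n k, x⟫) / ⟪n k, d⟫ with hs
  have hs0 : 0 ≤ s := div_nonneg (by linarith [hx k]) hk.le
  refine ⟨k, ?_, ?_, x + s • d, ⟨?_, ?_⟩, ?_⟩
  · rintro rfl
    linarith
  · rintro rfl
    linarith
  · intro m
    rw [inner_add_right, inner_smul_right]
    rcases le_or_gt ⟪n m, d⟫ 0 with hm | hm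
    · have h2 : s * ⟪n m, d⟫ ≤ 0 := mul_nonpos_of_nonneg_of_nonpos hs0 hm
      linarith [hx m]
    · have h3 : s ≤ (h m - ⟪n m, x⟫) / ⟪n m, d⟫ := hmin m (by simp [K, hm])
      rw [le_div_iff₀ hm] at h3
      linarith
  · rw [inner_add_right, inner_smul_right, hs, div_mul_cancel₀ _ hk.ne']
    ring
  · rw [inner_add_right, inner_smul_right, hc]
    simp

end Pool.Agent.SDC
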