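import Pool.Agent.SDC.Targets2

set_option autoImplicit false

open MeasureTheory Set Real
open scoped RealInnerProductSpace

namespace Pool.Agent.SDC

theorem SLI_meas (Q : Set (ℝ × ℝ)) (m : ℝ × ℝ → ℝ) (hQ : MeasurableSet Q) (hm : Measurable m) :
    MeasurableSet {p : ℝ × (ℝ × ℝ) | 0 < p.1 ∧ (p.2.1 / p.1, p.2.2 / p.1) ∈ Q ∧
      p.1 ≤ m (p.2.1 / p.1, p.2.2 / p.1)} := by
  have h1 : Measurable fun p : ℝ × (ℝ × ℝ) => (p.2.1 / p.1, p.2.2 / p.1) :=
    ((measurable_fst.comp measurable_snd).div measurable_fst).prodMk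
      ((measurable_snd.comp measurable_snd).div measurable_fst)
  exact (measurableSet_lt measurable_const measurable_fst).inter
    ((h1 hQ).inter (measurableSet_le measurable_fst (hm.comp h1)))

theorem SLI_cube (a : ℝ) (ha : 0 ≤ a) :
    ∫⁻ z in Ioc 0 a, ENNReal.ofReal (z ^ 2) = ENNReal.ofReal (a ^ 3 / 3) := by
  rw [← ofReal_integral_eq_lintegral_ofReal]
  · rw [← intervalIntegral.integral_of_le ha, integral_pow]
    congr 1
    norm_num
  · exact ((continuous_pow 2).intervalIntegrable 0 a).1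
  · exact Filter.Eventually.of_forall fun z => by positivity

theorem SLI_fib (Q : Set (ℝ × ℝ)) (m : ℝ × ℝ → ℝ) (z : ℝ) (hz : 0 < z) :
    volume (Prod.mk z ⁻¹' {p : ℝ × (ℝ × ℝ) | 0 < p.1 ∧ (p.2.1 / p.1, p.2.2 / p.1) ∈ Q ∧
      p.1 ≤ m (p.2.1 / p.1, p.2.2 / p.1)}) =
      ENNReal.ofReal (z ^ 2) * volume {w | w ∈ Q ∧ z ≤ m w} := by
  have h1 : (Prod.mk z ⁻¹' {p : ℝ × (ℝ × ℝ) | 0 < p.1 ∧ (p.2.1 / p.1, p.2.2 / p.1) ∈ Q ∧
      p.1 ≤ m (p.2.1 / p.1, p.2.2 / p.1)}) = (fun p => z⁻¹ • p) ⁻¹' {w | w ∈ Q ∧ z ≤ m w} := by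
    ext p
    have h2 : z⁻¹ • p = (p.1 / z, p.2 / z) := by
      ext
      · simp [div_eq_inv_mul]
      · simp [div_eq_inv_mul]
    simp only [mem_preimage, mem_setOf_eq, h2]
    exact ⟨fun h => h.2, fun h => ⟨hz, h⟩⟩
  rw [h1, Measure.addHaar_preimage_smul volume (inv_ne_zero hz.ne')]
  have h3 : Module.finrank ℝ (ℝ × ℝ) = 2 := by simp
  rw [h3]
  congr 2
  rw [inv_pow, inv_inv, abs_of_pos (by positivity)]

theorem p_SLI (hCRD : T_CRD) : T_SLI := by
  intro n e f ho Q m hQ hm hm0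
  set A : Set (ℝ × (ℝ × ℝ)) := {p | 0 < p.1 ∧ (p.2.1 / p.1, p.2.2 / p.1) ∈ Q ∧
      p.1 ≤ m (p.2.1 / p.1, p.2.2 / p.1)} with hA
  have hAm : MeasurableSet A := SLI_meas Q m hQ hm
  have hmp := (hCRD n e f ho).1
  have h1 : {x : E3 | 0 < ⟪n, x⟫ ∧ (⟪e, x⟫ / ⟪n, x⟫, ⟪f, x⟫ / ⟪n, x⟫) ∈ Q ∧
      ⟪n, x⟫ ≤ m (⟪e, x⟫ / ⟪n, x⟫, ⟪f, x⟫ / ⟪n, x⟫)} =
      (fun x : E3 => (⟪n, x⟫, (⟪e, x⟫, ⟪f, x⟫))) ⁻¹' A := rfl
  rw [h1, hmp.measure_preimage hAm.nullMeasurableSet]
  rw [Measure.volume_eq_prod, Measure.prod_apply hAm]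
  -- the set {(z, w) | z ≤ m w}
  set D : Set (ℝ × (ℝ × ℝ)) := {p | 0 < p.1 ∧ p.1 ≤ m p.2} with hD
  have hDm : MeasurableSet D := (measurableSet_lt measurable_const measurable_fst).inter
    (measurableSet_le measurable_fst (hm.comp measurable_snd))
  have h2 : ∀ z : ℝ, volume (Prod.mk z ⁻¹' A) =
      ∫⁻ w in Q, D.indicator (fun p => ENNReal.ofReal (p.1 ^ 2)) (z, w) := by
    intro z
    by_cases hz : 0 < z
    · rw [SLI_fib Q m z hz]
      have h3 : ∀ w : ℝ × ℝ, D.indicator (fun p => ENNReal.ofReal (p.1 ^ 2)) (z, w) =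
          {w | z ≤ m w}.indicator (fun _ => ENNReal.ofReal (z ^ 2)) w := by
        intro w
        by_cases hw : z ≤ m w
        · rw [indicator_of_mem (show (z, w) ∈ D from ⟨hz, hw⟩),
            indicator_of_mem (show w ∈ {w | z ≤ m w} from hw)]
        · rw [indicator_of_notMem (fun h : (z, w) ∈ D => hw h.2),
            indicator_of_notMem (show w ∉ {w | z ≤ m w} from hw)]
      simp_rw [h3]
      have h4 : MeasurableSet {w : ℝ × ℝ | z ≤ m w} := measurableSet_le measurable_const hm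
      rw [lintegral_indicator h4, lintegral_const, Measure.restrict_restrict h4,
        Measure.restrict_apply MeasurableSet.univ, univ_inter]
      congr 2
      ext w
      simp only [mem_setOf_eq, mem_inter_iff]
      exact and_comm
    · have h3 : Prod.mk z ⁻¹' A = ∅ := by
        ext w
        simp only [mem_preimage, mem_empty_iff_false, iff_false]
        exact fun h => hz h.1
      have h4 : ∀ w : ℝ × ℝ, D.indicator (fun p => ENNReal.ofReal (p.1 ^ 2)) (z, w) = 0 := by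
        intro w
        exact indicator_of_notMem (fun h : (z, w) ∈ D => hz h.1) _
      rw [h3, measure_empty]
      simp_rw [h4]
      simp
  simp_rw [h2]
  have hmeas : Measurable (D.indicator fun p : ℝ × (ℝ × ℝ) => ENNReal.ofReal (p.1 ^ 2)) :=
    (ENNReal.measurable_ofReal.comp (measurable_fst.pow_const 2)).indicator hDm
  rw [lintegral_lintegral_swap]
  · refine lintegral_congr fun w => ?_
    rw [← SLI_cube (m w) (hm0 w)]
    rw [← lintegral_indicator measurableSet_Ioc]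
    refine lintegral_congr fun z => ?_
    by_cases hz : z ∈ Ioc 0 (m w)
    · rw [indicator_of_mem hz, indicator_of_mem (show (z, w) ∈ D from ⟨hz.1, hz.2⟩)]
    · rw [indicator_of_notMem hz, indicator_of_notMem (fun h : (z, w) ∈ D => hz ⟨h.1, h.2⟩)]
  · exact hmeas.aemeasurable

end Pool.Agent.SDC
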