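import Pool.Agent.SDC.Targets

set_option autoImplicit false

/-!
# SDC, target SUB: the substitution `y = a0 tan ψ`
-/

open MeasureTheory Set Real
open scoped RealInnerProductSpace

namespace Pool.Agent.SDC

theorem SUB_cos {ψ : ℝ} (hψ : ψ ∈ uIcc (0 : ℝ) (π / 5)) : 0 < cos ψ := by
  rw [uIcc_of_le (by positivity)] at hψ
  exact cos_pos_of_mem_Ioo ⟨by linarith [hψ.1, Real.pi_pos], by linarith [hψ.2, Real.pi_pos]⟩

theorem SUB_tan {ψ : ℝ} (hc : 0 < cos ψ) :
    a0 ^ 2 + (a0 * tan ψ) ^ 2 = (a0 / cos ψ) ^ 2 := by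
  rw [tan_eq_sin_div_cos]
  have h1 := sin_sq_add_cos_sq ψ
  field_simp
  linear_combination a0 ^ 2 * h1

theorem SUB_end : a0 * tan (π / 5) = √(rv ^ 2 - a0 ^ 2) := by
  have hc : 0 < cos (π / 5) := SUB_cos right_mem_uIcc
  have h1 := SUB_tan hc
  rw [a0_div_cos] at h1
  have h2 : rv ^ 2 - a0 ^ 2 = (a0 * tan (π / 5)) ^ 2 := by linarith
  rw [h2, Real.sqrt_sq]
  refine mul_nonneg a0_pos.le (tan_nonneg_of_nonneg_of_le_pi_div_two (by positivity) ?_)
  linarith [Real.pi_pos]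

theorem p_SUB : T_SUB := by
  intro F hF
  have h0 : ∀ ψ ∈ uIcc (0 : ℝ) (π / 5), HasDerivAt (fun ψ => a0 * tan ψ) (a0 / cos ψ ^ 2) ψ := by
    intro ψ hψ
    have := (hasDerivAt_tan (SUB_cos hψ).ne').const_mul a0
    rwa [mul_one_div] at this
  have h1 : ContinuousOn (fun ψ : ℝ => a0 / cos ψ ^ 2) (uIcc (0 : ℝ) (π / 5)) :=
    ContinuousOn.div continuousOn_const (by fun_prop) fun ψ hψ => by
      have := SUB_cos hψ
      positivity
  have h2 : Continuous fun y : ℝ => F √(a0 ^ 2 + y ^ 2) := hF.comp (by fun_prop)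
  have h3 := intervalIntegral.integral_comp_mul_deriv h0 h1 h2
  simp only [tan_zero, mul_zero] at h3
  rw [SUB_end] at h3
  rw [← h3]
  refine intervalIntegral.integral_congr fun ψ hψ => ?_
  have hc := SUB_cos hψ
  simp only [Function.comp_apply]
  rw [SUB_tan hc, Real.sqrt_sq (div_nonneg a0_pos.le hc.le)]

end Pool.Agent.SDC
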