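import Pool.Agent.SDC.Targets2

set_option autoImplicit false

/-!
# SDC: the identity for the whole polyhedron (target SUM)
-/

open MeasureTheory Set Real
open scoped RealInnerProductSpace Pointwise

namespace Pool.Agent.SDC

theorem SUM_scale {ι : Type} (n : ι → E3) (h : ι → ℝ) (ϱ s : ℝ) (hs : 0 < s) :
    volume (Metric.closedBall (0 : E3) s ∩ Cinf n h ϱ) =
      ENNReal.ofReal (s ^ 3) * volume (Metric.closedBall (0 : E3) 1 ∩ Cinf n h ϱ) := by
  have h1 : Metric.closedBall (0 : E3) s ∩ Cinf n h ϱ =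
      s • (Metric.closedBall (0 : E3) 1 ∩ Cinf n h ϱ) := by
    ext x
    have hn : ‖s⁻¹ • x‖ = s⁻¹ * ‖x‖ := by
      rw [norm_smul, Real.norm_eq_abs, abs_of_pos (inv_pos.2 hs)]
    rw [Set.mem_smul_set_iff_inv_smul_mem₀ hs.ne']
    simp only [mem_inter_iff, mem_closedBall_zero_iff, Cinf, mem_ofPred_eq, hn, inner_smul_right]
    refine and_congr ?_ (forall_congr' fun i => ?_)
    · rw [inv_mul_le_iff₀ hs, mul_one]
    · rw [show ϱ * (s⁻¹ * ⟪n i, x⟫) = s⁻¹ * (ϱ * ⟪n i, x⟫) by ring,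
        show h i * (s⁻¹ * ‖x‖) = s⁻¹ * (h i * ‖x‖) by ring,
        mul_le_mul_iff_of_pos_left (inv_pos.2 hs)]
  rw [h1, Measure.addHaar_smul]
  congr 2
  rw [show Module.finrank ℝ E3 = 3 by simp [E3], abs_of_pos (by positivity)]

theorem SUM_poly {ι : Type} (n : ι → E3) (h : ι → ℝ) (ϱ s : ℝ) (hn : ∀ i, 0 < h i) (hs : s ≤ ϱ)
    (hϱ : 0 < ϱ) :
    Poly n h ∩ Metric.closedBall (0 : E3) s ∩ Cinf n h ϱ =
      Metric.closedBall (0 : E3) s ∩ Cinf n h ϱ := by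
  ext x
  simp only [mem_inter_iff, mem_closedBall_zero_iff, Cinf, Poly, mem_ofPred_eq]
  constructor
  · rintro ⟨⟨-, h1⟩, h2⟩
    exact ⟨h1, h2⟩
  · rintro ⟨h1, h2⟩
    refine ⟨⟨fun i => ?_, h1⟩, h2⟩
    have h3 := h2 i
    have h4 : h i * ‖x‖ ≤ h i * ϱ := mul_le_mul_of_nonneg_left (h1.trans hs) (hn i).le
    have h5 : ϱ * ⟪n i, x⟫ ≤ ϱ * h i := by linarith
    exact le_of_mul_le_mul_left h5 hϱ

theorem SUM_meas {ι : Type} [Fintype ι] (n : ι → E3) (h : ι → ℝ) : MeasurableSet (Poly n h) := by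
  have h1 : Poly n h = ⋂ i, {x : E3 | ⟪n i, x⟫ ≤ h i} := by
    ext x
    simp [Poly]
  rw [h1]
  exact MeasurableSet.iInter fun i =>
    (isClosed_le (continuous_const.inner continuous_id) continuous_const).measurableSet

theorem SUM_real {ι : Type} [Fintype ι] (hPAR : T_PAR) (n : ι → E3) (h : ι → ℝ) (ϱ : ℝ)
    (h1 : ∀ i, ‖n i‖ = 1) (h2 : ∀ i, 0 < h i) (h3 : Function.Injective n) (h4 : 0 < ϱ)
    (A : Set E3) (hA : MeasurableSet A) (s : ℝ) (hAs : A ⊆ Metric.closedBall (0 : E3) s) :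
    (volume A).toReal = (volume (A ∩ Cinf n h ϱ)).toReal +
      ∑ i, (volume (A ∩ CR n h ϱ i)).toReal := by
  have hfin : ∀ B : Set E3, volume (A ∩ B) ≠ ⊤ := fun B =>
    ((measure_mono (inter_subset_left.trans hAs)).trans_lt measure_closedBall_lt_top).ne
  rw [hPAR ι n h ϱ A h1 h2 h3 h4 hA, ENNReal.toReal_add (hfin _)
    (ENNReal.sum_ne_top.2 fun i _ => hfin _), ENNReal.toReal_sum fun i _ => hfin _]

theorem p_SUM (hFRM : T_FRM) (hPAR : T_PAR) : T_SUM := by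
  intro ι _ n e f h t κ β ϱ hh hinj hO ht htϱ
  have hϱ : 0 < ϱ := ht.trans_le htϱ
  have hn : ∀ i, ‖n i‖ = 1 := fun i => (hO i).nn
  have key : ∀ s, 0 < s → s ≤ ϱ →
      (volume (Poly n h ∩ Metric.closedBall (0 : E3) s ∩ Cinf n h ϱ)).toReal =
        s ^ 3 * (volume (Metric.closedBall (0 : E3) 1 ∩ Cinf n h ϱ)).toReal := by
    intro s hs hsϱ
    rw [SUM_poly n h ϱ s hh hsϱ hϱ, SUM_scale n h ϱ s hs, ENNReal.toReal_mul,
      ENNReal.toReal_ofReal (by positivity)]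
  have e1 := SUM_real hPAR n h ϱ hn hh hinj hϱ (Poly n h ∩ Metric.closedBall (0 : E3) ϱ)
    ((SUM_meas n h).inter Metric.isClosed_closedBall.measurableSet) ϱ inter_subset_right
  have e2 := SUM_real hPAR n h ϱ hn hh hinj hϱ (Poly n h ∩ Metric.closedBall (0 : E3) t)
    ((SUM_meas n h).inter Metric.isClosed_closedBall.measurableSet) t inter_subset_right
  have e3 := SUM_real hPAR n h ϱ hn hh hinj hϱ (Metric.closedBall (0 : E3) 1)
    Metric.isClosed_closedBall.measurableSet 1 Subset.rfl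
  have e4 : (volume (Metric.closedBall (0 : E3) 1)).toReal = 4 * π / 3 := by
    rw [EuclideanSpace.volume_closedBall_fin_three, ENNReal.ofReal_one, one_pow, one_mul,
      ENNReal.toReal_ofReal (by positivity)]
    ring
  have e5 : ∑ i, ∫ w in {w | w ∈ Qs n h i (e i) (f i) ∧ h i * cc (nr w) < ϱ},
      G t κ β (h i) (nr w) = ∑ i, 3 * ((1 - κ) *
        (volume (Poly n h ∩ Metric.closedBall 0 ϱ ∩ CR n h ϱ i)).toReal
      - (volume (Poly n h ∩ Metric.closedBall 0 t ∩ CR n h ϱ i)).toReal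
      - β * (volume (Metric.closedBall 0 1 ∩ CR n h ϱ i)).toReal) :=
    Finset.sum_congr rfl fun i _ =>
      (hFRM ι n h i (e i) (f i) t κ β ϱ hn hh (hO i) ht hϱ).symm
  rw [e5, ← Finset.mul_sum, Finset.sum_sub_distrib, Finset.sum_sub_distrib, ← Finset.mul_sum,
    ← Finset.mul_sum, e1, e2, key ϱ hϱ le_rfl, key t ht htϱ]
  rw [e4] at e3
  linear_combination (-(3 * β)) * e3

end Pool.Agent.SDC
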