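import Pool.Agent.SDC.Targets
import Pool.Agent.SDC.Targets2

set_option autoImplicit false

open MeasureTheory Set Real
open scoped RealInnerProductSpace

namespace Pool.Agent.SDC

/-- The value at the truncated exit. -/
noncomputable def TR_phi (t κ β h : ℝ) : ℝ :=
  h * Bf t R - κ * (h * R ^ 2 - h ^ 3) / 2 - β * (1 - h / R) -
    if h ≤ t then 0 else (h - t) ^ 2 * (h + 2 * t) / 2

theorem TR_eq (hHCL : T_HCL) (t κ β h : ℝ) (ht : 0 < t) (h0 : 0 < h) (hR : h ≤ R) :
    H t κ β h √(R ^ 2 / h ^ 2 - 1) = TR_phi t κ β h := by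
  have hRp := R_pos
  have h1 : 0 ≤ R ^ 2 / h ^ 2 - 1 := by
    rw [sub_nonneg, one_le_div (by positivity)]
    exact pow_le_pow_left₀ h0.le hR 2
  have h2 : cc √(R ^ 2 / h ^ 2 - 1) = R / h := by
    rw [cc, Real.sq_sqrt h1]
    rw [show 1 + (R ^ 2 / h ^ 2 - 1) = (R / h) ^ 2 by ring]
    exact Real.sqrt_sq (by positivity)
  rw [hHCL.2 t κ β h _ ht h0 (Real.sqrt_nonneg _), h2, Real.sq_sqrt h1, TR_phi]
  have h3 : h ^ 3 * Bf (t / h) (R / h) = h * Bf t R := by
    unfold Bf
    rcases le_or_gt R t with h4 | h4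
    · rw [if_pos (by gcongr), if_pos h4]
      simp
    · rw [if_neg (by
        rw [not_le]
        gcongr), if_neg (by linarith)]
      field_simp
  have h5 : h ^ 3 * Bf (t / h) 1 = if h ≤ t then 0 else (h - t) ^ 2 * (h + 2 * t) / 2 := by
    unfold Bf
    rcases le_or_gt h t with h4 | h4
    · rw [if_pos ((one_le_div h0).mpr h4), if_pos h4, mul_zero]
    · rw [if_neg (by
        rw [not_le, div_lt_one h0]
        exact h4), if_neg (by linarith)]
      field_simp
  rw [← h3, ← h5]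
  field_simp
  ring

theorem p_TR (hHCL : T_HCL) (hBF : T_BF) (hKAP : T_KAP) (hBET : T_BET) (hALP : T_ALP) :
    T_TR := by
  intro t h ht htR h1 hR
  have ht0 : 0 < t := by linarith
  have hRp := R_pos
  have hRhi := R_hi
  have hR1 := R_one
  obtain ⟨hκ0, -⟩ := hKAP t ht htR
  obtain ⟨hβ0, hG⟩ := hBET t ht htR
  have hα := hALP t ht htR
  have hB0 : 0 ≤ Bf t R := hBF.1 t R ht0 hRp
  set κ := kap t with hκ
  set β := bet t with hβ
  have hκ1 : κ ≤ 1 := by
    unfold G at hG
    rw [cc_rv] at hG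
    have h2 : 0 ≤ t ^ 3 / R ^ 3 := by positivity
    have h3 : 0 ≤ β / R ^ 3 := by positivity
    have h4 : max ((1 : ℝ) ^ 3 - t ^ 3 / R ^ 3) 0 ≤ 1 :=
      max_le (by linarith) zero_le_one
    linarith
  have hα' : alp t = TR_phi t κ β 1 := by
    rw [← TR_eq hHCL t κ β 1 ht0 one_pos hR1.le, alp]
    congr 1
    rw [show R ^ 2 / 1 ^ 2 - 1 = rv ^ 2 by rw [R_sq']; ring, Real.sqrt_sq rv_pos.le]
  rw [TR_eq hHCL t κ β h ht0 (by linarith) hR]
  have key : ∀ s, 1 ≤ s → s ≤ t → alp t ≤ TR_phi t κ β s := by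
    intro s hs1 hst
    rw [hα', TR_phi, TR_phi, if_pos hst, if_pos ht]
    have e1 : 0 ≤ (s - 1) * Bf t R := mul_nonneg (by linarith) hB0
    have e2 : 0 ≤ κ * ((s - 1) * (s ^ 2 + s + 1 - R ^ 2)) :=
      mul_nonneg hκ0 (mul_nonneg (by linarith) (by nlinarith))
    have e3 : 0 ≤ β * ((s - 1) / R) := mul_nonneg hβ0 (div_nonneg (by linarith) hRp.le)
    have e4 : β * (1 - 1 / R) - β * (1 - s / R) = β * ((s - 1) / R) := by ring
    nlinarith
  rcases le_or_gt h t with hht | hht
  · exact key h h1 hht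
  · have hkt := key t ht le_rfl
    have hR0 : TR_phi t κ β R = 0 := by
      rw [TR_phi, if_neg (by linarith)]
      unfold Bf
      rw [if_neg (by linarith)]
      field_simp
      ring
    have hid : (R - t) * TR_phi t κ β h - (R - h) * TR_phi t κ β t - (h - t) * TR_phi t κ β R =
        (1 - κ) / 2 * ((R - h) * (h - t) * (R - t) * (t + h + R)) := by
      rw [TR_phi, TR_phi, TR_phi, if_neg (by linarith), if_pos le_rfl, if_neg (by linarith)]
      ring
    have hp : 0 ≤ (1 - κ) / 2 * ((R - h) * (h - t) * (R - t) * (t + h + R)) := by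
      have e1 : 0 ≤ R - h := by linarith
      have e2 : 0 ≤ h - t := by linarith
      have e3 : 0 ≤ R - t := by linarith
      have e4 : 0 ≤ 1 - κ := by linarith
      have e5 : 0 ≤ t + h + R := by linarith
      positivity
    rw [hR0, mul_zero, sub_zero] at hid
    have hRt : 0 < R - t := by linarith
    have e1 : (R - h) * alp t ≤ (R - h) * TR_phi t κ β t :=
      mul_le_mul_of_nonneg_left hkt (by linarith)
    have e2 : (R - t) * alp t ≤ (R - h) * alp t := by nlinarith
    have e3 : (R - t) * alp t ≤ (R - t) * TR_phi t κ β h := by linarith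
    exact le_of_mul_le_mul_left e3 hRt

end Pool.Agent.SDC
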