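import Pool.Agent.SDC.Targets2

set_option autoImplicit false

/-!
# SDC, target TRI: at least three facets at a vertex
-/

open MeasureTheory Set Real
open scoped RealInnerProductSpace

namespace Pool.Agent.SDC

/-- Target TRI. -/
theorem p_TRI : T_TRI := by
  intro ι _ n h c hc v hv hm i j
  by_contra hno
  push Not at hno
  have hst : ∀ k, k ≠ i → k ≠ j → ⟪n k, v⟫ < h k := by
    intro k h1 h2
    refine lt_of_le_of_ne (hv k) ?_
    intro h3
    exact hno k h1 h2 ⟨hv, h3⟩
  obtain ⟨u, hui, huj, huc⟩ : ∃ u, ⟪n i, u⟫ = 0 ∧ ⟪n j, u⟫ = 0 ∧ ⟪c, u⟫ < 0 := by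
    obtain ⟨u, h1, h2, h3⟩ := hc i j
    rcases lt_or_gt_of_ne h3 with h4 | h4
    · exact ⟨u, h1, h2, h4⟩
    · refine ⟨-u, ?_, ?_, ?_⟩
      · rw [inner_neg_right, h1, neg_zero]
      · rw [inner_neg_right, h2, neg_zero]
      · rw [inner_neg_right]
        linarith
  have hev : ∀ᶠ ε : ℝ in nhdsWithin 0 (Set.Ioi 0), ∀ k, k ≠ i → k ≠ j →
      ⟪n k, v + ε • u⟫ < h k := by
    refine Filter.Eventually.filter_mono nhdsWithin_le_nhds (Filter.eventually_all.2 ?_)
    intro k
    by_cases h1 : k = i
    · exact Filter.Eventually.of_forall fun ε h2 => absurd h1 h2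
    · by_cases h2 : k = j
      · exact Filter.Eventually.of_forall fun ε _ h3 => absurd h2 h3
      · have h3 : Continuous fun ε : ℝ => ⟪n k, v + ε • u⟫ :=
          continuous_const.inner (continuous_const.add (continuous_id.smul continuous_const))
        have h4 : ∀ᶠ ε : ℝ in nhds 0, ⟪n k, v + ε • u⟫ < h k := by
          apply (h3.tendsto 0).eventually_lt_const
          rw [zero_smul, add_zero]
          exact hst k h1 h2
        exact h4.mono fun ε h5 _ _ => h5
  obtain ⟨ε, h1, h2⟩ := (hev.and self_mem_nhdsWithin).exists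
  have hε : 0 < ε := h2
  have ei : ⟪n i, v + ε • u⟫ = ⟪n i, v⟫ := by
    rw [inner_add_right, inner_smul_right, hui, mul_zero, add_zero]
  have ej : ⟪n j, v + ε • u⟫ = ⟪n j, v⟫ := by
    rw [inner_add_right, inner_smul_right, huj, mul_zero, add_zero]
  have h3 := hm (v + ε • u) ?_ ?_
  · rw [inner_add_right, inner_smul_right] at h3
    have := mul_neg_of_pos_of_neg hε huc
    linarith
  · intro k
    by_cases h3 : k = i
    · rw [h3, ei]
      exact hv i
    · by_cases h4 : k = j
      · rw [h4, ej]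
        exact hv j
      · exact (h1 k h3 h4).le
  · intro k hk
    by_cases h3 : k = i
    · rw [h3, ei, ← h3]
      exact hk
    · by_cases h4 : k = j
      · rw [h4, ej, ← h4]
        exact hk
      · exact absurd hk (hst k h3 h4).ne

end Pool.Agent.SDC
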