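import Pool.Agent.SDC.Targets2

/-!
# SDC: the lowest point of a facet is unique (UNQ)
-/

set_option autoImplicit false

open MeasureTheory Set Real
open scoped RealInnerProductSpace

namespace Pool.Agent.SDC

theorem p_UNQ (hTRI : T_TRI) (hTHR : T_THR) : T_UNQ := by
  intro ι _ n h c hg hirr i v hv v' hv' hl hl'
  obtain ⟨m, hm⟩ : ∃ m : E3, m = (1 / 2 : ℝ) • (v + v') := ⟨_, rfl⟩
  have hmi : ∀ a : E3, ⟪a, m⟫ = (⟪a, v⟫ + ⟪a, v'⟫) / 2 := by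
    intro a
    rw [hm, inner_smul_right, inner_add_right]
    ring
  have hmP : m ∈ Poly n h := by
    intro j
    rw [hmi]
    have h1 : ⟪n j, v⟫ ≤ h j := hv.1 j
    have h2 : ⟪n j, v'⟫ ≤ h j := hv'.1 j
    linarith
  have hmt : ⟪n i, m⟫ = h i := by
    rw [hmi]
    have h1 : ⟪n i, v⟫ = h i := hv.2
    have h2 : ⟪n i, v'⟫ = h i := hv'.2
    linarith
  have hlow : ∀ x ∈ Poly n h, (∀ k, ⟪n k, m⟫ = h k → ⟪n k, x⟫ = h k) → ⟪c, m⟫ ≤ ⟪c, x⟫ := by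
    intro x hx hk
    have hxF : x ∈ Fc n h i := ⟨hx, hk i hmt⟩
    have h1 := hl x hxF
    have h2 := hl' x hxF
    rw [hmi]
    linarith
  have htight : ∀ k, m ∈ Fc n h k → ⟪n k, v⟫ = h k ∧ ⟪n k, v'⟫ = h k := by
    intro k hk
    have h1 : ⟪n k, m⟫ = h k := hk.2
    rw [hmi] at h1
    have h2 : ⟪n k, v⟫ ≤ h k := hv.1 k
    have h3 : ⟪n k, v'⟫ ≤ h k := hv'.1 k
    constructor <;> linarith
  obtain ⟨k, hki, -, hkF⟩ := hTRI ι n h c hg m hmP hlow i i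
  obtain ⟨l, hli, hlk, hlF⟩ := hTRI ι n h c hg m hmP hlow i k
  have hk := htight k hkF
  have hl2 := htight l hlF
  have hvi : ⟪n i, v⟫ = h i := hv.2
  have hvi' : ⟪n i, v'⟫ = h i := hv'.2
  have h0 := hTHR ι n h hirr i k l (Ne.symm hki) (Ne.symm hli) (Ne.symm hlk) v (v' - v) hvi hk.1
    hl2.1 (by rw [inner_sub_right, hvi, hvi', sub_self])
    (by rw [inner_sub_right, hk.1, hk.2, sub_self])
    (by rw [inner_sub_right, hl2.1, hl2.2, sub_self])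
  exact (sub_eq_zero.mp h0).symm

end Pool.Agent.SDC
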