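import Pool.Agent.SDC.Targets2

set_option autoImplicit false

/-!
# SDC, target VOR: the result for packings
-/

open MeasureTheory Set Real
open scoped RealInnerProductSpace

namespace Pool.Agent.SDC

theorem VOR_half (v c y : E3) (hyc : y ≠ c) :
    dist (v + c) c ≤ dist (v + c) y ↔ ⟪(1 / ‖y - c‖) • (y - c), v⟫ ≤ ‖y - c‖ / 2 := by
  have hw : 0 < ‖y - c‖ := norm_pos_iff.mpr (sub_ne_zero.mpr hyc)
  have e1 : dist (v + c) c = ‖v‖ := by
    rw [dist_eq_norm, add_sub_cancel_right]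
  have e2 : dist (v + c) y = ‖v - (y - c)‖ := by
    rw [dist_eq_norm]
    congr 1
    abel
  have e3 : ‖v - (y - c)‖ ^ 2 = ‖v‖ ^ 2 - 2 * ⟪v, y - c⟫ + ‖y - c‖ ^ 2 :=
    norm_sub_sq_real v (y - c)
  have e4 : ⟪(1 / ‖y - c‖) • (y - c), v⟫ = ⟪v, y - c⟫ / ‖y - c‖ := by
    rw [real_inner_smul_left, real_inner_comm]
    ring
  rw [e1, e2, e4, div_le_div_iff₀ hw two_pos,
    ← pow_le_pow_iff_left₀ (norm_nonneg v) (norm_nonneg (v - (y - c))) two_ne_zero, e3]
  constructor
  · intro h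
    nlinarith
  · intro h
    nlinarith

/-- VOR: the result for packings. -/
theorem p_VOR (hMA3 : T_MA3) : T_VOR := by
  intro X hX c hc S hSX hcS hSf hS12 hS r hr
  have hSc : ∀ y ∈ S, y ≠ c := fun y hy h => hcS (h ▸ hy)
  have : Fintype S := hSf.fintype
  set V : Set E3 := {x : E3 | ∀ y ∈ X, dist x c ≤ dist x y} with hV
  have hn : ∀ i : S, ‖(1 / ‖(i : E3) - c‖) • ((i : E3) - c)‖ = 1 := by
    intro i
    have hw : 0 < ‖(i : E3) - c‖ := norm_pos_iff.mpr (sub_ne_zero.mpr (hSc i i.2))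
    rw [norm_smul, norm_div, norm_one, norm_norm]
    field_simp
  have hh : ∀ i : S, 1 ≤ ‖(i : E3) - c‖ / 2 := by
    intro i
    have h1 := hX i (hSX i.2) c hc (hSc i i.2)
    rw [dist_eq_norm] at h1
    linarith
  have hcard : Fintype.card S ≤ 12 := by
    rw [← Nat.card_eq_fintype_card, Nat.card_coe_set_eq]
    exact hS12
  have hK : ((fun v : E3 => v + c) ⁻¹' V) ∩ Metric.closedBall 0 R =
      Poly (fun i : S => (1 / ‖(i : E3) - c‖) • ((i : E3) - c))
        (fun i : S => ‖(i : E3) - c‖ / 2) ∩ Metric.closedBall 0 R := by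
    ext v
    constructor
    · rintro ⟨h1, h2⟩
      refine ⟨fun i => ?_, h2⟩
      exact (VOR_half v c i (hSc i i.2)).1 (h1 i (hSX i.2))
    · rintro ⟨h1, h2⟩
      refine ⟨?_, h2⟩
      have h3 : dist (v + c) c ≤ R := by
        rw [dist_eq_norm, add_sub_cancel_right]
        exact mem_closedBall_zero_iff.1 h2
      exact hS (v + c) h3 fun y hy => (VOR_half v c y (hSc y hy)).2 (h1 ⟨y, hy⟩)
  have key := hMA3 S _ _ hn hh hcard ((fun v : E3 => v + c) ⁻¹' V) hK (1 + r) (by linarith)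
  have e1 : volume ((fun v : E3 => v + c) ⁻¹' V) = volume V :=
    measure_preimage_add_right volume c V
  have e2 : ((fun v : E3 => v + c) ⁻¹' V) ∩ Metric.closedBall 0 (1 + r) =
      (fun v : E3 => v + c) ⁻¹' (V ∩ Metric.closedBall c (1 + r)) := by
    ext v
    simp [dist_eq_norm]
  have e3 : volume ((fun v : E3 => v + c) ⁻¹' (V ∩ Metric.closedBall c (1 + r))) =
      volume (V ∩ Metric.closedBall c (1 + r)) :=
    measure_preimage_add_right volume c _
  rw [e2, e3, e1] at key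
  exact key

end Pool.Agent.SDC
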