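import Pool.Agent.SDC.P_ALP
import Pool.Agent.SDC.P_BET
import Pool.Agent.SDC.P_BF
import Pool.Agent.SDC.P_CMP
import Pool.Agent.SDC.P_CNT
import Pool.Agent.SDC.P_CRD
import Pool.Agent.SDC.P_DNF
import Pool.Agent.SDC.P_DOD
import Pool.Agent.SDC.P_DPN
import Pool.Agent.SDC.P_FAC
import Pool.Agent.SDC.P_FAR
import Pool.Agent.SDC.P_FC1
import Pool.Agent.SDC.P_FC2
import Pool.Agent.SDC.P_FC3
import Pool.Agent.SDC.P_FC4
import Pool.Agent.SDC.P_FCT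
import Pool.Agent.SDC.P_FIN
import Pool.Agent.SDC.P_FRM
import Pool.Agent.SDC.P_GEN
import Pool.Agent.SDC.P_GMN
import Pool.Agent.SDC.P_HCL
import Pool.Agent.SDC.P_IRR
import Pool.Agent.SDC.P_KAP
import Pool.Agent.SDC.P_L3
import Pool.Agent.SDC.P_LOC1
import Pool.Agent.SDC.P_LOCA
import Pool.Agent.SDC.P_LOCH
import Pool.Agent.SDC.P_LOW
import Pool.Agent.SDC.P_MA1
import Pool.Agent.SDC.P_MA3
import Pool.Agent.SDC.P_MNT
import Pool.Agent.SDC.P_MP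
import Pool.Agent.SDC.P_MX2
import Pool.Agent.SDC.P_OM
import Pool.Agent.SDC.P_ONB
import Pool.Agent.SDC.P_PAR
import Pool.Agent.SDC.P_PCL
import Pool.Agent.SDC.P_PNI
import Pool.Agent.SDC.P_PSG
import Pool.Agent.SDC.P_SDA
import Pool.Agent.SDC.P_SDB
import Pool.Agent.SDC.P_SGN
import Pool.Agent.SDC.P_SID
import Pool.Agent.SDC.P_SLC
import Pool.Agent.SDC.P_SLI
import Pool.Agent.SDC.P_SUB
import Pool.Agent.SDC.P_SUM
import Pool.Agent.SDC.P_THR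
import Pool.Agent.SDC.P_TR
import Pool.Agent.SDC.P_TRI
import Pool.Agent.SDC.P_UNQ
import Pool.Agent.SDC.P_VOR

set_option autoImplicit false

/-!
# SDC: assembly of the targets
-/

open MeasureTheory Set Real
open scoped RealInnerProductSpace

namespace Pool.Agent.SDC

/-! ## One variable -/

theorem tHCL : T_HCL := p_HCL p_BF

theorem tKAP : T_KAP := p_KAP p_BF

theorem tBET : T_BET := p_BET p_PCL p_SUB p_BF tKAP

theorem tALP : T_ALP := p_ALP tHCL p_BF tKAP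

theorem tPSG : T_PSG := p_PSG tKAP p_KB p_GMN p_PCL

theorem tLOCA : T_LOCA := p_LOCA p_MP p_MNT

theorem tLOC1 : T_LOC1 := p_LOC1 tLOCA tHCL p_SGN tKAP tBET tALP tPSG

theorem tCMP : T_CMP := p_CMP

theorem tFAR : T_FAR := p_FAR tHCL p_SGN tKAP p_KB tBET

theorem tLOCH : T_LOCH := p_LOCH tLOC1 tCMP tFAR tALP tBET tHCL

theorem tIDN : T_IDN := p_IDN tHCL p_OM p_BF

theorem tTR : T_TR := p_TR tHCL p_BF tKAP tBET tALP

/-! ## Volumes -/

theorem tSLI : T_SLI := p_SLI p_CRD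

theorem tFRM : T_FRM := p_FRM p_CRD tSLI

theorem tSUM : T_SUM := p_SUM tFRM p_PAR

/-! ## One facet -/

theorem tTHR : T_THR := p_THR p_L3

theorem tFAC : T_FAC := p_FAC p_FC1 p_FC2 p_FC3 p_FC4

theorem tFCT : T_FCT := p_FCT tFAC tTHR

/-! ## Counting -/

theorem tSDA : T_SDA :=
  p_SDA (p_SD2 p_L3) (p_MX2 p_L3) p_LOW p_TRI (p_UNQ p_TRI tTHR) p_SLC p_GEN p_CNT

theorem tSID : T_SID := p_SID tSDA p_SDB

/-! ## The dodecahedron -/

theorem tDOD : T_DOD := p_DOD p_DNF (p_DPN p_DNF) p_PNI tSUM tHCL p_BF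

/-! ## Assembly -/

theorem tMA1 : T_MA1 :=
  p_MA1 tSUM p_ONB tFCT tSID tLOC1 tLOCH tFAR tTR p_SGN tHCL tKAP tBET tALP tIDN

theorem tMA2 : T_MA2 := p_MA2 tMA1 p_IRR

theorem tMA3 : T_MA3 := p_MA3 tMA2 tDOD

theorem vor : T_VOR := p_VOR tMA3

theorem nbr : T_NBR := p_NBR vor p_FIN

end Pool.Agent.SDC
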