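import Mathlib

set_option autoImplicit false

/-!
# SDC: the soft dodecahedral inequality for cells with at most twelve faces: definitions

The paper proof is row 2490 of the table `ideas` (and `Blueprint.md` in this folder).
-/

open MeasureTheory Set Real
open scoped RealInnerProductSpace

namespace Pool.Agent.SDC

/-- The Euclidean space. -/
abbrev E3 : Type := EuclideanSpace ℝ (Fin 3)

/-! ## Constants of the dodecahedron of inradius one -/

/-- The circumradius. -/
noncomputable def R : ℝ := √(15 - 6 * √5)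

/-- The circumradius of the face. -/
noncomputable def rv : ℝ := 3 - √5

/-- The inradius of the face. -/
noncomputable def a0 : ℝ := (√5 - 1) / 2

/-- The square of the distance of the edges from the centre. -/
noncomputable def W0 : ℝ := (5 - √5) / 2

/-! ## Functions of one variable -/

/-- The function `∫ (1 - σ³/s³)₊ s ds` up to `c`. -/
noncomputable def Bf (σ c : ℝ) : ℝ :=
  if c ≤ σ then 0 else (c - σ) ^ 2 * (c + 2 * σ) / (2 * c)

/-- The distance from the centre of a point of the plane at distance one, at distance `r` from the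
foot. -/
noncomputable def cc (r : ℝ) : ℝ := √(1 + r ^ 2)

/-- The density in the plane at distance one, for a facet at distance `h`. -/
noncomputable def G (t κ β h r : ℝ) : ℝ :=
  max (h ^ 3 - t ^ 3 / cc r ^ 3) 0 - κ * h ^ 3 - β / cc r ^ 3

/-- Its radial integral. -/
noncomputable def H (t κ β h r : ℝ) : ℝ := ∫ s in (0 : ℝ)..r, G t κ β h s * s

/-- The part of the dodecahedron outside of the ball of radius `t`. -/
noncomputable def kap (t : ℝ) : ℝ :=
  (∫ ψ in (0 : ℝ)..(π / 5), Bf t (cc (a0 / cos ψ))) /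
    ∫ ψ in (0 : ℝ)..(π / 5), (a0 / cos ψ) ^ 2 / 2

/-- The function `g(W)`. -/
noncomputable def gg (t κ W : ℝ) : ℝ :=
  (1 - κ) * W + √(max (t ^ 2 - W) 0) ^ 3 / √(R ^ 2 - W)

/-- The multiplier of the solid angle. -/
noncomputable def bet (t : ℝ) : ℝ := R * gg t (kap t) W0 - t ^ 3

/-- The multiplier of the angle at the foot. -/
noncomputable def alp (t : ℝ) : ℝ := H t (kap t) (bet t) 1 rv

/-- The value of the right triangle of the dodecahedron. -/
noncomputable def J0 (t : ℝ) : ℝ :=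
  ∫ ψ in (0 : ℝ)..(π / 5), (H t (kap t) (bet t) 1 (a0 / cos ψ) - alp t)

/-! ## Polyhedra -/

section poly

variable {ι : Type}

/-- The intersection of the half spaces `⟪n i, x⟫ ≤ h i`. -/
def Poly (n : ι → E3) (h : ι → ℝ) : Set E3 := {x | ∀ i, ⟪n i, x⟫ ≤ h i}

/-- Every half space is needed: some point of the boundary belongs to the facet `i` only. -/
def Irr (n : ι → E3) (h : ι → ℝ) : Prop :=
  ∀ i, ∃ x, ⟪n i, x⟫ = h i ∧ ∀ k, k ≠ i → ⟪n k, x⟫ < h k

/-- The facets `i` and `j` have a side in common. -/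
def Adj (n : ι → E3) (h : ι → ℝ) (i j : ι) : Prop :=
  i ≠ j ∧ ∃ x, ⟪n i, x⟫ = h i ∧ ⟪n j, x⟫ = h j ∧ ∀ k, k ≠ i → k ≠ j → ⟪n k, x⟫ < h k

/-- The cone over the facet `i`. -/
def Cn (n : ι → E3) (h : ι → ℝ) (i : ι) : Set E3 :=
  {x | 0 < ⟪n i, x⟫ ∧ ∀ j, h i * ⟪n j, x⟫ ≤ h j * ⟪n i, x⟫}

/-- The cone over the part of the facet `i` in the open ball of radius `ϱ`. -/
def CR (n : ι → E3) (h : ι → ℝ) (ϱ : ℝ) (i : ι) : Set E3 :=
  {x | x ∈ Cn n h i ∧ h i * ‖x‖ < ϱ * ⟪n i, x⟫}

/-- The directions in which the boundary of the polyhedron is at least at distance `ϱ`. -/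
def Cinf (n : ι → E3) (h : ι → ℝ) (ϱ : ℝ) : Set E3 := {x | ∀ i, ϱ * ⟪n i, x⟫ ≤ h i * ‖x‖}

/-- The facet `i`. -/
def Fc (n : ι → E3) (h : ι → ℝ) (i : ι) : Set E3 := {x | x ∈ Poly n h ∧ ⟪n i, x⟫ = h i}

/-- The linear functional `c` is not constant on the intersection of two facets. -/
def Gen (n : ι → E3) (c : E3) : Prop :=
  ∀ i j, ∃ u, ⟪n i, u⟫ = 0 ∧ ⟪n j, u⟫ = 0 ∧ ⟪c, u⟫ ≠ 0

/-- The trace of the cone over the facet `i` in the plane at distance one with the orthonormal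
coordinates `e`, `f`. -/
def Qs (n : ι → E3) (h : ι → ℝ) (i : ι) (e f : E3) : Set (ℝ × ℝ) :=
  {w | ∀ j, h i * (⟪n j, n i⟫ + w.1 * ⟪n j, e⟫ + w.2 * ⟪n j, f⟫) ≤ h j}

end poly

/-- `n, e, f` is orthonormal. -/
structure Onb (n e f : E3) : Prop where
  nn : ‖n‖ = 1
  ee : ‖e‖ = 1
  ff : ‖f‖ = 1
  ne : ⟪n, e⟫ = 0
  nf : ⟪n, f⟫ = 0
  ef : ⟪e, f⟫ = 0

/-- The distance from the origin in the plane. -/
noncomputable def nr (w : ℝ × ℝ) : ℝ := √(w.1 ^ 2 + w.2 ^ 2)

/-- The signs. -/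
def sg (b : Bool) : ℝ := if b then 1 else -1

/-- The length of the normals of the dodecahedron. -/
noncomputable def Ld : ℝ := √(1 + goldenRatio ^ 2)

/-- The index type of the faces of the dodecahedron. -/
abbrev ID : Type := Fin 3 × Bool × Bool

/-- The normals of the dodecahedron. -/
noncomputable def nD : ID → E3
  | (0, b, d) => !₂[0, sg b / Ld, sg d * goldenRatio / Ld]
  | (1, b, d) => !₂[sg b / Ld, sg d * goldenRatio / Ld, 0]
  | (2, b, d) => !₂[sg d * goldenRatio / Ld, 0, sg b / Ld]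

/-- The first vectors of the frames of the faces of the dodecahedron. -/
noncomputable def eD : ID → E3
  | (0, _, _) => !₂[1, 0, 0]
  | (1, _, _) => !₂[0, 0, 1]
  | (2, _, _) => !₂[0, 1, 0]

/-- The second vectors of the frames of the faces of the dodecahedron. -/
noncomputable def fD : ID → E3
  | (0, b, d) => !₂[0, sg b * goldenRatio / Ld, - sg d / Ld]
  | (1, b, d) => !₂[sg b * goldenRatio / Ld, - sg d / Ld, 0]
  | (2, b, d) => !₂[- sg d / Ld, 0, sg b * goldenRatio / Ld]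

/-- The regular pentagon of inradius `a0`, with a side below. -/
def Pen : Set (ℝ × ℝ) :=
  {w | ∀ k : Fin 5, w.1 * cos (- (π / 2) + k * (2 * π / 5)) +
    w.2 * sin (- (π / 2) + k * (2 * π / 5)) ≤ a0}

/-- The regular dodecahedron of inradius one, as in the frozen statement of the problem. -/
def Dod : Set E3 :=
  {x | |x 1| + goldenRatio * |x 2| ≤ √(1 + goldenRatio ^ 2) ∧
    |x 0| + goldenRatio * |x 1| ≤ √(1 + goldenRatio ^ 2) ∧
    goldenRatio * |x 0| + |x 2| ≤ √(1 + goldenRatio ^ 2)}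

/-! ## Facts about the constants -/

theorem s5_sq : √5 ^ 2 = 5 := Real.sq_sqrt (by norm_num)

theorem s5_lo : (2.236 : ℝ) < √5 := by
  rw [show (2.236 : ℝ) = √(2.236 ^ 2) by rw [Real.sqrt_sq (by norm_num)]]
  exact Real.sqrt_lt_sqrt (by norm_num) (by norm_num)

theorem s5_hi : √5 < (2.23607 : ℝ) := by
  rw [show (2.23607 : ℝ) = √(2.23607 ^ 2) by rw [Real.sqrt_sq (by norm_num)]]
  exact Real.sqrt_lt_sqrt (by norm_num) (by norm_num)

theorem R_sq : R ^ 2 = 15 - 6 * √5 := Real.sq_sqrt (by linarith [s5_hi])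

theorem R_sq' : R ^ 2 = 1 + rv ^ 2 := by
  rw [R_sq, rv]
  nlinarith [s5_sq]

theorem R_pos : 0 < R := Real.sqrt_pos.mpr (by linarith [s5_hi])

theorem R_lo : (1.2584 : ℝ) < R := by
  have h1 := R_sq
  nlinarith [s5_lo, s5_hi, R_pos]

theorem R_hi : R < (1.2586 : ℝ) := by
  have h1 := R_sq
  nlinarith [s5_lo, s5_hi, R_pos]

theorem R_one : 1 < R := by linarith [R_lo]

theorem rv_lo : (0.7639 : ℝ) < rv := by
  rw [rv]
  linarith [s5_hi]

theorem rv_hi : rv < (0.764 : ℝ) := by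
  rw [rv]
  linarith [s5_lo]

theorem rv_pos : 0 < rv := by linarith [rv_lo]

theorem a0_lo : (0.618 : ℝ) < a0 := by
  rw [a0]
  linarith [s5_lo]

theorem a0_hi : a0 < (0.6181 : ℝ) := by
  rw [a0]
  linarith [s5_hi]

theorem a0_pos : 0 < a0 := by linarith [a0_lo]

theorem a0_lt_rv : a0 < rv := by linarith [a0_hi, rv_lo]

theorem W0_eq : W0 = 1 + a0 ^ 2 := by
  rw [W0, a0]
  nlinarith [s5_sq]

theorem W0_lo : (1.3819 : ℝ) < W0 := by
  rw [W0]
  linarith [s5_hi]

theorem W0_hi : W0 < (1.382 : ℝ) := by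
  rw [W0]
  linarith [s5_lo]

theorem W0_lt : W0 < R ^ 2 := by
  rw [R_sq]
  linarith [W0_hi, s5_hi]

theorem cos36_eq : cos (π / 5) = (1 + √5) / 4 := Real.cos_pi_div_five

/-- The vertex of the face: `a0 / cos 36° = rv`. -/
theorem a0_div_cos : a0 / cos (π / 5) = rv := by
  rw [cos36_eq, a0, rv, div_eq_iff (by positivity)]
  nlinarith [s5_sq]

theorem arccos_a0 : arccos (a0 / rv) = π / 5 := by
  have hc : 0 < cos (π / 5) := by
    rw [cos36_eq]
    positivity
  have h1 : a0 / rv = cos (π / 5) := by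
    rw [← a0_div_cos, div_div_eq_mul_div, mul_comm, mul_div_assoc, div_self a0_pos.ne', mul_one]
  rw [h1]
  exact arccos_cos (by positivity) (by linarith [Real.pi_pos])

theorem cc_pos (r : ℝ) : 0 < cc r := Real.sqrt_pos.mpr (by positivity)

theorem cc_one (r : ℝ) : 1 ≤ cc r := by
  rw [cc, Real.one_le_sqrt]
  nlinarith [sq_nonneg r]

theorem cc_sq (r : ℝ) : cc r ^ 2 = 1 + r ^ 2 := Real.sq_sqrt (by positivity)

theorem cc_rv : cc rv = R := by
  rw [cc, ← R_sq', Real.sqrt_sq R_pos.le]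

theorem cc_zero : cc 0 = 1 := by simp [cc]

end Pool.Agent.SDC
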