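import Pool.Agent.SDC.Targets

set_option autoImplicit false

/-!
# SDC: target ALP, the multiplier of the angle is not positive
-/

open MeasureTheory Set Real

namespace Pool.Agent.SDC

theorem ALP_A_lo : (0.2015 : ℝ) < R ^ 2 - W0 := by
  rw [R_sq]
  linarith [W0_hi, s5_hi]

theorem ALP_A_hi : R ^ 2 - W0 < (0.2022 : ℝ) := by
  rw [R_sq]
  linarith [W0_lo, s5_lo]

theorem ALP_R2_lo : (1.5835 : ℝ) < R ^ 2 := by
  rw [R_sq]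
  linarith [s5_hi]

theorem ALP_R2_hi : R ^ 2 < (1.584 : ℝ) := by
  rw [R_sq]
  linarith [s5_lo]

theorem ALP_R3_lo : (1.9926 : ℝ) < R ^ 3 := by
  have h : R ^ 3 = R ^ 2 * R := by ring
  rw [h]
  nlinarith [ALP_R2_lo, R_lo]

theorem ALP_R3_hi : R ^ 3 < (1.994 : ℝ) := by
  have h : R ^ 3 = R ^ 2 * R := by ring
  rw [h]
  nlinarith [ALP_R2_hi, R_hi, R_pos]

/-- The inequality for `t ^ 2 ≤ W0`. -/
theorem ALP_case1 {t : ℝ} (h1 : 1 ≤ t) (h2 : t ≤ 1.1756) :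
    W0 * (R ^ 3 - 3 * R * t ^ 2 + 2 * t ^ 3) + t ^ 3 * (R ^ 2 - 1) ≤ R * (R ^ 2 - 1) * W0 := by
  have hW := W0_lo
  have hW' := W0_hi
  have hR := R_lo
  have hR' := R_hi
  have hR2 := ALP_R2_lo
  have hR2' := ALP_R2_hi
  have hR3 := ALP_R3_lo
  have hR3' := ALP_R3_hi
  obtain ⟨a, ha⟩ : ∃ a : ℝ, a = 2 * W0 + R ^ 2 - 1 := ⟨_, rfl⟩
  obtain ⟨b, hb⟩ : ∃ b : ℝ, b = 3 * R * W0 := ⟨_, rfl⟩
  obtain ⟨d, hd⟩ : ∃ d : ℝ, d = W0 * R ^ 3 := ⟨_, rfl⟩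
  have ha1 : 3.347 < a := by rw [ha]; linarith
  have ha2 : a < 3.348 := by rw [ha]; linarith
  have hb1 : 5.2169 < b := by rw [hb]; nlinarith
  have hb2 : b < 5.219 := by rw [hb]; nlinarith
  have hd2 : d < 2.756 := by rw [hd]; nlinarith
  have e : W0 * (R ^ 3 - 3 * R * t ^ 2 + 2 * t ^ 3) + t ^ 3 * (R ^ 2 - 1) =
      a * t ^ 3 - b * t ^ 2 + d := by
    rw [ha, hb, hd]
    ring
  rw [e]
  have hr : 1.0146 < R * (R ^ 2 - 1) * W0 := by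
    have q1 : 0.7342 < R * (R ^ 2 - 1) := by nlinarith
    nlinarith
  -- convexity
  have hc : 0 ≤ a * (1 + 1.1756 + t) - b := by nlinarith
  have hk : 0 ≤ (t - 1) * (1.1756 - t) * (a * (1 + 1.1756 + t) - b) :=
    mul_nonneg (mul_nonneg (by linarith) (by linarith)) hc
  have e2 : (0.1756 : ℝ) * (a * t ^ 3 - b * t ^ 2 + d) = (a - b + d) * (1.1756 - t) +
      (a * 1.1756 ^ 3 - b * 1.1756 ^ 2 + d) * (t - 1) -
      0.1756 * ((t - 1) * (1.1756 - t) * (a * (1 + 1.1756 + t) - b)) := by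
    ring
  have f1 : a - b + d ≤ 1 := by linarith
  have f2 : a * 1.1756 ^ 3 - b * 1.1756 ^ 2 + d ≤ 1 := by
    norm_num
    linarith
  have g1 : (a - b + d) * (1.1756 - t) ≤ 1 * (1.1756 - t) :=
    mul_le_mul_of_nonneg_right f1 (by linarith)
  have g2 : (a * 1.1756 ^ 3 - b * 1.1756 ^ 2 + d) * (t - 1) ≤ 1 * (t - 1) :=
    mul_le_mul_of_nonneg_right f2 (by linarith)
  linarith

/-- The inequality for `W0 ≤ t ^ 2`. -/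
theorem ALP_case2 {t Q : ℝ} (h1 : 1 ≤ t) (h2 : t ≤ R) (h3 : W0 ≤ t ^ 2)
    (hQ : -(R ^ 2 - W0) ^ 2 + 6 * (R ^ 2 - W0) * (t ^ 2 - W0) + 3 * (t ^ 2 - W0) ^ 2 ≤
      8 * (R ^ 2 - W0) * Q) :
    W0 * (R ^ 3 - 3 * R * t ^ 2 + 2 * t ^ 3) + t ^ 3 * (R ^ 2 - 1) ≤
      R * (R ^ 2 - 1) * (W0 + Q) := by
  have hW := W0_lo
  have hW' := W0_hi
  have hR := R_lo
  have hR' := R_hi
  have hR2 := ALP_R2_lo
  have hR2' := ALP_R2_hi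
  have hA := ALP_A_lo
  have hA' := ALP_A_hi
  obtain ⟨A, hAe⟩ : ∃ A : ℝ, A = R ^ 2 - W0 := ⟨_, rfl⟩
  obtain ⟨e, he⟩ : ∃ e : ℝ, e = R ^ 2 - t ^ 2 := ⟨_, rfl⟩
  rw [← hAe] at hQ hA hA'
  have hA0 : 0 < A := by linarith
  have he0 : 0 ≤ e := by rw [he]; nlinarith
  have heA : e ≤ A := by rw [he, hAe]; linarith
  have ht2 : t ^ 2 = R ^ 2 - e := by rw [he]; ring
  -- upper bound for `t`
  have b1 : 8 * R ^ 3 * t ≤ 3 * R ^ 4 + 6 * R ^ 2 * t ^ 2 - t ^ 4 := by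
    have : 0 ≤ (R - t) ^ 3 * (3 * R + t) := by
      have h4 : 0 ≤ R - t := by linarith
      positivity
    nlinarith [this]
  have b2 : 8 * R ^ 3 * t ^ 3 ≤ 8 * R ^ 6 - 12 * R ^ 4 * e + 3 * R ^ 2 * e ^ 2 + e ^ 3 := by
    have h5 : (8 * R ^ 3 * t) * t ^ 2 ≤ (3 * R ^ 4 + 6 * R ^ 2 * t ^ 2 - t ^ 4) * t ^ 2 :=
      mul_le_mul_of_nonneg_right b1 (sq_nonneg t)
    have h6 : (3 * R ^ 4 + 6 * R ^ 2 * t ^ 2 - t ^ 4) * t ^ 2 =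
        8 * R ^ 6 - 12 * R ^ 4 * e + 3 * R ^ 2 * e ^ 2 + e ^ 3 := by
      rw [he]
      ring
    have h7 : (8 * R ^ 3 * t) * t ^ 2 = 8 * R ^ 3 * t ^ 3 := by ring
    linarith
  have b3 : 8 * A * R ^ 2 - 12 * A * e + 3 * e ^ 2 ≤ 8 * A * (W0 + Q) := by
    have h8 : -A ^ 2 + 6 * A * (t ^ 2 - W0) + 3 * (t ^ 2 - W0) ^ 2 =
        8 * A * R ^ 2 - 12 * A * e + 3 * e ^ 2 - 8 * A * W0 := by
      have : t ^ 2 - W0 = A - e := by rw [ht2, hAe]; ring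
      rw [this]
      have h9 : W0 = R ^ 2 - A := by rw [hAe]; ring
      rw [h9]
      ring
    linarith
  obtain ⟨a, ha⟩ : ∃ a : ℝ, a = 2 * W0 + R ^ 2 - 1 := ⟨_, rfl⟩
  have ha2 : a < 3.348 := by rw [ha]; linarith
  have ha0 : 0 < a := by rw [ha]; linarith
  -- the quadratic coefficient
  have q : 0 ≤ 3 * R ^ 4 * (R ^ 2 - 1) - A * a * (3 * R ^ 2 + e) := by
    have q1 : A * a ≤ 0.677 := by nlinarith
    have q2 : 3 * R ^ 2 + e ≤ 4.9545 := by linarith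
    have q3 : A * a * (3 * R ^ 2 + e) ≤ 0.677 * 4.9545 :=
      mul_le_mul q1 q2 (by positivity) (by norm_num)
    have q4 : 2.5 < R ^ 4 := by
      have : R ^ 4 = R ^ 2 * R ^ 2 := by ring
      rw [this]
      nlinarith
    nlinarith
  have p1 : R ^ 4 * (R ^ 2 - 1) * (8 * A * R ^ 2 - 12 * A * e + 3 * e ^ 2) ≤
      R ^ 4 * (R ^ 2 - 1) * (8 * A * (W0 + Q)) :=
    mul_le_mul_of_nonneg_left b3 (mul_nonneg (by positivity) (by linarith))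
  have p2 : A * a * (8 * R ^ 3 * t ^ 3) ≤
      A * a * (8 * R ^ 6 - 12 * R ^ 4 * e + 3 * R ^ 2 * e ^ 2 + e ^ 3) :=
    mul_le_mul_of_nonneg_left b2 (by positivity)
  have p3 : 0 ≤ e ^ 2 * (3 * R ^ 4 * (R ^ 2 - 1) - A * a * (3 * R ^ 2 + e)) :=
    mul_nonneg (sq_nonneg e) q
  have hpos : 0 < 8 * A * R ^ 3 := by
    have := R_pos
    positivity
  have fin : 0 ≤ (8 * A * R ^ 3) * (R * (R ^ 2 - 1) * (W0 + Q) -
      (W0 * (R ^ 3 - 3 * R * t ^ 2 + 2 * t ^ 3) + t ^ 3 * (R ^ 2 - 1))) := by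
    have i1 : (8 * A * R ^ 3) * (R * (R ^ 2 - 1) * (W0 + Q) -
      (W0 * (R ^ 3 - 3 * R * t ^ 2 + 2 * t ^ 3) + t ^ 3 * (R ^ 2 - 1))) =
      R ^ 4 * (R ^ 2 - 1) * (8 * A * (W0 + Q)) - A * a * (8 * R ^ 3 * t ^ 3) -
        8 * A * R ^ 3 * W0 * (R ^ 3 - 3 * R * t ^ 2) := by
      rw [ha]
      ring
    have i2 : R ^ 4 * (R ^ 2 - 1) * (8 * A * R ^ 2 - 12 * A * e + 3 * e ^ 2) -
        A * a * (8 * R ^ 6 - 12 * R ^ 4 * e + 3 * R ^ 2 * e ^ 2 + e ^ 3) -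
        8 * A * R ^ 3 * W0 * (R ^ 3 - 3 * R * t ^ 2) =
        e ^ 2 * (3 * R ^ 4 * (R ^ 2 - 1) - A * a * (3 * R ^ 2 + e)) := by
      rw [ha, ht2]
      ring
    rw [i1]
    linarith
  have := (mul_nonneg_iff_of_pos_left hpos).1 fin
  linarith

/-- The lower bound for `Q`. -/
theorem ALP_Q {t : ℝ} (h1 : W0 ≤ t ^ 2) (h2 : t ^ 2 ≤ R ^ 2) :
    -(R ^ 2 - W0) ^ 2 + 6 * (R ^ 2 - W0) * (t ^ 2 - W0) + 3 * (t ^ 2 - W0) ^ 2 ≤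
      8 * (R ^ 2 - W0) * (√(max (t ^ 2 - W0) 0) ^ 3 / √(R ^ 2 - W0)) := by
  have hA : 0 < R ^ 2 - W0 := by linarith [ALP_A_lo]
  rw [max_eq_left (by linarith)]
  obtain ⟨Y, hY⟩ : ∃ Y : ℝ, Y = √(t ^ 2 - W0) := ⟨_, rfl⟩
  obtain ⟨Z, hZ⟩ : ∃ Z : ℝ, Z = √(R ^ 2 - W0) := ⟨_, rfl⟩
  have hY0 : 0 ≤ Y := by rw [hY]; exact Real.sqrt_nonneg _
  have hZ0 : 0 < Z := by rw [hZ]; exact Real.sqrt_pos.mpr hA
  have hY2 : Y ^ 2 = t ^ 2 - W0 := by rw [hY]; exact Real.sq_sqrt (by linarith)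
  have hZ2 : Z ^ 2 = R ^ 2 - W0 := by rw [hZ]; exact Real.sq_sqrt hA.le
  have hYZ : Y ≤ Z := by rw [hY, hZ]; exact Real.sqrt_le_sqrt (by linarith)
  rw [← hY, ← hZ, ← hY2, ← hZ2]
  have e : 8 * Z ^ 2 * (Y ^ 3 / Z) = 8 * Z * Y ^ 3 := by
    field_simp
  rw [e]
  have : 0 ≤ (Z - Y) ^ 3 * (Z + 3 * Y) := by
    have h4 : 0 ≤ Z - Y := by linarith
    positivity
  nlinarith [this]

/-- ALP. -/
theorem p_ALP (hHCL : T_HCL) (hBF : T_BF) (hKAP : T_KAP) : T_ALP := by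
  intro t h1 h2
  have ht0 : 0 < t := by linarith
  obtain ⟨k0, k1⟩ := hKAP t h1 h2
  have hB := hBF.2.2 t R ht0 h2.le
  have hH := hHCL.2 t (kap t) (bet t) 1 rv ht0 one_pos rv_pos.le
  have hrv : rv ^ 2 = R ^ 2 - 1 := by rw [R_sq']; ring
  have hB1 : Bf t 1 = 0 := by
    unfold Bf
    rw [if_pos h1]
  obtain ⟨Q, hQ⟩ : ∃ Q : ℝ, Q = √(max (t ^ 2 - W0) 0) ^ 3 / √(R ^ 2 - W0) := ⟨_, rfl⟩
  have hb : bet t = R * ((1 - kap t) * W0 + Q) - t ^ 3 := by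
    rw [hQ]
    rfl
  have ha : alp t = Bf t R - kap t * rv ^ 2 / 2 - bet t * (1 - 1 / R) := by
    unfold alp
    rw [hH, cc_rv, div_one, hB1]
    ring
  -- the main inequality
  have main : W0 * (R ^ 3 - 3 * R * t ^ 2 + 2 * t ^ 3) + t ^ 3 * (R ^ 2 - 1) ≤
      R * (R ^ 2 - 1) * (W0 + Q) := by
    by_cases hc : t ^ 2 ≤ W0
    · have hQ0 : Q = 0 := by
        rw [hQ, max_eq_right (by linarith)]
        simp
      rw [hQ0, add_zero]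
      refine ALP_case1 h1 ?_
      have := W0_hi
      nlinarith
    · push Not at hc
      refine ALP_case2 h1 h2.le hc.le ?_
      rw [hQ]
      exact ALP_Q hc.le (by nlinarith)
  have hR := R_pos
  have hR1 := R_one
  have hW := W0_lo
  have hRh := R_hi
  have hpos : 0 < R ^ 2 - 1 := by nlinarith
  rw [hrv] at k1 ha
  rw [le_div_iff₀ hpos] at k1
  rw [ha, hb, hB]
  rw [hB] at k1
  -- multiply by `R * (R + 1)`
  have c1 : 0 ≤ W0 - (R + 1) / 2 := by linarith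
  have e1 : (R ^ 2 / 2 + t ^ 3 / R - 3 / 2 * t ^ 2 - kap t * (R ^ 2 - 1) / 2 -
      (R * ((1 - kap t) * W0 + Q) - t ^ 3) * (1 - 1 / R)) * (R * (R + 1)) =
      (W0 * (R ^ 3 - 3 * R * t ^ 2 + 2 * t ^ 3) + t ^ 3 * (R ^ 2 - 1) -
        R * (R ^ 2 - 1) * (W0 + Q)) +
      (kap t * (R ^ 2 - 1) - 2 * (R ^ 2 / 2 + t ^ 3 / R - 3 / 2 * t ^ 2)) *
        (R * (W0 - (R + 1) / 2)) := by
    field_simp
    ring
  have e2 : (kap t * (R ^ 2 - 1) - 2 * (R ^ 2 / 2 + t ^ 3 / R - 3 / 2 * t ^ 2)) *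
        (R * (W0 - (R + 1) / 2)) ≤ 0 :=
    mul_nonpos_of_nonpos_of_nonneg (by linarith) (by positivity)
  have e3 : (R ^ 2 / 2 + t ^ 3 / R - 3 / 2 * t ^ 2 - kap t * (R ^ 2 - 1) / 2 -
      (R * ((1 - kap t) * W0 + Q) - t ^ 3) * (1 - 1 / R)) * (R * (R + 1)) ≤ 0 := by
    rw [e1]
    linarith
  have hp : 0 < R * (R + 1) := by positivity
  exact nonpos_of_mul_nonpos_left e3 hp

end Pool.Agent.SDC
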