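import Pool.Agent.SDC.Targets

set_option autoImplicit false

/-!
# SDC: proof of MP (polar and Cartesian coordinates)
-/

open MeasureTheory Set Real
open scoped RealInnerProductSpace

namespace Pool.Agent.SDC

/-- The integral of an indicator of an open interval. -/
theorem MP_aux1 (f : ℝ → ℝ) {a b : ℝ} (h : a ≤ b) :
    ∫ x, (Ioo a b).indicator f x = ∫ x in a..b, f x := by
  rw [integral_indicator measurableSet_Ioo, intervalIntegral.integral_of_le h,
    integral_Ioc_eq_integral_Ioo]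

/-- The region in Cartesian coordinates. -/
def MP_D (ρ a : ℝ) : Set (ℝ × ℝ) := {p | a < p.1 ∧ 0 < p.2 ∧ p.1 ^ 2 + p.2 ^ 2 < ρ ^ 2}

/-- The region in polar coordinates. -/
def MP_E (ρ a : ℝ) : Set (ℝ × ℝ) := {p | 0 < p.2 ∧ p.2 < π / 2 ∧ a < p.1 * cos p.2 ∧ p.1 < ρ}

theorem MP_Dm (ρ a : ℝ) : MeasurableSet (MP_D ρ a) := by
  have h1 : IsOpen {p : ℝ × ℝ | a < p.1} := isOpen_lt continuous_const continuous_fst
  have h2 : IsOpen {p : ℝ × ℝ | 0 < p.2} := isOpen_lt continuous_const continuous_snd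
  have h3 : IsOpen {p : ℝ × ℝ | p.1 ^ 2 + p.2 ^ 2 < ρ ^ 2} :=
    isOpen_lt (by fun_prop) continuous_const
  exact (h1.inter (h2.inter h3)).measurableSet

theorem MP_Em (ρ a : ℝ) : MeasurableSet (MP_E ρ a) := by
  have h1 : IsOpen {p : ℝ × ℝ | 0 < p.2} := isOpen_lt continuous_const continuous_snd
  have h2 : IsOpen {p : ℝ × ℝ | p.2 < π / 2} := isOpen_lt continuous_snd continuous_const
  have h3 : IsOpen {p : ℝ × ℝ | a < p.1 * cos p.2} := isOpen_lt continuous_const (by fun_prop)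
  have h4 : IsOpen {p : ℝ × ℝ | p.1 < ρ} := isOpen_lt continuous_fst continuous_const
  exact (h1.inter (h2.inter (h3.inter h4))).measurableSet

theorem MP_Di {ρ a : ℝ} (ha : 0 < a) (hρ : a < ρ) {F : ℝ × ℝ → ℝ} (hF : Continuous F) :
    Integrable ((MP_D ρ a).indicator F) := by
  rw [integrable_indicator_iff (MP_Dm ρ a)]
  have hK : IsCompact ((Icc a ρ) ×ˢ (Icc (0 : ℝ) ρ)) := isCompact_Icc.prod isCompact_Icc
  refine (hF.continuousOn.integrableOn_compact hK).mono_set ?_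
  rintro ⟨x, y⟩ ⟨h1, h2, h3⟩
  simp only at h1 h2 h3
  have hx : x ≤ ρ := by
    by_contra hcon
    nlinarith [not_le.1 hcon]
  have hy : y ≤ ρ := by
    by_contra hcon
    nlinarith [not_le.1 hcon]
  exact ⟨⟨h1.le, hx⟩, ⟨h2.le, hy⟩⟩

theorem MP_Ei {ρ a : ℝ} (ha : 0 < a) {F : ℝ × ℝ → ℝ} (hF : Continuous F) :
    Integrable ((MP_E ρ a).indicator F) := by
  rw [integrable_indicator_iff (MP_Em ρ a)]
  have hK : IsCompact ((Icc (0 : ℝ) ρ) ×ˢ (Icc (0 : ℝ) (π / 2))) :=
    isCompact_Icc.prod isCompact_Icc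
  refine (hF.continuousOn.integrableOn_compact hK).mono_set ?_
  rintro ⟨x, y⟩ ⟨h1, h2, h3, h4⟩
  simp only at h1 h2 h3 h4
  have hc : 0 < cos y := cos_pos_of_mem_Ioo ⟨by linarith [pi_pos], h2⟩
  have hx : 0 ≤ x := by
    by_contra hcon
    have := mul_neg_of_neg_of_pos (not_le.1 hcon) hc
    linarith
  exact ⟨⟨hx, h4.le⟩, ⟨h1.le, h2.le⟩⟩

/-- The Cartesian side. -/
theorem MP_right {G : ℝ → ℝ} (hG : Continuous G) {ρ a : ℝ} (ha : 0 < a) (hρ : a < ρ) :
    ∫ p, (MP_D ρ a).indicator (fun p : ℝ × ℝ => G √(p.1 ^ 2 + p.2 ^ 2)) p =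
      ∫ u in a..ρ, ∫ y in (0 : ℝ)..√(ρ ^ 2 - u ^ 2), G √(u ^ 2 + y ^ 2) := by
  have hF : Continuous fun p : ℝ × ℝ => G √(p.1 ^ 2 + p.2 ^ 2) := by fun_prop
  have hi := MP_Di ha hρ hF
  rw [Measure.volume_eq_prod] at hi ⊢
  rw [integral_prod _ hi, ← MP_aux1 _ hρ.le]
  refine integral_congr_ae (Filter.Eventually.of_forall fun u => ?_)
  simp only
  by_cases hu : u ∈ Ioo a ρ
  · rw [indicator_of_mem hu, ← MP_aux1 _ (sqrt_nonneg _)]
    refine integral_congr_ae (Filter.Eventually.of_forall fun y => ?_)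
    simp only
    by_cases hy : y ∈ Ioo 0 √(ρ ^ 2 - u ^ 2)
    · rw [indicator_of_mem hy, indicator_of_mem]
      refine ⟨hu.1, hy.1, ?_⟩
      have := (Real.lt_sqrt hy.1.le).1 hy.2
      simp only
      linarith
    · rw [indicator_of_notMem hy, indicator_of_notMem]
      rintro ⟨h1, h2, h3⟩
      simp only at h1 h2 h3
      exact hy ⟨h2, (Real.lt_sqrt h2.le).2 (by linarith)⟩
  · rw [indicator_of_notMem hu]
    have h0 : ∀ y : ℝ, (MP_D ρ a).indicator (fun p : ℝ × ℝ => G √(p.1 ^ 2 + p.2 ^ 2)) (u, y) =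
        0 := by
      intro y
      rw [indicator_of_notMem]
      rintro ⟨h1, h2, h3⟩
      simp only at h1 h2 h3
      refine hu ⟨h1, ?_⟩
      by_contra hcon
      nlinarith [not_lt.1 hcon]
    simp only [h0, integral_zero]

/-- The polar side. -/
theorem MP_left {G : ℝ → ℝ} (hG : Continuous G) {ρ a : ℝ} (ha : 0 < a) (hρ : a < ρ) :
    ∫ p, (MP_E ρ a).indicator (fun p : ℝ × ℝ => G p.1 * p.1) p =
      ∫ ψ in (0 : ℝ)..arccos (a / ρ), (∫ s in (a / cos ψ)..ρ, G s * s) := by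
  have hF : Continuous fun p : ℝ × ℝ => G p.1 * p.1 := by fun_prop
  have hi := MP_Ei (ρ := ρ) ha hF
  have hρ0 : 0 < ρ := ha.trans hρ
  have hq0 : 0 < a / ρ := div_pos ha hρ0
  have hq1 : a / ρ ≤ 1 := (div_le_one hρ0).2 hρ.le
  have hθ : arccos (a / ρ) < π / 2 := arccos_lt_pi_div_two.2 hq0
  have hcθ : cos (arccos (a / ρ)) = a / ρ := cos_arccos (by linarith) hq1
  rw [Measure.volume_eq_prod] at hi ⊢
  rw [integral_prod_symm _ hi, ← MP_aux1 _ (arccos_nonneg _)]
  refine integral_congr_ae (Filter.Eventually.of_forall fun ψ => ?_)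
  simp only
  by_cases hψ : ψ ∈ Ioo 0 (arccos (a / ρ))
  · have hc1 : a / ρ < cos ψ := by
      rw [← hcθ]
      exact cos_lt_cos_of_nonneg_of_le_pi_div_two hψ.1.le hθ.le hψ.2
    have hc : 0 < cos ψ := hq0.trans hc1
    have hle : a / cos ψ ≤ ρ := by
      rw [div_le_iff₀ hc]
      rw [div_lt_iff₀ hρ0] at hc1
      linarith
    rw [indicator_of_mem hψ, ← MP_aux1 _ hle]
    refine integral_congr_ae (Filter.Eventually.of_forall fun s => ?_)
    simp only
    by_cases hs : s ∈ Ioo (a / cos ψ) ρ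
    · rw [indicator_of_mem hs, indicator_of_mem]
      exact ⟨hψ.1, hψ.2.trans hθ, (div_lt_iff₀ hc).1 hs.1, hs.2⟩
    · rw [indicator_of_notMem hs, indicator_of_notMem]
      rintro ⟨h1, h2, h3, h4⟩
      exact hs ⟨(div_lt_iff₀ hc).2 h3, h4⟩
  · rw [indicator_of_notMem hψ]
    have h0 : ∀ s : ℝ, (MP_E ρ a).indicator (fun p : ℝ × ℝ => G p.1 * p.1) (s, ψ) = 0 := by
      intro s
      rw [indicator_of_notMem]
      rintro ⟨h1, h2, h3, h4⟩
      simp only at h1 h2 h3 h4
      refine hψ ⟨h1, ?_⟩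
      by_contra hcon
      have hc : 0 < cos ψ := cos_pos_of_mem_Ioo ⟨by linarith [pi_pos], h2⟩
      have hc1 : cos ψ ≤ a / ρ := by
        rw [← hcθ]
        exact cos_le_cos_of_nonneg_of_le_pi (arccos_nonneg _) (by linarith [pi_pos])
          (not_lt.1 hcon)
      have h5 : s * cos ψ < ρ * cos ψ := mul_lt_mul_of_pos_right h4 hc
      have h6 : ρ * cos ψ ≤ ρ * (a / ρ) := mul_le_mul_of_nonneg_left hc1 hρ0.le
      have h7 : ρ * (a / ρ) = a := by field_simp
      linarith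
    simp only [h0, integral_zero]

/-- MP. -/
theorem p_MP : T_MP := by
  intro G hG ρ a ha hρ
  rw [← MP_left hG ha hρ, ← MP_right hG ha hρ, ← integral_comp_polarCoord_symm
    ((MP_D ρ a).indicator fun p : ℝ × ℝ => G √(p.1 ^ 2 + p.2 ^ 2))]
  have h1 : ∀ p ∈ polarCoord.target, p.1 • (MP_D ρ a).indicator
      (fun p : ℝ × ℝ => G √(p.1 ^ 2 + p.2 ^ 2)) (polarCoord.symm p) =
        (MP_E ρ a).indicator (fun p : ℝ × ℝ => G p.1 * p.1) p := by
    rintro ⟨s, ψ⟩ hp
    rw [polarCoord_target] at hp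
    obtain ⟨hs, hψ⟩ := hp
    simp only [mem_Ioi, mem_Ioo] at hs hψ
    have hsq : (s * cos ψ) ^ 2 + (s * sin ψ) ^ 2 = s ^ 2 := by
      nlinarith [sin_sq_add_cos_sq ψ]
    by_cases hE : (s, ψ) ∈ MP_E ρ a
    · rw [indicator_of_mem hE, indicator_of_mem]
      · simp only [polarCoord_symm_apply, hsq, sqrt_sq hs.le, smul_eq_mul]
        ring
      · obtain ⟨e1, e2, e3, e4⟩ := hE
        simp only at e1 e2 e3 e4
        refine ⟨?_, ?_, ?_⟩
        · simpa [polarCoord_symm_apply] using e3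
        · simp only [polarCoord_symm_apply]
          exact mul_pos hs (sin_pos_of_pos_of_lt_pi e1 hψ.2)
        · simp only [polarCoord_symm_apply, hsq]
          nlinarith
    · rw [indicator_of_notMem hE, indicator_of_notMem, smul_zero]
      rintro ⟨e1, e2, e3⟩
      simp only [polarCoord_symm_apply, hsq] at e1 e2 e3
      apply hE
      have hsin : 0 < sin ψ := by
        by_contra hcon
        have := mul_nonpos_of_nonneg_of_nonpos hs.le (not_lt.1 hcon)
        linarith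
      have hcos : 0 < cos ψ := by
        by_contra hcon
        have := mul_nonpos_of_nonneg_of_nonpos hs.le (not_lt.1 hcon)
        linarith
      have hψ0 : 0 < ψ := by
        by_contra hcon
        have := sin_nonpos_of_nonpos_of_neg_pi_le (not_lt.1 hcon) hψ.1.le
        linarith
      have hψ1 : ψ < π / 2 := by
        by_contra hcon
        have := cos_nonpos_of_pi_div_two_le_of_le (not_lt.1 hcon)
          (by linarith [hψ.2, pi_pos] : ψ ≤ π + π / 2)
        linarith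
      refine ⟨hψ0, hψ1, e1, ?_⟩
      simp only
      nlinarith [ha.trans hρ]
  rw [setIntegral_congr_fun polarCoord.open_target.measurableSet h1]
  symm
  refine setIntegral_eq_integral_of_forall_compl_eq_zero fun p hp => ?_
  rw [indicator_of_notMem]
  rintro ⟨e1, e2, e3, e4⟩
  apply hp
  rw [polarCoord_target]
  have hc : 0 < cos p.2 := cos_pos_of_mem_Ioo ⟨by linarith [pi_pos], e2⟩
  refine ⟨?_, ?_, ?_⟩
  · show 0 < p.1
    by_contra hcon
    have := mul_nonpos_of_nonpos_of_nonneg (not_lt.1 hcon) hc.le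
    linarith
  · linarith [pi_pos]
  · linarith [pi_pos]

end Pool.Agent.SDC
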