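import Pool.Agent.SDC.Targets2

set_option autoImplicit false

/-!
# SDC, target THR: three planes through a point have no line in common
-/

open MeasureTheory Set Real
open scoped RealInnerProductSpace

namespace Pool.Agent.SDC

/-- The projection of `d` to the complement of `u`: orthogonal to `u`, and the inner products with
the vectors orthogonal to `u` are unchanged. -/
theorem THR_proj (u d : E3) (hu : u ≠ 0) : ∃ d' : E3, ⟪u, d'⟫ = 0 ∧
    ∀ m : E3, ⟪m, u⟫ = 0 → ⟪m, d'⟫ = ⟪m, d⟫ := by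
  have huu : ⟪u, u⟫ ≠ 0 := fun h => hu (inner_self_eq_zero.mp h)
  refine ⟨d - (⟪u, d⟫ / ⟪u, u⟫) • u, ?_, ?_⟩
  · rw [inner_sub_right, inner_smul_right, div_mul_cancel₀ _ huu, sub_self]
  · intro m hm
    rw [inner_sub_right, inner_smul_right, hm, mul_zero, sub_zero]

/-- The point of `Irr` for `i`, seen from `v` and projected. -/
theorem THR_pt {ι : Type} (n : ι → E3) (h : ι → ℝ) (hI : Irr n h) (i : ι) (v u : E3)
    (hu : u ≠ 0) (hv : ⟪n i, v⟫ = h i) (hiu : ⟪n i, u⟫ = 0) : ∃ d : E3, ⟪u, d⟫ = 0 ∧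
      ⟪n i, d⟫ = 0 ∧ ∀ k, k ≠ i → ⟪n k, v⟫ = h k → ⟪n k, u⟫ = 0 → ⟪n k, d⟫ < 0 := by
  obtain ⟨y, hy, hlt⟩ := hI i
  obtain ⟨d, hd0, hd⟩ := THR_proj u (y - v) hu
  refine ⟨d, hd0, ?_, ?_⟩
  · rw [hd _ hiu, inner_sub_right, hy, hv, sub_self]
  · intro k hk hkv hku
    rw [hd _ hku, inner_sub_right, hkv]
    linarith [hlt k hk]

theorem p_THR (hL3 : T_L3) : T_THR := by
  intro ι n h hI i k l hik hil hkl v u hvi hvk hvl hui huk hul
  by_contra hu
  obtain ⟨d1, h10, h11, h1⟩ := THR_pt n h hI i v u hu hvi hui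
  obtain ⟨d2, h20, h22, h2⟩ := THR_pt n h hI k v u hu hvk huk
  obtain ⟨d3, h30, h33, h3⟩ := THR_pt n h hI l v u hu hvl hul
  exact hL3 u (n i) (n k) (n l) d1 d2 d3 hu h10 h20 h30 h11 h22 h33
    (h1 k hik.symm hvk huk) (h1 l hil.symm hvl hul) (h2 i hik hvi hui) (h2 l hkl.symm hvl hul)
    (h3 i hil hvi hui) (h3 k hkl hvk huk)

end Pool.Agent.SDC
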