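import Pool.Agent.SDC.Defs

set_option autoImplicit false

/-!
# SDC targets, part A: analysis in one variable. The proof of every target is in its docstring.

`t` is the radius of the ball, `1 ≤ t < R`. `κ = kap t`, `β = bet t`, `α = alp t`. Facts about the
constants (`R`, `rv`, `a0`, `W0`) and about `cc` are in `Defs`.
-/

open MeasureTheory Set Real
open scoped RealInnerProductSpace

namespace Pool.Agent.SDC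

/-- BF. Properties of `Bf`. PROOF. For `c > σ`, `Bf σ c = c²/2 + σ³/c - (3/2) σ²`
(`(c-σ)²(c+2σ) = c³ - 3cσ² + 2σ³`), with derivative `c - σ³/c²`; for `c < σ` it is `0`; at `c = σ`
the derivative is `0` because `0 ≤ Bf σ c ≤ K (c-σ)²` near `σ` (or glue the two one-sided
derivatives `HasDerivWithinAt.union`). Nonnegativity is clear. -/
def T_BF : Prop := (∀ σ c : ℝ, 0 < σ → 0 < c → 0 ≤ Bf σ c) ∧
  (∀ σ c : ℝ, 0 < σ → 0 < c → HasDerivAt (Bf σ) (max (c - σ ^ 3 / c ^ 2) 0) c) ∧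
  ∀ σ c : ℝ, 0 < σ → σ ≤ c → Bf σ c = c ^ 2 / 2 + σ ^ 3 / c - 3 / 2 * σ ^ 2

/-- HCL (uses BF). Closed form of `H`. PROOF. `G` is continuous (`cc` is continuous and positive).
The right side, as a function of `r`, vanishes at `0` and has the derivative `G t κ β h r * r`
(`(cc)' = r / cc`; `h³ * max (cc - (t/h)³/cc²) 0 * (r/cc) = max (h³ - t³/cc³) 0 * r` for `r ≥ 0`):
`intervalIntegral.integral_eq_sub_of_hasDerivAt`. -/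
def T_HCL : Prop := (∀ t κ β h : ℝ, Continuous (G t κ β h)) ∧
  ∀ t κ β h r : ℝ, 0 < t → 0 < h → 0 ≤ r → H t κ β h r =
    h ^ 3 * (Bf (t / h) (cc r) - Bf (t / h) 1) - κ * h ^ 3 * r ^ 2 / 2 - β * (1 - 1 / cc r)

/-- SGN (one change of sign). PROOF. If `t³/cc r³ ≤ h³` then `G = h³(1-κ) - (t³+β)/cc³` at `r` and
at `r'` (`cc` is monotone on `[0,∞)`), increasing in `cc`. Otherwise `G t κ β h r = -κh³ - β/cc³ ≤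
0`, so `0 ≤ G` forces `κ = β = 0` and then `G = max .. 0 ≥ 0` everywhere. -/
def T_SGN : Prop := ∀ t κ β h r r' : ℝ, 0 < t → 0 < h → 0 ≤ κ → 0 ≤ β → 0 ≤ r → r ≤ r' →
  0 ≤ G t κ β h r → 0 ≤ G t κ β h r'

/-- KAP (uses BF). PROOF. Let `c = cc (a0 / cos ψ)`, `0 ≤ ψ ≤ π/5`, so `1 ≤ c ≤ R`
(`a0_div_cos`, `cos` is antitone). `Bf t c * rv² ≤ Bf t R * (c² - 1)` : for `c ≤ t` clear, for
`t ≤ c ≤ R` this is `(c-t)²(c+2t) R (R²-1) ≤ (R-t)²(R+2t) c (c²-1)`. (As a function of `x = c²`,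
`f(x) = x/2 + t³/√x - (3/2)t²` for `x ≥ t²`, `0` for `x ≤ t²`, is convex and vanishes at `x = 1`, so
`f(x)/(x-1)` is monotone. Or: `(c-t)²/((c-1)(c+1))` and `(c+2t)/c`: the quotient
`(R-t)²(R+2t)/(R(R²-1))` over `(c-t)²(c+2t)/(c(c²-1))`, derivative of `log`:
`2/(c-t) + 1/(c+2t) - 1/c - 2c/(c²-1) ≥ 0` as `1/(c-t) ≥ c/(c²-1) = c/((c-1)(c+1))`, because
`c² - 1 ≥ c(c-t)`, and `1/(c-t) - c/(c²-1) + 1/(c+2t) - 1/c + 1/(c - t) - c/(c²-1) ≥ 0`, where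
`1/c - 1/(c+2t) = 2t/(c(c+2t))` and `1/(c-t) - c/(c²-1) = (ct-1)/((c-t)(c²-1)) ≥ ..`.) Here
`c² - 1 = (a0/cos ψ)²`. Integrate; the denominator of `kap` is positive. -/
def T_KAP : Prop := ∀ t : ℝ, 1 ≤ t → t < R → 0 ≤ kap t ∧ kap t ≤ 2 * Bf t R / rv ^ 2

/-- KB. PROOF. `q = √(t²-1)/rv`, `0 ≤ q < 1`, `R² = 1 + rv²`. `2 Bf t R / rv² =
(R-t)²(R+2t)/(R rv²)`, `R - t = (R²-t²)/(R+t) = rv²(1-q²)/(R+t)`. So it equals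
`rv² (1-q)²(1+q)² (R+2t)/(R (R+t)²) ≤ (1-q)² * 3 rv²/(1+R)² * (1+q)²` (`R+2t ≤ 3R`, `R+t ≥ R+1`),
and `3 rv²/(1+R)² = 3(R-1)/(R+1) ≤ 0.344`, `0.344 (1+q)² ≤ 0.688 (1+q) ≤ (2+q)/2` for `q ≤ 1`. -/
def T_KB : Prop := ∀ t : ℝ, 1 ≤ t → t < R → 2 * Bf t R / rv ^ 2 ≤
  (1 - √(t ^ 2 - 1) / rv) ^ 2 * (2 + √(t ^ 2 - 1) / rv) / 2

/-- GMN. PROOF. `q W = √(max (t²-W) 0)/√(R²-W)` is antitone on `[1, R²)` with values in `[0, q 1]`,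
`q 1 = √(t²-1)/rv`. `gg` is continuous on `[1,R²)`, for `W ≠ t²` its derivative is
`1 - κ - (3 q - q³)/2 = (1-κ) - 1 + (1-q)²(2+q)/2`, and `(1-q)²(2+q)` is antitone in `q ∈ [0,1]`, so
it is `≥ (1-q1)²(2+q1)/2 - κ ≥ 0`. Use monotonicity on `[1,t²]` and on `[t²,R²)`. -/
def T_GMN : Prop := ∀ t κ : ℝ, 1 ≤ t → t < R →
  κ ≤ (1 - √(t ^ 2 - 1) / rv) ^ 2 * (2 + √(t ^ 2 - 1) / rv) / 2 →
  MonotoneOn (gg t κ) (Ico 1 (R ^ 2))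

/-- PCL. The integral over a side. PROOF. `W = 1 + a²`, `c = √(W + y²) = cc √(a²+y²)`,
`Yv = √(rv²-a²) = √(R²-W)`, `Yt = √(max (t²-W) 0)`. The antiderivative of `c⁻³` is `y/(W c)`; the
integrand `(1 - t³/c³)₊` vanishes for `y ≤ Yt` and is `1 - t³/c³` for `y ≥ Yt`. So the integral is
`(Yv - Yt) - t³(Yv/(W R) - Yt/(W t)) - κ Yv - β Yv/(W R)` (if `Yt = 0` the terms with `Yt` vanish),
and `- Yt + t² Yt/W = Yt³/W` if `Yt² = t² - W`. Multiply out. -/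
def T_PCL : Prop := ∀ t κ β a : ℝ, 1 ≤ t → t < R → 0 < a → a < rv →
  ∫ y in (0 : ℝ)..√(rv ^ 2 - a ^ 2), G t κ β 1 √(a ^ 2 + y ^ 2) =
    √(rv ^ 2 - a ^ 2) / ((1 + a ^ 2) * R) * (R * gg t κ (1 + a ^ 2) - t ^ 3 - β)

/-- PSG (uses KAP, KB, GMN, PCL). PROOF. `bet t = R * gg t κ W0 - t³`, `W0 = 1 + a0²`; `gg t κ` is
monotone. -/
def T_PSG : Prop := ∀ t : ℝ, 1 ≤ t → t < R →
  (∀ a : ℝ, 0 < a → a ≤ a0 →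
    ∫ y in (0 : ℝ)..√(rv ^ 2 - a ^ 2), G t (kap t) (bet t) 1 √(a ^ 2 + y ^ 2) ≤ 0) ∧
  ∀ a : ℝ, a0 ≤ a → a < rv →
    0 ≤ ∫ y in (0 : ℝ)..√(rv ^ 2 - a ^ 2), G t (kap t) (bet t) 1 √(a ^ 2 + y ^ 2)

/-- SUB. PROOF. Substitution `y = a0 tan ψ`, `dy = a0/cos² ψ dψ`, `√(a0² + y²) = a0/cos ψ`;
`a0 tan (π/5) = √(rv² - a0²)` (`a0_div_cos`). -/
def T_SUB : Prop := ∀ F : ℝ → ℝ, Continuous F →
  ∫ y in (0 : ℝ)..√(rv ^ 2 - a0 ^ 2), F √(a0 ^ 2 + y ^ 2) =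
    ∫ ψ in (0 : ℝ)..(π / 5), F (a0 / cos ψ) * (a0 / cos ψ ^ 2)

/-- BET (uses PCL, SUB, BF, KAP). PROOF. By PCL and the definition of `bet`,
`∫ y in 0..Y0, G t κ β 1 √(a0²+y²) = 0`, `Y0 = √(rv²-a0²)`. By SUB this says
`∫ ψ in 0..π/5, (max (1 - t³/c³) 0 - κ) a0/cos²ψ = β ∫ ψ in 0..π/5, c⁻³ a0/cos²ψ`, `c = cc (a0/cos
ψ)`, and the last integral is positive. (a) `(c²-1) max (1 - t³/c³) 0 ≥ 2 Bf t c` for `c ≥ 1`: for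
`c ≥ t` it is `(c²-1)(c³-t³) c⁻³ ≥ (c-t)²(c+2t)/c`, i.e. `(c²-1)(c²+ct+t²) ≥ c²(c-t)(c+2t)
= c²(c² + ct - 2t²)`, i.e. `3c²t² ≥ c² + ct + t²`, true since `c, t ≥ 1`. As
`a0/cos²ψ = (c²-1)/a0`, the left side is `≥ (1/a0)(∫ 2 Bf t c - κ ∫ (c²-1)) = 0` by the definition
of `kap`. So `β ≥ 0`. (b) `G t κ β 1 rv = (1-κ) - (t³+β)/R³`. For `1 ≤ c ≤ R`:
`max (1 - t³/c³) 0 - κ ≤ ((1-κ)R³ - t³) c⁻³`: if `c ≥ t` it is `(1-κ)c³ - t³ ≤ (1-κ)R³ - t³`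
(`κ ≤ 1`, by KAP and `2 Bf t R/rv² ≤ 1`); if `c ≤ t` the left side is `-κ ≤ 0` and
`(1-κ)R³ - t³ ≥ 0`, because `κ ≤ 2 Bf t R/rv² ≤ 1 - t³/R³` (this is the inequality of (a) for
`c = R`). So `β ∫ c⁻³ .. ≤ ((1-κ)R³ - t³) ∫ c⁻³ ..`, `β ≤ (1-κ)R³ - t³`. -/
def T_BET : Prop := ∀ t : ℝ, 1 ≤ t → t < R → 0 ≤ bet t ∧ 0 ≤ G t (kap t) (bet t) 1 rv

/-- ALP (uses HCL, BF, KAP). PROOF. By HCL, `α = Bf t R - κ rv²/2 - β(1 - 1/R)` (`Bf t 1 = 0`,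
`cc rv = R`), `β = R((1-κ)W0 + Q) - t³`, `Q = √(max (t²-W0) 0)³/√(R²-W0)`. The coefficient of `κ` is
`-rv²/2 + (R-1)W0 = (R-1)(W0 - (R+1)/2) > 0` (`rv² = R²-1`), so insert `κ ≤ 2 Bf t R/rv²`. It
remains (after multiplication by `R(R+1)/(R-1)` and `R²-1 = rv²`)
`W0 (R³ - 3Rt² + 2t³) + t³(R²-1) ≤ R (R²-1)(W0 + Q)`. (i) `t² ≤ W0`, `Q = 0`: the left side `p(t)`
is a cubic polynomial; `p(t) ≤ 0.99`, `R(R²-1)W0 ≥ 1.014` (on `[1, 1.04]` and `[1.04, 1.1756]`, or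
`p'(t) = 6 W0 t (t - R) + 3 (R²-1) t²` changes sign once from `-` to `+`, `p(1) ≤ 0.886`,
`p(√W0) ≤ 0.984`). (ii) `t² = R² - e`, `0 < e ≤ A := R² - W0 = 0.2016..`: with `x = e/A`,
`Q = A (1-x)^(3/2) ≥ A (1 - (3/2)x + (3/8)x²)`, with `x' = e/R² ≤ 0.13`,
`t³ = R³(1-x')^(3/2) ≤ R³(1 - (3/2)x' + (3/8)x'² + (1/8)x'³)`. Insert: the terms of order `0`, `1`
cancel, and `(2W0 + R²-1)(3/8)(e²/R)(1 + x'/3) ≤ R(R²-1)(3/8)e²/A` (`3.35 * 1.05 ≤ 4.58`, both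
multiplied by `(3/8)e²/R`; `2W0+R²-1 ≤ 3.348`, `R²(R²-1)/A ≥ 4.58`). -/
def T_ALP : Prop := ∀ t : ℝ, 1 ≤ t → t < R → alp t ≤ 0

/-- MP (polar and Cartesian coordinates). PROOF. Both sides are the integral of
`G √(u²+y²)` over the region `{(u,y) | a < u, 0 < y, u² + y² < ρ²}`: the right side by Fubini (for
given `u ∈ (a,ρ)`, `0 < y < √(ρ²-u²)`), the left side by `integral_comp_polarCoord_symm` and Fubini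
(`u = s cos ψ`, `y = s sin ψ`: `0 < ψ < π/2`, `a/cos ψ < s < ρ`, nonempty iff `ψ < arccos (a/ρ)`).
-/
def T_MP : Prop := ∀ G : ℝ → ℝ, Continuous G → ∀ ρ a : ℝ, 0 < a → a < ρ →
  ∫ ψ in (0 : ℝ)..arccos (a / ρ), (∫ s in (a / cos ψ)..ρ, G s * s) =
    ∫ u in a..ρ, ∫ y in (0 : ℝ)..√(ρ ^ 2 - u ^ 2), G √(u ^ 2 + y ^ 2)

/-- MNT. PROOF. Let `q = a/b ∈ (0,1]`; `q = 1` is trivial. For `0 ≤ ψ ≤ arccos q`, `a/cos ψ ≤ b`, so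
the left integrand vanishes there. On `[arccos q, π/2]` substitute `ψ = φ θ = arccos (q cos θ)`,
`θ ∈ [0, π/2]`: `a/cos ψ = b/cos θ`, `φ' θ = q sin θ/√(1 - q² cos² θ) ∈ [0,1]`
(`intervalIntegral.integral_comp_mul_deriv`). The functions `ψ ↦ U (a/cos ψ)` are continuous on
`[0, π/2]` (`U` vanishes on `[ρ,∞)` and at `0 = a / cos (π/2)`). -/
def T_MNT : Prop := ∀ (U : ℝ → ℝ) (a b ρ : ℝ), Continuous U → (∀ r, 0 ≤ U r) → 0 < a → a ≤ b →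
  (∀ r, r ≤ b → U r = 0) → (∀ r, ρ ≤ r → U r = 0) →
  ∫ ψ in (0 : ℝ)..(π / 2), U (a / cos ψ) ≤ ∫ ψ in (0 : ℝ)..(π / 2), U (b / cos ψ)

/-- LOCA (uses MP, MNT). PROOF. Let `I r = ∫ s in 0..r, G s * s`, `α = I ρ ≤ 0`,
`U r = max (α - I (max r 0)) 0`. Since `G` changes sign once (from `-` to `+`) and `G ρ ≥ 0`, there
is `c ∈ [0,ρ]` with `G ≤ 0` on `[0,c)`, `G ≥ 0` on `(c,∞)` (`c` = the infimum of `{r ≥ 0 | 0 ≤ G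
r}`), `I` is antitone on `[0,c]` and monotone on `[c,∞)`, `I 0 = 0 ≥ α ≥ I c`; choose `b ∈ [0,c]`
with `I b = α` (intermediate value theorem). So `I ≥ α` on `[0,b]` and on `[ρ,∞)`, `I ≤ α` on
`[b,ρ]`. (1) `max b a ≤ ρ` case `b ≤ a < ρ`, `0 < a`: `I (a/cos ψ) ≤ α` for `ψ ≤ arccos (a/ρ)` and
`≥ α` beyond, so the left integral is `∫ ψ in 0..arccos (a/ρ), (α - I (a/cos ψ)) = ∫ u in a..ρ, P
u` by MP, where `P u = ∫ y in 0..√(ρ²-u²), G √(u²+y²)`. The right side is `∫ u in A..ρ, P u` by MP.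
As `P ≤ 0` on `(0,A]`, `P ≥ 0` on `[A,ρ)` (`P` is continuous on `[a, ρ]`), `∫ u in a..ρ, P u ≤ ∫ u
in A..ρ, P u`. (2) `a ≥ ρ`: the left integral is `0` (`a/cos ψ ≥ ρ`), the right side is `∫ u in
A..ρ, P u ≥ 0`. (3) `a < b` (so `b > 0`): MNT and (1), or (2) if `b = ρ`, for `b`. -/
def T_LOCA : Prop := ∀ (G : ℝ → ℝ) (ρ A : ℝ), Continuous G → 0 < A → A < ρ →
  (∀ r r', 0 ≤ r → r ≤ r' → 0 ≤ G r → 0 ≤ G r') → 0 ≤ G ρ → ∫ s in (0 : ℝ)..ρ, G s * s ≤ 0 →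
  (∀ a, 0 < a → a ≤ A → ∫ y in (0 : ℝ)..√(ρ ^ 2 - a ^ 2), G √(a ^ 2 + y ^ 2) ≤ 0) →
  (∀ a, A ≤ a → a < ρ → 0 ≤ ∫ y in (0 : ℝ)..√(ρ ^ 2 - a ^ 2), G √(a ^ 2 + y ^ 2)) →
  ∀ a, 0 < a →
    ∫ ψ in (0 : ℝ)..(π / 2), max ((∫ s in (0 : ℝ)..ρ, G s * s)
      - ∫ s in (0 : ℝ)..(a / cos ψ), G s * s) 0 ≤
    ∫ ψ in (0 : ℝ)..arccos (A / ρ), ((∫ s in (0 : ℝ)..ρ, G s * s)
      - ∫ s in (0 : ℝ)..(A / cos ψ), G s * s)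

/-- LOC1 (uses LOCA, HCL, SGN, KAP, BET, ALP, PSG). PROOF. LOCA for `G t κ β 1`, `ρ = rv`, `A = a0`
(`arccos_a0`). -/
def T_LOC1 : Prop := ∀ t : ℝ, 1 ≤ t → t < R → ∀ a : ℝ, 0 < a →
  ∫ ψ in (0 : ℝ)..(π / 2), max (alp t - H t (kap t) (bet t) 1 (a / cos ψ)) 0 ≤ - J0 t

/-- CMP (pointwise comparison; uses HCL). PROOF. With `c = cc r`, `c' = cc (h√h r)`,
`c'² = 1 + h³r² ≤ h²(1+r²)` (as `h²(h-1) r² ≤ (h-1)(h+1)`), so `c' ≤ h c` and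
`t³h³/c'³ ≥ t³/c³`, `β h³/c'³ ≥ β/c³`. So `G t κ β h s ≥ h³ G t κ β 1 (h√h s)` for `0 ≤ s ≤ r`
(`max (h³ - x) 0` is antitone in `x`). Integrate against `s` and substitute `s' = h√h s`. -/
def T_CMP : Prop := ∀ t κ β h r : ℝ, 0 < t → 0 ≤ β → 1 ≤ h → 0 ≤ r → r ^ 2 * h ^ 2 ≤ h + 1 →
  H t κ β 1 (h * √h * r) ≤ H t κ β h r

/-- FAR (uses KAP, KB, BET, SGN, HCL). PROOF. (i) `h ≤ R`: `H t κ β h rv - H t κ β 1 rv =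
∫ s in 0..rv, [max (h³ - t³/c³) 0 - max (1 - t³/c³) 0 - κ(h³-1)] s ≥ (h³-1) ∫ s in 0..rv,
(1_(c > t) - κ) s = (h³-1)/2 ((rv² - (t²-1)) - κ rv²) ≥ 0`, because `κ ≤ (1-q)²(2+q)/2 ≤ 1 - q²`,
`q² = (t²-1)/rv²` (KAP, KB) (or use the closed form HCL). And
`G t κ β h rv ≥ G t κ β 1 rv ≥ 0` (`t/h ≤ t < R`), so by SGN `G t κ β h ≥ 0` on `[rv,∞)` and
`H t κ β h r ≥ H t κ β h rv ≥ alp t` for `r ≥ rv`. (ii) `h ≥ R`: `G t κ β h s =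
h³(1-κ) - (t³+β)/c³ ≥ R³(1-κ) - (t³+β) = R³ G t κ β 1 rv ≥ 0` for all `s ≥ 0` (`h³ ≥ t³ ≥ t³/c³`,
`κ ≤ 1`), so `H t κ β h r ≥ 0`. -/
def T_FAR : Prop := ∀ t h : ℝ, 1 ≤ t → t < R → 1 ≤ h →
  (∀ r, rv ≤ r → alp t ≤ H t (kap t) (bet t) h r) ∧
  (R ≤ h → ∀ r, 0 ≤ r → 0 ≤ H t (kap t) (bet t) h r)

/-- LOCH (uses LOC1, CMP, FAR, ALP, BET, HCL). PROOF. If `h ≥ R` the integrand is `0` (FAR, ALP) and
`0 ≤ - J0 t` by LOC1. Let `h ≤ R`, `a' = h√h a`. For `0 ≤ ψ < π/2` let `r = a/cos ψ`. If `r ≥ rv`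
then `max (alp t - H .. h r) 0 = 0` (FAR). If `r < rv` then `r² h² ≤ h + 1` (`rv² ≤ 0.5837`, `h ≤
1.2586`), so `H .. h r ≥ H .. 1 (h√h r)` (CMP). So the integrand is at most the integrand of LOC1
for `a'`; both are continuous and bounded on `[0, π/2)` with compact support (FAR for `h` and for
`1`), hence integrable. -/
def T_LOCH : Prop := ∀ t : ℝ, 1 ≤ t → t < R → ∀ h a : ℝ, 1 ≤ h → 0 < a →
  ∫ ψ in (0 : ℝ)..(π / 2), max (alp t - H t (kap t) (bet t) h (a / cos ψ)) 0 ≤ - J0 t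

/-- OM. The solid angle of the right triangle. PROOF. `1/cc (a0/cos ψ) = cos ψ/√(cos²ψ + a0²) =
cos ψ/√(W0 - sin²ψ)` is the derivative of `arcsin (sin ψ/√W0)`; `sin (π/5)/√W0 = 1/2`:
`sin²(π/5) = 1 - ((1+√5)/4)² = (10-2√5)/16`, `W0 = (5-√5)/2`, quotient `1/4`. `arcsin (1/2) = π/6`,
`π/5 - π/6 = π/30`. -/
def T_OM : Prop := ∫ ψ in (0 : ℝ)..(π / 5), (1 - 1 / cc (a0 / cos ψ)) = π / 30

/-- IDN (uses HCL, OM, BF). PROOF. By HCL (`h = 1`, `Bf t 1 = 0`) `H .. 1 (a0/cos ψ) =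
Bf t c - κ (a0/cos ψ)²/2 - β(1 - 1/c)`; the first two terms cancel in the integral by the definition
of `kap`; OM. So `J0 = -β π/30 - α π/5`. -/
def T_IDN : Prop := ∀ t : ℝ, 1 ≤ t → t < R → 4 * π * bet t + 24 * π * alp t + 120 * J0 t = 0

end Pool.Agent.SDC
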